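import Pool.Agent.Lib.MP_45faa6_lc.EN.Mats

/-!
The group generated by the four root subgroups: closure and size.
-/

set_option autoImplicit false

namespace Pool.Agent.Lib.MP_45faa6_lc.EN

open Pool.Agent.Lib.MP_45faa6_lc.NL

open Finset

variable {M : ℕ} {F : Type} [Field F]

/-- The generators. -/
def gen (M : ℕ) (j : ℕ) (s : F) : Mat M F := 1 + s • EE M F j

/-- The generated monoid. -/
def GG (M : ℕ) (F : Type) [Field F] : Submonoid (Mat M F) :=
  Submonoid.closure (Set.range fun p : Fin 4 × F => gen M p.1.val p.2)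

theorem EE_mod (j : ℕ) : EE M F (j % 4) = EE M F j := by simp [EE, PatE]

theorem gen_mem (j : ℕ) (s : F) : gen M j s ∈ GG M F :=
  Submonoid.subset_closure ⟨(⟨j % 4, Nat.mod_lt _ (by norm_num)⟩, s), by simp [gen, EE_mod]⟩

theorem ee_left (i : Fin 8) (hi : i.val < 4) (s : F) (u : Mat M F) :
    ee i s u = gen M i.val s * u := by
  simp [ee, opE, hi, gen, Matrix.add_mul]

theorem ee_right (i : Fin 8) (hi : 4 ≤ i.val) (s : F) (u : Mat M F) :
    ee i s u = u * gen M i.val s := by
  simp [ee, opE, not_lt.2 hi, gen, Matrix.mul_add]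

theorem ee_mem (i : Fin 8) (s : F) {u : Mat M F} (hu : u ∈ GG M F) : ee i s u ∈ GG M F := by
  rcases lt_or_ge i.val 4 with h | h
  · rw [ee_left i h]; exact mul_mem (gen_mem _ _) hu
  · rw [ee_right i h]; exact mul_mem hu (gen_mem _ _)

theorem gen_zero (j : ℕ) : gen M j (0 : F) = 1 := by simp [gen]

theorem gen_mul_gen (j : ℕ) (s s' : F) : gen M j s * gen M j s' = gen M j (s + s') := by
  simp only [gen, Matrix.add_mul, Matrix.mul_add, Matrix.one_mul, Matrix.mul_one, Matrix.smul_mul,
    Matrix.mul_smul, EE_mul_EE j j (by omega), smul_zero, add_zero, add_smul]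
  abel

theorem grp_ind {P : Mat M F → Prop} (h1 : P 1)
    (h2 : ∀ j s u, u ∈ GG M F → P u → P (gen M j s * u)) {u : Mat M F} (hu : u ∈ GG M F) :
    P u := by
  unfold GG at hu
  induction hu using Submonoid.closure_induction_left with
  | one => exact h1
  | mul_left x hx y hy ih =>
    obtain ⟨q, rfl⟩ := hx
    exact h2 _ _ _ hy ih

open Classical in
/-- The monoid as a finite set. -/
noncomputable def GS (M : ℕ) (F : Type) [Field F] [Fintype F] : Finset (Mat M F) :=
  univ.filter (· ∈ GG M F)

variable [Fintype F]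

theorem mem_GS (u : Mat M F) : u ∈ GS M F ↔ u ∈ GG M F := by simp [GS]

noncomputable instance : Fintype (GG M F) := Fintype.ofFinite _

theorem card_GG : Fintype.card (GG M F) = #(GS M F) :=
  Fintype.card_of_subtype _ fun u => mem_GS u

theorem GS_pos : 0 < #(GS M F) := card_pos.2 ⟨1, (mem_GS _).2 (one_mem _)⟩

end Pool.Agent.Lib.MP_45faa6_lc.EN
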