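import Pool.Agent.Lib.MP_45faa6_lc.EN.Defs
import Pool.Agent.Lib.MP_45faa6_lc.NL.Csp
import Pool.Agent.Lib.MP_45faa6_lc.NL.PTFin

/-!
The interface between the group and the placement of the formula.
-/

set_option autoImplicit false

namespace Pool.Agent.Lib.MP_45faa6_lc.EN

open Finset Pool.Agent.Lib.MP_45faa6_lc.NL Pool.Agent.Lib.MP_acf5a6_lc
  Pool.Agent.Lib.Common.CookLevin

/-- Registers: `0` crossbar, `1, 2, 3` planes, `4, 5` bundles, `6, 7, 8` forward, `9, 10, 11`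
backward. -/
abbrev Reg : Type := Fin 12

/-- The three clause registers. -/
def cr (r : Fin 3) : Reg := ⟨6 + r.val, by have := r.isLt; omega⟩

/-- One tested equality. -/
def Lnk {Ω ι : Type} (mv : ι → Ω → Ω) (lab : Ω → Reg → ℕ) (p q : Ω × Reg) : Prop :=
  (∃ i, q.1 = mv i p.1) ∧ lab p.1 p.2 = lab q.1 q.2

/-- Every clause sits at a point, and its registers are joined to the homes of its variables. -/
def Emb {Ω ι : Type} (φ : CNF) (mv : ι → Ω → Ω) (lab : Ω → Reg → ℕ) : Prop :=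
  ∃ home : ℕ → Ω × Reg, ∀ c < φ.length, ∃ u, ∀ r : Fin 3, lab u (cr r) = (lit φ c r.val).1 ∧
    Relation.EqvGen (Lnk mv lab) (u, cr r) (home (lit φ c r.val).1)

/-- Joined by moves that keep `f`. -/
def Keep {Ω ι β : Type} (mv : ι → Ω → Ω) (f : Ω → β) : Ω → Ω → Prop :=
  Relation.EqvGen fun u u' => (∃ i, u' = mv i u) ∧ f u' = f u

/-- The host: points `pt y β i ρ` (plane position, fibre, column, row) with coordinates `co`. -/
structure Host {Ω ι : Type} (mv : ι → Ω → Ω) (h a ν : ℕ) (nb : List (List ℕ)) (c0 c1 : List ℕ)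
    (co : Ω → ℕ × ℕ × ℕ × ℕ) (pt : ℕ → ℕ → ℕ → ℕ → Ω) : Prop where
  co_pt : ∀ y < nb.length, ∀ β < ν, ∀ i ≤ h, ∀ ρ < 2 ^ h, co (pt y β i ρ) = (y, β, i, ρ)
  one : ∃ k, ∀ u, mv k u = u
  onto : ∀ p < a, ∀ q < a, ∃ y < nb.length, c0.getD y 0 = p ∧ c1.getD y 0 = q
  line0 : ∀ y < nb.length, ∀ y' < nb.length, c0.getD y 0 = c0.getD y' 0 → ∀ β i ρ,
    Keep mv (fun u => (c0.getD (co u).1 0, (co u).2)) (pt y β i ρ) (pt y' β i ρ)
  line1 : ∀ y < nb.length, ∀ y' < nb.length, c1.getD y 0 = c1.getD y' 0 → ∀ β i ρ,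
    Keep mv (fun u => (c1.getD (co u).1 0, (co u).2)) (pt y β i ρ) (pt y' β i ρ)
  plane : ∀ y < nb.length, ∀ y' < nb.length, ∀ β i ρ,
    Keep mv (fun u => (co u).2) (pt y β i ρ) (pt y' β i ρ)
  fib : ∀ y < nb.length, ∀ β i ρ β' i' ρ',
    Keep mv (fun u => (co u).1) (pt y β i ρ) (pt y β' i' ρ')
  up : ∀ y < nb.length, ∀ y' ∈ nb.getD y [], ∀ β i ρ, ∃ k, mv k (pt y β i ρ) = pt y' β (i + 1) ρ
  bf : ∀ y < nb.length, ∀ β, ∀ i < h, ∀ ρ ρ', (∀ j < h, j ≠ i → ρ.testBit j = ρ'.testBit j) →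
    ∃ k, mv k (pt y β i ρ) = pt y β (i + 1) ρ'
  lt : ∀ y, ∀ y' ∈ nb.getD y [], y' < nb.length
  big : 32 * a ^ 2 ≤ nb.length
  grow : ∀ Z ⊆ range nb.length, 16 * #Z ≤ nb.length →
    8 * #Z ≤ #(Z.biUnion fun y => (nb.getD y []).toFinset)

/-- The list of variables. -/
def vars (φ : CNF) : List ℕ := uniq ((φ.flatMap fun c => c).map fun l => l.1)

/-- The distinct literal triples. -/
def cls (φ : CNF) : List ((ℕ × Bool) × (ℕ × Bool) × ℕ × Bool) :=
  uniq ((urange (ulen φ)).map fun c => (lit φ c 0, lit φ c 1, lit φ c 2))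

/-- The number of blocks of size `b`. -/
def nblk (φ : CNF) (b : ℕ) : ℕ := (vars φ).length / b + 1

theorem vars_length (φ : CNF) : (vars φ).length = nvars φ := by
  rw [nvars, vars, ← List.toFinset_card_of_nodup (uniq_spec _).1]
  congr 1
  ext x
  simp only [List.mem_toFinset, (uniq_spec _).2]

variable {α : Type} [N487b59b3 α]

@[fun_prop] theorem vars_PT {φ : α → CNF} (h : PT φ) : PT fun a => vars (φ a) := by
  unfold vars; fun_prop

@[fun_prop] theorem cls_PT {φ : α → CNF} (h : PT φ) : PT fun a => cls (φ a) := by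
  unfold cls; fun_prop

@[fun_prop] theorem nblk_PT {φ : α → CNF} {b : α → ℕ} (h : PT φ) (hb : PT b) :
    PT fun a => nblk (φ a) (b a) := by
  unfold nblk; fun_prop

end Pool.Agent.Lib.MP_45faa6_lc.EN
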