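import Pool.Agent.Lib.MP_45faa6_lc.EN.Honest
import Pool.Agent.Lib.MP_45faa6_lc.EN.Grp
import Pool.Agent.Lib.MP_45faa6_lc.EN.Host

/-!
The local test at a group element.
-/

set_option autoImplicit false

namespace Pool.Agent.Lib.MP_45faa6_lc.EN

open Pool.Agent.Lib.MP_45faa6_lc.NL

open Finset Pool.Agent.Lib.MP_acf5a6_lc Pool.Agent.Lib.Common.CookLevin

/-- Constraint types. -/
abbrev Ty (ι : Type) : Type := (ι × Reg × Reg) ⊕ (Fin 3 → Bool)

/-- Names of the words in the proof. -/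
abbrev Word (ι : Type) : Type := Reg ⊕ Ty ι × Fin 8

/-- Some clause has these variables and signs. -/
def tC (φ : CNF) (x0 x1 x2 : ℕ) (σ : Fin 3 → Bool) : Bool :=
  memb (cls φ) ((x0, σ 0), (x1, σ 1), (x2, σ 2))

theorem tC_iff (φ : CNF) (x : Fin 3 → ℕ) (σ : Fin 3 → Bool) :
    tC φ (x 0) (x 1) (x 2) σ = true ↔ ∃ c < φ.length, ∀ r : Fin 3, lit φ c r.val = (x r, σ r) := by
  rw [tC, memb_iff, cls, (uniq_spec _).2, List.mem_map]
  simp only [urange, ulen, List.mem_range, Prod.mk.injEq, Fin.forall_fin_succ, IsEmpty.forall_iff,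
    and_true]
  rfl

@[fun_prop] theorem tC_PT {α : Type} [N487b59b3 α] {φ : α → CNF} {x0 x1 x2 : α → ℕ}
    (σ : Fin 3 → Bool) (h : PT φ) (h0 : PT x0) (h1 : PT x1) (h2 : PT x2) :
    PT fun a => tC (φ a) (x0 a) (x1 a) (x2 a) σ := by
  unfold tC; fun_prop

variable {M : ℕ} {F ι : Type} [Field F]

/-- Bits in the field. -/
def bF (F : Type) [Field F] (b : Bool) : F := if b then 1 else 0

/-- Is the constraint of this type present at `u`. -/
def TB (φ : CNF) (γ : ι → Mat M F) (lab : Mat M F → Reg → ℕ) : Ty ι → Mat M F → Bool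
  | .inl p, u => decide (lab u p.2.1 = lab (γ p.1 * u) p.2.2)
  | .inr σ, u => tC φ (lab u (cr 0)) (lab u (cr 1)) (lab u (cr 2)) σ

/-- The constraint polynomial. -/
def pp (γ : ι → Mat M F) : Ty ι → (Reg → Pt M F → F) → Pt M F → F
  | .inl p, A, x => A p.2.1 x - A p.2.2 (γ p.1 * x.1, x.2)
  | .inr σ, A, x => ∏ r : Fin 3, (A (cr r) x - bF F (σ r))

theorem csp_sat {φ : CNF} (hφ : okF φ = true) {g : ι → GG M F} {lab : Mat M F → Reg → ℕ}
    (hE : Emb φ (fun i u => g i * u) fun u r => lab u.1 r) (A : Reg → Pt M F → F)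
    (h : ∀ τ, ∀ u ∈ GG M F, TB φ (fun i => (g i).1) lab τ u = true →
      pp (fun i => (g i).1) τ A (u, 0) = 0) : Sat φ := by
  classical
  have key : ∀ p q : GG M F × Reg,
      Relation.EqvGen (Lnk (fun i u => g i * u) fun u r => lab u.1 r) p q →
      A p.2 (p.1.1, 0) = A q.2 (q.1.1, 0) := by
    intro p q hpq
    induction hpq with
    | rel p q hr =>
      obtain ⟨⟨i, hi⟩, hl⟩ := hr
      have h1 : (q.1.1 : Mat M F) = (g i).1 * p.1.1 := congrArg Subtype.val hi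
      rw [h1]
      refine sub_eq_zero.1 (h (.inl (i, p.2, q.2)) p.1.1 p.1.2 ?_)
      exact decide_eq_true (h1 ▸ hl)
    | refl p => rfl
    | symm p q _ ih => exact ih.symm
    | trans p q r _ _ ih ih' => exact ih.trans ih'
  obtain ⟨home, hh⟩ := hE
  refine ⟨fun v => decide (A (home v).2 ((home v).1.1, 0) = 1), fun L hL => ?_⟩
  obtain ⟨c, hc, rfl⟩ := List.getElem_of_mem hL
  obtain ⟨u, hu⟩ := hh c hc
  have h1 := h (.inr fun r => (lit φ c r.val).2) u.1 u.2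
    ((tC_iff φ (fun r => lab u.1 (cr r)) _).2 ⟨c, hc, fun r => Prod.ext (hu r).1.symm rfl⟩)
  obtain ⟨r, -, hr⟩ := Finset.prod_eq_zero_iff.1 h1
  have h2 := (key _ _ (hu r).2).symm.trans (sub_eq_zero.1 hr)
  refine ⟨lit φ c r.val, List.getD_eq_getElem _ [] hc ▸ csp_lit hφ hc r.val, ?_⟩
  simp only [h2]
  cases (lit φ c r.val).2 <;> simp [bF]

variable [CharP F 2] [Fintype F]

/-- The test at `u`. -/
def Acc (e K : ℕ) (φ : CNF) (γ : ι → Mat M F) (lab : Mat M F → Reg → ℕ)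
    (w : Word ι → Pt M F → F) (u : Mat M F) : Prop :=
  (∀ wd a i, LD (128 * 2 ^ (7 * e)) fun c => w wd (mv e i c (u, a))) ∧
    ∀ τ (a : Fin 8 → F), (∀ i ∉ RJ, a i = 0) →
      hat e K RJ (GS M F) (fun v => bF F (TB φ γ lab τ v)) (u, a) *
        pp γ τ (fun r => w (.inl r)) (u, a) = ∑ j ∈ RJ, a j * w (.inr (τ, j)) (u, a)

theorem acc_pp_flat {e K D : ℕ} (hF : Fintype.card F = 2 ^ (8 * e)) (γ : ι → Mat M F)
    {A : Reg → Pt M F → F} (h : ∀ r, Flat e K RJ D (A r)) (τ : Ty ι) :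
    Flat e K RJ (D + D + D) (pp γ τ A) := by
  rcases τ with ⟨i, r, r'⟩ | σ
  · exact ((h r).sub ((h r').shift hF _)).mono (by omega)
  · have h1 := (((h (cr 0)).sub (Flat.const (bF F (σ 0)))).mul
      ((h (cr 1)).sub (Flat.const (bF F (σ 1))))).mul ((h (cr 2)).sub (Flat.const (bF F (σ 2))))
    have h2 : pp γ (Sum.inr σ : Ty ι) A = fun x => (A (cr 0) x - bF F (σ 0)) *
        (A (cr 1) x - bF F (σ 1)) * (A (cr 2) x - bF F (σ 2)) :=
      funext fun x => Fin.prod_univ_three _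
    rw [h2]
    exact h1

omit [CharP F 2] [Fintype F] in
theorem acc_pp_congr (γ : ι → Mat M F) {A A' : Reg → Pt M F → F} (a : Fin 8 → F)
    (h : ∀ r v, A r (v, a) = A' r (v, a)) (τ : Ty ι) (u : Mat M F) :
    pp γ τ A (u, a) = pp γ τ A' (u, a) := by
  rcases τ with ⟨i, r, r'⟩ | σ
  · simp only [pp, h]
  · simp only [pp, h]

theorem complete {e : ℕ} (hF : Fintype.card F = 2 ^ (8 * e)) (he : 1 ≤ e) {K : ℕ}
    (hK : M ^ 2 * 2 ^ (8 * e) ≤ 2 ^ (e * (8 * K))) {φ : CNF} (hφ : okF φ = true) (hs : Sat φ)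
    {γ : ι → Mat M F} (hγ : ∀ i, γ i ∈ GG M F) (lab : Mat M F → Reg → ℕ) :
    ∃ w, ∀ u, Acc e K φ γ lab w u := by
  classical
  obtain ⟨x, hx⟩ := hs
  let A : Reg → Mat M F → F := fun r u => bF F (x (lab u r))
  have hfl : ∀ T : Mat M F → F,
      Flat e K RJ (22 * 2 ^ (7 * e) * 2 ^ (e * (8 * K))) (hat e K RJ (GS M F) T) := fun T => by
    have h1 := hat_flat hF he hK RJ (GS M F) T
    rwa [card_RJ] at h1
  have hz : ∀ τ : Ty ι, ∃ g : Fin 8 → Pt M F → F,
      (∀ j i y, LD (128 * 2 ^ (7 * e)) fun c => g j (mv e i c y)) ∧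
      ∀ y : Pt M F, (∀ i ∉ RJ, y.2 i = 0) →
        hat e K RJ (GS M F) (fun v => bF F (TB φ γ lab τ v)) y *
          pp γ τ (fun r => hat e K RJ (GS M F) (A r)) y = ∑ j ∈ RJ, y.2 j * g j y := by
    intro τ
    refine zero_test hF he (((hfl _).mul (acc_pp_flat hF γ (fun r => hfl (A r)) τ)).mono
      (le_of_eq (by ring))) fun u => ?_
    rw [hat_zero hF]
    split_ifs with hu
    swap
    · exact zero_mul _
    cases hT : TB φ γ lab τ u
    · rw [bF, if_neg Bool.false_ne_true, zero_mul]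
    refine mul_eq_zero_of_right _ ?_
    rcases τ with ⟨i, r, r'⟩ | σ
    · simp only [TB, decide_eq_true_eq] at hT
      have hv : γ i * u ∈ GS M F := (mem_GS _).2 (mul_mem (hγ i) ((mem_GS _).1 hu))
      simp only [pp, hat_zero hF, if_pos hu, if_pos hv, A, hT, sub_self]
    · obtain ⟨c, hc, hl⟩ := (tC_iff φ (fun r => lab u (cr r)) σ).1 hT
      obtain ⟨r, hr⟩ := lit_sat hφ x hx c hc
      rw [hl r] at hr
      refine Finset.prod_eq_zero (Finset.mem_univ r) ?_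
      simp only [hat_zero hF, if_pos hu, A]
      rw [hr, sub_self]
  choose g hg1 hg2 using hz
  refine ⟨Sum.elim (fun r => hat e K Finset.univ (GS M F) (A r)) fun p => g p.1 p.2,
    fun u => ⟨?_, fun τ a ha => ?_⟩⟩
  · rintro (r | ⟨τ, j⟩) a i
    · exact hat_LD hF he hK _ _ _ i (Finset.mem_univ i) _
    · exact hg1 τ j i _
  · refine Eq.trans ?_ (hg2 τ (u, a) ha)
    exact congrArg _ (acc_pp_congr γ a (fun r v => hat_slice e K RJ _ _ (v, a) ha) τ u)

end Pool.Agent.Lib.MP_45faa6_lc.EN
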