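import Pool.Agent.Lib.MP_45faa6_lc.EN.Enum

/-!
Masks, the block subgroups and the projections (definitions).
-/

set_option autoImplicit false
set_option linter.unusedSectionVars false

namespace Pool.Agent.Lib.MP_45faa6_lc.EN

open Pool.Agent.Lib.MP_45faa6_lc.NL

open Finset Pool.Agent.Lib.MP_acf5a6_lc Pool.Agent.Lib.Common.CookLevin

variable {M : ℕ} {F : Type} [Field F]

/-- The mask of the positions congruent to `j` modulo four. -/
def DD (M : ℕ) (F : Type) [Field F] (j : ℕ) : Mat M F :=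
  Matrix.diagonal fun n => if n.val / 3 % 4 = j % 4 then 1 else 0

/-- The sum of the four matrices. -/
def ET (M : ℕ) (F : Type) [Field F] : Mat M F := EE M F 0 + EE M F 1 + EE M F 2 + EE M F 3

/-- The mask of block `k` for `k < 3`, of the blocks `0` and `1` together for `k = 3`. -/
def eB (M : ℕ) (F : Type) [Field F] (k : ℕ) : Mat M F :=
  Matrix.diagonal fun n => if n.val % 3 = k ∨ (k = 3 ∧ n.val % 3 < 2) then 1 else 0

/-- The mask of the positions of block `l` that are in use. -/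
def eR (M : ℕ) (F : Type) [Field F] (l : ℕ) : Mat M F :=
  Matrix.diagonal fun n => if n.val % 3 = l ∧ n.val / 3 < mm M l then 1 else 0

/-- The generators of the block subgroups. -/
def genE (M : ℕ) (k j : ℕ) (s : F) : Mat M F := 1 + s • (eB M F k * EE M F j)

/-- The block subgroups. -/
def GE (M : ℕ) (F : Type) [Field F] (k : ℕ) : Submonoid (Mat M F) :=
  Submonoid.closure (Set.range fun p : Fin 4 × F => genE M k p.1.val p.2)

/-- The projection to a block subgroup. -/
def pr (k : ℕ) (u : Mat M F) : Mat M F := 1 - eB M F k + eB M F k * u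

theorem mm_le (M l : ℕ) : 3 * mm M l ≤ M := by
  have h1 := Nat.unpair_left_le (M / 24)
  have h2 := Nat.unpair_right_le (M / 24)
  have h3 := Nat.unpair_left_le (M / 24).unpair.2
  have h4 := Nat.unpair_right_le (M / 24).unpair.2
  unfold mm
  split_ifs <;> omega

theorem mm_dvd (M l : ℕ) : 8 ∣ mm M l := Dvd.intro _ rfl

theorem genE_mem' (k j : ℕ) (s : F) : genE M k j s ∈ GE M F k :=
  Submonoid.subset_closure ⟨(⟨j % 4, Nat.mod_lt _ (by norm_num)⟩, s), by simp [genE, EE_mod]⟩

theorem genE_zero (k j : ℕ) : genE M k j (0 : F) = 1 := by simp [genE]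

theorem GE_ind {k : ℕ} {P : Mat M F → Prop} (h1 : P 1)
    (h2 : ∀ (j : Fin 4) s u, u ∈ GE M F k → P u → P (genE M k j.val s * u)) {u : Mat M F}
    (hu : u ∈ GE M F k) : P u := by
  unfold GE at hu
  induction hu using Submonoid.closure_induction_left with
  | one => exact h1
  | mul_left x hx y hy ih =>
    obtain ⟨q, rfl⟩ := hx
    exact h2 _ _ _ hy ih

/-- The mask as a list matrix. -/
def eBL (F : Type) [Field F] (M : Un) (k : ℕ) : LM F :=
  mmk M fun a b => if a = b ∧ (a % 3 = k ∨ (k = 3 ∧ a % 3 < 2)) then 1 else 0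

/-- The mask `DD` as a list matrix. -/
def DDL (F : Type) [Field F] (M : Un) (j : ℕ) : LM F :=
  mmk M fun a b => if a = b ∧ a / 3 % 4 = j % 4 then 1 else 0

/-- A generator as a list matrix. -/
def genEL (M : Un) (k j : ℕ) (s : F) : LM F :=
  addL M (oneL F M) (smulL M s (mulL M (eBL F M k) (EL F M j)))

/-- The projection on list matrices. -/
def prL (M : Un) (k : ℕ) (u : LM F) : LM F :=
  addL M (addL M (oneL F M) (smulL M (-1) (eBL F M k))) (mulL M (eBL F M k) u)

theorem eBL_eq (M : Un) (k : ℕ) : eBL F M k = toL (eB M.n F k) := by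
  rw [eBL, mmk_eq_toL]
  congr 1
  funext a b
  rw [eB, Matrix.diagonal_apply, ite_and]
  exact if_congr Fin.val_inj rfl rfl

theorem DDL_eq (M : Un) (j : ℕ) : DDL F M j = toL (DD M.n F j) := by
  rw [DDL, mmk_eq_toL]
  congr 1
  funext a b
  rw [DD, Matrix.diagonal_apply, ite_and]
  exact if_congr Fin.val_inj rfl rfl

theorem genEL_eq (M : Un) (k j : ℕ) (s : F) : genEL M k j s = toL (genE M.n k j s) := by
  rw [genEL, oneL_eq, eBL_eq, EL_eq, mulL_toL, smulL_toL, addL_toL, genE]

theorem prL_toL (M : Un) (k : ℕ) (u : Mat M.n F) : prL M k (toL u) = toL (pr k u) := by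
  rw [prL, oneL_eq, eBL_eq, mulL_toL, smulL_toL, addL_toL, addL_toL, pr, neg_one_smul,
    sub_eq_add_neg]

variable [Fintype F] [DecidableEq F]

/-- At most `cap + 1` elements of a block subgroup. -/
noncomputable def enumE (F : Type) [Field F] [Fintype F] [DecidableEq F] (M : Un) (k : ℕ)
    (cap : Un) : List (LM F) :=
  enumS M ((univ : Finset (Fin 4 × F)).toList.map fun p => genEL M k p.1.val p.2) cap

theorem enumE_aux (M : Un) (k : ℕ) (cap : Un) : ∃ g : List (Mat M.n F),
    enumE F M k cap = enumS M (g.map toL) cap ∧ GE M.n F k = Submonoid.closure {γ | γ ∈ g} := by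
  refine ⟨(univ : Finset (Fin 4 × F)).toList.map fun p => genE M.n k p.1.val p.2, ?_, ?_⟩
  · simp only [enumE, genEL_eq, List.map_map, Function.comp_def]
  · rw [GE]
    congr 1
    ext γ
    simp only [Set.mem_range, Set.mem_setOf_eq, List.mem_map, mem_toList, mem_univ, true_and]

theorem enumE_spec (M : Un) (k : ℕ) (cap : Un) : ∃ l : List (Mat M.n F),
    enumE F M k cap = l.map toL ∧ l.Nodup ∧ (∀ u ∈ l, u ∈ GE M.n F k) ∧
      l.length = min (cap.n + 1) #(fs (GE M.n F k)) := by
  obtain ⟨g, h1, h2⟩ := enumE_aux (F := F) M k cap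
  rw [h1]
  exact enumS_spec M g cap h2

theorem enumE_full (M : Un) (k : ℕ) (cap : Un) (hc : #(fs (GE M.n F k)) ≤ cap.n + 1) :
    ∃ l : List (Mat M.n F), enumE F M k cap = l.map toL ∧ l.Nodup ∧
      (∀ u, u ∈ l ↔ u ∈ GE M.n F k) ∧ l.length = #(fs (GE M.n F k)) := by
  obtain ⟨g, h1, h2⟩ := enumE_aux (F := F) M k cap
  rw [h1]
  exact enumS_full M g cap h2 hc

variable [N487b59b3 F] {α : Type} [N487b59b3 α]

@[fun_prop] theorem eBL_PT {M : α → Un} (k : ℕ) (hM : PT M) : PT fun x => eBL F (M x) k :=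
  mmk_PT (f := fun _ a b => if a = b ∧ (a % 3 = k ∨ (k = 3 ∧ a % 3 < 2)) then (1 : F) else 0) hM
    (PT.ite' (p := fun x : (α × ℕ) × ℕ => x.1.2 = x.2 ∧ (x.1.2 % 3 = k ∨ (k = 3 ∧ x.1.2 % 3 < 2)))
      ((show PT fun x : (α × ℕ) × ℕ => decide (x.1.2 = x.2) && (decide (x.1.2 % 3 = k) ||
        (decide (k = 3) && decide (x.1.2 % 3 < 2))) by fun_prop).of_eq fun x => by simp)
      (PT.const _) (PT.const _))

@[fun_prop] theorem DDL_PT {M : α → Un} (j : ℕ) (hM : PT M) : PT fun x => DDL F (M x) j :=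
  mmk_PT (f := fun _ a b => if a = b ∧ a / 3 % 4 = j % 4 then (1 : F) else 0) hM
    (PT.ite' (p := fun x : (α × ℕ) × ℕ => x.1.2 = x.2 ∧ x.1.2 / 3 % 4 = j % 4)
      ((show PT fun x : (α × ℕ) × ℕ => decide (x.1.2 = x.2) && decide (x.1.2 / 3 % 4 = j % 4) by
        fun_prop).of_eq fun x => by simp) (PT.const _) (PT.const _))

@[fun_prop] theorem genEL_PT {M : α → Un} (k j : ℕ) (s : F) (hM : PT M) :
    PT fun x => genEL (M x) k j s := by
  unfold genEL; fun_prop

@[fun_prop] theorem prL_PT {M : α → Un} {u : α → LM F} (k : ℕ) (hM : PT M) (hu : PT u) :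
    PT fun x => prL (M x) k (u x) := by
  unfold prL; fun_prop

@[fun_prop] theorem enumE_PT {M cap : α → Un} (k : ℕ) (hM : PT M) (hc : PT cap) :
    PT fun x => enumE F (M x) k (cap x) :=
  enumS_PT hM (PT_listOf _ (fun (p : Fin 4 × F) x => genEL (M x) k p.1.val p.2) fun p => by
    fun_prop) hc

end Pool.Agent.Lib.MP_45faa6_lc.EN
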