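import Pool.Agent.Lib.MP_45faa6_lc.NL.PTFin

/-!
Bipartite matching by an auction.
-/

set_option autoImplicit false

namespace Pool.Agent.Lib.MP_45faa6_lc.EN

open Finset Pool.Agent.Lib.MP_acf5a6_lc Pool.Agent.Lib.Common.CookLevin
open Pool.Agent.Lib.MP_45faa6_lc.NL

/-- The bidders on a vertex, the last one first. -/
def bids (H : List (ℕ × ℕ)) (w : ℕ) : List ℕ := (H.filter fun p => decide (p.1 = w)).map fun p => p.2

/-- The number of bids on a vertex. -/
def price (H : List (ℕ × ℕ)) (w : ℕ) : ℕ := (bids H w).length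

/-- The vertices whose last bidder is `x`. -/
def owned (adj : List (List ℕ)) (H : List (ℕ × ℕ)) (x : ℕ) : List ℕ :=
  (adj.getD x []).filter fun w => decide ((bids H w).headD adj.length = x)

/-- Items that own nothing. -/
def freeI (adj : List (List ℕ)) (H : List (ℕ × ℕ)) : List ℕ :=
  (urange (ulen adj)).filter fun x => (owned adj H x).isEmpty

/-- A cheapest neighbour. -/
def cheap (adj : List (List ℕ)) (H : List (ℕ × ℕ)) (x : ℕ) : ℕ :=
  ((adj.getD x []).filter fun w => (adj.getD x []).all fun w' =>
    decide (price H w ≤ price H w')).headD 0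

/-- One bid. -/
def aStep (adj : List (List ℕ)) (H : List (ℕ × ℕ)) : List (ℕ × ℕ) :=
  cond (freeI adj H).isEmpty H
    ((cheap adj H ((freeI adj H).headD 0), (freeI adj H).headD 0) :: H)

/-- The number of rounds. -/
def aLen (adj : List (List ℕ)) : Un :=
  ((ulen (adj.flatMap fun l => l)).mul (ulen (adj.flatMap fun l => l))).add ⟨1⟩

/-- All bids. -/
def aRun (adj : List (List ℕ)) : List (ℕ × ℕ) := (aStep adj)^[(aLen adj).n] []

/-- The matching. -/
def mate (adj : List (List ℕ)) : List ℕ :=
  (urange (ulen adj)).map fun x => (owned adj (aRun adj) x).headD 0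

/-- The condition of the marriage theorem. -/
def HallC (adj : List (List ℕ)) : Prop :=
  ∀ S : Finset ℕ, S ⊆ range adj.length → #S ≤ #(S.biUnion fun x => (adj.getD x []).toFinset)

variable {adj : List (List ℕ)} {H : List (ℕ × ℕ)}

theorem auc_bids (w x v : ℕ) : bids ((w, x) :: H) v = if w = v then x :: bids H v else bids H v := by
  unfold bids
  split_ifs with h <;> simp [h]

theorem auc_head {l : List ℕ} (h : l ≠ []) (d : ℕ) : l.headD d ∈ l := by
  cases l with
  | nil => exact absurd rfl h
  | cons a l => simp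

theorem auc_cheap {x : ℕ} (h : adj.getD x [] ≠ []) : cheap adj H x ∈ adj.getD x [] ∧
    ∀ w ∈ adj.getD x [], price H (cheap adj H x) ≤ price H w := by
  obtain ⟨w, hw, hm⟩ := exists_min_image (adj.getD x []).toFinset (price H)
    (List.toFinset_nonempty_iff _ |>.2 h)
  have h1 := auc_head (l := (adj.getD x []).filter fun w => (adj.getD x []).all fun w' =>
    decide (price H w ≤ price H w')) (List.ne_nil_of_mem (List.mem_filter.2
      ⟨List.mem_toFinset.1 hw, by simpa using hm⟩)) 0
  obtain ⟨h2, h3⟩ := List.mem_filter.1 h1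
  exact ⟨h2, by simpa [cheap] using h3⟩

/-- The invariant. -/
structure AInv (adj : List (List ℕ)) (H : List (ℕ × ℕ)) : Prop where
  own : ∀ w, 0 < price H w → (bids H w).headD adj.length < adj.length ∧
    w ∈ adj.getD ((bids H w).headD adj.length) [] ∧
    ∀ w' ∈ adj.getD ((bids H w).headD adj.length) [], price H w ≤ price H w' + 1
  inj : ∀ w w', 0 < price H w → 0 < price H w' →
    (bids H w).headD adj.length = (bids H w').headD adj.length → w = w'
  le : ∀ w, price H w ≤ #(adj.flatMap fun l => l).toFinset
  mem : ∀ p ∈ H, p.1 ∈ adj.flatMap fun l => l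

theorem auc_sub {x w : ℕ} (h : w ∈ adj.getD x []) : w ∈ adj.flatMap fun l => l := by
  rw [List.getD_eq_getElem?_getD] at h
  cases e : adj[x]? with
  | none => simp [e] at h
  | some l => exact List.mem_flatMap.2 ⟨l, List.mem_of_getElem? e, by simpa [e] using h⟩

theorem auc_free (hf : freeI adj H ≠ []) : (freeI adj H).headD 0 < adj.length ∧
    ∀ w ∈ adj.getD ((freeI adj H).headD 0) [],
      (bids H w).headD adj.length ≠ (freeI adj H).headD 0 := by
  obtain ⟨h1, h2⟩ := List.mem_filter.1 (auc_head hf 0)
  refine ⟨List.mem_range.1 h1, fun w hw e => ?_⟩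
  rw [List.isEmpty_iff, owned, List.filter_eq_nil_iff] at h2
  exact h2 w hw (decide_eq_true e)

theorem auc_low (hH : HallC adj) (hI : AInv adj H) {x lam : ℕ} (hx : x < adj.length)
    (hf : ∀ w ∈ adj.getD x [], (bids H w).headD adj.length ≠ x)
    (hl : ∀ w ∈ adj.getD x [], lam ≤ price H w) :
    lam + 1 ≤ #(adj.flatMap fun l => l).toFinset := by
  set R := (adj.flatMap fun l => l).toFinset
  have key : ∀ j ≤ lam, #{w ∈ R | j + 1 ≤ price H w} + 1 ≤ #{w ∈ R | j ≤ price H w} := by
    intro j hj
    have h1 : x ∉ ({w ∈ R | j + 1 ≤ price H w} : Finset ℕ).image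
        fun w => (bids H w).headD adj.length := fun h => by
      obtain ⟨w, hw, e⟩ := mem_image.1 h
      have := (hI.own w (by have := (mem_filter.1 hw).2; omega)).2.1
      exact hf w (e ▸ this) e
    have h2 := hH (insert x (({w ∈ R | j + 1 ≤ price H w} : Finset ℕ).image
        fun w => (bids H w).headD adj.length)) fun y hy => by
      rcases mem_insert.1 hy with rfl | hy
      · exact mem_range.2 hx
      · obtain ⟨w, hw, rfl⟩ := mem_image.1 hy
        exact mem_range.2 (hI.own w (by have := (mem_filter.1 hw).2; omega)).1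
    rw [card_insert_of_notMem h1, card_image_of_injOn fun w hw w' hw' e =>
      hI.inj w w' (by have := (mem_filter.1 hw).2; omega) (by have := (mem_filter.1 hw').2; omega)
        e] at h2
    refine h2.trans (card_le_card fun w hw => ?_)
    obtain ⟨y, hy, hw0⟩ := mem_biUnion.1 hw
    have hw := List.mem_toFinset.1 hw0
    refine mem_filter.2 ⟨List.mem_toFinset.2 (auc_sub hw), ?_⟩
    rcases mem_insert.1 hy with rfl | hy
    · exact hj.trans (hl w (List.mem_toFinset.1 hw0))
    · obtain ⟨v, hv, rfl⟩ := mem_image.1 hy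
      have h3 := (mem_filter.1 hv).2
      have := (hI.own v (by omega)).2.2 w hw
      omega
  have h : ∀ j ≤ lam + 1, #{w ∈ R | j ≤ price H w} + j ≤ #R := by
    intro j
    induction j with
    | zero => exact fun _ => (Nat.add_zero _).le.trans (card_filter_le _ _)
    | succ j ih =>
      intro hj
      have := key j (by omega)
      have := ih (by omega)
      omega
  have := h _ le_rfl
  omega

theorem auc_step (hH : HallC adj) (hI : AInv adj H) : AInv adj (aStep adj H) := by
  unfold aStep
  cases hf : (freeI adj H).isEmpty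
  swap
  · exact hI
  have hf' : freeI adj H ≠ [] := fun e => by simp [e] at hf
  obtain ⟨hx, hfr⟩ := auc_free hf'
  generalize (freeI adj H).headD 0 = x at hx hfr
  have hne : adj.getD x [] ≠ [] := fun e => by
    have := hH {x} (by simpa using hx)
    simp [-List.getD_eq_getElem?_getD, e] at this
  obtain ⟨c1, c2⟩ := auc_cheap (H := H) hne
  have c3 := auc_low hH hI hx hfr c2
  generalize cheap adj H x = c at c1 c2 c3
  have hp : ∀ v, price ((c, x) :: H) v = if c = v then price H v + 1 else price H v := fun v => by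
    unfold price
    rw [auc_bids]
    split_ifs <;> simp
  have hq : ∀ v, price H v ≤ price ((c, x) :: H) v := fun v => by
    rw [hp]
    split_ifs <;> omega
  rw [cond_false]
  refine ⟨fun w hw => ?_, fun w w' hw hw' e => ?_, fun w => ?_, fun p hp => ?_⟩
  · by_cases e : c = w
    · subst e
      rw [auc_bids, if_pos rfl, List.headD_cons, hp c, if_pos rfl]
      exact ⟨hx, c1, fun w' hw' => Nat.succ_le_succ ((c2 w' hw').trans (hq w'))⟩
    · rw [hp, if_neg e] at hw
      rw [auc_bids, if_neg e, hp w, if_neg e]
      obtain ⟨o1, o2, o3⟩ := hI.own w hw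
      exact ⟨o1, o2, fun w' hw' => (o3 w' hw').trans (Nat.succ_le_succ (hq w'))⟩
  · rw [hp] at hw hw'
    rw [auc_bids, auc_bids] at e
    by_cases e1 : c = w <;> by_cases e2 : c = w'
    · exact e1.symm.trans e2
    · rw [if_pos e1, if_neg e2, List.headD_cons] at e
      rw [if_neg e2] at hw'
      exact absurd e.symm (hfr w' (e ▸ (hI.own w' hw').2.1))
    · rw [if_neg e1, if_pos e2, List.headD_cons] at e
      rw [if_neg e1] at hw
      exact absurd e (hfr w (e ▸ (hI.own w hw).2.1))
    · rw [if_neg e1, if_neg e2] at e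
      rw [if_neg e1] at hw
      rw [if_neg e2] at hw'
      exact hI.inj w w' hw hw' e
  · rw [hp]
    split_ifs with e
    · exact e ▸ c3
    · exact hI.le w
  · rcases List.mem_cons.1 hp with rfl | hp
    · exact auc_sub c1
    · exact hI.mem p hp

theorem auc_len (R : Finset ℕ) (h : ∀ p ∈ H, p.1 ∈ R) : H.length = ∑ w ∈ R, price H w := by
  induction H with
  | nil => simp [price, bids]
  | cons p H ih =>
    obtain ⟨c, x⟩ := p
    have hp : ∀ v, price ((c, x) :: H) v = price H v + if c = v then 1 else 0 := fun v => by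
      unfold price
      rw [auc_bids]
      split_ifs <;> simp
    simp only [hp, sum_add_distrib, sum_ite_eq, List.length_cons]
    rw [if_pos (h _ List.mem_cons_self), ih fun p hp => h p (List.mem_cons_of_mem _ hp)]

theorem auc_run (hH : HallC adj) (i : ℕ) : AInv adj ((aStep adj)^[i] []) ∧
    (freeI adj ((aStep adj)^[i] []) = [] ∨ ((aStep adj)^[i] []).length = i) := by
  induction i with
  | zero =>
    exact ⟨⟨fun w h => absurd h (lt_irrefl 0), fun w _ h => absurd h (lt_irrefl 0),
      fun _ => Nat.zero_le _, fun _ h => absurd h List.not_mem_nil⟩, Or.inr rfl⟩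
  | succ i ih =>
    rw [Function.iterate_succ_apply']
    refine ⟨auc_step hH ih.1, ?_⟩
    generalize (aStep adj)^[i] [] = K at ih
    unfold aStep
    cases hf : (freeI adj K).isEmpty
    · rcases ih.2 with h | h
      · simp [h] at hf
      · exact Or.inr (by simp [h])
    · exact Or.inl (List.isEmpty_iff.1 hf)

theorem mate_length (adj : List (List ℕ)) : (mate adj).length = adj.length := by
  simp [mate, urange, ulen]

/-- Under the marriage condition `mate` is a matching of all items. -/
theorem mate_spec (hH : HallC adj) :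
    (∀ x < adj.length, (mate adj).getD x 0 ∈ adj.getD x []) ∧
      ∀ x < adj.length, ∀ y < adj.length, (mate adj).getD x 0 = (mate adj).getD y 0 → x = y := by
  obtain ⟨hI, hf⟩ := auc_run hH (aLen adj).n
  have hg : ∀ x < adj.length, (mate adj).getD x 0 =
      (owned adj ((aStep adj)^[(aLen adj).n] []) x).headD 0 := fun x hx => by
    simp [mate, aRun, urange, ulen, hx]
  generalize hK : (aStep adj)^[(aLen adj).n] [] = K at hI hf hg
  have h0 : freeI adj K = [] := hf.resolve_right fun e => by
    have h1 := auc_len (adj.flatMap fun l => l).toFinset fun p hp =>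
      List.mem_toFinset.2 (hI.mem p hp)
    have h2 := sum_le_card_nsmul (adj.flatMap fun l => l).toFinset (fun w => price K w) _
      fun w _ => hI.le w
    have h3 := List.toFinset_card_le (adj.flatMap fun l => l)
    have h4 := Nat.mul_le_mul h3 h3
    simp only [aLen, Un.add, Un.mul, ulen, smul_eq_mul] at e h2
    omega
  have h1 : ∀ x < adj.length, (mate adj).getD x 0 ∈ owned adj K x := fun x hx => by
    rw [hg x hx]
    refine auc_head (fun e => ?_) 0
    exact List.filter_eq_nil_iff.1 h0 x (List.mem_range.2 hx) (by simp [e])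
  refine ⟨fun x hx => (List.mem_filter.1 (h1 x hx)).1, fun x hx y hy e => ?_⟩
  have h2 := of_decide_eq_true (List.mem_filter.1 (h1 x hx)).2
  have h3 := of_decide_eq_true (List.mem_filter.1 (h1 y hy)).2
  rw [← h2, e, h3]

variable {α : Type} [N487b59b3 α]

@[fun_prop] theorem bids_PT {H : α → List (ℕ × ℕ)} {w : α → ℕ} (h : PT H) (hw : PT w) :
    PT fun a => bids (H a) (w a) := by
  unfold bids; fun_prop

@[fun_prop] theorem price_PT {H : α → List (ℕ × ℕ)} {w : α → ℕ} (h : PT H) (hw : PT w) :
    PT fun a => price (H a) (w a) := by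
  unfold price; fun_prop

@[fun_prop] theorem owned_PT {adj : α → List (List ℕ)} {H : α → List (ℕ × ℕ)} {w : α → ℕ}
    (ha : PT adj) (h : PT H) (hw : PT w) : PT fun a => owned (adj a) (H a) (w a) := by
  unfold owned; fun_prop

@[fun_prop] theorem freeI_PT {adj : α → List (List ℕ)} {H : α → List (ℕ × ℕ)}
    (ha : PT adj) (h : PT H) : PT fun a => freeI (adj a) (H a) := by
  unfold freeI; fun_prop

@[fun_prop] theorem cheap_PT {adj : α → List (List ℕ)} {H : α → List (ℕ × ℕ)} {w : α → ℕ}
    (ha : PT adj) (h : PT H) (hw : PT w) : PT fun a => cheap (adj a) (H a) (w a) := by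
  unfold cheap; fun_prop

theorem auc_sz_head {l : List ℕ} {c : ℕ} (h : ∀ x ∈ l, sz x ≤ c) : sz (l.headD 0) ≤ c := by
  cases l with
  | nil => exact Nat.zero_le _
  | cons a l => exact h a List.mem_cons_self

theorem auc_sz (adj : List (List ℕ)) (H : List (ℕ × ℕ)) :
    sz (aStep adj H) ≤ sz H + (6 * sz adj + 3) := by
  unfold aStep
  cases (freeI adj H).isEmpty
  swap
  · exact Nat.le_add_right _ _
  have h1 : sz ((freeI adj H).headD 0) ≤ sz adj := auc_sz_head fun x hx =>
    (sz_nat_le x).trans ((List.mem_range.1 (List.mem_of_mem_filter hx)).le.trans (length_le_sz _))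
  have h2 : sz (cheap adj H ((freeI adj H).headD 0)) ≤ sz adj := auc_sz_head fun x hx => by
    obtain ⟨l, hl, hx⟩ := List.mem_flatMap.1 (auc_sub (List.mem_of_mem_filter hx))
    exact (sz_le_of_mem hx).trans (sz_le_of_mem hl)
  rw [cond_false, sz_cons, sz_pair]
  omega

@[fun_prop] theorem aRun_PT {adj : α → List (List ℕ)} (ha : PT adj) : PT fun a => aRun (adj a) :=
  (PT.iterA (g := fun a => aStep (adj a)) (h := fun _ => []) (c := fun a => aLen (adj a))
    (by unfold aStep; fun_prop) (PT.const _) (by unfold aLen; fun_prop)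
    (((PB.const 6).mul (PB.of_PT ha)).add (PB.const 3)) fun a b => auc_sz _ _).of_eq
    fun a => by rw [sz_un, aRun]

@[fun_prop] theorem mate_PT {adj : α → List (List ℕ)} (ha : PT adj) : PT fun a => mate (adj a) := by
  unfold mate; fun_prop

end Pool.Agent.Lib.MP_45faa6_lc.EN
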