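import Pool.Agent.Lib.MP_45faa6_lc.EN.Host

/-!
Small tools for the placement.
-/

set_option autoImplicit false

namespace Pool.Agent.Lib.MP_45faa6_lc.EN

open Finset Pool.Agent.Lib.MP_45faa6_lc.NL Pool.Agent.Lib.MP_acf5a6_lc
  Pool.Agent.Lib.Common.CookLevin

/-- The power `k ^ i` for `i ≤ h`. -/
def pw (k : ℕ) (h : Un) (i : ℕ) : ℕ := ((rng h i).map fun _ => k).prod

theorem pw_eq (k : ℕ) {h : Un} {i : ℕ} (hi : i ≤ h.n) : pw k h i = k ^ i := by
  simp [pw, rng_eq hi]

/-- Low digits of `x`, high digits of `w`. -/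
def mix (p x w : ℕ) : ℕ := x % p + p * (w / p)

variable {α : Type} [N487b59b3 α]

@[fun_prop] theorem natMod_PT {f g : α → ℕ} (hf : PT f) (hg : PT g) : PT fun a => f a % g a :=
  PT.of_eq (f := fun a => f a - g a * (f a / g a)) (by fun_prop) fun a => (Nat.mod_def _ _).symm

@[fun_prop] theorem rng_PT {h : α → Un} {i : α → ℕ} (hh : PT h) (hi : PT i) :
    PT fun a => rng (h a) (i a) := by
  unfold rng; fun_prop

@[fun_prop] theorem pw_PT {k i : α → ℕ} {h : α → Un} (hk : PT k) (hh : PT h) (hi : PT i) :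
    PT fun a => pw (k a) (h a) (i a) := by
  unfold pw; fun_prop

@[fun_prop] theorem mix_PT {p x w : α → ℕ} (hp : PT p) (hx : PT x) (hw : PT w) :
    PT fun a => mix (p a) (x a) (w a) := by
  unfold mix; fun_prop

end Pool.Agent.Lib.MP_45faa6_lc.EN
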