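import Pool.Agent.Lib.MP_45faa6_lc.EN.CBase
import Pool.Agent.Lib.MP_45faa6_lc.EN.CAuc

/-!
Routing in two butterflies.
-/

set_option autoImplicit false

namespace Pool.Agent.Lib.MP_45faa6_lc.EN

open Finset Pool.Agent.Lib.MP_45faa6_lc.NL Pool.Agent.Lib.MP_acf5a6_lc
  Pool.Agent.Lib.Common.CookLevin

theorem mix_one (x w : ℕ) : mix 1 x w = w := by
  simp [mix, Nat.mod_one]

theorem mix_top {h w : ℕ} (x : ℕ) (hx : x < 2 ^ h) (hw : w < 2 ^ h) : mix (2 ^ h) x w = x := by
  simp [mix, Nat.mod_eq_of_lt hx, Nat.div_eq_of_lt hw]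

theorem mix_lt {h i w : ℕ} (x : ℕ) (hi : i ≤ h) (hw : w < 2 ^ h) : mix (2 ^ i) x w < 2 ^ h := by
  obtain ⟨k, rfl⟩ := Nat.exists_eq_add_of_le hi
  rw [pow_add] at hw ⊢
  have h1 := Nat.mod_lt x (Nat.two_pow_pos i)
  have h2 := Nat.mul_le_mul_left (2 ^ i) (Nat.succ_le_of_lt (Nat.div_lt_of_lt_mul hw))
  rw [Nat.mul_succ] at h2
  unfold mix
  omega

theorem ben_bit (i j x w : ℕ) :
    (mix (2 ^ i) x w).testBit j = if j < i then x.testBit j else w.testBit j := by
  rw [mix, add_comm, Nat.testBit_two_pow_mul_add _ (Nat.mod_lt x (Nat.two_pow_pos i))]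
  split_ifs with h
  · simp [Nat.testBit_mod_two_pow, h]
  · rw [Nat.testBit_div_two_pow, Nat.sub_add_cancel (not_lt.1 h)]

theorem mix_bit (i j x w : ℕ) (hj : j ≠ i) :
    (mix (2 ^ i) x w).testBit j = (mix (2 ^ (i + 1)) x w).testBit j := by
  rw [ben_bit, ben_bit]
  exact if_congr (by omega) rfl rfl

theorem ben_perm {X : Type} [Fintype X] [LinearOrder X] (l r : Equiv.Perm X) (hl : l * l = 1)
    (hr : r * r = 1) (fl : ∀ x, l x ≠ x) (fr : ∀ x, r x ≠ x) (C : X → Prop)
    (hC : ∀ x, C x ↔ ∃ a, (r * l).SameCycle x a ∧ ∀ b, (r * l).SameCycle (l x) b → a < b)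
    (x : X) : (C (l x) ↔ ¬ C x) ∧ (C (r x) ↔ ¬ C x) := by
  classical
  have ll : ∀ x, l (l x) = x := fun x => congrArg (fun f : Equiv.Perm X => f x) hl
  have rr : ∀ x, r (r x) = x := fun x => congrArg (fun f : Equiv.Perm X => f x) hr
  have h1 : l * (r * l) * l⁻¹ = (r * l)⁻¹ := by
    rw [mul_inv_rev, inv_eq_of_mul_eq_one_right hl, inv_eq_of_mul_eq_one_right hr, mul_assoc,
      mul_assoc, hl, mul_one]
  have h2 : ∀ (j : ℤ) (y : X), l (((r * l) ^ j) y) = ((r * l) ^ (-j)) (l y) := fun j y => by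
    rw [← inv_zpow', ← h1, conj_zpow]
    simp
  have h3 : ¬ (r * l).SameCycle x (l x) := by
    rintro ⟨k, hk⟩
    obtain ⟨j, rfl | rfl⟩ := Int.even_or_odd' k
    · refine fl (((r * l) ^ j) x) ?_
      rw [h2, ← hk, ← Equiv.Perm.mul_apply, ← zpow_add]
      congr 2
      ring
    · refine fr (l (((r * l) ^ j) x)) ?_
      rw [← Equiv.Perm.mul_apply, ← Equiv.Perm.mul_apply, ← zpow_one_add, h2, ← hk,
        ← Equiv.Perm.mul_apply, ← zpow_add]
      congr 2
      ring
  have h4 : C (l x) ↔ ¬ C x := by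
    rw [hC, hC, ll]
    refine ⟨fun ⟨a, a1, a2⟩ ⟨b, b1, b2⟩ => lt_asymm (a2 b b1) (b2 a a1), fun k => ?_⟩
    obtain ⟨a, a1, a2⟩ := exists_min_image (univ.filter fun a => (r * l).SameCycle x a) id
      ⟨x, mem_filter.2 ⟨mem_univ _, .refl _ _⟩⟩
    push Not at k
    obtain ⟨b, b1, b2⟩ := k a (mem_filter.1 a1).2
    exact ⟨b, b1, fun c hc => lt_of_le_of_ne (b2.trans (a2 c (mem_filter.2 ⟨mem_univ _, hc⟩)))
      fun e => h3 (hc.trans (e ▸ b1.symm))⟩
  refine ⟨h4, Iff.trans ?_ h4⟩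
  have h5 : (r * l).SameCycle (l x) (r x) := ⟨1, by simp [ll]⟩
  have h6 : (r * l).SameCycle (l (r x)) x := ⟨1, by simp [ll, rr]⟩
  rw [hC, hC, ll]
  exact exists_congr fun a => and_congr ⟨h5.trans, h5.symm.trans⟩
    (forall_congr' fun b => imp_congr_left ⟨h6.symm.trans, h6.trans⟩)

theorem ben_nat {N : ℕ} {L R : ℕ → ℕ} (hL : ∀ x < N, L x < N ∧ L (L x) = x ∧ L x ≠ x)
    (hR : ∀ x < N, R x < N ∧ R (R x) = x ∧ R x ≠ x) (C : ℕ → Prop)
    (hC : ∀ x < N, C x ↔ ∃ k ≤ N + 1, ∀ k' ≤ N + 1,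
      (fun y => R (L y) % (N + 1))^[k] x < (fun y => R (L y) % (N + 1))^[k'] (L x))
    {x : ℕ} (hx : x < N) : (C (L x) ↔ ¬ C x) ∧ (C (R x) ↔ ¬ C x) := by
  classical
  let l : Equiv.Perm (Fin N) := Function.Involutive.toPerm (fun y => ⟨L y, (hL y y.2).1⟩)
    fun y => Fin.ext (hL y y.2).2.1
  let r : Equiv.Perm (Fin N) := Function.Involutive.toPerm (fun y => ⟨R y, (hR y y.2).1⟩)
    fun y => Fin.ext (hR y y.2).2.1
  have h1 : ∀ k (y : Fin N), (fun y => R (L y) % (N + 1))^[k] y = (((r * l) ^ k) y).val := by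
    intro k
    induction k with
    | zero => exact fun y => rfl
    | succ k ih =>
      intro y
      rw [Function.iterate_succ_apply, pow_succ, Equiv.Perm.mul_apply, ← ih]
      congr 1
      exact Nat.mod_eq_of_lt (Nat.lt_succ_of_lt ((r * l) y).2)
  have h2 : ∀ y z : Fin N, (r * l).SameCycle y z ↔ ∃ k ≤ N + 1, ((r * l) ^ k) y = z := fun y z =>
    ⟨fun k => by
      obtain ⟨i, -, i1, i2⟩ := k.exists_pow_eq
      exact ⟨i, i1.trans (Nat.succ_le_succ ((card_le_univ _).trans (Fintype.card_fin N).le)), i2⟩,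
      fun ⟨k, _, e⟩ => ⟨k, by rw [zpow_natCast, e]⟩⟩
  exact ben_perm l r (Equiv.ext fun y => Fin.ext (hL y y.2).2.1)
    (Equiv.ext fun y => Fin.ext (hR y y.2).2.1) (fun y e => (hL y y.2).2.2 (congrArg Fin.val e))
    (fun y e => (hR y y.2).2.2 (congrArg Fin.val e)) (fun y => C y.val) (fun y => by
      rw [hC y y.2]
      simp only [h1, show L y = (l y).val from rfl, h2]
      constructor
      · rintro ⟨k, k1, k2⟩
        refine ⟨_, ⟨k, k1, rfl⟩, ?_⟩
        rintro b ⟨k', k3, rfl⟩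
        exact k2 k' k3
      · rintro ⟨a, ⟨k, k1, rfl⟩, k2⟩
        exact ⟨k, k1, fun k' k3 => k2 _ ⟨k', k3, rfl⟩⟩) ⟨x, hx⟩

/-- The partner on two copies of the positions. -/
def bpar (A : List ℕ) (x : ℕ) : ℕ :=
  (((urange (ulen A)).filter fun s =>
    !decide (s = x / 2) && decide (A.getD s 0 = A.getD (x / 2) 0)).map
      fun s => 2 * s + x % 2).headD (2 * (x / 2) + (1 - x % 2))

/-- One more point of an orbit. -/
def bnext (A B l : List ℕ) : List ℕ := (bpar B (bpar A (l.headD 0)) % (2 * A.length + 1)) :: l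

/-- The orbit under the product of the two partner maps. -/
def borb (A B : List ℕ) (x : ℕ) : List ℕ := (bnext A B)^[2 * A.length + 1] [x]

/-- The orbit of the partner has the smaller minimum. -/
def bmin (A B : List ℕ) (x : ℕ) : Bool :=
  (borb A B x).all fun a => !(borb A B (bpar A x)).all fun b => decide (a < b)

/-- The colour of a position. -/
def bcol (A B : List ℕ) (t : ℕ) : ℕ := cond (bmin A B (2 * t)) 0 1

/-- No value occurs three times. -/
def Twice (A : List ℕ) : Prop := ∀ s < A.length, ∀ t < A.length, ∀ u < A.length,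
  A.getD s 0 = A.getD t 0 → A.getD t 0 = A.getD u 0 → s = t ∨ t = u ∨ s = u

theorem bpar_of {A : List ℕ} (h : Twice A) {x s : ℕ} (hx : x < 2 * A.length) (hs : s < A.length)
    (h1 : s ≠ x / 2) (h2 : A.getD s 0 = A.getD (x / 2) 0) : bpar A x = 2 * s + x % 2 := by
  have h3 := auc_head (l := ((urange (ulen A)).filter fun s =>
    !decide (s = x / 2) && decide (A.getD s 0 = A.getD (x / 2) 0)).map fun s => 2 * s + x % 2)
    (List.ne_nil_of_mem (List.mem_map_of_mem (List.mem_filter.2 ⟨List.mem_range.2 hs, by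
      rw [decide_eq_false h1, decide_eq_true h2]; rfl⟩))) (2 * (x / 2) + (1 - x % 2))
  obtain ⟨u, hu, e⟩ := List.mem_map.1 h3
  obtain ⟨u1, u2⟩ := List.mem_filter.1 hu
  simp only [Bool.and_eq_true, Bool.not_eq_true', decide_eq_false_iff_not, decide_eq_true_eq] at u2
  have := h s hs (x / 2) (by omega) u (List.mem_range.1 u1) h2 u2.2.symm
  rw [bpar, ← e]
  omega

theorem bpar_not {A : List ℕ} {x : ℕ}
    (h : ∀ s < A.length, s ≠ x / 2 → A.getD s 0 ≠ A.getD (x / 2) 0) :
    bpar A x = 2 * (x / 2) + (1 - x % 2) := by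
  rw [bpar, List.filter_eq_nil_iff.2 fun s hs => by
    simpa [-List.getD_eq_getElem?_getD] using h s (List.mem_range.1 hs)]
  rfl

theorem bpar_inv {A : List ℕ} (h : Twice A) (x : ℕ) (hx : x < 2 * A.length) :
    bpar A x < 2 * A.length ∧ bpar A (bpar A x) = x ∧ bpar A x ≠ x := by
  by_cases k : ∀ s < A.length, s ≠ x / 2 → A.getD s 0 ≠ A.getD (x / 2) 0
  · have e : (2 * (x / 2) + (1 - x % 2)) / 2 = x / 2 := by omega
    rw [bpar_not k, bpar_not (by rwa [e])]
    omega
  · push Not at k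
    obtain ⟨s, s1, s2, s3⟩ := k
    have e : (2 * s + x % 2) / 2 = s := by omega
    rw [bpar_of h hx s1 s2 s3, bpar_of h (s := x / 2) (by omega) (by omega) (by omega)
      (by rw [e, s3])]
    omega

theorem mem_borb (A B : List ℕ) (x n : ℕ) :
    ((bnext A B)^[n] [x]).headD 0 =
        (fun y => bpar B (bpar A y) % (2 * A.length + 1))^[n] x ∧
      ∀ y, y ∈ (bnext A B)^[n] [x] ↔
        ∃ k ≤ n, (fun y => bpar B (bpar A y) % (2 * A.length + 1))^[k] x = y := by
  induction n with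
  | zero => simp [eq_comm]
  | succ n ih =>
    rw [Function.iterate_succ_apply', Function.iterate_succ_apply', bnext, ih.1]
    refine ⟨rfl, fun y => ?_⟩
    rw [List.mem_cons, ih.2]
    constructor
    · rintro (rfl | ⟨k, k1, k2⟩)
      · exact ⟨n + 1, le_rfl, Function.iterate_succ_apply' _ _ _⟩
      · exact ⟨k, by omega, k2⟩
    · rintro ⟨k, k1, rfl⟩
      rcases k1.eq_or_lt with rfl | k2
      · exact Or.inl (Function.iterate_succ_apply' _ _ _)
      · exact Or.inr ⟨k, by omega, rfl⟩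

theorem bcol_le (A B : List ℕ) (t : ℕ) : bcol A B t ≤ 1 := by
  unfold bcol
  cases bmin A B (2 * t) <;> simp

theorem bcol_spec {A B : List ℕ} (hA : Twice A) (hB : Twice B) (hl : A.length = B.length)
    {s t : ℕ} (hs : s < A.length) (ht : t < A.length)
    (h : A.getD s 0 = A.getD t 0 ∨ B.getD s 0 = B.getD t 0) (e : bcol A B s = bcol A B t) :
    s = t := by
  by_contra k
  have h1 := ben_nat (bpar_inv hA) (hl ▸ bpar_inv hB) (fun x => bmin A B x = false)
    (fun x _ => by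
      rw [bmin, List.all_eq_false]
      simp only [Bool.not_eq_true', Bool.not_eq_false, List.all_eq_true,
        decide_eq_true_eq, borb, (mem_borb A B _ _).2]
      constructor
      · rintro ⟨a, ⟨k, k1, rfl⟩, k2⟩
        exact ⟨k, k1, fun k' k3 => k2 _ ⟨k', k3, rfl⟩⟩
      · rintro ⟨k, k1, k2⟩
        refine ⟨_, ⟨k, k1, rfl⟩, ?_⟩
        rintro b ⟨k', k3, rfl⟩
        exact k2 k' k3) (x := 2 * t) (by omega)
  have e1 : 2 * t / 2 = t := by omega
  have h2 : bpar A (2 * t) = 2 * s ∨ bpar B (2 * t) = 2 * s := h.imp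
    (fun c => by rw [bpar_of hA (by omega) hs (by omega) (by rwa [e1])]; omega)
    fun c => by rw [bpar_of hB (by omega) (hl ▸ hs) (by omega) (by rwa [e1])]; omega
  have h3 : bmin A B (2 * s) = false ↔ ¬ bmin A B (2 * t) = false :=
    h2.elim (fun c => c ▸ h1.1) fun c => c ▸ h1.2
  unfold bcol at e
  revert h3 e
  cases bmin A B (2 * t) <;> cases bmin A B (2 * s) <;> simp

/-- The nodes of the packets. -/
def bcode (p : ℕ) (l W : List ℕ) : List ℕ :=
  (urange (ulen l)).map fun t => l.getD t 0 % p + p * W.getD t 0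

/-- One more digit of the middle rows. -/
def bstep (N : Un) (ins outs : List ℕ) (p : ℕ) (W : List ℕ) : List ℕ :=
  (urange (ulen ins)).map fun t =>
    (2 * W.getD t 0 + bcol (bcode p ins W) (bcode p outs W) t) % (N.n + 1)

/-- The middle rows; `N.n = 2 ^ h.n`. -/
def benes (h N : Un) (ins outs : List ℕ) : List ℕ :=
  (urange h).foldl (fun W k => bstep N ins outs (pw 2 h (h.n - 1 - k)) W) []

/-- The invariant at level `m`. -/
def BInv (h m : ℕ) (l W : List ℕ) : Prop := ∀ k, m + k ≤ h → ∀ t < l.length, ∀ t' < l.length,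
  l.getD t 0 % 2 ^ (m + k) = l.getD t' 0 % 2 ^ (m + k) →
    W.getD t 0 / 2 ^ k = W.getD t' 0 / 2 ^ k → t = t'

theorem ben_get (l : List ℕ) (f : ℕ → ℕ) {t : ℕ} (ht : t < l.length) :
    ((urange (ulen l)).map f).getD t 0 = f t := by
  simp [urange, ulen, ht]

theorem bcode_length (p : ℕ) (l W : List ℕ) : (bcode p l W).length = l.length := by
  simp [bcode, urange, ulen]

theorem ben_div {p a b c d : ℕ} (hp : 0 < p) (h : a % p + p * b = c % p + p * d) :
    a % p = c % p ∧ b = d := by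
  have h1 := congrArg (· % p) h
  simp only [Nat.add_mul_mod_self_left, Nat.mod_mod] at h1
  rw [h1] at h
  exact ⟨h1, Nat.eq_of_mul_eq_mul_left hp (Nat.add_left_cancel h)⟩

theorem ben_twice {h m : ℕ} {l W : List ℕ} (hm : m + 1 ≤ h) (H : BInv h (m + 1) l W) :
    Twice (bcode (2 ^ m) l W) := by
  intro s hs t ht u hu e1 e2
  rw [bcode_length] at hs ht hu
  rw [bcode, ben_get _ _ hs, ben_get _ _ ht] at e1
  rw [bcode, ben_get _ _ ht, ben_get _ _ hu] at e2
  obtain ⟨a1, a2⟩ := ben_div (Nat.two_pow_pos m) e1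
  obtain ⟨b1, b2⟩ := ben_div (Nat.two_pow_pos m) e2
  have key : ∀ s < l.length, ∀ t < l.length, l.getD s 0 % 2 ^ m = l.getD t 0 % 2 ^ m →
      W.getD s 0 = W.getD t 0 → l.getD s 0 / 2 ^ m % 2 = l.getD t 0 / 2 ^ m % 2 → s = t :=
    fun s hs t ht c1 c2 c3 => H 0 hm s hs t ht
      (by rw [Nat.mod_pow_succ, Nat.mod_pow_succ, c1, c3]) (by rw [c2])
  have k1 := key s hs t ht a1 a2
  have k2 := key t ht u hu b1 b2
  have k3 := key s hs u hu (a1.trans b1) (a2.trans b2)
  omega

theorem ben_inv {h m : ℕ} {l W W' : List ℕ} {c : ℕ → ℕ} (H : BInv h (m + 1) l W)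
    (hW : ∀ t < l.length, W'.getD t 0 = 2 * W.getD t 0 + c t) (h1 : ∀ t, c t ≤ 1)
    (h2 : ∀ s < l.length, ∀ t < l.length,
      (bcode (2 ^ m) l W).getD s 0 = (bcode (2 ^ m) l W).getD t 0 → c s = c t → s = t) :
    BInv h m l W' := by
  intro k hk s hs t ht e1 e2
  have := h1 s
  have := h1 t
  rw [hW s hs, hW t ht] at e2
  cases k with
  | zero =>
    rw [pow_zero, Nat.div_one, Nat.div_one] at e2
    refine h2 s hs t ht ?_ (by omega)
    rw [bcode, ben_get _ _ hs, ben_get _ _ ht, show W.getD s 0 = W.getD t 0 by omega]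
    exact congrArg (· + _) e1
  | succ k =>
    rw [pow_succ', ← Nat.div_div_eq_div_mul, ← Nat.div_div_eq_div_mul,
      show (2 * W.getD s 0 + c s) / 2 = W.getD s 0 by omega,
      show (2 * W.getD t 0 + c t) / 2 = W.getD t 0 by omega] at e2
    exact H k (by omega) s hs t ht (by rwa [Nat.add_right_comm, Nat.add_assoc]) e2

theorem ben_start {h : ℕ} {l : List ℕ} (hl : l.Nodup) (hl' : ∀ x ∈ l, x < 2 ^ h) :
    BInv h h l [] := by
  intro k hk s hs t ht e _
  obtain rfl : k = 0 := by omega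
  rw [List.getD_eq_getElem _ _ hs, List.getD_eq_getElem _ _ ht, add_zero,
    Nat.mod_eq_of_lt (hl' _ (List.getElem_mem hs)),
    Nat.mod_eq_of_lt (hl' _ (List.getElem_mem ht))] at e
  exact (hl.getElem_inj_iff).1 e

theorem benes_spec {h N : Un} (hN : N.n = 2 ^ h.n) {ins outs : List ℕ} (hi : ins.Nodup)
    (ho : outs.Nodup) (hi' : ∀ x ∈ ins, x < N.n) (ho' : ∀ x ∈ outs, x < N.n)
    (hl : ins.length = outs.length) :
    (∀ t < ins.length, (benes h N ins outs).getD t 0 < N.n) ∧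
    ∀ i ≤ h.n, ∀ t < ins.length, ∀ t' < ins.length,
      (mix (2 ^ i) (ins.getD t 0) ((benes h N ins outs).getD t 0) =
        mix (2 ^ i) (ins.getD t' 0) ((benes h N ins outs).getD t' 0) → t = t') ∧
      (mix (2 ^ i) (outs.getD t 0) ((benes h N ins outs).getD t 0) =
        mix (2 ^ i) (outs.getD t' 0) ((benes h N ins outs).getD t' 0) → t = t') := by
  have key : ∀ j ≤ h.n, ∀ W, W = (List.range j).foldl
      (fun W k => bstep N ins outs (pw 2 h (h.n - 1 - k)) W) [] →
      (∀ t < ins.length, W.getD t 0 < 2 ^ j) ∧ BInv h.n (h.n - j) ins W ∧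
        BInv h.n (h.n - j) outs W := by
    intro j
    induction j with
    | zero =>
      rintro - _ rfl
      exact ⟨fun t _ => Nat.one_pos, ben_start hi (hN ▸ hi'), ben_start ho (hN ▸ ho')⟩
    | succ j ih =>
      rintro hj _ rfl
      rw [List.range_succ, List.foldl_append, List.foldl_cons, List.foldl_nil,
        pw_eq 2 (by omega)]
      obtain ⟨i1, i2, i3⟩ := ih (by omega) _ rfl
      generalize List.foldl _ _ _ = W at i1 i2 i3
      rw [show h.n - j = h.n - 1 - j + 1 by omega] at i2 i3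
      rw [show h.n - (j + 1) = h.n - 1 - j by omega]
      have t1 := ben_twice (by omega) i2
      have t2 := ben_twice (by omega) i3
      have hc := bcol_le (bcode (2 ^ (h.n - 1 - j)) ins W) (bcode (2 ^ (h.n - 1 - j)) outs W)
      have e : (bcode (2 ^ (h.n - 1 - j)) ins W).length =
          (bcode (2 ^ (h.n - 1 - j)) outs W).length := by rw [bcode_length, bcode_length, hl]
      have h2 : 2 ^ (j + 1) ≤ 2 ^ h.n := Nat.pow_le_pow_right two_pos hj
      have hW : ∀ t < ins.length, (bstep N ins outs (2 ^ (h.n - 1 - j)) W).getD t 0 =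
          2 * W.getD t 0 + bcol _ _ t := fun t ht => by
        have := i1 t ht
        have := hc t
        rw [bstep, ben_get _ _ ht, Nat.mod_eq_of_lt (by omega)]
      refine ⟨fun t ht => ?_, ben_inv i2 hW hc fun s hs t ht k => bcol_spec t1 t2 e
        (by rwa [bcode_length]) (by rwa [bcode_length]) (Or.inl k),
        ben_inv i3 (hl ▸ hW) hc fun s hs t ht k => bcol_spec t1 t2 e
          (by rwa [bcode_length, hl]) (by rwa [bcode_length, hl]) (Or.inr k)⟩
      have := i1 t ht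
      have := hc t
      rw [hW t ht]
      omega
  obtain ⟨k1, k2, k3⟩ := key h.n le_rfl (benes h N ins outs) rfl
  rw [Nat.sub_self] at k2 k3
  refine ⟨hN ▸ k1, fun i hi t ht t' ht' => ⟨fun e => ?_, fun e => ?_⟩⟩ <;>
    obtain ⟨e1, e2⟩ := ben_div (Nat.two_pow_pos i) e
  · exact k2 i (by omega) t ht t' ht' (by rwa [zero_add]) e2
  · exact k3 i (by omega) t (hl ▸ ht) t' (hl ▸ ht') (by rwa [zero_add]) e2

variable {α : Type} [N487b59b3 α]

@[fun_prop] theorem bpar_PT {A : α → List ℕ} {x : α → ℕ} (hA : PT A) (hx : PT x) :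
    PT fun a => bpar (A a) (x a) := by
  unfold bpar; fun_prop

@[fun_prop] theorem borb_PT {A B : α → List ℕ} {x : α → ℕ} (hA : PT A) (hB : PT B) (hx : PT x) :
    PT fun a => borb (A a) (B a) (x a) :=
  (PT.iterA (g := fun a => bnext (A a) (B a)) (h := fun a => [x a])
    (c := fun a => ((Un.mk 2).mul (ulen (A a))).add ⟨1⟩) (by unfold bnext; fun_prop) (by fun_prop)
    (by fun_prop) (((PB.const 4).mul (PB.of_PT hA)).add (PB.const 1)) fun a l => by
      have h1 := sz_nat_le (bpar (B a) (bpar (A a) (l.headD 0)) % (2 * (A a).length + 1))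
      have h2 : _ % (2 * (A a).length + 1) < 2 * (A a).length + 1 :=
        Nat.mod_lt (bpar (B a) (bpar (A a) (l.headD 0))) (Nat.succ_pos _)
      have h3 := length_le_sz (A a)
      rw [bnext, sz_cons]
      generalize _ % (2 * (A a).length + 1) = y at h1 h2 ⊢
      omega).of_eq fun a => by rw [sz_un]; rfl

@[fun_prop] theorem bcol_PT {A B : α → List ℕ} {x : α → ℕ} (hA : PT A) (hB : PT B) (hx : PT x) :
    PT fun a => bcol (A a) (B a) (x a) := by
  unfold bcol bmin; fun_prop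

@[fun_prop] theorem bstep_PT {N : α → Un} {ins outs W : α → List ℕ} {p : α → ℕ} (hN : PT N)
    (hi : PT ins) (ho : PT outs) (hp : PT p) (hW : PT W) :
    PT fun a => bstep (N a) (ins a) (outs a) (p a) (W a) := by
  unfold bstep bcode; fun_prop

@[fun_prop] theorem benes_PT {α : Type} [N487b59b3 α] {h N : α → Un} {ins outs : α → List ℕ}
    (hh : PT h) (hN : PT N) (hi : PT ins) (ho : PT outs) :
    PT fun a => benes (h a) (N a) (ins a) (outs a) :=
  PT_foldlB (g := fun a W k => bstep (N a) (ins a) (outs a) (pw 2 (h a) ((h a).n - 1 - k)) W)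
    (h := fun _ => []) (by fun_prop) (PT.const _) (by fun_prop)
    ((PB.of_PT hi).mul (((PB.const 2).mul (PB_un hN)).add (PB.const 1))) fun a W k =>
      (sz_map_le _ _ (N a).n fun t _ => (sz_nat_le _).trans
        (Nat.le_of_lt_succ (Nat.mod_lt _ (Nat.succ_pos _)))).trans
        (Nat.mul_le_mul_right _ (by simpa [urange, ulen] using length_le_sz (ins a)))

end Pool.Agent.Lib.MP_45faa6_lc.EN
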