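import Pool.Agent.Lib.MP_45faa6_lc.EN.Host

/-!
Sizes of the lists of variables and of literal triples.
-/

set_option autoImplicit false

namespace Pool.Agent.Lib.MP_45faa6_lc.EN

open Finset Pool.Agent.Lib.MP_45faa6_lc.NL Pool.Agent.Lib.MP_acf5a6_lc
  Pool.Agent.Lib.Common.CookLevin

theorem uniq_length_le {γ : Type} [DecidableEq γ] (l : List γ) : (uniq l).length ≤ l.length :=
  ((uniq_spec l).1.subperm fun x hx => ((uniq_spec l).2 x).1 hx).length_le

theorem mem_cls {φ : CNF} {t : (ℕ × Bool) × (ℕ × Bool) × ℕ × Bool} :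
    t ∈ cls φ ↔ ∃ c < φ.length, (lit φ c 0, lit φ c 1, lit φ c 2) = t := by
  simp [cls, (uniq_spec _).2, urange, ulen]

theorem cls_nodup (φ : CNF) : (cls φ).Nodup := (uniq_spec _).1

theorem vars_nodup (φ : CNF) : (vars φ).Nodup := (uniq_spec _).1

theorem lit_mem_vars {φ : CNF} (hφ : okF φ = true) {c : ℕ} (hc : c < φ.length) (r : ℕ) :
    (lit φ c r).1 ∈ vars φ := by
  have h := csp_lit hφ hc r
  rw [List.getD_eq_getElem _ _ hc] at h
  rw [vars, (uniq_spec _).2]
  exact List.mem_map.2 ⟨_, List.mem_flatMap.2 ⟨_, List.getElem_mem hc, h⟩, rfl⟩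

theorem cls_le (φ : CNF) : (cls φ).length ≤ φ.length := by
  simpa [cls, urange, ulen] using
    uniq_length_le ((urange (ulen φ)).map fun c => (lit φ c 0, lit φ c 1, lit φ c 2))

theorem cls_le_cube {φ : CNF} (hφ : okF φ = true) : (cls φ).length ≤ 8 * nvars φ ^ 3 := by
  have h1 : #((vars φ).toFinset ×ˢ (univ : Finset Bool)) = 2 * nvars φ := by
    rw [card_product, List.toFinset_card_of_nodup (vars_nodup φ), vars_length, card_univ,
      Fintype.card_bool, mul_comm]
  have h2 : (cls φ).toFinset ⊆ ((vars φ).toFinset ×ˢ (univ : Finset Bool)) ×ˢ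
      ((vars φ).toFinset ×ˢ (univ : Finset Bool)) ×ˢ ((vars φ).toFinset ×ˢ (univ : Finset Bool)) := by
    intro t ht
    obtain ⟨c, hc, rfl⟩ := mem_cls.1 (List.mem_toFinset.1 ht)
    simp only [mem_product, List.mem_toFinset, mem_univ, and_true]
    exact ⟨lit_mem_vars hφ hc 0, lit_mem_vars hφ hc 1, lit_mem_vars hφ hc 2⟩
  have h3 := card_le_card h2
  rw [List.toFinset_card_of_nodup (cls_nodup φ), card_product, h1, card_product, h1] at h3
  exact h3.trans (le_of_eq (by ring))

theorem nvars_le (φ : CNF) : nvars φ ≤ csize φ := by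
  refine (List.toFinset_card_le _).trans (le_of_eq ?_)
  rw [List.length_map, List.length_flatMap, csize]

end Pool.Agent.Lib.MP_45faa6_lc.EN
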