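import Pool.Agent.Lib.MP_45faa6_lc.EN.CSlot

/-!
The labels and the chains of equalities.
-/

set_option autoImplicit false

namespace Pool.Agent.Lib.MP_45faa6_lc.EN

open Finset Pool.Agent.Lib.MP_45faa6_lc.NL Pool.Agent.Lib.MP_acf5a6_lc
  Pool.Agent.Lib.Common.CookLevin

/-- The clauses whose bundle is at `(β, y)` in column `i`. -/
def atL (be : List ℕ) (Y : List (List ℕ)) (i β y : ℕ) : List ℕ :=
  (urange (ulen be)).filter fun c => decide (be.getD c 0 = β) && decide (mget Y i c 0 = y)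

/-- The variables in place `r` of the clauses of a slot. -/
def slotV (h : Un) (be : List ℕ) (Y T : List (List ℕ)) (r β y : ℕ) : List ℕ :=
  (atL be Y h.n β y).map fun c => mget T r c 0

/-- The number of the variable held by register `r` at the coordinates `x`. -/
def labN (h N : Un) (b : ℕ) (c0 c1 be : List ℕ) (Y T : List (List ℕ)) (x : ℕ × ℕ × ℕ × ℕ) (r : ℕ) :
    ℕ :=
  if r = 0 then c0.getD x.1 0 * b + c1.getD x.1 0
  else if r = 1 then c0.getD x.1 0 * b + x.2.2.2
  else if r = 2 then c1.getD x.1 0 * b + x.2.2.2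
  else if r = 3 then mget T 2 (idx be x.2.1) 0 / b * b + x.2.2.2
  else if r < 6 then mget T (r - 4) ((atL be Y x.2.2.1 x.2.1 x.1).headD 0) 0 / b * b + x.2.2.2
  else if r < 9 then labF h N b (slotV h be Y T (r - 6) x.2.1 x.1) x.2.2.1 x.2.2.2
  else labW h N b (slotV h be Y T (r - 9) x.2.1 x.1) x.2.2.1 x.2.2.2

/-- What the placement guarantees. -/
structure Good (h N : Un) (a b : ℕ) (nb : List (List ℕ)) (c0 c1 be : List ℕ)
    (Y T : List (List ℕ)) : Prop where
  hN : N.n = 2 ^ h.n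
  two : 2 * b = N.n
  ba : b ≤ a
  blk : ∀ r : Fin 3, ∀ c < be.length, mget T r.val c 0 / b < a
  fib : ∀ c < be.length, be.getD c 0 < 9 * a
  third : ∀ c < be.length, ∀ c' < be.length, be.getD c 0 = be.getD c' 0 →
    mget T 2 c 0 / b = mget T 2 c' 0 / b
  lt : ∀ i ≤ h.n, ∀ c < be.length, mget Y i c 0 < nb.length
  zero : ∀ c < be.length, c0.getD (mget Y 0 c 0) 0 = mget T 0 c 0 / b ∧
    c1.getD (mget Y 0 c 0) 0 = mget T 1 c 0 / b
  up : ∀ i < h.n, ∀ c < be.length, mget Y (i + 1) c 0 ∈ nb.getD (mget Y i c 0) []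
  inj : ∀ i ≤ h.n, ∀ c < be.length, ∀ c' < be.length, be.getD c 0 = be.getD c' 0 →
    mget Y i c 0 = mget Y i c' 0 →
    mget T 0 c 0 / b = mget T 0 c' 0 / b ∧ mget T 1 c 0 / b = mget T 1 c' 0 / b
  len : ∀ β y, (atL be Y h.n β y).length ≤ b

theorem atL_mem {be : List ℕ} {Y : List (List ℕ)} {i β y c : ℕ} :
    c ∈ atL be Y i β y ↔ c < be.length ∧ be.getD c 0 = β ∧ mget Y i c 0 = y := by
  simp only [atL, urange, ulen, List.mem_filter, List.mem_range, Bool.and_eq_true,
    decide_eq_true_eq]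

section
variable {Ω ι : Type} {mv : ι → Ω → Ω} {lab : Ω → Reg → ℕ}

theorem rel_step {u u' : Ω} {r r' : Reg} (h : ∃ k, mv k u = u') (e : lab u r = lab u' r') :
    Relation.EqvGen (Lnk mv lab) (u, r) (u', r') :=
  Relation.EqvGen.rel _ _ ⟨h.imp fun _ h => h.symm, e⟩

theorem rel_keep {β : Type} {f : Ω → β} {u u' : Ω} (r : Reg) (h : Keep mv f u u')
    (e : ∀ v v', f v' = f v → lab v r = lab v' r) :
    Relation.EqvGen (Lnk mv lab) (u, r) (u', r) := by
  induction h with
  | rel x y h => exact Relation.EqvGen.rel _ _ ⟨h.1, e _ _ h.2⟩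
  | refl x => exact Relation.EqvGen.refl _
  | symm x y _ ih => exact ih.symm
  | trans x y z _ _ ih ih' => exact ih.trans _ _ _ ih'

end

variable {Ω ι : Type} {mv : ι → Ω → Ω} {h N : Un} {a b : ℕ} {nb : List (List ℕ)}
  {c0 c1 be : List ℕ} {Y T : List (List ℕ)} {co : Ω → ℕ × ℕ × ℕ × ℕ} {pt : ℕ → ℕ → ℕ → ℕ → Ω}

theorem Good.slot (G : Good h N a b nb c0 c1 be Y T) (r : Fin 3) (β y : ℕ) :
    ∀ j < (slotV h be Y T r.val β y).length, (slotV h be Y T r.val β y).getD j 0 / b =
      (slotV h be Y T r.val β y).headD 0 / b := by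
  have key : ∀ x ∈ slotV h be Y T r.val β y, ∀ x' ∈ slotV h be Y T r.val β y, x / b = x' / b := by
    intro x hx x' hx'
    obtain ⟨c, hc, rfl⟩ := List.mem_map.1 hx
    obtain ⟨c', hc', rfl⟩ := List.mem_map.1 hx'
    obtain ⟨p1, p2, p3⟩ := atL_mem.1 hc
    obtain ⟨q1, q2, q3⟩ := atL_mem.1 hc'
    have h1 := G.inj h.n le_rfl c p1 c' q1 (p2.trans q2.symm) (p3.trans q3.symm)
    fin_cases r
    exacts [h1.1, h1.2, G.third c p1 c' q1 (p2.trans q2.symm)]
  intro j hj
  refine key _ ?_ _ (auc_head (List.ne_nil_of_length_pos (by omega)) 0)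
  rw [List.getD_eq_getElem _ _ hj]
  exact List.getElem_mem hj

/-- From a clause register to the row of its variable. -/
theorem chain_slot (H : Host mv h.n a (9 * a) nb c0 c1 co pt) (G : Good h N a b nb c0 c1 be Y T)
    (r : Fin 3) {β y : ℕ} (hβ : β < 9 * a) (hy : y < nb.length) :
    ∀ j < (slotV h be Y T r.val β y).length,
      Relation.EqvGen (Lnk mv fun u s => labN h N b c0 c1 be Y T (co u) s.val)
        (pt y β h.n (b + j), cr r)
        (pt y β h.n ((slotV h be Y T r.val β y).getD j 0 % b), cr r) := by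
  have hr := r.isLt
  have hlen : (slotV h be Y T r.val β y).length ≤ b := by
    rw [slotV, List.length_map]
    exact G.len β y
  have eF : ∀ i ≤ h.n, ∀ ρ < 2 ^ h.n, labN h N b c0 c1 be Y T (co (pt y β i ρ)) (cr r).val =
      labF h N b (slotV h be Y T r.val β y) i ρ := fun i hi ρ hρ => by
    rw [H.co_pt y hy β hβ i hi ρ hρ, labN]
    simp only [cr]
    rw [if_neg (by omega), if_neg (by omega), if_neg (by omega), if_neg (by omega),
      if_neg (by omega), if_pos (by omega), Nat.add_sub_cancel_left]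
  have eW : ∀ i ≤ h.n, ∀ ρ < 2 ^ h.n, labN h N b c0 c1 be Y T (co (pt y β i ρ)) (9 + r.val) =
      labW h N b (slotV h be Y T r.val β y) i ρ := fun i hi ρ hρ => by
    rw [H.co_pt y hy β hβ i hi ρ hρ, labN]
    rw [if_neg (by omega), if_neg (by omega), if_neg (by omega), if_neg (by omega),
      if_neg (by omega), if_neg (by omega), Nat.add_sub_cancel_left]
  have hv := G.slot r β y
  generalize slotV h be Y T r.val β y = v at hlen eF eW hv ⊢
  have walk : ∀ (s : Reg) (x w z : ℕ), w < 2 ^ h.n → (∀ i ≤ h.n,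
      labN h N b c0 c1 be Y T (co (pt y β i (mix (2 ^ i) x w))) s.val = z) → ∀ i ≤ h.n,
      Relation.EqvGen (Lnk mv fun u s => labN h N b c0 c1 be Y T (co u) s.val)
        (pt y β 0 (mix (2 ^ 0) x w), s) (pt y β i (mix (2 ^ i) x w), s) := by
    intro s x w z _ hz i
    induction i with
    | zero => exact fun _ => Relation.EqvGen.refl _
    | succ i ih =>
      intro hi
      exact (ih (by omega)).trans _ _ _ (rel_step (H.bf y hy β i hi _ _ fun j _ hj =>
        mix_bit i j x w hj) ((hz i (by omega)).trans (hz _ hi).symm))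
  intro j
  induction j using Nat.strong_induction_on with
  | _ j ih =>
  intro hj
  obtain ⟨s1, s2, s3⟩ := slot_spec G.hN G.two hlen hv hj
  have hbj : b + j < 2 ^ h.n := by
    have := G.hN
    have := G.two
    omega
  have w1 := walk (cr r) (inRow b v j) _ _ s1 (fun i hi =>
    (eF i hi _ (mix_lt _ hi s1)).trans (s3 i hi).1) h.n le_rfl
  have w2 := walk ⟨9 + r.val, by omega⟩ (b + j) _ _ s1 (fun i hi =>
    (eW i hi _ (mix_lt _ hi s1)).trans (s3 i hi).2) h.n le_rfl
  have e0 := s3 0 (Nat.zero_le _)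
  have e1 := (s3 h.n le_rfl).2
  rw [mix_top _ s2 s1, pow_zero, mix_one] at w1
  rw [mix_top _ hbj s1, pow_zero, mix_one] at w2
  rw [pow_zero, mix_one, mix_one] at e0
  rw [mix_top _ hbj s1] at e1
  have w3 : Relation.EqvGen (Lnk mv fun u s => labN h N b c0 c1 be Y T (co u) s.val)
      (pt y β h.n (b + j), cr r) (pt y β h.n (inRow b v j), cr r) :=
    ((rel_step (r' := ⟨9 + r.val, by omega⟩) (H.one.imp fun _ h => h _)
      ((eF _ le_rfl _ hbj).trans (labF_top.trans ((eW _ le_rfl _ hbj).trans e1).symm))).trans _ _ _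
      w2.symm).trans _ _ _ ((rel_step (H.one.imp fun _ h => h _) (((eW _ (Nat.zero_le _) _ s1).trans
        e0.2).trans ((eF _ (Nat.zero_le _) _ s1).trans e0.1).symm)).trans _ _ _ w1)
  rcases inRow_cases (b := b) j hj with ⟨e, -⟩ | ⟨k, hk, e⟩
  · exact e ▸ w3
  · obtain ⟨k1, k2, k3, -⟩ := prevs_mem.1 hk
    rw [e] at w3
    exact w3.trans _ _ _ (k3 ▸ ih k k2 k1)

/-- From a bundle back to column zero. -/
theorem chain_bundle (H : Host mv h.n a (9 * a) nb c0 c1 co pt) (G : Good h N a b nb c0 c1 be Y T)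
    (r : Fin 2) {c : ℕ} (hc : c < be.length) {ρ : ℕ} (hρ : ρ < 2 ^ h.n) : ∀ i ≤ h.n,
    labN h N b c0 c1 be Y T (co (pt (mget Y i c 0) (be.getD c 0) i ρ)) (4 + r.val) =
      mget T r.val c 0 / b * b + ρ ∧
    Relation.EqvGen (Lnk mv fun u s => labN h N b c0 c1 be Y T (co u) s.val)
      (pt (mget Y 0 c 0) (be.getD c 0) 0 ρ, ⟨4 + r.val, by have := r.isLt; omega⟩)
      (pt (mget Y i c 0) (be.getD c 0) i ρ, ⟨4 + r.val, by have := r.isLt; omega⟩) := by
  have hr := r.isLt
  have e : ∀ i ≤ h.n, labN h N b c0 c1 be Y T (co (pt (mget Y i c 0) (be.getD c 0) i ρ))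
      (4 + r.val) = mget T r.val c 0 / b * b + ρ := fun i hi => by
    rw [H.co_pt _ (G.lt i hi c hc) _ (G.fib c hc) i hi ρ hρ, labN]
    rw [if_neg (by omega), if_neg (by omega), if_neg (by omega), if_neg (by omega),
      if_pos (by omega), Nat.add_sub_cancel_left]
    obtain ⟨p1, p2, p3⟩ := atL_mem.1 (auc_head (List.ne_nil_of_mem
      (atL_mem.2 ⟨hc, rfl, rfl⟩ : c ∈ atL be Y i (be.getD c 0) (mget Y i c 0))) 0)
    have h1 := G.inj i hi _ p1 c hc p2 p3
    fin_cases r
    · exact congrArg (· * b + ρ) h1.1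
    · exact congrArg (· * b + ρ) h1.2
  intro i
  induction i with
  | zero => exact fun hi => ⟨e 0 hi, Relation.EqvGen.refl _⟩
  | succ i ih =>
    intro hi
    exact ⟨e _ hi, (ih (by omega)).2.trans _ _ _ (rel_step
      (H.up _ (G.lt i (by omega) c hc) _ (G.up i hi c hc) _ i ρ)
      ((e i (by omega)).trans (e _ hi).symm))⟩

theorem embN (H : Host mv h.n a (9 * a) nb c0 c1 co pt) (G : Good h N a b nb c0 c1 be Y T) :
    ∃ home : ℕ → Ω × Reg, ∀ c < be.length, ∃ u, ∀ r : Fin 3,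
      labN h N b c0 c1 be Y T (co u) (cr r).val = mget T r.val c 0 ∧
      Relation.EqvGen (Lnk mv fun u s => labN h N b c0 c1 be Y T (co u) s.val) (u, cr r)
        (home (mget T r.val c 0)) := by
  choose! yy y1 y2 y3 using H.onto
  have hb2 : 2 * b = 2 ^ h.n := G.two.trans G.hN
  have hb : 0 < b := by
    have := Nat.two_pow_pos h.n
    omega
  have hba := G.ba
  have one : ∀ u, ∃ k, mv k u = u := fun u => H.one.imp fun _ h => h u
  have cD : ∀ p < a, ∀ q < b, ∀ β i ρ,
      Relation.EqvGen (Lnk mv fun u s => labN h N b c0 c1 be Y T (co u) s.val)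
        (pt (yy p q) β i ρ, 0) (pt (yy p q) 0 0 0, 0) := fun p hp q hq β i ρ =>
    rel_keep 0 (H.fib _ (y1 p hp q (by omega)) β i ρ 0 0 0) fun v v' e => by
      simp only [labN, Fin.val_zero, if_true, e]
  have c0' : ∀ y < nb.length, c0.getD y 0 < a → ∀ β < 9 * a, ∀ i ≤ h.n, ∀ q < b,
      Relation.EqvGen (Lnk mv fun u s => labN h N b c0 c1 be Y T (co u) s.val)
        (pt y β i q, 1) (pt (yy (c0.getD y 0) q) 0 0 0, 0) := fun y hy hp β hβ i hi q hq => by
    have h1 := y1 _ hp q (by omega)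
    refine ((rel_keep 1 (H.line0 y hy _ h1 (y2 _ hp q (by omega)).symm β i q) fun v v' e => ?_).trans
      _ _ _ (rel_step (one _) ?_)).trans _ _ _ (cD _ hp q hq β i q)
    · have e1 := congrArg Prod.fst e
      have e2 := congrArg Prod.snd e
      simp only at e1 e2
      simp only [labN, Fin.val_one, one_ne_zero, if_false, if_true, e1, e2]
    · simp only [H.co_pt _ h1 β hβ i hi q (by omega), labN, Fin.val_one, Fin.val_zero, one_ne_zero,
        if_false, if_true, y3 _ hp q (by omega)]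
  have c1' : ∀ y < nb.length, c1.getD y 0 < a → ∀ β < 9 * a, ∀ i ≤ h.n, ∀ q < b,
      Relation.EqvGen (Lnk mv fun u s => labN h N b c0 c1 be Y T (co u) s.val)
        (pt y β i q, 2) (pt (yy (c1.getD y 0) q) 0 0 0, 0) := fun y hy hp β hβ i hi q hq => by
    have h1 := y1 _ hp _ hp
    have h2 := c0' _ h1 ((y2 _ hp _ hp).symm ▸ hp) β hβ i hi q hq
    rw [y2 _ hp _ hp] at h2
    refine ((rel_keep 2 (H.line1 y hy _ h1 (y3 _ hp _ hp).symm β i q) fun v v' e => ?_).trans
      _ _ _ (rel_step (one _) ?_)).trans _ _ _ h2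
    · have e1 := congrArg Prod.fst e
      have e2 := congrArg Prod.snd e
      simp only at e1 e2
      simp only [labN, Fin.val_two, two_ne_zero, OfNat.ofNat_ne_one, if_false, if_true, e1, e2]
    · simp only [H.co_pt _ h1 β hβ i hi q (by omega), labN, Fin.val_one, Fin.val_two, one_ne_zero,
        two_ne_zero, OfNat.ofNat_ne_one, if_false, if_true, y2 _ hp _ hp, y3 _ hp _ hp]
  refine ⟨fun x => (pt (yy (x / b) (x % b)) 0 0 0, 0), fun c hc => ?_⟩
  have hy := G.lt h.n le_rfl c hc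
  have hβ := G.fib c hc
  obtain ⟨j, hj, ej⟩ := List.getElem_of_mem
    (atL_mem.2 ⟨hc, rfl, rfl⟩ : c ∈ atL be Y h.n (be.getD c 0) (mget Y h.n c 0))
  have hl := G.len (be.getD c 0) (mget Y h.n c 0)
  refine ⟨pt (mget Y h.n c 0) (be.getD c 0) h.n (b + j), fun r => ?_⟩
  have hr := r.isLt
  have hj' : j < (slotV h be Y T r.val (be.getD c 0) (mget Y h.n c 0)).length := by
    rwa [slotV, List.length_map]
  have ev : (slotV h be Y T r.val (be.getD c 0) (mget Y h.n c 0)).getD j 0 = mget T r.val c 0 := by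
    rw [List.getD_eq_getElem _ _ hj']
    simp only [slotV, List.getElem_map, ej]
  have hq := Nat.mod_lt (mget T r.val c 0) hb
  have eF : ∀ ρ < 2 ^ h.n, labN h N b c0 c1 be Y T
      (co (pt (mget Y h.n c 0) (be.getD c 0) h.n ρ)) (cr r).val =
      labF h N b (slotV h be Y T r.val (be.getD c 0) (mget Y h.n c 0)) h.n ρ := fun ρ hρ => by
    rw [H.co_pt _ hy _ hβ _ le_rfl ρ hρ, labN]
    simp only [cr]
    rw [if_neg (by omega), if_neg (by omega), if_neg (by omega), if_neg (by omega),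
      if_neg (by omega), if_pos (by omega), Nat.add_sub_cancel_left]
  refine ⟨(eF _ (by omega)).trans (labF_top.trans ev), ?_⟩
  refine (chain_slot H G r hβ hy j hj').trans _ _ _ ?_
  have e1 := eF (mget T r.val c 0 % b) (by omega)
  rw [labF, if_pos rfl, if_pos hq, ← G.slot r _ _ j hj', ev] at e1
  rw [ev]
  have hp := G.blk r c hc
  fin_cases r
  · replace hq : mget T 0 c 0 % b < b := hq
    replace hp : mget T 0 c 0 / b < a := hp
    obtain ⟨b1, b2⟩ := chain_bundle H G 0 hc (ρ := mget T 0 c 0 % b) (by omega) h.n le_rfl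
    have b3 := (chain_bundle H G 0 hc (ρ := mget T 0 c 0 % b) (by omega) 0 (Nat.zero_le _)).1
    have h1 := G.lt 0 (Nat.zero_le _) c hc
    have h2 := c0' _ h1 ((G.zero c hc).1.symm ▸ hp) _ hβ 0 (Nat.zero_le _) _ hq
    rw [(G.zero c hc).1] at h2
    refine ((rel_step (one _) (e1.trans b1.symm)).trans _ _ _ b2.symm).trans _ _ _
      ((rel_step (one _) (b3.trans ?_)).trans _ _ _ h2)
    simp only [H.co_pt _ h1 _ hβ 0 (Nat.zero_le _) (mget T 0 c 0 % b) (by omega), labN,
      Fin.val_one, Fin.val_zero, one_ne_zero, if_false, if_true, (G.zero c hc).1]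
  · replace hq : mget T 1 c 0 % b < b := hq
    replace hp : mget T 1 c 0 / b < a := hp
    obtain ⟨b1, b2⟩ := chain_bundle H G 1 hc (ρ := mget T 1 c 0 % b) (by omega) h.n le_rfl
    have b3 := (chain_bundle H G 1 hc (ρ := mget T 1 c 0 % b) (by omega) 0 (Nat.zero_le _)).1
    have h1 := G.lt 0 (Nat.zero_le _) c hc
    have h2 := c1' _ h1 ((G.zero c hc).2.symm ▸ hp) _ hβ 0 (Nat.zero_le _) _ hq
    rw [(G.zero c hc).2] at h2
    refine ((rel_step (one _) (e1.trans b1.symm)).trans _ _ _ b2.symm).trans _ _ _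
      ((rel_step (one _) (b3.trans ?_)).trans _ _ _ h2)
    simp only [H.co_pt _ h1 _ hβ 0 (Nat.zero_le _) (mget T 1 c 0 % b) (by omega), labN,
      Fin.val_one, Fin.val_two, two_ne_zero, OfNat.ofNat_ne_one, if_false, if_true, (G.zero c hc).2]
  · replace hq : mget T 2 c 0 % b < b := hq
    replace hp : mget T 2 c 0 / b < a := hp
    have hm : be.getD c 0 ∈ be := by
      rw [List.getD_eq_getElem _ _ hc]
      exact List.getElem_mem hc
    have hi : idx be (be.getD c 0) < be.length := idx_eq be _ ▸ List.idxOf_lt_length_of_mem hm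
    have h3 := G.third _ hi c hc (by
      rw [List.getD_eq_getElem _ _ hi]
      simp only [idx_eq, List.getElem_idxOf])
    have h1 := y1 _ hp (mget T 2 c 0 % b) (by omega)
    have e3 : ∀ y < nb.length, labN h N b c0 c1 be Y T
        (co (pt y (be.getD c 0) h.n (mget T 2 c 0 % b))) 3 =
        mget T 2 c 0 / b * b + mget T 2 c 0 % b := fun y hy => by
      rw [H.co_pt _ hy _ hβ _ le_rfl _ (by omega), labN, if_neg (by omega), if_neg (by omega),
        if_neg (by omega), if_pos rfl, h3]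
    refine ((rel_step (r' := 3) (one _) (e1.trans (e3 _ hy).symm)).trans _ _ _
      (rel_keep 3 (H.plane _ hy _ h1 _ _ _) fun v v' e => ?_)).trans _ _ _
      ((rel_step (one _) ((e3 _ h1).trans ?_)).trans _ _ _ (cD _ hp _ hq _ _ _))
    · change labN h N b c0 c1 be Y T (co v) 3 = labN h N b c0 c1 be Y T (co v') 3
      rw [labN, labN, if_neg (by omega), if_neg (by omega), if_neg (by omega), if_pos rfl,
        if_neg (by omega), if_neg (by omega), if_neg (by omega), if_pos rfl, e]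
    · simp only [H.co_pt _ h1 _ hβ _ le_rfl (mget T 2 c 0 % b) (by omega), labN, Fin.val_zero,
        if_true, y2 _ hp (mget T 2 c 0 % b) (by omega), y3 _ hp (mget T 2 c 0 % b) (by omega)]

variable {α : Type} [N487b59b3 α]

@[fun_prop] theorem atL_PT {be : α → List ℕ} {Y : α → List (List ℕ)} {i β y : α → ℕ} (he : PT be)
    (hY : PT Y) (hi : PT i) (hβ : PT β) (hy : PT y) :
    PT fun a => atL (be a) (Y a) (i a) (β a) (y a) := by
  unfold atL; fun_prop

@[fun_prop] theorem slotV_PT {h : α → Un} {be : α → List ℕ} {Y T : α → List (List ℕ)}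
    {r β y : α → ℕ} (hh : PT h) (he : PT be) (hY : PT Y) (hT : PT T) (hr : PT r) (hβ : PT β)
    (hy : PT y) : PT fun a => slotV (h a) (be a) (Y a) (T a) (r a) (β a) (y a) := by
  unfold slotV; fun_prop

@[fun_prop] theorem labN_PT {h N : α → Un} {b r : α → ℕ} {c0 c1 be : α → List ℕ}
    {Y T : α → List (List ℕ)} {x : α → ℕ × ℕ × ℕ × ℕ} (hh : PT h) (hN : PT N) (hb : PT b)
    (h0 : PT c0) (h1 : PT c1) (he : PT be) (hY : PT Y) (hT : PT T) (hx : PT x) (hr : PT r) :
    PT fun a => labN (h a) (N a) (b a) (c0 a) (c1 a) (be a) (Y a) (T a) (x a) (r a) := by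
  unfold labN; fun_prop

end Pool.Agent.Lib.MP_45faa6_lc.EN
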