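import Pool.Agent.Lib.MP_45faa6_lc.EN.CBase

/-!
The numbers of the variables of the clauses.
-/

set_option autoImplicit false

namespace Pool.Agent.Lib.MP_45faa6_lc.EN

open Finset Pool.Agent.Lib.MP_45faa6_lc.NL Pool.Agent.Lib.MP_acf5a6_lc
  Pool.Agent.Lib.Common.CookLevin

/-- The variable in place `r` of a literal triple. -/
def tvar (r : ℕ) (t : (ℕ × Bool) × (ℕ × Bool) × ℕ × Bool) : ℕ :=
  if r = 0 then t.1.1 else if r = 1 then t.2.1.1 else t.2.2.1

/-- The numbers of the variables in place `r` of the literal triples. -/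
def cnum (φ : CNF) (r : ℕ) : List ℕ := (cls φ).map fun t => idx (vars φ) (tvar r t)

theorem cnum_length (φ : CNF) (r : ℕ) : (cnum φ r).length = (cls φ).length := by
  simp [cnum]

theorem cnum_getD (φ : CNF) (r : ℕ) {c : ℕ} (hc : c < (cls φ).length) :
    (cnum φ r).getD c 0 = idx (vars φ) (tvar r (cls φ)[c]) := by
  simp [cnum, hc]

theorem cnum_lit {φ : CNF} (hφ : okF φ = true) {c : ℕ} (hc : c < φ.length) (r : ℕ) :
    (lit φ c r).1 ∈ vars φ := by
  refine ((uniq_spec _).2 _).2 (List.mem_map.2 ⟨_, List.mem_flatMap.2 ⟨φ.getD c [], ?_,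
    csp_lit hφ hc r⟩, rfl⟩)
  rw [List.getD_eq_getElem _ _ hc]
  exact List.getElem_mem hc

theorem cnum_mem {φ : CNF} (hφ : okF φ = true) (r : ℕ) {t : (ℕ × Bool) × (ℕ × Bool) × ℕ × Bool}
    (ht : t ∈ cls φ) : tvar r t ∈ vars φ := by
  obtain ⟨c, hc, rfl⟩ := List.mem_map.1 (((uniq_spec _).2 _).1 ht)
  unfold tvar
  split_ifs <;> exact cnum_lit hφ (List.mem_range.1 hc) _

theorem cnum_nm {φ : CNF} {x : ℕ} (hx : x ∈ vars φ) : (vars φ).getD (idx (vars φ) x) 0 = x := by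
  rw [idx_eq, List.getD_eq_getElem _ _ (List.idxOf_lt_length_of_mem hx), List.getElem_idxOf]

theorem cnum_lt {φ : CNF} (hφ : okF φ = true) (r : ℕ) :
    ∀ c < (cls φ).length, (cnum φ r).getD c 0 < (vars φ).length := fun c hc => by
  rw [cnum_getD φ r hc, idx_eq]
  exact List.idxOf_lt_length_of_mem (cnum_mem hφ r (List.getElem_mem hc))

theorem cnum_cover {φ : CNF} : ∀ c < φ.length, ∃ d < (cls φ).length,
    ∀ r : Fin 3, (cnum φ r.val).getD d 0 = idx (vars φ) (lit φ c r.val).1 := by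
  intro c hc
  have h : (lit φ c 0, lit φ c 1, lit φ c 2) ∈ cls φ :=
    ((uniq_spec _).2 _).2 (List.mem_map.2 ⟨c, List.mem_range.2 hc, rfl⟩)
  obtain ⟨d, hd, e⟩ := List.getElem_of_mem h
  refine ⟨d, hd, fun r => ?_⟩
  rw [cnum_getD φ _ hd, e]
  fin_cases r <;> rfl

theorem cnum_cell {φ : CNF} (hφ : okF φ = true) {b : ℕ} (hb : 0 < b) (p0 p1 p2 : ℕ) :
    #{c ∈ range (cls φ).length | (cnum φ 0).getD c 0 / b = p0 ∧ (cnum φ 1).getD c 0 / b = p1 ∧
      (cnum φ 2).getD c 0 / b = p2} ≤ 8 * b ^ 3 := by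
  have e : 8 * b ^ 3 = #((range b ×ˢ (univ : Finset Bool)) ×ˢ (range b ×ˢ (univ : Finset Bool)) ×ˢ
      range b ×ˢ (univ : Finset Bool)) := by
    simp only [card_product, card_range, card_univ, Fintype.card_bool]
    ring
  rw [e]
  refine card_le_card_of_injOn (fun c => (((cnum φ 0).getD c 0 % b, ((cls φ).getD c default).1.2),
    ((cnum φ 1).getD c 0 % b, ((cls φ).getD c default).2.1.2), (cnum φ 2).getD c 0 % b,
    ((cls φ).getD c default).2.2.2)) (fun c _ => ?_) fun c hc d hd h => ?_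
  · simp [Nat.mod_lt _ hb]
  obtain ⟨hc, c0, c1, c2⟩ := mem_filter.1 (mem_coe.1 hc)
  obtain ⟨hd, d0, d1, d2⟩ := mem_filter.1 (mem_coe.1 hd)
  have hc := mem_range.1 hc
  have hd := mem_range.1 hd
  simp only [Prod.mk.injEq, List.getD_eq_getElem _ _ hc, List.getD_eq_getElem _ _ hd] at h
  obtain ⟨⟨m0, s0⟩, ⟨m1, s1⟩, m2, s2⟩ := h
  have key : ∀ r, (cnum φ r).getD c 0 / b = (cnum φ r).getD d 0 / b →
      (cnum φ r).getD c 0 % b = (cnum φ r).getD d 0 % b → tvar r (cls φ)[c] = tvar r (cls φ)[d] := by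
    intro r h1 h2
    have h3 : (cnum φ r).getD c 0 = (cnum φ r).getD d 0 := by
      rw [← Nat.div_add_mod ((cnum φ r).getD c 0) b, h1, h2, Nat.div_add_mod]
    rw [cnum_getD φ r hc, cnum_getD φ r hd] at h3
    rw [← cnum_nm (cnum_mem hφ r (List.getElem_mem hc)), h3,
      cnum_nm (cnum_mem hφ r (List.getElem_mem hd))]
  exact (List.Nodup.getElem_inj_iff (uniq_spec _).1).1 (Prod.ext
    (Prod.ext (key 0 (c0.trans d0.symm) m0) s0) (Prod.ext (Prod.ext (key 1 (c1.trans d1.symm) m1) s1)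
      (Prod.ext (key 2 (c2.trans d2.symm) m2) s2)))

@[fun_prop] theorem cnum_PT {α : Type} [N487b59b3 α] {φ : α → CNF} {r : α → ℕ} (h : PT φ)
    (hr : PT r) : PT fun a => cnum (φ a) (r a) := by
  unfold cnum tvar; fun_prop

end Pool.Agent.Lib.MP_45faa6_lc.EN
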