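import Pool.Agent.Lib.MP_45faa6_lc.EN.CBase

/-!
Chunks and slots.
-/

set_option autoImplicit false

namespace Pool.Agent.Lib.MP_45faa6_lc.EN

open Finset Pool.Agent.Lib.MP_45faa6_lc.NL Pool.Agent.Lib.MP_acf5a6_lc
  Pool.Agent.Lib.Common.CookLevin

section rank

variable {γ : Type} [DecidableEq γ]

/-- The number of earlier members of the class of `c`. -/
def rnk (g : ℕ → γ) (c : ℕ) : ℕ := #{c' ∈ range c | g c' = g c}

theorem rnk_lt (g : ℕ → γ) {c m : ℕ} (h : c < m) : rnk g c < #{c' ∈ range m | g c' = g c} := by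
  refine card_lt_card ⟨fun x hx => ?_, fun h1 => ?_⟩
  · rw [mem_filter, mem_range] at hx ⊢
    exact ⟨hx.1.trans h, hx.2⟩
  · simpa using h1 (mem_filter.2 ⟨mem_range.2 h, rfl⟩)

theorem rnk_inj (g : ℕ → γ) {c c' : ℕ} (h1 : g c = g c') (h2 : rnk g c = rnk g c') : c = c' := by
  rcases lt_trichotomy c c' with h | h | h
  · exact absurd h2 ((rnk_lt g h).trans_eq (by rw [rnk, h1])).ne
  · exact h
  · exact absurd h2.symm ((rnk_lt g h).trans_eq (by rw [rnk, h1])).ne

/-- A key has few members. -/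
theorem rnk_fib (g : ℕ → γ) {L : ℕ} (hL : 0 < L) (A : Finset ℕ)
    (h : ∀ c ∈ A, ∀ c' ∈ A, g c = g c' ∧ rnk g c / L = rnk g c' / L) : #A ≤ L := by
  refine (card_le_card_of_injOn (t := range L) (fun c => rnk g c % L)
    (fun c _ => mem_coe.2 (mem_range.2 (Nat.mod_lt _ hL))) fun c hc c' hc' e => ?_).trans
    (card_range L).le
  obtain ⟨h1, h2⟩ := h c hc c' hc'
  refine rnk_inj g h1 ?_
  rw [← Nat.div_add_mod (rnk g c) L, ← Nat.div_add_mod (rnk g c') L, h2,
    show rnk g c % L = rnk g c' % L from e]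

/-- There are few keys. -/
theorem rnk_keys (g : ℕ → γ) {L m : ℕ} (hL : 0 < L) (A : Finset ℕ) (hA : ∀ c ∈ A, c < m)
    (hc : ∀ c ∈ A, ∀ c' < m, g c' = g c → c' ∈ A) :
    #(A.image fun c => (g c, rnk g c / L)) ≤ #(A.image g) + #A / L := by
  have h1 : (A.image fun c => (g c, rnk g c / L)) ⊆ (A.image g).biUnion fun v =>
      {v} ×ˢ range (#{c ∈ A | g c = v} / L + 1) := by
    intro x hx
    obtain ⟨c, hc', rfl⟩ := mem_image.1 hx
    refine mem_biUnion.2 ⟨g c, mem_image_of_mem _ hc', mem_product.2 ⟨mem_singleton_self _,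
      mem_range.2 (Nat.lt_succ_of_le (Nat.div_le_div_right ((rnk_lt g (hA c hc')).le.trans
        (card_le_card fun y hy => ?_))))⟩⟩
    rw [mem_filter, mem_range] at hy
    exact mem_filter.2 ⟨hc c hc' y hy.1 hy.2, hy.2⟩
  refine (card_le_card h1).trans (card_biUnion_le.trans ?_)
  simp only [card_product, card_singleton, one_mul, card_range, sum_add_distrib, sum_const,
    smul_eq_mul, mul_one]
  rw [add_comm]
  refine Nat.add_le_add_left ((Nat.le_div_iff_mul_le hL).2 ?_) _
  rw [sum_mul, card_eq_sum_card_image g A]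
  exact sum_le_sum fun v _ => Nat.div_mul_le_self _ _

theorem length_filter_range (m : ℕ) (p : ℕ → Prop) [DecidablePred p] :
    ((List.range m).filter fun c => decide (p c)).length = #{c ∈ range m | p c} := rfl

/-- The rank, computed. -/
def rkL (m : Un) (g : ℕ → γ) (c : ℕ) : ℕ := ((rng m c).filter fun c' => decide (g c' = g c)).length

theorem rkL_eq {m : Un} (g : ℕ → γ) {c : ℕ} (h : c < m.n) : rkL m g c = rnk g c := by
  rw [rkL, rng_eq h.le, rnk, length_filter_range c fun c' => g c' = g c]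

theorem idx_lt_of_mem {l : List γ} {x : γ} (h : x ∈ l) : idx l x < l.length := by
  rw [idx_eq]
  exact List.idxOf_lt_length_of_mem h

theorem idx_inj_of_mem {l : List γ} {x y : γ} (h : x ∈ l) (e : idx l x = idx l y) : x = y := by
  rwa [idx_eq, idx_eq, List.idxOf_inj h] at e

theorem getD_idx {l : List γ} {x : γ} (h : x ∈ l) (d : γ) : l.getD (idx l x) d = x := by
  rw [List.getD_eq_getElem _ _ (idx_lt_of_mem h)]
  simp only [idx_eq, List.getElem_idxOf]

end rank

theorem getD_urange {γ δ : Type} (l : List δ) (f : ℕ → γ) {c : ℕ} (h : c < l.length) (d : γ) :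
    ((urange (ulen l)).map f).getD c d = f c := by
  simp [urange, ulen, h]

/-- The third block and the number of the piece. -/
def ckey (a b : ℕ) (b2 : List ℕ) (c : ℕ) : ℕ × ℕ :=
  (b2.getD c 0, rkL (ulen b2) (fun c => b2.getD c 0) c / (a * a * b))

/-- The chunk of each clause. -/
def chunk (a b : ℕ) (b2 : List ℕ) : List ℕ :=
  (urange (ulen b2)).map fun c => idx (uniq ((urange (ulen b2)).map (ckey a b b2))) (ckey a b b2 c)

theorem chunk_spec {a b : ℕ} {b2 : List ℕ} (ha : 0 < a) (hb : 0 < b)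
    (h2 : ∀ c < b2.length, b2.getD c 0 < a) (hm : b2.length ≤ 8 * a ^ 3 * b) :
    (chunk a b b2).length = b2.length ∧ (∀ c < b2.length, (chunk a b b2).getD c 0 < 9 * a) ∧
    (∀ c < b2.length, ∀ c' < b2.length, (chunk a b b2).getD c 0 = (chunk a b b2).getD c' 0 →
      b2.getD c 0 = b2.getD c' 0) ∧
    ∀ β, #{c ∈ range b2.length | (chunk a b b2).getD c 0 = β} ≤ a ^ 2 * b := by
  have hL : 0 < a * a * b := by positivity
  obtain ⟨u1, u2⟩ := uniq_spec ((urange (ulen b2)).map (ckey a b b2))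
  have hg : ∀ c < b2.length, (chunk a b b2).getD c 0 =
      idx (uniq ((urange (ulen b2)).map (ckey a b b2))) (ckey a b b2 c) := fun c hc => by
    rw [chunk, getD_urange _ _ hc]
  generalize uniq ((urange (ulen b2)).map (ckey a b b2)) = U at u1 u2 hg
  have hk : ∀ c < b2.length, ckey a b b2 c =
      (b2.getD c 0, rnk (fun c => b2.getD c 0) c / (a * a * b)) := fun c hc => by
    rw [ckey, rkL_eq (m := ulen b2) _ hc]
  have hU : ∀ c < b2.length, ckey a b b2 c ∈ U := fun c hc =>
    (u2 _).2 (List.mem_map_of_mem (List.mem_range.2 hc))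
  have hi : ∀ c < b2.length, ∀ c' < b2.length,
      (chunk a b b2).getD c 0 = (chunk a b b2).getD c' 0 → b2.getD c 0 = b2.getD c' 0 ∧
      rnk (fun c => b2.getD c 0) c / (a * a * b) = rnk (fun c => b2.getD c 0) c' / (a * a * b) :=
    fun c hc c' hc' e => by
      rw [hg c hc, hg c' hc'] at e
      have e' := idx_inj_of_mem (hU c hc) e
      rw [hk c hc, hk c' hc'] at e'
      exact Prod.ext_iff.1 e'
  refine ⟨by simp [chunk, urange, ulen], fun c hc => ?_, fun c hc c' hc' e => (hi c hc c' hc' e).1,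
    fun β => ?_⟩
  · have h3 := rnk_keys (fun c => b2.getD c 0) hL (range b2.length) (fun c => mem_range.1)
      fun _ _ _ h _ => mem_range.2 h
    have h4 : #((range b2.length).image fun c => b2.getD c 0) ≤ a :=
      (card_le_card fun x hx => by
        obtain ⟨c, hc, rfl⟩ := mem_image.1 hx
        exact mem_range.2 (h2 c (mem_range.1 hc))).trans (card_range a).le
    have h5 : #(range b2.length) / (a * a * b) ≤ 8 * a :=
      Nat.div_le_of_le_mul (by rw [card_range]; exact hm.trans (le_of_eq (by ring)))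
    have h6 : #U.toFinset ≤ _ := (card_le_card fun x hx => by
      obtain ⟨c, hc, rfl⟩ := List.mem_map.1 ((u2 x).1 (List.mem_toFinset.1 hx))
      exact mem_image.2 ⟨c, mem_range.2 (List.mem_range.1 hc),
        (hk c (List.mem_range.1 hc)).symm⟩).trans h3
    rw [List.toFinset_card_of_nodup u1] at h6
    have h7 := idx_lt_of_mem (hU c hc)
    rw [hg c hc]
    omega
  · refine (rnk_fib (fun c => b2.getD c 0) hL _ fun c hc c' hc' => ?_).trans (le_of_eq (by ring))
    rw [mem_filter, mem_range] at hc hc'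
    exact hi c hc.1 c' hc'.1 (hc.2.trans hc'.2.symm)

/-- The slot number of each clause inside its cell. -/
def slotn (b : ℕ) (be b0 b1 : List ℕ) : List ℕ :=
  (urange (ulen be)).map fun c =>
    rkL (ulen be) (fun c => (be.getD c 0, b0.getD c 0, b1.getD c 0)) c / b

theorem slotn_spec {a b : ℕ} {be b0 b1 : List ℕ} (hb : 0 < b)
    (h0 : ∀ c < be.length, b0.getD c 0 < a) (h1 : ∀ c < be.length, b1.getD c 0 < a)
    (hc : ∀ β, #{c ∈ range be.length | be.getD c 0 = β} ≤ a ^ 2 * b)
    (hq : ∀ β p q, #{c ∈ range be.length | be.getD c 0 = β ∧ b0.getD c 0 = p ∧ b1.getD c 0 = q} ≤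
      8 * b ^ 3) :
    (∀ c < be.length, (slotn b be b0 b1).getD c 0 < 8 * b ^ 2) ∧
    (∀ β, #(({c ∈ range be.length | be.getD c 0 = β} : Finset ℕ).image fun c =>
      (b0.getD c 0, b1.getD c 0, (slotn b be b0 b1).getD c 0)) ≤ 2 * a ^ 2) ∧
    ∀ β p q s, #{c ∈ range be.length | be.getD c 0 = β ∧ b0.getD c 0 = p ∧ b1.getD c 0 = q ∧
      (slotn b be b0 b1).getD c 0 = s} ≤ b := by
  obtain ⟨g, hg⟩ : ∃ g : ℕ → ℕ × ℕ × ℕ, g = fun c => (be.getD c 0, b0.getD c 0, b1.getD c 0) :=
    ⟨_, rfl⟩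
  have hs : ∀ c < be.length, (slotn b be b0 b1).getD c 0 = rnk g c / b := fun c hc => by
    rw [slotn, getD_urange _ _ hc, rkL_eq (m := ulen be) _ hc, hg]
  refine ⟨fun c hc => ?_, fun β => ?_, fun β p q s => rnk_fib g hb _ fun c hc c' hc' => ?_⟩
  · rw [hs c hc, Nat.div_lt_iff_lt_mul hb]
    refine (rnk_lt g hc).trans_le (le_trans (card_le_card fun x hx => ?_)
      ((hq (be.getD c 0) (b0.getD c 0) (b1.getD c 0)).trans (le_of_eq (by ring))))
    simpa only [hg, mem_filter, Prod.mk.injEq] using hx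
  · have h3 := rnk_keys g (m := be.length) hb {c ∈ range be.length | be.getD c 0 = β}
      (fun c hc => mem_range.1 (mem_filter.1 hc).1) fun c hc c' hc' e =>
        mem_filter.2 ⟨mem_range.2 hc', (Prod.ext_iff.1 (hg ▸ e)).1.trans (mem_filter.1 hc).2⟩
    have h4 : #(({c ∈ range be.length | be.getD c 0 = β} : Finset ℕ).image g) ≤ a ^ 2 := by
      refine (card_le_card (t := {β} ×ˢ range a ×ˢ range a) fun x hx => ?_).trans
        (by simp [sq])
      obtain ⟨c, hc, rfl⟩ := mem_image.1 hx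
      rw [mem_filter, mem_range] at hc
      simp only [hg, mem_product, mem_singleton, mem_range]
      exact ⟨hc.2, h0 c hc.1, h1 c hc.1⟩
    have h5 : #{c ∈ range be.length | be.getD c 0 = β} / b ≤ a ^ 2 :=
      Nat.div_le_of_le_mul ((hc β).trans (le_of_eq (by ring)))
    refine le_trans (card_le_card (t := (({c ∈ range be.length | be.getD c 0 = β} :
      Finset ℕ).image fun c => (g c, rnk g c / b)).image fun x => (x.1.2.1, x.1.2.2, x.2))
      fun x hx => ?_) (card_image_le.trans (by omega))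
    obtain ⟨c, hc, rfl⟩ := mem_image.1 hx
    refine mem_image.2 ⟨_, mem_image_of_mem _ hc, ?_⟩
    rw [hs c (mem_range.1 (mem_filter.1 hc).1), hg]
  · rw [mem_filter, mem_range] at hc hc'
    obtain ⟨e1, e2, e3, e4, e5⟩ := hc
    obtain ⟨f1, f2, f3, f4, f5⟩ := hc'
    rw [← hs c e1, ← hs c' f1, e5, f5, hg]
    exact ⟨by dsimp only; rw [e2, e3, e4, f2, f3, f4], rfl⟩

variable {α : Type} [N487b59b3 α]

@[fun_prop] theorem ckey_PT {a b c : α → ℕ} {b2 : α → List ℕ} (ha : PT a) (hb : PT b) (h : PT b2)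
    (hc : PT c) : PT fun x => ckey (a x) (b x) (b2 x) (c x) := by
  unfold ckey rkL; fun_prop

@[fun_prop] theorem chunk_PT {a b : α → ℕ} {b2 : α → List ℕ} (ha : PT a) (hb : PT b) (h : PT b2) :
    PT fun x => chunk (a x) (b x) (b2 x) := by
  unfold chunk; fun_prop

@[fun_prop] theorem slotn_PT {b : α → ℕ} {be b0 b1 : α → List ℕ} (hb : PT b) (h : PT be)
    (h0 : PT b0) (h1 : PT b1) : PT fun x => slotn (b x) (be x) (b0 x) (b1 x) := by
  unfold slotn rkL; fun_prop

end Pool.Agent.Lib.MP_45faa6_lc.EN
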