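import Pool.Agent.Lib.MP_45faa6_lc.EN.CBase
import Pool.Agent.Lib.MP_45faa6_lc.EN.CAuc

/-!
The rounds that give every slot its own fibre.
-/

set_option autoImplicit false

namespace Pool.Agent.Lib.MP_45faa6_lc.EN

open Finset Pool.Agent.Lib.MP_45faa6_lc.NL Pool.Agent.Lib.MP_acf5a6_lc
  Pool.Agent.Lib.Common.CookLevin

/-- The first column. -/
def rdCol (nb : List (List ℕ)) (c0 c1 be b0 b1 : List ℕ) : List ℕ :=
  (urange (ulen be)).map fun c => idx ((urange (ulen nb)).map fun y => (c0.getD y 0, c1.getD y 0))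
    (b0.getD c 0, b1.getD c 0)

/-- The keys of the clauses. -/
def rdKeys (be b0 b1 s : List ℕ) (d : ℕ) : List (ℕ × ℕ × ℕ × ℕ) :=
  (urange (ulen be)).map fun c => (be.getD c 0, b0.getD c 0, b1.getD c 0, s.getD c 0 / d)

/-- The positions that a key may take. -/
def rdAdj (nb : List (List ℕ)) (Y : List ℕ) (ks : List (ℕ × ℕ × ℕ × ℕ)) : List (List ℕ) :=
  (uniq ks).map fun k => (nb.getD (Y.getD (idx ks k) 0) []).map fun y => k.1 * nb.length + y

/-- The next column. -/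
def rdNext (nb : List (List ℕ)) (Y : List ℕ) (ks : List (ℕ × ℕ × ℕ × ℕ)) : List ℕ :=
  ks.map fun k => (mate (rdAdj nb Y ks)).getD (idx (uniq ks) k) 0 % nb.length % (nb.length + 1)

/-- One more column. -/
def rdStep (h : Un) (nb : List (List ℕ)) (be b0 b1 s : List ℕ) (Z : List (List ℕ)) (i : ℕ) :
    List (List ℕ) :=
  Z ++ [rdNext nb (Z.getD i []) (rdKeys be b0 b1 s (pw 8 h (h.n - i - 1)))]

/-- Entry `i, c` is the plane position of the bundle of clause `c` in column `i`. -/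
def rounds (h : Un) (nb : List (List ℕ)) (c0 c1 be b0 b1 s : List ℕ) : List (List ℕ) :=
  (urange h).foldl (rdStep h nb be b0 b1 s) [rdCol nb c0 c1 be b0 b1]

/-- The columns. -/
def rdAll (h : Un) (nb : List (List ℕ)) (c0 c1 be b0 b1 s : List ℕ) : ℕ → List ℕ
  | 0 => rdCol nb c0 c1 be b0 b1
  | i + 1 => rdNext nb (rdAll h nb c0 c1 be b0 b1 s i) (rdKeys be b0 b1 s (8 ^ (h.n - i - 1)))

theorem rd_mget (h : Un) (nb : List (List ℕ)) (c0 c1 be b0 b1 s : List ℕ) {i : ℕ} (hi : i ≤ h.n)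
    (c : ℕ) : mget (rounds h nb c0 c1 be b0 b1 s) i c 0 = (rdAll h nb c0 c1 be b0 b1 s i).getD c 0 := by
  have key : ∀ j, (List.range j).foldl (rdStep h nb be b0 b1 s) [rdCol nb c0 c1 be b0 b1] =
      (List.range (j + 1)).map (rdAll h nb c0 c1 be b0 b1 s) := fun j => by
    induction j with
    | zero => rfl
    | succ j ih =>
      rw [List.range_succ, List.foldl_append, ih, List.range_succ (n := j + 1), List.map_append]
      simp [rdStep, rdAll, pw_eq 8 (show h.n - j - 1 ≤ h.n by omega)]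
  simp [mget, rounds, urange, key, Nat.lt_succ_of_le hi]

theorem rd_idx {β : Type} [DecidableEq β] {l : List β} {x : β} (h : x ∈ l) :
    ∃ k : idx l x < l.length, l[idx l x] = x := by
  simp only [idx_eq]
  exact ⟨List.idxOf_lt_length_of_mem h, List.getElem_idxOf _⟩

theorem rd_img {β γ : Type} [DecidableEq β] [DecidableEq γ] {C : Finset ℕ} {f : ℕ → β} {g : ℕ → γ}
    (h : ∀ c ∈ C, ∀ c' ∈ C, g c = g c' → f c = f c') : #(C.image f) ≤ #(C.image g) := by
  classical
  refine card_le_card_of_surjOn (fun t => f (if e : ∃ c ∈ C, g c = t then e.choose else 0)) ?_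
  intro y hy
  obtain ⟨c, hc, rfl⟩ := mem_image.1 (mem_coe.1 hy)
  have e : ∃ c' ∈ C, g c' = g c := ⟨c, hc, rfl⟩
  refine ⟨g c, mem_coe.2 (mem_image_of_mem g hc), ?_⟩
  simp only [dif_pos e]
  exact h _ e.choose_spec.1 c hc e.choose_spec.2

theorem rd_next {m : ℕ} {nb : List (List ℕ)} {Y : List ℕ} {κ : ℕ → ℕ × ℕ × ℕ × ℕ}
    (lt : ∀ y, ∀ y' ∈ nb.getD y [], y' < nb.length)
    (grow : ∀ Z ⊆ range nb.length, 16 * #Z ≤ nb.length →
      8 * #Z ≤ #(Z.biUnion fun y => (nb.getD y []).toFinset))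
    (hY : ∀ c < m, Y.getD c 0 < nb.length)
    (inv : ∀ c < m, ∀ c' < m, (κ c).1 = (κ c').1 → (Y.getD c 0 = Y.getD c' 0 ↔
      (κ c).2.1 = (κ c').2.1 ∧ (κ c).2.2.1 = (κ c').2.2.1 ∧ (κ c).2.2.2 / 8 = (κ c').2.2.2 / 8))
    (cnt : ∀ β, 16 * #(({c ∈ range m | (κ c).1 = β} : Finset ℕ).image fun c => Y.getD c 0) ≤
      nb.length) :
    ∀ c < m, (rdNext nb Y ((List.range m).map κ)).getD c 0 ∈ nb.getD (Y.getD c 0) [] ∧
      ∀ c' < m, (κ c).1 = (κ c').1 → ((rdNext nb Y ((List.range m).map κ)).getD c 0 =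
        (rdNext nb Y ((List.range m).map κ)).getD c' 0 ↔ κ c = κ c') := by
  set ks := (List.range m).map κ with hks
  obtain ⟨u1, u2⟩ := uniq_spec ks
  have rep : ∀ k ∈ ks, idx ks k < m ∧ κ (idx ks k) = k := fun k hk => by
    obtain ⟨h1, h2⟩ := rd_idx hk
    generalize idx ks k = j at h1 h2
    exact ⟨by simpa [hks] using h1, by simpa [hks] using h2⟩
  have len : (rdAdj nb Y ks).length = (uniq ks).length := List.length_map _
  set K : ℕ → ℕ × ℕ × ℕ × ℕ := fun x => (uniq ks).getD x 0 with hK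
  have K1 : ∀ x < (uniq ks).length, K x ∈ ks ∧ (rdAdj nb Y ks).getD x [] =
      (nb.getD (Y.getD (idx ks (K x)) 0) []).map fun y => (K x).1 * nb.length + y := fun x hx => by
    have e : K x = (uniq ks)[x] := List.getD_eq_getElem _ _ hx
    rw [e, List.getD_eq_getElem _ _ (len ▸ hx)]
    exact ⟨(u2 _).1 (List.getElem_mem hx), List.getElem_map _⟩
  have K2 : ∀ x < (uniq ks).length, ∀ y < (uniq ks).length, K x = K y → x = y := fun x hx y hy e => by
    simp only [hK, List.getD_eq_getElem _ _ hx, List.getD_eq_getElem _ _ hy] at e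
    exact u1.getElem_inj_iff.1 e
  have hall : HallC (rdAdj nb Y ks) := fun S hS => by
    have hS' : ∀ x ∈ S, x < (uniq ks).length := fun x hx => len ▸ mem_range.1 (hS hx)
    rw [card_eq_sum_card_image (fun x => (K x).1) S]
    refine le_trans (sum_le_sum fun β _ => ?_) ((sum_card_fiberwise_eq_card_filter _ _
      fun w => w / nb.length).le.trans (card_filter_le _ _))
    set Z := ({x ∈ S | (K x).1 = β} : Finset ℕ).image fun x => Y.getD (idx ks (K x)) 0 with hZ
    have z1 : Z ⊆ ({c ∈ range m | (κ c).1 = β} : Finset ℕ).image fun c => Y.getD c 0 := by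
      intro y hy
      obtain ⟨x, hx, rfl⟩ := mem_image.1 hy
      obtain ⟨a, b⟩ := rep _ (K1 x (hS' x (mem_filter.1 hx).1)).1
      exact mem_image.2 ⟨_, mem_filter.2 ⟨mem_range.2 a, by rw [b, (mem_filter.1 hx).2]⟩, rfl⟩
    have z2 := grow Z (fun y hy => by
      obtain ⟨c, hc, rfl⟩ := mem_image.1 (z1 hy)
      exact mem_range.2 (hY c (mem_range.1 (mem_filter.1 hc).1)))
      ((Nat.mul_le_mul_left _ (card_le_card z1)).trans (cnt β))
    refine (card_le_mul_card_image (f := fun x => Y.getD (idx ks (K x)) 0) _ 8 fun y _ => ?_).trans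
      (z2.trans ?_)
    · refine (card_le_card_of_injOn (t := range 8) (fun x => (K x).2.2.2 % 8)
        (fun x _ => mem_coe.2 (mem_range.2 (Nat.mod_lt _ (by omega)))) fun x hx x' hx' e => ?_).trans
        (card_range 8).le
      obtain ⟨a1, a2⟩ := mem_filter.1 (mem_coe.1 hx)
      obtain ⟨b1, b2⟩ := mem_filter.1 (mem_coe.1 hx')
      obtain ⟨a3, a4⟩ := mem_filter.1 a1
      obtain ⟨b3, b4⟩ := mem_filter.1 b1
      obtain ⟨a5, a6⟩ := rep _ (K1 x (hS' x a3)).1
      obtain ⟨b5, b6⟩ := rep _ (K1 x' (hS' x' b3)).1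
      have := (inv _ a5 _ b5 (by rw [a6, b6, a4, b4])).1 (a2.trans b2.symm)
      rw [a6, b6] at this
      simp only at e
      exact K2 x (hS' x a3) x' (hS' x' b3) (Prod.ext (a4.trans b4.symm)
        (Prod.ext this.1 (Prod.ext this.2.1 (by omega))))
    · refine card_le_card_of_injOn (fun y => β * nb.length + y) (fun y hy => ?_)
        fun _ _ _ _ e => Nat.add_left_cancel e
      obtain ⟨_, hz, hy⟩ := mem_biUnion.1 (mem_coe.1 hy)
      obtain ⟨x, hx, rfl⟩ := mem_image.1 hz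
      obtain ⟨a, b⟩ := mem_filter.1 hx
      have l := lt _ _ (List.mem_toFinset.1 hy)
      refine mem_coe.2 (mem_filter.2 ⟨mem_biUnion.2 ⟨x, a, List.mem_toFinset.2 ?_⟩, ?_⟩)
      · rw [(K1 x (hS' x a)).2, b]
        exact List.mem_map_of_mem (List.mem_toFinset.1 hy)
      · simp only
        rw [add_comm, Nat.add_mul_div_right _ _ (by omega), Nat.div_eq_of_lt l, zero_add]
  obtain ⟨m1, m2⟩ := mate_spec hall
  have val : ∀ c < m, idx (uniq ks) (κ c) < (uniq ks).length ∧ K (idx (uniq ks) (κ c)) = κ c ∧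
      (rdNext nb Y ks).getD c 0 ∈ nb.getD (Y.getD c 0) [] ∧
      (mate (rdAdj nb Y ks)).getD (idx (uniq ks) (κ c)) 0 =
        (κ c).1 * nb.length + (rdNext nb Y ks).getD c 0 := fun c hc => by
    have h0 : κ c ∈ ks := List.mem_map_of_mem (List.mem_range.2 hc)
    obtain ⟨h1, h2⟩ := rd_idx ((u2 _).2 h0)
    replace h2 : K (idx (uniq ks) (κ c)) = κ c := (List.getD_eq_getElem _ _ h1).trans h2
    have h3 := m1 _ (len ▸ h1)
    obtain ⟨a, b⟩ := rep _ h0
    rw [(K1 _ h1).2, h2, (inv _ a c hc (by rw [b])).2 (by simp [b])] at h3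
    obtain ⟨y, hy, e⟩ := List.mem_map.1 h3
    have l := lt _ _ hy
    have h4 : (rdNext nb Y ks).getD c 0 = y := by
      have : (rdNext nb Y ks).getD c 0 = (mate (rdAdj nb Y ks)).getD (idx (uniq ks) (κ c)) 0 %
          nb.length % (nb.length + 1) := by
        rw [rdNext, List.getD_eq_getElem _ _ (by simpa [hks] using hc), List.getElem_map]
        simp only [hks, List.getElem_map, List.getElem_range]
      rw [this, ← e, Nat.mul_add_mod_self_right, Nat.mod_eq_of_lt l, Nat.mod_eq_of_lt (by omega)]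
    exact ⟨h1, h2, h4 ▸ hy, h4 ▸ e.symm⟩
  intro c hc
  obtain ⟨a1, a2, a3, a4⟩ := val c hc
  refine ⟨a3, fun c' hc' e => ?_⟩
  obtain ⟨b1, b2, -, b4⟩ := val c' hc'
  refine ⟨fun k => ?_, fun k => ?_⟩
  · rw [← a2, m2 _ (len ▸ a1) _ (len ▸ b1) (a4.trans (by rw [b4, e, k])), b2]
  · rw [k, b4] at a4
    exact (Nat.add_left_cancel a4).symm

theorem rounds_spec {h : Un} {a : ℕ} {nb : List (List ℕ)} {c0 c1 be b0 b1 s : List ℕ}
    (onto : ∀ p < a, ∀ q < a, ∃ y < nb.length, c0.getD y 0 = p ∧ c1.getD y 0 = q)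
    (lt : ∀ y, ∀ y' ∈ nb.getD y [], y' < nb.length) (big : 32 * a ^ 2 ≤ nb.length)
    (grow : ∀ Z ⊆ range nb.length, 16 * #Z ≤ nb.length →
      8 * #Z ≤ #(Z.biUnion fun y => (nb.getD y []).toFinset))
    (h0 : ∀ c < be.length, b0.getD c 0 < a) (h1 : ∀ c < be.length, b1.getD c 0 < a)
    (hs : ∀ c < be.length, s.getD c 0 < 8 ^ h.n)
    (cnt : ∀ β, #(({c ∈ range be.length | be.getD c 0 = β} : Finset ℕ).image fun c =>
      (b0.getD c 0, b1.getD c 0, s.getD c 0)) ≤ 2 * a ^ 2) :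
    (∀ i ≤ h.n, ∀ c < be.length, mget (rounds h nb c0 c1 be b0 b1 s) i c 0 < nb.length) ∧
    (∀ c < be.length, c0.getD (mget (rounds h nb c0 c1 be b0 b1 s) 0 c 0) 0 = b0.getD c 0 ∧
      c1.getD (mget (rounds h nb c0 c1 be b0 b1 s) 0 c 0) 0 = b1.getD c 0) ∧
    (∀ i < h.n, ∀ c < be.length, mget (rounds h nb c0 c1 be b0 b1 s) (i + 1) c 0 ∈
      nb.getD (mget (rounds h nb c0 c1 be b0 b1 s) i c 0) []) ∧
    ∀ i ≤ h.n, ∀ c < be.length, ∀ c' < be.length, be.getD c 0 = be.getD c' 0 →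
      mget (rounds h nb c0 c1 be b0 b1 s) i c 0 = mget (rounds h nb c0 c1 be b0 b1 s) i c' 0 →
      b0.getD c 0 = b0.getD c' 0 ∧ b1.getD c 0 = b1.getD c' 0 ∧
        s.getD c 0 / 8 ^ (h.n - i) = s.getD c' 0 / 8 ^ (h.n - i) := by
  have c0' : ∀ c < be.length, (rdCol nb c0 c1 be b0 b1).getD c 0 < nb.length ∧
      c0.getD ((rdCol nb c0 c1 be b0 b1).getD c 0) 0 = b0.getD c 0 ∧
      c1.getD ((rdCol nb c0 c1 be b0 b1).getD c 0) 0 = b1.getD c 0 ∧
      (rdCol nb c0 c1 be b0 b1).getD c 0 = idx ((List.range nb.length).map fun y =>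
        (c0.getD y 0, c1.getD y 0)) (b0.getD c 0, b1.getD c 0) := fun c hc => by
    obtain ⟨y, hy, e⟩ := onto _ (h0 c hc) _ (h1 c hc)
    have e1 : (rdCol nb c0 c1 be b0 b1).getD c 0 = idx ((List.range nb.length).map fun y =>
        (c0.getD y 0, c1.getD y 0)) (b0.getD c 0, b1.getD c 0) := by
      rw [rdCol, List.getD_eq_getElem _ _ (by simpa [urange, ulen] using hc), List.getElem_map]
      simp only [urange, ulen, List.getElem_range]
    obtain ⟨e2, e3⟩ := rd_idx (List.mem_map.2 ⟨y, List.mem_range.2 hy,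
      Prod.ext e.1 e.2⟩ : (b0.getD c 0, b1.getD c 0) ∈ (List.range nb.length).map fun y =>
        (c0.getD y 0, c1.getD y 0))
    rw [List.getElem_map, List.getElem_range, ← e1] at e3
    rw [List.length_map, List.length_range, ← e1] at e2
    exact ⟨e2, congrArg Prod.fst e3, congrArg Prod.snd e3, e1⟩
  have key : ∀ i ≤ h.n, ((∀ c < be.length, (rdAll h nb c0 c1 be b0 b1 s i).getD c 0 < nb.length) ∧
      ∀ c < be.length, ∀ c' < be.length, be.getD c 0 = be.getD c' 0 →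
        ((rdAll h nb c0 c1 be b0 b1 s i).getD c 0 = (rdAll h nb c0 c1 be b0 b1 s i).getD c' 0 ↔
        b0.getD c 0 = b0.getD c' 0 ∧ b1.getD c 0 = b1.getD c' 0 ∧
          s.getD c 0 / 8 ^ (h.n - i) = s.getD c' 0 / 8 ^ (h.n - i))) ∧
      ∀ j, i = j + 1 → ∀ c < be.length, (rdAll h nb c0 c1 be b0 b1 s i).getD c 0 ∈
        nb.getD ((rdAll h nb c0 c1 be b0 b1 s j).getD c 0) [] := fun i => by
    induction i with
    | zero =>
      refine fun _ => ⟨⟨fun c hc => (c0' c hc).1, fun c hc c' hc' _ => ?_⟩, fun j e => by omega⟩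
      obtain ⟨-, a2, a3, a4⟩ := c0' c hc
      obtain ⟨-, b2, b3, b4⟩ := c0' c' hc'
      rw [rdAll, Nat.sub_zero, Nat.div_eq_of_lt (hs c hc), Nat.div_eq_of_lt (hs c' hc')]
      exact ⟨fun e => ⟨by rw [← a2, e, b2], by rw [← a3, e, b3], rfl⟩,
        fun e => by rw [a4, b4, e.1, e.2.1]⟩
    | succ i ih =>
      intro hi
      obtain ⟨⟨i1, i2⟩, -⟩ := ih (by omega)
      have e : 8 ^ (h.n - i) = 8 ^ (h.n - i - 1) * 8 := by
        rw [← pow_succ]
        congr 1
        omega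
      have st := rd_next (κ := fun c => (be.getD c 0, b0.getD c 0, b1.getD c 0,
        s.getD c 0 / 8 ^ (h.n - i - 1))) lt grow i1
        (fun c hc c' hc' k => by simpa only [Nat.div_div_eq_div_mul, ← e] using i2 c hc c' hc' k)
        fun β => by
          refine le_trans (Nat.mul_le_mul_left _ ((rd_img fun c hc c' hc' k => ?_).trans (cnt β)))
            (by omega)
          obtain ⟨a1, a2⟩ := mem_filter.1 hc
          obtain ⟨b1, b2⟩ := mem_filter.1 hc'
          simp only [Prod.mk.injEq] at k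
          exact (i2 c (mem_range.1 a1) c' (mem_range.1 b1) (a2.trans b2.symm)).2
            ⟨k.1, k.2.1, by rw [k.2.2]⟩
      refine ⟨⟨fun c hc => lt _ _ (st c hc).1, fun c hc c' hc' k => ((st c hc).2 c' hc' k).trans ?_⟩,
        fun j e c hc => ?_⟩
      · simp only [Prod.mk.injEq, k, true_and, Nat.sub_sub]
      · obtain rfl : i = j := by omega
        exact (st c hc).1
  refine ⟨fun i hi c hc => ?_, fun c hc => ?_, fun i hi c hc => ?_, fun i hi c hc c' hc' e k => ?_⟩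
  · rw [rd_mget _ _ _ _ _ _ _ _ hi]
    exact (key i hi).1.1 c hc
  · rw [rd_mget _ _ _ _ _ _ _ _ (Nat.zero_le _)]
    exact ⟨(c0' c hc).2.1, (c0' c hc).2.2.1⟩
  · rw [rd_mget _ _ _ _ _ _ _ _ hi, rd_mget _ _ _ _ _ _ _ _ hi.le]
    exact (key _ hi).2 i rfl c hc
  · rw [rd_mget _ _ _ _ _ _ _ _ hi, rd_mget _ _ _ _ _ _ _ _ hi] at k
    exact ((key i hi).1.2 c hc c' hc' e).1 k

@[fun_prop] theorem rounds_PT {α : Type} [N487b59b3 α] {h : α → Un} {nb : α → List (List ℕ)}
    {c0 c1 be b0 b1 s : α → List ℕ} (hh : PT h) (hn : PT nb) (g0 : PT c0) (g1 : PT c1) (he : PT be)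
    (h0 : PT b0) (h1 : PT b1) (hs : PT s) :
    PT fun a => rounds (h a) (nb a) (c0 a) (c1 a) (be a) (b0 a) (b1 a) (s a) := by
  refine PT.foldlA (g := fun a => rdStep (h a) (nb a) (be a) (b0 a) (b1 a) (s a)) ?_ ?_
    (by fun_prop) (B := fun x => 2 * (sz (be x.1) * (2 * sz (nb x.1) + 1)) + 1) ?_ fun a Z i => ?_
  · unfold rdStep rdNext rdAdj rdKeys
    fun_prop
  · unfold rdCol
    fun_prop
  · exact ((PB.const 2).mul ((PB.of_PT (by fun_prop)).mul (((PB.const 2).mul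
      (PB.of_PT (by fun_prop))).add (PB.const 1)))).add (PB.const 1)
  · rw [rdStep, sz_append, sz_cons, sz_nil, rdNext]
    have e := sz_map_le (rdKeys (be a) (b0 a) (b1 a) (s a) (pw 8 (h a) ((h a).n - i - 1)))
      (fun k => (mate (rdAdj (nb a) (Z.getD i []) (rdKeys (be a) (b0 a) (b1 a) (s a)
        (pw 8 (h a) ((h a).n - i - 1))))).getD (idx (uniq (rdKeys (be a) (b0 a) (b1 a) (s a)
        (pw 8 (h a) ((h a).n - i - 1)))) k) 0 % (nb a).length % ((nb a).length + 1)) (sz (nb a))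
      fun k _ => (sz_nat_le _).trans ((Nat.le_of_lt_succ (Nat.mod_lt _ (Nat.succ_pos _))).trans
        (length_le_sz _))
    have e2 := e.trans (Nat.mul_le_mul_right _ (show _ ≤ sz (be a) by
      simpa [rdKeys, urange, ulen] using length_le_sz (be a)))
    simp only
    omega

end Pool.Agent.Lib.MP_45faa6_lc.EN
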