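import Pool.Agent.Lib.MP_45faa6_lc.EN.CBenes

/-!
The packets of one slot.
-/

set_option autoImplicit false

namespace Pool.Agent.Lib.MP_45faa6_lc.EN

open Finset Pool.Agent.Lib.MP_45faa6_lc.NL Pool.Agent.Lib.MP_acf5a6_lc
  Pool.Agent.Lib.Common.CookLevin

/-- The last earlier place with the same entry, if there is one. -/
def prevs (v : List ℕ) (j : ℕ) : List ℕ :=
  (urange (ulen v)).filter fun k => decide (k < j) && decide (v.getD k 0 = v.getD j 0) &&
    (urange (ulen v)).all fun l => !(decide (k < l) && decide (l < j) &&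
      decide (v.getD l 0 = v.getD j 0))

/-- The row where packet `j` starts. -/
def inRow (b : ℕ) (v : List ℕ) (j : ℕ) : ℕ :=
  cond (prevs v j).isEmpty (v.getD j 0 % b) (b + (prevs v j).headD 0)

/-- All starting rows. -/
def insL (b : ℕ) (v : List ℕ) : List ℕ := (urange (ulen v)).map (inRow b v)

/-- All final rows. -/
def outL (b : ℕ) (v : List ℕ) : List ℕ := (urange (ulen v)).map fun j => b + j

/-- The middle rows. -/
def midL (h N : Un) (b : ℕ) (v : List ℕ) : List ℕ := benes h N (insL b v) (outL b v)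

/-- The entry of the packet that passes row `ρ`. -/
def look (p : ℕ) (l w v : List ℕ) (ρ : ℕ) : ℕ :=
  v.getD (((urange (ulen v)).filter fun t =>
    decide (mix p (l.getD t 0) (w.getD t 0) = ρ)).headD 0) 0

/-- Labels of the forward register. -/
def labF (h N : Un) (b : ℕ) (v : List ℕ) (i ρ : ℕ) : ℕ :=
  if i = h.n then (if ρ < b then v.headD 0 / b * b + ρ else v.getD (ρ - b) 0)
  else look (pw 2 h i) (insL b v) (midL h N b v) v ρ

/-- Labels of the backward register. -/
def labW (h N : Un) (b : ℕ) (v : List ℕ) (i ρ : ℕ) : ℕ :=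
  look (pw 2 h i) (outL b v) (midL h N b v) v ρ

variable {h N : Un} {b : ℕ} {v : List ℕ}

theorem prevs_mem {j k : ℕ} : k ∈ prevs v j ↔ k < v.length ∧ k < j ∧ v.getD k 0 = v.getD j 0 ∧
    ∀ l < v.length, k < l → l < j → v.getD l 0 ≠ v.getD j 0 := by
  simp only [prevs, urange, ulen, List.mem_filter, List.mem_range, Bool.and_eq_true,
    decide_eq_true_eq, List.all_eq_true, Bool.not_eq_true', Bool.and_eq_false_imp,
    decide_eq_false_iff_not, and_imp, and_assoc, ne_eq]

theorem inRow_cases (j : ℕ) (hj : j < v.length) :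
    (inRow b v j = v.getD j 0 % b ∧ ∀ k < j, v.getD k 0 ≠ v.getD j 0) ∨
      ∃ k ∈ prevs v j, inRow b v j = b + k := by
  unfold inRow
  cases e : (prevs v j).isEmpty
  · exact Or.inr ⟨_, auc_head (fun e' => by simp [e'] at e) 0, rfl⟩
  · refine Or.inl ⟨rfl, fun k hk e' => ?_⟩
    obtain ⟨l, hl, hm⟩ := exists_max_image ({l ∈ range j | v.getD l 0 = v.getD j 0} : Finset ℕ) id
      ⟨k, mem_filter.2 ⟨mem_range.2 hk, e'⟩⟩
    obtain ⟨h1, h2⟩ := mem_filter.1 hl
    have h1 := mem_range.1 h1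
    have : l ∈ prevs v j := prevs_mem.2 ⟨by omega, h1, h2, fun m _ m1 m2 m3 =>
      absurd (hm m (mem_filter.2 ⟨mem_range.2 m2, m3⟩)) (not_le.2 m1)⟩
    rw [List.isEmpty_iff.1 e] at this
    exact List.not_mem_nil this

theorem insL_getD {j : ℕ} (hj : j < v.length) : (insL b v).getD j 0 = inRow b v j := by
  simp [insL, urange, ulen, hj]

theorem outL_getD {j : ℕ} (hj : j < v.length) : (outL b v).getD j 0 = b + j := by
  simp [outL, urange, ulen, hj]

theorem insL_length : (insL b v).length = v.length := by simp [insL, urange, ulen]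

theorem inRow_lt (hb : 0 < b) (hl : v.length ≤ b) {j : ℕ} (hj : j < v.length) :
    inRow b v j < 2 * b := by
  rcases inRow_cases (b := b) j hj with ⟨e, -⟩ | ⟨k, hk, e⟩
  · have := Nat.mod_lt (v.getD j 0) hb
    omega
  · have := (prevs_mem.1 hk).1
    omega

theorem inRow_inj (hb : 0 < b) (hv : ∀ j < v.length, v.getD j 0 / b = v.headD 0 / b) {j k : ℕ}
    (hk : k < v.length) (hjk : j < k) : inRow b v j ≠ inRow b v k := by
  intro e
  have hj : j < v.length := by omega
  have m1 := Nat.mod_lt (v.getD j 0) hb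
  have m2 := Nat.mod_lt (v.getD k 0) hb
  rcases inRow_cases (b := b) j hj with ⟨e1, -⟩ | ⟨j', hj', e1⟩ <;>
    rcases inRow_cases (b := b) k hk with ⟨e2, h2⟩ | ⟨k', hk', e2⟩
  · refine h2 j hjk ?_
    rw [← Nat.div_add_mod (v.getD j 0) b, ← Nat.div_add_mod (v.getD k 0) b, hv j hj, hv k hk, ← e1,
      ← e2, e]
  · omega
  · omega
  · obtain rfl : j' = k' := by omega
    obtain ⟨-, p1, p2, -⟩ := prevs_mem.1 hj'
    obtain ⟨-, -, q2, q3⟩ := prevs_mem.1 hk'
    exact q3 j hj p1 hjk (p2.symm.trans q2)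

theorem look_eq {p : ℕ} {l w : List ℕ} {t : ℕ} (ht : t < v.length)
    (hi : ∀ t' < v.length, mix p (l.getD t' 0) (w.getD t' 0) = mix p (l.getD t 0) (w.getD t 0) →
      t' = t) : look p l w v (mix p (l.getD t 0) (w.getD t 0)) = v.getD t 0 := by
  unfold look
  obtain ⟨h1, h2⟩ := List.mem_filter.1 (auc_head (l := (urange (ulen v)).filter fun t' =>
    decide (mix p (l.getD t' 0) (w.getD t' 0) = mix p (l.getD t 0) (w.getD t 0)))
    (List.ne_nil_of_mem (List.mem_filter.2 ⟨List.mem_range.2 ht, decide_eq_true rfl⟩)) 0)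
  rw [hi _ (List.mem_range.1 h1) (of_decide_eq_true h2)]

theorem labF_top {j : ℕ} : labF h N b v h.n (b + j) = v.getD j 0 := by
  rw [labF, if_pos rfl, if_neg (by omega), Nat.add_sub_cancel_left]

theorem slot_spec (hN : N.n = 2 ^ h.n) (h2 : 2 * b = N.n) (hl : v.length ≤ b)
    (hv : ∀ j < v.length, v.getD j 0 / b = v.headD 0 / b) {t : ℕ} (ht : t < v.length) :
    (midL h N b v).getD t 0 < 2 ^ h.n ∧ inRow b v t < 2 ^ h.n ∧ ∀ i ≤ h.n,
      labF h N b v i (mix (2 ^ i) (inRow b v t) ((midL h N b v).getD t 0)) = v.getD t 0 ∧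
      labW h N b v i (mix (2 ^ i) (b + t) ((midL h N b v).getD t 0)) = v.getD t 0 := by
  have hb : 0 < b := by omega
  obtain ⟨s1, s2⟩ := benes_spec hN (ins := insL b v) (outs := outL b v)
    (List.Nodup.map_on (fun j hj k hk e => by
      rcases lt_trichotomy j k with l | l | l
      · exact absurd e (inRow_inj hb hv (List.mem_range.1 hk) l)
      · exact l
      · exact absurd e.symm (inRow_inj hb hv (List.mem_range.1 hj) l)) List.nodup_range)
    (List.Nodup.map_on (fun j _ k _ e => by omega) List.nodup_range)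
    (fun x hx => by
      obtain ⟨j, hj, rfl⟩ := List.mem_map.1 hx
      exact h2 ▸ inRow_lt hb hl (List.mem_range.1 hj))
    (fun x hx => by
      obtain ⟨j, hj, rfl⟩ := List.mem_map.1 hx
      have : j < v.length := List.mem_range.1 hj
      omega) (by simp [insL, outL])
  rw [insL_length] at s1 s2
  have w1 : (midL h N b v).getD t 0 < 2 ^ h.n := hN ▸ s1 t ht
  have w2 : inRow b v t < 2 ^ h.n := hN ▸ h2 ▸ inRow_lt hb hl ht
  refine ⟨w1, w2, fun i hi => ⟨?_, ?_⟩⟩
  · rw [labF]
    split_ifs with e e'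
    · rw [e, mix_top _ w2 w1] at e' ⊢
      rcases inRow_cases (b := b) t ht with ⟨e1, -⟩ | ⟨k, -, e1⟩
      · rw [e1, ← hv t ht, Nat.div_add_mod']
      · omega
    · rw [e, mix_top _ w2 w1] at e' ⊢
      rcases inRow_cases (b := b) t ht with ⟨e1, -⟩ | ⟨k, hk, e1⟩
      · exact absurd (e1 ▸ Nat.mod_lt _ hb) e'
      · rw [e1, Nat.add_sub_cancel_left, (prevs_mem.1 hk).2.2.1]
    · rw [pw_eq 2 hi, ← insL_getD ht]
      exact look_eq ht fun t' ht' e' => (s2 i hi t' ht' t ht).1 e'
  · rw [labW, pw_eq 2 hi, ← outL_getD ht]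
    exact look_eq ht fun t' ht' e' => (s2 i hi t' ht' t ht).2 e'

variable {α : Type} [N487b59b3 α]

@[fun_prop] theorem prevs_PT {v : α → List ℕ} {j : α → ℕ} (hv : PT v) (hj : PT j) :
    PT fun a => prevs (v a) (j a) := by
  unfold prevs; fun_prop

@[fun_prop] theorem inRow_PT {v : α → List ℕ} {b j : α → ℕ} (hb : PT b) (hv : PT v) (hj : PT j) :
    PT fun a => inRow (b a) (v a) (j a) := by
  unfold inRow; fun_prop

@[fun_prop] theorem insL_PT {v : α → List ℕ} {b : α → ℕ} (hb : PT b) (hv : PT v) :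
    PT fun a => insL (b a) (v a) := by
  unfold insL; fun_prop

@[fun_prop] theorem outL_PT {v : α → List ℕ} {b : α → ℕ} (hb : PT b) (hv : PT v) :
    PT fun a => outL (b a) (v a) := by
  unfold outL; fun_prop

@[fun_prop] theorem midL_PT {h N : α → Un} {v : α → List ℕ} {b : α → ℕ} (hh : PT h) (hN : PT N)
    (hb : PT b) (hv : PT v) : PT fun a => midL (h a) (N a) (b a) (v a) := by
  unfold midL; fun_prop

@[fun_prop] theorem look_PT {l w v : α → List ℕ} {p ρ : α → ℕ} (hp : PT p) (hl : PT l) (hw : PT w)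
    (hv : PT v) (hρ : PT ρ) : PT fun a => look (p a) (l a) (w a) (v a) (ρ a) := by
  unfold look; fun_prop

@[fun_prop] theorem labF_PT {h N : α → Un} {v : α → List ℕ} {b i ρ : α → ℕ} (hh : PT h) (hN : PT N)
    (hb : PT b) (hv : PT v) (hi : PT i) (hρ : PT ρ) :
    PT fun a => labF (h a) (N a) (b a) (v a) (i a) (ρ a) := by
  unfold labF; fun_prop

@[fun_prop] theorem labW_PT {h N : α → Un} {v : α → List ℕ} {b i ρ : α → ℕ} (hh : PT h) (hN : PT N)
    (hb : PT b) (hv : PT v) (hi : PT i) (hρ : PT ρ) :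
    PT fun a => labW (h a) (N a) (b a) (v a) (i a) (ρ a) := by
  unfold labW; fun_prop

end Pool.Agent.Lib.MP_45faa6_lc.EN
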