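import Pool.Agent.Lib.MP_45faa6_lc.NL.Defs

set_option autoImplicit false

namespace Pool.Agent.Lib.MP_45faa6_lc.EN

open Pool.Agent.Lib.MP_45faa6_lc.NL

/-- The number of distinct variables of a formula. -/
def nvars (φ : CNF) : ℕ := ((φ.flatMap fun c => c).map fun l => l.1).toFinset.card

end Pool.Agent.Lib.MP_45faa6_lc.EN
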