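import Pool.Agent.Lib.MP_45faa6_lc.EN.Ver
import Pool.Agent.Lib.MP_45faa6_lc.EN.Sound
import Pool.Agent.Lib.MP_45faa6_lc.NL.Main
import Pool.Agent.Lib.MP_73cdf8_lc.Sim

/-!
The verifier works on every formula with a good labelling; two verifiers are combined.
-/

set_option autoImplicit false
set_option linter.unusedSectionVars false

namespace Pool.Agent.Lib.MP_45faa6_lc.EN

open Pool.Agent.Lib.MP_45faa6_lc.NL

open Finset Pool.Agent.Lib.MP_acf5a6_lc Pool.Agent.Lib.Common.CookLevin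

variable {F ι : Type} [Field F] [Fintype F] [DecidableEq F] [CharP F 2] [Fintype ι]

theorem Acc.congr {M e K : ℕ} {φ : CNF} {γ : ι → Mat M F} (hγ : ∀ i, γ i ∈ GG M F)
    {lab : Mat M F → Reg → ℕ} {w w' : Word ι → Pt M F → F}
    {u : Mat M F} (hu : u ∈ GG M F) (h : ∀ wd, ∀ v ∈ GG M F, ∀ a, w' wd (v, a) = w wd (v, a))
    (H : Acc e K φ γ lab w u) : Acc e K φ γ lab w' u := by
  refine ⟨fun wd a i => (H.1 wd a i).congr fun c => h wd _ (ee_mem _ _ hu) _, fun τ a ha => ?_⟩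
  have h1 : pp γ τ (fun r => w' (.inl r)) (u, a) = pp γ τ (fun r => w (.inl r)) (u, a) := by
    rcases τ with p | σ
    · simp only [pp, h _ _ hu, h _ _ (mul_mem (hγ _) hu)]
    · simp only [pp, h _ _ hu]
  rw [h1, H.2 τ a ha]
  simp only [h _ _ hu]

theorem exists_proof {M : ℕ} (l : List (Mat M F)) (w : Word ι → Pt M F → F) :
    ∃ π : ℕ → Bool, ∀ wd, ∀ v ∈ l, ∀ a, wrd l π wd (v, a) = w wd (v, a) := by
  have hT : 0 < Fintype.card (Tag F ι) := Fintype.card_pos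
  refine ⟨fun n => decide (w ((Fintype.equivFin (Tag F ι)).symm ⟨n % _, Nat.mod_lt _ hT⟩).1
    (l.getD (n / Fintype.card (Tag F ι)) 1,
      ((Fintype.equivFin (Tag F ι)).symm ⟨n % _, Nat.mod_lt _ hT⟩).2.1) =
    ((Fintype.equivFin (Tag F ι)).symm ⟨n % _, Nat.mod_lt _ hT⟩).2.2), fun wd v hv a => ?_⟩
  rw [← dec_eq (w wd (v, a)), wrd]
  congr 1
  funext c
  have h1 : (⟨posT (l.map toL) (toL v) (wd, a, c) % _, Nat.mod_lt _ hT⟩ :
      Fin (Fintype.card (Tag F ι))) = Fintype.equivFin (Tag F ι) (wd, a, c) := by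
    ext
    simp only [posT]
    rw [Nat.mul_add_mod_self_right, Nat.mod_eq_of_lt (Fin.isLt _)]
  have h2 : posT (l.map toL) (toL v) (wd, a, c) / Fintype.card (Tag F ι) = l.idxOf v := by
    rw [posT, add_comm, Nat.add_mul_div_right _ _ hT, Nat.div_eq_of_lt (Fin.isLt _), zero_add,
      idx_eq, idxOf_map_inj toL_inj]
  have h3 : l.getD (l.idxOf v) 1 = v := by
    rw [List.getD_eq_getElem _ _ (List.idxOf_lt_length_of_mem hv), List.getElem_idxOf]
  simp only [h1, h2, h3, Equiv.symm_apply_apply]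

theorem vD_iff {e : ℕ} (hF : Fintype.card F = 2 ^ (8 * e)) (he : 1 ≤ e) (V : Dat F ι) (φ : CNF)
    (γ : ι → Mat (V.M φ).n F) (hγ : ∀ i, V.γ φ i = toL (γ i))
    (l : List (Mat (V.M φ).n F)) (h0 : grp V φ = l.map toL) (hl : l.Nodup)
    (hl' : ∀ u, u ∈ l ↔ u ∈ GG (V.M φ).n F) (ρ : List Bool) (π : ℕ → Bool) :
    vD V e (φ, ρ, (vQ V (φ, ρ)).map π) = true ↔ okF φ = true ∧ Acc e (uK (V.M φ)).n φ γ
      (fun v => V.lb φ (toL v)) (wrd l π) (l.getD (valM ρ) 1) := by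
  have hg : gL V φ ρ = toL (l.getD (valM ρ) 1) := by
    rw [gL, h0, oneL_eq, List.getD_map]
  have h1 : V.γ φ = fun i => toL (γ i) := funext hγ
  rw [← chek_iff hF he φ _ γ _ l hl hl']
  simp only [vD, Bool.and_eq_true, decide_eq_true_eq, vQ_getD, hg, h0, h1]

/-- A verifier that is correct on the formulas in `Z`. -/
def PCPOn (Z : Set CNF) (β : ℝ) (r : CNF → ℝ) (E : ℝ) : Prop :=
  ∃ (R : CNF → ℕ) (Q : CNF × List Bool → List ℕ) (D : CNF × List Bool × List Bool → Bool),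
    PT (fun x => List.replicate (R x) true) ∧ PT Q ∧ PT D ∧
    ∀ x ∈ Z, (R x : ℝ) ≤ r x ∧ (∀ ρ : List Bool, ρ.length = R x → ((Q (x, ρ)).length : ℝ) ≤ E) ∧
      (x ∈ ThreeSAT → ∃ π, 1 ≤ accProb R Q D x π) ∧
      (x ∈ ThreeSATᶜ → ∀ π, accProb R Q D x π ≤ β)

/-- The data are good for `φ`. -/
def Dat.Good (V : Dat F ι) (φ : CNF) : Prop :=
  #(GS (V.M φ).n F) ≤ (V.cap φ).n ∧ ∃ g : ι → GG (V.M φ).n F, (∀ i, V.γ φ i = toL (g i).1) ∧
    (okF φ = true → Emb φ (fun i u => g i * u) fun u r => V.lb φ (toL u.1) r)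

theorem engine [N487b59b3 F] (hF : Fintype.card F = 2 ^ (8 * 12)) (V : Dat F ι) (hV : V.Fast) :
    ∃ β : ℝ, 0 < β ∧ β < 1 ∧ ∃ E : ℝ,
      PCPOn {φ | V.Good φ} β (fun φ => Nat.size #(GS (V.M φ).n F)) E := by
  classical
  obtain ⟨C, hC⟩ : ∃ C : ℕ, C = 2 ^ 80 * Fintype.card F ^ 13 := ⟨_, rfl⟩
  have hC0 : 1 ≤ C := by
    rw [hC]; exact Nat.succ_le_of_lt (by have := Fintype.card_pos (α := F); positivity)
  have hC1 : (1 : ℝ) ≤ C := by exact_mod_cast hC0
  have hβ : (0 : ℝ) < 1 / (2 * C) := by positivity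
  have hβ' : (1 : ℝ) / (2 * C) < 1 := by rw [div_lt_one (by positivity)]; linarith
  refine ⟨1 - 1 / (2 * C), by linarith, by linarith, Fintype.card (Qi F ι), vR V, vQ V, vD V 12,
    vR_PT hV, vQ_PT hV, vD_PT hV 12, fun φ hφ => ?_⟩
  obtain ⟨hcap, g, hg, hE⟩ := hφ
  obtain ⟨l, h0, hl, hl', hlen⟩ := enumG_full (V.M φ) (V.cap φ) hcap
  have h0' : grp V φ = l.map toL := h0
  have hR : vR V φ = Nat.size l.length := by rw [vR, h0', List.length_map]
  have hpos : 0 < l.length := hlen ▸ GS_pos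
  have hmem : ∀ n, l.getD n 1 ∈ GG (V.M φ).n F := by
    intro n
    rcases lt_or_ge n l.length with h | h
    · rw [List.getD_eq_getElem _ _ h]; exact (hl' _).1 (List.getElem_mem _)
    · rw [List.getD_eq_default _ _ h]; exact one_mem _
  have hK := (uK_spec hF (by norm_num) (V.M φ)).1
  have key := vD_iff hF (by norm_num) V φ (fun i => (g i).1) hg l h0' hl hl'
  refine ⟨by rw [hR, hlen], fun ρ _ => by rw [vQ_length], fun hφ => ?_, fun hφ π => ?_⟩
  · have hok := okF_of_mem hφ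
    obtain ⟨w, hw⟩ := complete hF (by norm_num) hK hok hφ.2 (fun i => (g i).2)
      fun v => V.lb φ (toL v)
    obtain ⟨π, hπ⟩ := exists_proof l w
    refine ⟨π, ?_⟩
    rw [accProb, filter_true_of_mem fun ρ _ => (key _ π).2
      ⟨hok, (hw _).congr (fun i => (g i).2) (hmem _) fun wd v hv a => hπ wd v ((hl' v).2 hv) a⟩]
    simp
  · by_cases hok : okF φ = true
    swap
    · rw [accProb, filter_false_of_mem fun ρ _ h => hok ((key _ π).1 h).1]
      simp only [card_empty, Nat.cast_zero, zero_div]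
      linarith
    have hns : ¬Sat φ := fun h => hφ ⟨fun c hc => ((okF_iff φ).1 hok c hc).2, h⟩
    have h1 := fun h => hns (sound hF le_rfl hK hok (lab := fun v => V.lb φ (toL v)) (hE hok)
      (wrd l π) h)
    rw [← hC, ← hlen] at h1
    have h2 := not_le.1 h1
    set bad := {u ∈ GS (V.M φ).n F | ¬Acc 12 (uK (V.M φ)).n φ (fun i => (g i).1)
      (fun v => V.lb φ (toL v)) (wrd l π) u}
    have h3 : bad.card ≤ #{ρ : Fin (vR V φ) → Bool |
        ¬vD V 12 (φ, List.ofFn ρ, (vQ V (φ, List.ofFn ρ)).map π) = true} := by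
      refine card_le_card_of_surjOn (fun ρ => l.getD (valM (List.ofFn ρ)) 1) fun u hu => ?_
      obtain ⟨hu1, hu2⟩ := mem_filter.1 (mem_coe.1 hu)
      have hul : u ∈ l := (hl' u).2 ((mem_GS u).1 hu1)
      have hi := List.idxOf_lt_length_of_mem hul
      obtain ⟨ρ, hρ⟩ := exists_valM (vR V φ) (l.idxOf u)
        (hR ▸ hi.trans (Nat.lt_size_self _))
      have hu3 : l.getD (valM (List.ofFn ρ)) 1 = u := by
        rw [hρ, List.getD_eq_getElem _ _ hi, List.getElem_idxOf]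
      refine ⟨ρ, mem_coe.2 (mem_filter.2 ⟨mem_univ _, fun h => hu2 ?_⟩), hu3⟩
      have := ((key _ π).1 h).2
      rwa [hu3] at this
    have h4 := card_filter_add_card_filter_not (s := (univ : Finset (Fin (vR V φ) → Bool)))
      fun ρ => vD V 12 (φ, List.ofFn ρ, (vQ V (φ, List.ofFn ρ)).map π) = true
    have h5 : #(univ : Finset (Fin (vR V φ) → Bool)) = 2 ^ vR V φ := by simp
    have h6 : 2 ^ vR V φ ≤ 2 * (C * bad.card) := by
      rw [hR]; exact (two_pow_size_le hpos).trans (by omega)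
    rw [h5] at h4
    rw [accProb, div_le_iff₀ (by positivity)]
    have h7 : ((2 : ℝ) ^ vR V φ) ≤ 2 * (C * bad.card) := by exact_mod_cast h6
    have h8 : (1 : ℝ) / (2 * C) * 2 ^ vR V φ ≤ bad.card := by
      rw [div_mul_eq_mul_div, one_mul, div_le_iff₀ (by positivity)]; linarith
    have h9 := congrArg (Nat.cast : ℕ → ℝ) h4
    have h10 : (bad.card : ℝ) ≤ _ := Nat.cast_le.2 h3
    push_cast at h9
    linarith

theorem PCPOn.mono {Z Z' : Set CNF} {β E : ℝ} {r r' : CNF → ℝ} (h : PCPOn Z β r E) (hZ : Z' ⊆ Z)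
    (hr : ∀ x ∈ Z', r x ≤ r' x) : PCPOn Z' β r' E := by
  obtain ⟨R, Q, D, h1, h2, h3, h4⟩ := h
  exact ⟨R, Q, D, h1, h2, h3, fun x hx => ⟨(h4 x (hZ hx)).1.trans (hr x hx), (h4 x (hZ hx)).2⟩⟩

theorem PCPOn.of_InPCP {β E : ℝ} {r : CNF → ℝ} (h : InPCP 1 β r (fun _ => E) ThreeSAT ThreeSATᶜ) :
    PCPOn Set.univ β r E := by
  obtain ⟨R, Q, D, h1, h2, h3, h4⟩ := h
  exact ⟨R, Q, D, MP_73cdf8_lc.PT_of_isPolyTime h1, MP_73cdf8_lc.PT_of_isPolyTime h2,
    MP_73cdf8_lc.PT_of_isPolyTime h3, fun x _ => h4 x⟩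

theorem accProb_congr {R R' : CNF → ℕ} {Q Q' : CNF × List Bool → List ℕ}
    {D D' : CNF × List Bool × List Bool → Bool} {x : CNF} (hR : R x = R' x)
    (hQ : ∀ ρ, Q (x, ρ) = Q' (x, ρ)) (hD : ∀ y, D (x, y) = D' (x, y)) (π : ℕ → Bool) :
    accProb R Q D x π = accProb R' Q' D' x π := by
  simp only [accProb, hQ, hD]
  rw [hR]

theorem combine {z : CNF → Bool} (hz : PT z) {β β' E E' : ℝ} {r : CNF → ℝ}
    (h : PCPOn {φ | z φ = true} β r E) (h' : PCPOn {φ | z φ = false} β' r E') :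
    InPCP 1 (max β β') r (fun _ => max E E') ThreeSAT ThreeSATᶜ := by
  obtain ⟨R, Q, D, h1, h2, h3, h4⟩ := h
  obtain ⟨R', Q', D', h1', h2', h3', h4'⟩ := h'
  refine ⟨fun x => cond (z x) (R x) (R' x), fun y => cond (z y.1) (Q y) (Q' y),
    fun y => cond (z y.1) (D y) (D' y), PT.isPolyTime ?_, PT.isPolyTime ?_, PT.isPolyTime ?_,
    fun x => ?_⟩
  · exact (PT.cond' hz h1 h1').of_eq fun x => by dsimp only; cases z x <;> rfl
  · exact PT.cond' (PT.comp hz (by fun_prop)) h2 h2'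
  · exact PT.cond' (PT.comp hz (by fun_prop)) h3 h3'
  cases hx : z x
  · obtain ⟨a1, a2, a3, a4⟩ := h4' x hx
    have e := accProb_congr (R := fun x => cond (z x) (R x) (R' x))
      (Q := fun y => cond (z y.1) (Q y) (Q' y)) (D := fun y => cond (z y.1) (D y) (D' y))
      (R' := R') (Q' := Q') (D' := D') (x := x) (by simp [hx]) (by simp [hx]) (by simp [hx])
    simp only [e, hx, cond_false]
    exact ⟨a1, fun ρ hρ => (a2 ρ hρ).trans (le_max_right _ _), a3,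
      fun h π => (a4 h π).trans (le_max_right _ _)⟩
  · obtain ⟨a1, a2, a3, a4⟩ := h4 x hx
    have e := accProb_congr (R := fun x => cond (z x) (R x) (R' x))
      (Q := fun y => cond (z y.1) (Q y) (Q' y)) (D := fun y => cond (z y.1) (D y) (D' y))
      (R' := R) (Q' := Q) (D' := D) (x := x) (by simp [hx]) (by simp [hx]) (by simp [hx])
    simp only [e, hx, cond_true]
    exact ⟨a1, fun ρ hρ => (a2 ρ hρ).trans (le_max_left _ _), a3,
      fun h π => (a4 h π).trans (le_max_left _ _)⟩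

end Pool.Agent.Lib.MP_45faa6_lc.EN
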