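import Pool.Agent.Lib.MP_45faa6_lc.EN.PolyB
import Pool.Agent.Lib.MP_45faa6_lc.EN.Grp

/-!
Matrices as lists of rows; enumeration of the monoid generated by a list of matrices.
-/

set_option autoImplicit false
set_option linter.unusedSectionVars false

namespace Pool.Agent.Lib.MP_45faa6_lc.EN

open Pool.Agent.Lib.MP_45faa6_lc.NL

open Finset Pool.Agent.Lib.MP_acf5a6_lc Pool.Agent.Lib.Common.CookLevin

/-- Matrices as lists of rows. -/
abbrev LM (F : Type) : Type := List (List F)

variable {F : Type} [Field F]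

/-- The identity matrix. -/
def oneL (F : Type) [Field F] (M : Un) : LM F := mmk M fun a b => if a = b then 1 else 0

/-- Sum. -/
def addL (M : Un) (u v : LM F) : LM F := mmk M fun a b => mget u a b 0 + mget v a b 0

/-- Scalar multiple. -/
def smulL (M : Un) (s : F) (u : LM F) : LM F := mmk M fun a b => s * mget u a b 0

/-- Product. -/
def mulL (M : Un) (u v : LM F) : LM F :=
  mmk M fun a b => ((urange M).map fun c => mget u a c 0 * mget v c b 0).sum

/-- Power. -/
def powL (M : Un) (u : LM F) (k : Un) : LM F := (mulL M u)^[k.n] (oneL F M)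

/-- The matrix `EE M F j`. -/
def EL (F : Type) [Field F] (M : Un) (j : ℕ) : LM F :=
  mmk M fun a b => if patB M j a b = true then 1 else 0

theorem oneL_eq (M : Un) : oneL F M = toL (1 : Mat M.n F) := by
  rw [oneL, mmk_eq_toL]
  congr 1
  funext a b
  rw [Matrix.one_apply]
  exact if_congr Fin.val_inj rfl rfl

theorem addL_toL (M : Un) (u v : Mat M.n F) : addL M (toL u) (toL v) = toL (u + v) := by
  rw [addL, mmk_eq_toL]
  congr 1
  funext a b
  rw [mget_toL, mget_toL, dif_pos ⟨a.isLt, b.isLt⟩, dif_pos ⟨a.isLt, b.isLt⟩, Matrix.add_apply]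

theorem smulL_toL (M : Un) (s : F) (u : Mat M.n F) : smulL M s (toL u) = toL (s • u) := by
  rw [smulL, mmk_eq_toL]
  congr 1
  funext a b
  rw [mget_toL, dif_pos ⟨a.isLt, b.isLt⟩, Matrix.smul_apply, smul_eq_mul]

theorem mulL_toL (M : Un) (u v : Mat M.n F) : mulL M (toL u) (toL v) = toL (u * v) := by
  rw [mulL, mmk_eq_toL]
  congr 1
  funext a b
  rw [sum_urange, Matrix.mul_apply]
  refine sum_congr rfl fun c _ => ?_
  rw [mget_toL, mget_toL, dif_pos ⟨a.isLt, c.isLt⟩, dif_pos ⟨c.isLt, b.isLt⟩]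

theorem powL_toL (M : Un) (u : Mat M.n F) (k : Un) : powL M (toL u) k = toL (u ^ k.n) := by
  rw [powL]
  induction k.n with
  | zero => rw [Function.iterate_zero_apply, oneL_eq, pow_zero]
  | succ j ih => rw [Function.iterate_succ_apply', ih, mulL_toL, pow_succ']

theorem EL_eq (M : Un) (j : ℕ) : EL F M j = toL (EE M.n F j) := by
  rw [EL, mmk_eq_toL]
  congr 1
  funext a b
  simp only [patB_iff, EE, Matrix.of_apply]

variable [Fintype F]

open Classical in
/-- A submonoid as a finite set. -/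
noncomputable def fs {M : ℕ} (S : Submonoid (Mat M F)) : Finset (Mat M F) := univ.filter (· ∈ S)

theorem mem_fs {M : ℕ} (S : Submonoid (Mat M F)) (u : Mat M F) : u ∈ fs S ↔ u ∈ S := by simp [fs]

theorem fs_pos {M : ℕ} (S : Submonoid (Mat M F)) : 0 < #(fs S) :=
  card_pos.2 ⟨1, (mem_fs _ _).2 (one_mem _)⟩

theorem fs_GG (M : ℕ) : fs (GG M F) = GS M F := rfl

variable [DecidableEq F]

/-- New neighbours. -/
def cand (M : Un) (g l : List (LM F)) : List (LM F) :=
  (l.flatMap fun u => g.map fun γ => mulL M γ u).filter fun v => !memb l v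

/-- Add one new element if there is one. -/
def enumStep (M : Un) (g l : List (LM F)) : List (LM F) :=
  cond (cand M g l).isEmpty l ((cand M g l).headD [] :: l)

/-- At most `cap + 1` elements of the monoid generated by `g`. -/
def enumS (M : Un) (g : List (LM F)) (cap : Un) : List (LM F) := (enumStep M g)^[cap.n] [oneL F M]

theorem enum_mem (M : Un) (g l : List (LM F)) (v : LM F) :
    v ∈ cand M g l ↔ (∃ u ∈ l, ∃ γ ∈ g, mulL M γ u = v) ∧ v ∉ l := by
  rw [cand, List.mem_filter, List.mem_flatMap, ← memb_iff (l := l), Bool.not_eq_true',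
    Bool.not_eq_true]
  simp only [List.mem_map]

theorem enum_len {M : ℕ} {S : Submonoid (Mat M F)} {l : List (Mat M F)} (h : l.Nodup)
    (h' : ∀ u ∈ l, u ∈ S) : l.length ≤ #(fs S) := by
  classical
  rw [← List.toFinset_card_of_nodup h]
  exact card_le_card fun u hu => (mem_fs S u).2 (h' u (List.mem_toFinset.1 hu))

theorem enum_aux (M : Un) (g : List (Mat M.n F)) (n : ℕ) : ∃ l : List (Mat M.n F),
    (enumStep M (g.map toL))^[n] [oneL F M] = l.map toL ∧ l.Nodup ∧
      (∀ u ∈ l, u ∈ Submonoid.closure {γ | γ ∈ g}) ∧ 1 ∈ l ∧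
      l.length = min (n + 1) #(fs (Submonoid.closure {γ | γ ∈ g})) := by
  classical
  induction n with
  | zero =>
    refine ⟨[1], congrArg (· :: []) (oneL_eq M), List.nodup_singleton _, fun u hu => ?_,
      List.mem_singleton_self _, (min_eq_left (fs_pos _)).symm⟩
    rw [List.mem_singleton.1 hu]
    exact one_mem _
  | succ n ih =>
    obtain ⟨l, e, h1, h2, h3, h4⟩ := ih
    rw [Function.iterate_succ_apply', e, enumStep]
    cases hc : cand M (g.map toL) (l.map toL) with
    | nil =>
      refine ⟨l, rfl, h1, h2, h3, ?_⟩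
      have h5 : ∀ u ∈ Submonoid.closure {γ | γ ∈ g}, u ∈ l := fun u hu => by
        induction hu using Submonoid.closure_induction_left with
        | one => exact h3
        | mul_left γ hγ u _ ih =>
          by_contra hn
          have h6 : toL (γ * u) ∈ cand M (g.map toL) (l.map toL) :=
            (enum_mem M _ _ _).2 ⟨⟨_, List.mem_map_of_mem ih, _, List.mem_map_of_mem hγ,
              mulL_toL M γ u⟩, fun h => hn ((List.mem_map_of_injective toL_inj).1 h)⟩
          rw [hc] at h6
          exact List.not_mem_nil h6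
      have h6 : #(fs (Submonoid.closure {γ | γ ∈ g})) ≤ l.length := (card_le_card fun u hu =>
        List.mem_toFinset.2 (h5 u ((mem_fs _ u).1 hu))).trans (List.toFinset_card_le l)
      omega
    | cons v t =>
      obtain ⟨⟨u', hu', γ', hγ', hv⟩, hn⟩ := (enum_mem M _ _ v).1 (hc ▸ List.mem_cons_self)
      obtain ⟨u, hu, rfl⟩ := List.mem_map.1 hu'
      obtain ⟨γ, hγ, rfl⟩ := List.mem_map.1 hγ'
      rw [mulL_toL] at hv
      subst hv
      have h5 : (γ * u :: l).Nodup := List.nodup_cons.2 ⟨fun h => hn (List.mem_map_of_mem h), h1⟩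
      have h6 : ∀ w ∈ γ * u :: l, w ∈ Submonoid.closure {γ | γ ∈ g} :=
        List.forall_mem_cons.2 ⟨mul_mem (Submonoid.subset_closure hγ) (h2 u hu), h2⟩
      have h7 := enum_len h5 h6
      refine ⟨_, rfl, h5, h6, List.mem_cons_of_mem _ h3, ?_⟩
      rw [List.length_cons] at h7 ⊢
      omega

theorem enumS_spec (M : Un) (g : List (Mat M.n F)) (cap : Un) {S : Submonoid (Mat M.n F)}
    (hS : S = Submonoid.closure {γ | γ ∈ g}) : ∃ l : List (Mat M.n F),
    enumS M (g.map toL) cap = l.map toL ∧ l.Nodup ∧ (∀ u ∈ l, u ∈ S) ∧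
      l.length = min (cap.n + 1) #(fs S) := by
  subst hS
  obtain ⟨l, e, h1, h2, -, h4⟩ := enum_aux M g cap.n
  exact ⟨l, e, h1, h2, h4⟩

theorem enumS_full (M : Un) (g : List (Mat M.n F)) (cap : Un) {S : Submonoid (Mat M.n F)}
    (hS : S = Submonoid.closure {γ | γ ∈ g}) (hc : #(fs S) ≤ cap.n + 1) : ∃ l : List (Mat M.n F),
    enumS M (g.map toL) cap = l.map toL ∧ l.Nodup ∧ (∀ u, u ∈ l ↔ u ∈ S) ∧ l.length = #(fs S) := by
  classical
  obtain ⟨l, e, h1, h2, h3⟩ := enumS_spec M g cap hS
  have h4 : l.length = #(fs S) := h3.trans (min_eq_right hc)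
  refine ⟨l, e, h1, fun u => ?_, h4⟩
  have h5 : l.toFinset = fs S :=
    eq_of_subset_of_card_le (fun v hv => (mem_fs S v).2 (h2 v (List.mem_toFinset.1 hv)))
      (by rw [List.toFinset_card_of_nodup h1, h4])
  rw [← mem_fs, ← h5, List.mem_toFinset]

variable [N487b59b3 F] {α : Type} [N487b59b3 α]

@[fun_prop] theorem oneL_PT {M : α → Un} (hM : PT M) : PT fun x => oneL F (M x) :=
  mmk_PT (f := fun _ a b => if a = b then (1 : F) else 0) hM (by fun_prop)

@[fun_prop] theorem addL_PT {M : α → Un} {u v : α → LM F} (hM : PT M) (hu : PT u) (hv : PT v) :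
    PT fun x => addL (M x) (u x) (v x) :=
  mmk_PT (f := fun x a b => mget (u x) a b 0 + mget (v x) a b 0) hM (by fun_prop)

@[fun_prop] theorem smulL_PT {M : α → Un} {s : α → F} {u : α → LM F} (hM : PT M) (hs : PT s)
    (hu : PT u) : PT fun x => smulL (M x) (s x) (u x) :=
  mmk_PT (f := fun x a b => s x * mget (u x) a b 0) hM (by fun_prop)

@[fun_prop] theorem mulL_PT {M : α → Un} {u v : α → LM F} (hM : PT M) (hu : PT u) (hv : PT v) :
    PT fun x => mulL (M x) (u x) (v x) :=
  mmk_PT (f := fun x a b => ((urange (M x)).map fun c => mget (u x) a c 0 * mget (v x) c b 0).sum)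
    hM (by fun_prop)

/-- Every `mmk` over the field is small. -/
theorem sz_mat {M : α → Un} (hM : PT M) :
    ∃ B : α → ℕ, PB B ∧ ∀ x (f : ℕ → ℕ → F), sz (mmk (M x) f) ≤ B x := by
  obtain ⟨c, h⟩ := exists_sz_le F
  have hB := PB_un hM
  exact ⟨_, hB.mul (((PB.const 2).mul (hB.mul (PB.const (2 * c + 1)))).add (PB.const 1)),
    fun x f => sz_mmk (M x) f c fun _ _ => h _⟩

@[fun_prop] theorem powL_PT {M k : α → Un} {u : α → LM F} (hM : PT M) (hu : PT u) (hk : PT k) :
    PT fun x => powL (M x) (u x) (k x) := by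
  obtain ⟨B, hB, h⟩ := sz_mat (F := F) hM
  exact PT_iterB (g := fun x v => mulL (M x) (u x) v) (by fun_prop) (oneL_PT hM) hk hB
    fun x v => h x _

@[fun_prop] theorem EL_PT {M : α → Un} {j : α → ℕ} (hM : PT M) (hj : PT j) :
    PT fun x => EL F (M x) (j x) :=
  mmk_PT (f := fun x a b => if patB (M x) (j x) a b = true then (1 : F) else 0) hM (by fun_prop)

@[fun_prop] theorem enumS_PT {M cap : α → Un} {g : α → List (LM F)} (hM : PT M) (hg : PT g)
    (hc : PT cap) : PT fun x => enumS (M x) (g x) (cap x) := by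
  obtain ⟨B, hB, h⟩ := sz_mat (F := F) hM
  refine (PT.iterA (g := fun x l => enumStep (M x) (g x) l) (h := fun x => [oneL F (M x)]) ?_
    (by fun_prop) hc (((PB.const 2).mul hB).add (PB.const 1)) fun x l => ?_).of_eq
    fun x => by rw [sz_un, enumS]
  · unfold enumStep cand
    fun_prop
  · rw [enumStep]
    cases hl : cand (M x) (g x) l with
    | nil => exact Nat.le_add_right _ _
    | cons v t =>
      obtain ⟨⟨u, -, γ, -, rfl⟩, -⟩ := (enum_mem (M x) _ l v).1 (hl ▸ List.mem_cons_self)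
      have h1 : sz (mulL (M x) γ u) ≤ _ := h x _
      change sz (mulL (M x) γ u :: l) ≤ _
      rw [sz_cons]
      omega

end Pool.Agent.Lib.MP_45faa6_lc.EN
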