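import Pool.Agent.Lib.MP_45faa6_lc.EN.Mats

/-!
The graded Lang system and the evaluation maps at thickened points.
-/

set_option autoImplicit false

namespace Pool.Agent.Lib.MP_45faa6_lc.EN

open Pool.Agent.Lib.MP_45faa6_lc.NL

open MvPolynomial

variable {M : ℕ}

/-- `t ^ Q + t`. -/
def be {B : Type} [CommRing B] (e : ℕ) (t : B) : B := t ^ 2 ^ (8 * e) + t

/-- Variables: eight `w i` and eight matrices `z i`. -/
abbrev Var (M : ℕ) : Type := Fin 8 ⊕ Fin 8 × Fin M × Fin M

/-- The polynomial ring. -/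
abbrev RR (M : ℕ) (F : Type) [Field F] : Type := MvPolynomial (Var M) F

/-- The matrix of variables `z i`. -/
noncomputable def Zm (M : ℕ) (F : Type) [Field F] (i : Fin 8) : Mat M (RR M F) :=
  Matrix.of fun a b => X (Sum.inr (i, a, b))

variable (F : Type) [Field F] [CharP F 2] {B B' : Type} [CommRing B] [CommRing B'] [Algebra F B]
  [Algebra F B']

/-- One step of the system. -/
def step (e : ℕ) (t : Fin 8 → B) (y : Fin 8 → Mat M B) : Fin 8 → Mat M B :=
  fun i => ee (i - 1) (be e (t (i - 1))) ((y (i - 1)).map (fr F B e))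

variable {F}

/-- The Frobenius conjugates of a rational matrix. -/
def base (e : ℕ) (B : Type) [CommRing B] [Algebra F B] (u : Mat M F) : Fin 8 → Mat M B :=
  fun i => u.map fun x => algebraMap F B (x ^ 2 ^ (e * i.val))

/-- The solution over nilpotent parameters. -/
def YY (e K : ℕ) (t : Fin 8 → B) (u : Mat M F) : Fin 8 → Mat M B :=
  (step F e t)^[8 * K] (base e B u)

/-- Evaluation at the thickened point. -/
noncomputable def ev (e K : ℕ) (t : Fin 8 → B) (x : Pt M F) : RR M F →ₐ[F] B :=
  aeval (Sum.elim (fun i => algebraMap F B (x.2 i) + t i) fun p => YY e K t x.1 p.1 p.2.1 p.2.2)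

theorem ev_w (e K : ℕ) (t : Fin 8 → B) (x : Pt M F) (i : Fin 8) :
    ev e K t x (X (Sum.inl i)) = algebraMap F B (x.2 i) + t i := by simp [ev]

theorem ev_z (e K : ℕ) (t : Fin 8 → B) (x : Pt M F) (i : Fin 8) (a b : Fin M) :
    ev e K t x (X (Sum.inr (i, a, b))) = YY e K t x.1 i a b := by simp [ev]

theorem Zm_map_ev (e K : ℕ) (t : Fin 8 → B) (x : Pt M F) (i : Fin 8) :
    (Zm M F i).map (ev e K t x) = YY e K t x.1 i := by
  ext a b
  simp [Zm, ev_z]

theorem step_succ (e : ℕ) (t : Fin 8 → B) (y : Fin 8 → Mat M B) (i : Fin 8) :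
    step F e t y (i + 1) = ee i (be e (t i)) ((y i).map (fr F B e)) := by
  simp [step]

include F in
theorem be_add (e : ℕ) (s t : B) : be e (s + t) = be e s + be e t := by
  rw [be, be, be, add_pow_two_pow F B]; ring

theorem be_map (e : ℕ) (φ : B →+* B') (t : B) : φ (be e t) = be e (φ t) := by simp [be]

theorem be_algebraMap [Fintype F] {e : ℕ} (hF : Fintype.card F = 2 ^ (8 * e)) (a : F) :
    be e (algebraMap F B a) = 0 := by
  rw [be, ← map_pow, pow_Q hF, add_self F B]

include F in
theorem be_nil (e n : ℕ) {t : B} (ht : t ^ 2 ^ n = 0) : be e t ^ 2 ^ n = 0 := by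
  rw [be, add_pow_two_pow F B, ht, ← pow_mul, mul_comm, pow_mul, ht, zero_pow (by positivity),
    add_zero]

theorem ev_be_zero (e : ℕ) : be e (0 : B) = 0 := by
  rw [be, zero_pow (by positivity), add_zero]

theorem ev_iff (n : ℕ) (z z' : Mat M B) :
    (∀ a b, (z a b - z' a b) ^ 2 ^ n = 0) ↔ z.map (fr F B n) = z'.map (fr F B n) := by
  rw [← Matrix.ext_iff]
  refine forall₂_congr fun a b => ?_
  rw [← fr_apply F B, map_sub, sub_eq_zero, Matrix.map_apply, Matrix.map_apply]

theorem ev_fr_fr (m n : ℕ) (z : Mat M B) :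
    (z.map (fr F B m)).map (fr F B n) = z.map (fr F B (m + n)) := by
  ext a b
  simp only [Matrix.map_apply, fr_apply, ← pow_mul, ← pow_add]

/-- Lemma C. Sketch: induction on `L` (generalising `y y'`, `Function.iterate_succ_apply`); the set
of `x` with `x ^ 2 ^ (e * L) = 0` is the ideal `RingHom.ker (fr F B _)`; the entries of
`step y - step y'` are combinations of `(y - y') ^ 2 ^ e` (`opE_entry`). -/
theorem step_congr (e L : ℕ) (t : Fin 8 → B) (y y' : Fin 8 → Mat M B)
    (h : ∀ i a b, (y i a b - y' i a b) ^ 2 ^ (e * L) = 0) :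
    (step F e t)^[L] y = (step F e t)^[L] y' := by
  induction L generalizing y y' with
  | zero =>
    have : y = y' := by
      funext i
      ext a b
      have h1 := h i a b
      rwa [mul_zero, pow_zero, pow_one, sub_eq_zero] at h1
    rw [this]
  | succ L ih =>
    rw [Function.iterate_succ_apply, Function.iterate_succ_apply]
    refine ih _ _ fun i => (ev_iff (F := F) _ _ _).2 ?_
    have h1 := (ev_iff (F := F) _ _ _).1 (h (i - 1))
    rw [step, step, ee_map, ee_map, ev_fr_fr, ev_fr_fr, ← mul_one_add, add_comm 1 L, h1]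

theorem step_map (e : ℕ) (φ : B →ₐ[F] B') (t : Fin 8 → B) (y : Fin 8 → Mat M B) (i : Fin 8) :
    (step F e t y i).map φ = step F e (fun j => φ (t j)) (fun j => (y j).map φ) i := by
  have h1 := ee_map (i - 1) (be e (t (i - 1))) ((y (i - 1)).map (fr F B e)) (φ : B →+* B')
  rw [be_map] at h1
  refine h1.trans ?_
  show ee _ _ _ = ee _ _ _
  congr 1
  ext a b
  exact map_pow φ _ _

theorem base_map (e : ℕ) (φ : B →ₐ[F] B') (u : Mat M F) (i : Fin 8) :
    (base e B u i).map φ = base e B' u i := by
  ext a b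
  exact φ.commutes _

theorem YY_map (e K : ℕ) (φ : B →ₐ[F] B') (t : Fin 8 → B) (u : Mat M F) (i : Fin 8) :
    (YY e K t u i).map φ = YY e K (fun j => φ (t j)) u i := by
  have h1 : Function.Semiconj (fun (y : Fin 8 → Mat M B) j => (y j).map φ) (step F e t)
      (step F e fun j => φ (t j)) := fun y => funext (step_map e φ t y)
  have h2 := congrFun (h1.iterate_right (8 * K) (base e B u)) i
  rw [show (fun j => (base e B u j).map φ) = base e B' u from funext (base_map e φ u)] at h2
  exact h2

theorem ev_map (e K : ℕ) (φ : B →ₐ[F] B') (t : Fin 8 → B) (x : Pt M F) (Φ : RR M F) :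
    φ (ev e K t x Φ) = ev e K (fun j => φ (t j)) x Φ := by
  have h1 : φ.comp (ev e K t x) = ev e K (fun j => φ (t j)) x := by
    refine MvPolynomial.algHom_ext ?_
    rintro (i | ⟨i, a, b⟩)
    · rw [AlgHom.comp_apply, ev_w, ev_w, map_add, φ.commutes]
    · rw [AlgHom.comp_apply, ev_z, ev_z, ← YY_map, Matrix.map_apply]
  exact AlgHom.congr_fun h1 Φ

/-- The first component as a single chain. Sketch: `(step^[k] y) (k mod 8)` by induction. -/
theorem YY_chain (e K : ℕ) (t : Fin 8 → B) (u : Mat M F) :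
    YY e K t u 0 = (List.range (8 * K)).foldl
      (fun z k => ee (Fin.ofNat 8 k) (be e (t (Fin.ofNat 8 k))) (z.map (fr F B e)))
      (u.map (algebraMap F B)) := by
  have h1 : ∀ (y : Fin 8 → Mat M B) (n : ℕ), (step F e t)^[n] y (Fin.ofNat 8 n) =
      (List.range n).foldl
        (fun z k => ee (Fin.ofNat 8 k) (be e (t (Fin.ofNat 8 k))) (z.map (fr F B e))) (y 0) := by
    intro y n
    induction n with
    | zero => rfl
    | succ n ih =>
      have h2 : Fin.ofNat 8 (n + 1) = Fin.ofNat 8 n + 1 := by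
        refine Fin.ext ?_
        rw [Fin.val_add, Fin.val_ofNat, Fin.val_ofNat, Fin.val_one]
        omega
      rw [Function.iterate_succ_apply', h2, step_succ, ih, List.range_succ, List.foldl_append]
      rfl
  have h3 : Fin.ofNat 8 (8 * K) = 0 := Fin.ext (by rw [Fin.val_ofNat, Nat.mul_mod_right]; rfl)
  have h4 : base e B u 0 = u.map (algebraMap F B) := by
    ext a b
    simp [base]
  have h5 := h1 (base e B u) (8 * K)
  rw [h3, h4] at h5
  exact h5

variable [Fintype F] {e : ℕ} (hF : Fintype.card F = 2 ^ (8 * e))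

include hF

/-- The wrap-around at `i = 7` uses `pow_Q`. -/
theorem base_succ (u : Mat M F) (i : Fin 8) :
    (base e B u i).map (fr F B e) = base e B u (i + 1) := by
  ext a b
  show algebraMap F B _ ^ _ = algebraMap F B _
  rw [← map_pow, ← pow_mul, ← pow_add, ← mul_add_one]
  by_cases h : i.val = 7
  · have h1 : (i + 1).val = 0 := by rw [Fin.val_add, h]; rfl
    rw [h1, h, show e * (7 + 1) = 8 * e from mul_comm e 8, pow_Q hF, mul_zero, pow_zero, pow_one]
  · have h1 : (i + 1).val = i.val + 1 := by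
      have := i.isLt
      rw [Fin.val_add, Fin.val_one]
      omega
    rw [h1]

theorem YY_zero (K : ℕ) (u : Mat M F) : YY e K (fun _ => (0 : B)) u = base e B u := by
  refine Function.iterate_fixed (_root_.funext fun i => ?_) _
  rw [step, ev_be_zero, ee_zero, base_succ hF, sub_add_cancel]

theorem ev_step_cong (n : ℕ) (t : Fin 8 → B) (ht : ∀ i, t i ^ 2 ^ n = 0) (u : Mat M F)
    (y : Fin 8 → Mat M B) (h : ∀ i, (y i).map (fr F B n) = (base e B u i).map (fr F B n))
    (i : Fin 8) : (step F e t y i).map (fr F B n) = (base e B u i).map (fr F B n) := by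
  rw [step, ee_map, fr_apply, be_nil (F := F) e n (ht _), ee_zero, ev_fr_fr, add_comm, ← ev_fr_fr,
    h, ev_fr_fr, add_comm, ← ev_fr_fr, base_succ hF, sub_add_cancel]

/-- Sketch: `step (base) ≡ base` by `base_succ`, `be_nil`; then `step_congr`. -/
theorem YY_fixed (K : ℕ) (t : Fin 8 → B) (ht : ∀ i, t i ^ 2 ^ (e * (8 * K)) = 0) (u : Mat M F) :
    step F e t (YY e K t u) = YY e K t u := by
  rw [YY, ← Function.iterate_succ_apply' (step F e t), Function.iterate_succ_apply]
  exact step_congr e (8 * K) t _ _ fun i =>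
    (ev_iff (F := F) _ _ _).2 (ev_step_cong hF _ t ht u _ (fun _ => rfl) i)

/-- Sketch: induction on the number of steps; being congruent to `base` is preserved. -/
theorem YY_cong (K : ℕ) (t : Fin 8 → B) (ht : ∀ i, t i ^ 2 ^ (e * (8 * K)) = 0) (u : Mat M F)
    (i : Fin 8) (a b : Fin M) :
    (YY e K t u i a b - base e B u i a b) ^ 2 ^ (e * (8 * K)) = 0 := by
  have h1 : ∀ (n : ℕ) (i : Fin 8), ((step F e t)^[n] (base e B u) i).map (fr F B (e * (8 * K))) =
      (base e B u i).map (fr F B (e * (8 * K))) := by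
    intro n
    induction n with
    | zero => exact fun _ => rfl
    | succ n ih =>
      rw [Function.iterate_succ_apply']
      exact ev_step_cong hF _ t ht u _ ih
  exact (ev_iff (F := F) _ _ _).2 (h1 (8 * K) i) a b

omit hF [Fintype F] in
theorem YY_unique (K : ℕ) (t : Fin 8 → B) (u : Mat M F) (y : Fin 8 → Mat M B)
    (hy : step F e t y = y)
    (h : ∀ i a b, (y i a b - base e B u i a b) ^ 2 ^ (e * (8 * K)) = 0) : y = YY e K t u := by
  rw [YY, ← step_congr e (8 * K) t y _ h, Function.iterate_fixed hy]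

/-- Left multiplication commutes with the right directions. Sketch: induction on the number of
steps, `ee_mul_left`, `ee_zero`, `base_succ`, `Matrix.map_mul`. -/
theorem YY_shift (K : ℕ) (t : Fin 8 → B) (h0 : ∀ i ∉ RJ, t i = 0) (γ u : Mat M F) (i : Fin 8) :
    YY e K t (γ * u) i = base e B γ i * YY e K t u i := by
  have h1 : ∀ (n : ℕ) (i : Fin 8), (step F e t)^[n] (base e B (γ * u)) i =
      base e B γ i * (step F e t)^[n] (base e B u) i := by
    intro n
    induction n with
    | zero =>
      exact fun i => Matrix.map_mul (f := (algebraMap F B).comp (fr F F (e * i.val)))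
    | succ n ih =>
      intro i
      rw [Function.iterate_succ_apply', Function.iterate_succ_apply', step, step, ih,
        Matrix.map_mul, base_succ hF, sub_add_cancel]
      by_cases hi : i - 1 ∈ RJ
      · exact ee_mul_left _ ((mem_RJ _).1 hi) _ _ _
      · rw [h0 _ hi, ev_be_zero, ee_zero, ee_zero]
  exact h1 (8 * K) i

/-- The relations hold at every thickened point (from `YY_fixed`, `ee_ee`, `add_self`). -/
theorem ev_rel (K : ℕ) (t : Fin 8 → B) (ht : ∀ i, t i ^ 2 ^ (e * (8 * K)) = 0) (x : Pt M F)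
    (i : Fin 8) (a b : Fin M) :
    ev e K t x (X (Sum.inr (i, a, b)) ^ 2 ^ e -
      ee i (be e (X (Sum.inl i))) (Zm M F (i + 1)) a b) = 0 := by
  have h1 := ee_map i (be e (X (Sum.inl i))) (Zm M F (i + 1)) (ev e K t x : RR M F →+* B)
  rw [be_map] at h1
  have h2 : ev e K t x (ee i (be e (X (Sum.inl i))) (Zm M F (i + 1)) a b) =
      ee i (be e (ev e K t x (X (Sum.inl i)))) ((Zm M F (i + 1)).map (ev e K t x)) a b :=
    congrFun (congrFun h1 a) b
  rw [map_sub, map_pow, h2, ev_z, ev_w, Zm_map_ev, be_add (F := F), be_algebraMap hF, zero_add,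
    ← congrFun (YY_fixed hF K t ht x.1) (i + 1), step_succ, ee_ee, add_self F B, ee_zero,
    Matrix.map_apply, fr_apply, sub_self]

end Pool.Agent.Lib.MP_45faa6_lc.EN
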