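import Pool.Agent.Lib.MP_45faa6_lc.EN.FlyB

/-!
Butterflies in the third block subgroup.
-/

set_option autoImplicit false
set_option linter.unusedSectionVars false

namespace Pool.Agent.Lib.MP_45faa6_lc.EN

open Pool.Agent.Lib.MP_45faa6_lc.NL

open Finset Pool.Agent.Lib.MP_acf5a6_lc Pool.Agent.Lib.Common.CookLevin

variable {F : Type} [Field F]

/-- Positions `pos β i ρ` in `G` with the butterfly moves `τ` and `τ x`. -/
structure Fly {M : ℕ} (G : Submonoid (Mat M F)) (h : ℕ) (τ x : Mat M F)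
    (pos : ℕ → ℕ → ℕ → Mat M F) : Prop where
  tau_mem : τ ∈ G
  x_mem : x ∈ G
  pos_mem : ∀ β i ρ, pos β i ρ ∈ G
  succ : ∀ β i ρ, pos β (i + 1) ρ = τ * pos β i ρ
  bf : ∀ β, ∀ i < h, ∀ ρ ρ', (∀ j < h, j ≠ i → ρ.testBit j = ρ'.testBit j) →
    pos β (i + 1) ρ' = τ * pos β i ρ ∨ pos β (i + 1) ρ' = τ * x * pos β i ρ

/-- A number up to `p` in unary. -/
def unI (p : Un) (i : ℕ) : Un := ulen (rng p i)

theorem unI_n {p : Un} {i : ℕ} (h : i ≤ p.n) : (unI p i).n = i := by simp [unI, ulen, rng_eq h]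

/-- A power of `ET`. -/
def epL (F : Type) [Field F] (M k : Un) : LM F :=
  powL M (addL M (addL M (addL M (EL F M 0) (EL F M 1)) (EL F M 2)) (EL F M 3)) k

/-- A large power of `ET`. -/
def bigL (F : Type) [Field F] (M : Un) : LM F :=
  (fun u => mulL M (mulL M u u) (epL F M ⟨4⟩))^[M.n] (oneL F M)

/-- A monomial. -/
def amL (M : Un) (j : ℕ) (y : LM F) : LM F := mulL M (mulL M (eBL F M 2) (DDL F M j)) y

/-- A Weyl element. -/
def omL (M : Un) (y z : LM F) : LM F :=
  mulL M (mulL M (addL M (oneL F M) (amL M 0 y)) (addL M (oneL F M) (amL M 1 z)))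
    (addL M (oneL F M) (amL M 0 y))

/-- The matrix `τ`. -/
noncomputable def tauL (F : Type) [Field F] (M : Un) : LM F :=
  mulL M (omL M (mulL M (bigL F M) (epL F M ⟨1⟩)) (epL F M ⟨3⟩))
    (omL M (epL F M ⟨1⟩) (mulL M (bigL F M) (epL F M ⟨3⟩)))

/-- The matrix `x`. -/
noncomputable def xL (F : Type) [Field F] (M : Un) : LM F :=
  addL M (oneL F M) (amL M 0 (epL F M ⟨2⟩))

/-- The row switch. -/
def swL (F : Type) [Field F] (M h : Un) (ρ : ℕ) : LM F :=
  (urange h).foldl (fun u i => addL M u (smulL M (cond (ρ.bits.getD i false) 1 0)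
    (amL M 0 (epL F M ((Un.mul ⟨4⟩ (unI h i)).add ⟨2⟩))))) (oneL F M)

/-- A position in the butterfly over `g`. -/
noncomputable def posL (M h : Un) (g : LM F) (i ρ : ℕ) : LM F :=
  mulL M (powL M (tauL F M) (unI h i)) (mulL M (swL F M h ρ) g)

/-- The shifted invariants of `g`. -/
def psL (M h : Un) (g : LM F) : List (LM F) :=
  (urange h).map fun k => mulL M (amL M 1 (epL F M ((Un.mul ⟨4⟩ (unI h k)).add ⟨8⟩))) g

theorem epL_eq (M k : Un) : epL F M k = toL (ET M.n F ^ k.n) := by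
  simp only [epL, EL_eq, addL_toL, powL_toL, ET]

theorem bigL_eq (M : Un) : bigL F M = toL (ET M.n F ^ (4 * (2 ^ M.n - 1))) := by
  have key : ∀ n : ℕ, (fun u => mulL M (mulL M u u) (epL F M ⟨4⟩))^[n] (oneL F M) =
      toL (ET M.n F ^ (4 * (2 ^ n - 1))) := fun n => by
    induction n with
    | zero => exact oneL_eq M
    | succ n ih =>
      have := Nat.two_pow_pos n
      rw [Function.iterate_succ_apply', ih, epL_eq, mulL_toL, mulL_toL, ← pow_add, ← pow_add]
      congr 2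
      rw [pow_succ]
      dsimp only
      omega
  exact key _

theorem amL_toL (M : Un) (j k : ℕ) : amL M j (toL (ET M.n F ^ k)) = toL (am M.n F j k) := by
  rw [amL, eBL_eq, DDL_eq, mulL_toL, mulL_toL, am]

theorem tauL_eq (M : Un) : tauL F M = toL (tau M.n F) := by
  simp only [tauL, omL, bigL_eq, epL_eq, mulL_toL, ← pow_add, amL_toL, oneL_eq, addL_toL, tau, om]

theorem swL_eq (M h : Un) (ρ : ℕ) : swL F M h ρ = toL (1 + sw M.n F h.n ρ) := by
  have key : ∀ n ≤ h.n, (List.range n).foldl (fun u i => addL M u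
      (smulL M (cond (ρ.bits.getD i false) 1 0)
        (amL M 0 (epL F M ((Un.mul ⟨4⟩ (unI h i)).add ⟨2⟩))))) (oneL F M) =
      toL (1 + sw M.n F n ρ) := fun n hn => by
    induction n with
    | zero => simp [oneL_eq, sw]
    | succ n ih =>
      rw [List.range_succ, List.foldl_append, ih (by omega), List.foldl_cons, List.foldl_nil,
        epL_eq, amL_toL, smulL_toL, addL_toL, sw, sw, sum_range_succ, add_assoc,
        Nat.testBit_eq_inth]
      congr 3
      change _ • am M.n F 0 (4 * (unI h n).n + 2) = if ρ.bits.getD n false = true then _ else _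
      rw [unI_n (by omega)]
      cases ρ.bits.getD n false <;> simp
  exact key _ le_rfl

theorem posL_toL (M h : Un) (g : Mat M.n F) {i : ℕ} (hi : i ≤ h.n) (ρ : ℕ) :
    posL M h (toL g) i ρ = toL (tau M.n F ^ i * ((1 + sw M.n F h.n ρ) * g)) := by
  rw [posL, tauL_eq, swL_eq, powL_toL, mulL_toL, mulL_toL, unI_n hi]

theorem mem_psL (M h : Un) (g u : Mat M.n F) :
    toL u ∈ psL M h (toL g) ↔ ∃ k < h.n, am M.n F 1 (4 * (k + 1) + 4) * g = u := by
  simp only [psL, urange, List.mem_map, List.mem_range]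
  refine exists_congr fun k => and_congr_right fun hk => ?_
  rw [epL_eq, amL_toL, mulL_toL, toL_inj.eq_iff]
  change am M.n F 1 (4 * (unI h k).n + 8) * g = u ↔ _
  rw [unI_n hk.le]
  rfl

variable [Fintype F] [DecidableEq F]

/-- The test for a conflict. -/
def cnfL (M h b : Un) (g g' : LM F) : Bool :=
  memb (psL M h g') (mulL M (amL M 1 (epL F M ⟨4⟩)) g) ||
    (memb (psL M h g) (mulL M (amL M 1 (epL F M ⟨4⟩)) g') ||
      memb ((urange b).map fun ρ => mulL M (swL F M h ρ) g') g)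

theorem cnfL_iff (M h b : Un) (hb : b.n = 2 ^ h.n) (g g' : Mat M.n F) :
    cnfL M h b (toL g) (toL g') = true ↔ Cf h.n g g' := by
  simp only [cnfL, Cf, Bool.or_eq_true, memb_iff, epL_eq, amL_toL, mulL_toL, mem_psL, swL_eq,
    urange, List.mem_map, List.mem_range, hb, toL_inj.eq_iff]

/-- All triples of coordinates. -/
def tripL (n h b : Un) : List (ℕ × ℕ × ℕ) :=
  (urange n).flatMap fun β => (urange (h.add ⟨1⟩)).flatMap fun i => (urange b).map fun ρ => (β, i, ρ)

theorem mem_tripL {n h b : Un} {p : ℕ × ℕ × ℕ} :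
    p ∈ tripL n h b ↔ p.1 < n.n ∧ p.2.1 ≤ h.n ∧ p.2.2 < b.n := by
  obtain ⟨β, i, ρ⟩ := p
  simp [tripL, urange, Un.add]

/-- The coordinates of `u` over the base points `B`. -/
noncomputable def cfB (M h b : Un) (B : List (LM F)) (u : LM F) : ℕ × ℕ × ℕ :=
  ((tripL (ulen B) h b).filter fun p => decide (posL M h (B.getD p.1 []) p.2.1 p.2.2 = u)).headD
    (0, 0, 0)

/-- The coordinates `(β, i, ρ)` of `u`; `L` lists the third block subgroup, `b.n = 2 ^ h.n`. -/
noncomputable def cfL (M h b : Un) (L : List (LM F)) (u : LM F) : ℕ × ℕ × ℕ :=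
  cfB M h b (greedy (cnfL M h b) L) u

theorem fly_head {β : Type} {l : List β} {p : β → Bool} {x : β} (d : β) (h1 : x ∈ l)
    (h2 : p x = true) (h3 : ∀ y ∈ l, p y = true → y = x) : (l.filter p).headD d = x := by
  cases e : l.filter p with
  | nil => exact absurd (e ▸ List.mem_filter.2 ⟨h1, h2⟩) List.not_mem_nil
  | cons y t =>
    have := List.mem_filter.1 (e ▸ List.mem_cons_self : y ∈ l.filter p)
    exact h3 y this.1 this.2

theorem fly_spec [CharP F 2] (M h b : Un) (hb : b.n = 2 ^ h.n) (hm : 8 * (h.n + 1) ≤ mm M.n 2)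
    (l : List (Mat M.n F)) (hl : l.Nodup) (hl' : ∀ u, u ∈ l ↔ u ∈ GE M.n F 2) {ν : ℕ}
    (hν : (2 * h.n + 1) * 2 ^ h.n * ν ≤ l.length) :
    ∃ (τ x : Mat M.n F) (pos : ℕ → ℕ → ℕ → Mat M.n F), tauL F M = toL τ ∧ xL F M = toL x ∧
      Fly (GE M.n F 2) h.n τ x pos ∧ ∀ β < ν, ∀ i ≤ h.n, ∀ ρ < 2 ^ h.n,
        cfL M h b (l.map toL) (toL (pos β i ρ)) = (β, i, ρ) := by
  obtain ⟨g1, g2, g3⟩ := greedy_spec (fun a c => cnfL M h b (toL a) (toL c)) l
  have e := greedy_map (cnfL M h b) toL l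
  generalize greedy (fun a c => cnfL M h b (toL a) (toL c)) l = B at g1 g2 g3 e
  have k1 : ∀ g ∈ B, g ∈ GE M.n F 2 := fun g hg => (hl' g).1 (g1 g hg)
  have k2 : ∀ i j (hi : i < B.length) (hj : j < B.length), Cf h.n B[i] B[j] → i = j := by
    have key : ∀ i j (hi : i < B.length) (hj : j < B.length), i < j → ¬ Cf h.n B[i] B[j] :=
      fun i j hi hj hij H => Bool.false_ne_true ((List.pairwise_iff_getElem.1 g2 i j hi hj
        hij).symm.trans ((cnfL_iff M h b hb _ _).2 H))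
    intro i j hi hj H
    rcases lt_trichotomy i j with h1 | h1 | h1
    exacts [absurd H (key i j hi hj h1), h1, absurd H.symm (key j i hj hi h1)]
  have k3 := fly_cover hm hl (fun u => (hl' u).1) k1 (fun g hg g' hg' H => by
      obtain ⟨i, hi, rfl⟩ := List.getElem_of_mem hg
      obtain ⟨j, hj, rfl⟩ := List.getElem_of_mem hg'
      obtain rfl := k2 i j hi hj H
      rfl) fun g hg => (g3 g ((hl' g).2 hg)).elim (fun H => ⟨g, H, Cf.refl g⟩)
    fun ⟨g', h1, h2⟩ => ⟨g', h1, (cnfL_iff M h b hb _ _).1 h2⟩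
  have k4 : ν ≤ B.length := Nat.le_of_mul_le_mul_left (hν.trans k3) (by positivity)
  have k5 : ∀ β, B.getD β 1 ∈ GE M.n F 2 := fun β => by
    rcases lt_or_ge β B.length with h1 | h1
    · rw [List.getD_eq_getElem _ _ h1]
      exact k1 _ (List.getElem_mem h1)
    · rw [List.getD_eq_default _ _ h1]
      exact one_mem _
  refine ⟨tau M.n F, 1 + am M.n F 0 2,
    fun β i ρ => tau M.n F ^ i * ((1 + sw M.n F h.n ρ) * B.getD β 1), tauL_eq M,
    by rw [xL, epL_eq, amL_toL, oneL_eq, addL_toL], ⟨tau_mem, am_mem 0 (by omega),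
      fun β i ρ => mul_mem (pow_mem tau_mem i) (mul_mem (sw_mem _ _) (k5 β)),
      fun β i ρ => by rw [pow_succ', mul_assoc], fun β i hi ρ ρ' H => ?_⟩, fun β hβ i hi ρ hρ => ?_⟩
  · refine (sw_bf (M := M.n) (F := F) hi H).imp (fun h1 => ?_) fun h1 => ?_
    · rw [h1, pow_succ', mul_assoc]
    · rw [h1, pow_succ', mul_assoc, mul_assoc, mul_assoc, ← mul_assoc (1 + am M.n F 0 2), x_tau,
        mul_assoc]
  · have k6 : ∀ β (hβ : β < B.length), (B.map toL).getD β [] = toL B[β] := fun β hβ => by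
      rw [List.getD_eq_getElem _ _ (by simpa using hβ), List.getElem_map]
    have hβ' : β < B.length := by omega
    dsimp only
    rw [cfL, e, cfB, List.getD_eq_getElem _ _ hβ']
    refine fly_head _ (mem_tripL.2 ⟨by simpa [ulen] using hβ', hi, hb ▸ hρ⟩)
      (decide_eq_true (by rw [k6 β hβ', posL_toL M h _ hi])) fun ⟨β', i', ρ'⟩ h1 h2 => ?_
    obtain ⟨h3, h4, h5⟩ := mem_tripL.1 h1
    have h6 : β' < B.length := by simpa [ulen] using h3
    have h7 := of_decide_eq_true h2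
    dsimp only at h4 h5 h7
    rw [hb] at h5
    rw [k6 β' h6, posL_toL M h _ h4, toL_inj.eq_iff] at h7
    rcases le_total i' i with h8 | h8
    · obtain ⟨h9, h10⟩ := pos_inj hm (k1 _ (List.getElem_mem h6)) h8 hi h5 hρ h7
      obtain rfl := k2 _ _ h6 hβ' h9
      rw [(h10 rfl).1, (h10 rfl).2]
    · obtain ⟨h9, h10⟩ := pos_inj hm (k1 _ (List.getElem_mem hβ')) h8 h4 hρ h5 h7.symm
      obtain rfl := k2 _ _ hβ' h6 h9
      rw [(h10 rfl).1, (h10 rfl).2]

variable [N487b59b3 F] {α : Type} [N487b59b3 α]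

@[fun_prop] theorem unI_PT {p : α → Un} {i : α → ℕ} (hp : PT p) (hi : PT i) :
    PT fun a => unI (p a) (i a) := by
  unfold unI rng; fun_prop

@[fun_prop] theorem epL_PT {M k : α → Un} (hM : PT M) (hk : PT k) :
    PT fun a => epL F (M a) (k a) := by
  unfold epL; fun_prop

@[fun_prop] theorem bigL_PT {M : α → Un} (hM : PT M) : PT fun a => bigL F (M a) := by
  obtain ⟨B, hB, h⟩ := sz_mat (F := F) hM
  exact PT_iterB (g := fun x u => mulL (M x) (mulL (M x) u u) (epL F (M x) ⟨4⟩)) (by fun_prop)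
    (oneL_PT hM) hM hB fun x v => h x _

@[fun_prop] theorem amL_PT {M : α → Un} {y : α → LM F} (j : ℕ) (hM : PT M) (hy : PT y) :
    PT fun a => amL (M a) j (y a) := by
  unfold amL; fun_prop

@[fun_prop] theorem tauL_PT {M : α → Un} (hM : PT M) : PT fun a => tauL F (M a) := by
  unfold tauL omL; fun_prop

@[fun_prop] theorem xL_PT {M : α → Un} (hM : PT M) : PT fun a => xL F (M a) := by
  unfold xL; fun_prop

@[fun_prop] theorem swL_PT {M h : α → Un} {ρ : α → ℕ} (hM : PT M) (hh : PT h) (hρ : PT ρ) :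
    PT fun a => swL F (M a) (h a) (ρ a) := by
  obtain ⟨B, hB, H⟩ := sz_mat (F := F) hM
  exact PT_foldlB (g := fun a u i => addL (M a) u (smulL (M a)
    (cond ((ρ a).bits.getD i false) 1 0)
    (amL (M a) 0 (epL F (M a) ((Un.mul ⟨4⟩ (unI (h a) i)).add ⟨2⟩))))) (by fun_prop) (oneL_PT hM)
    (by fun_prop) hB fun x _ _ => H x _

@[fun_prop] theorem posL_PT {M h : α → Un} {g : α → LM F} {i ρ : α → ℕ} (hM : PT M) (hh : PT h)
    (hg : PT g) (hi : PT i) (hρ : PT ρ) : PT fun a => posL (M a) (h a) (g a) (i a) (ρ a) := by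
  unfold posL; fun_prop

@[fun_prop] theorem psL_PT {M h : α → Un} {g : α → LM F} (hM : PT M) (hh : PT h) (hg : PT g) :
    PT fun a => psL (M a) (h a) (g a) := by
  unfold psL; fun_prop

@[fun_prop] theorem cnfL_PT {M h b : α → Un} {g g' : α → LM F} (hM : PT M) (hh : PT h) (hb : PT b)
    (hg : PT g) (hg' : PT g') : PT fun a => cnfL (M a) (h a) (b a) (g a) (g' a) := by
  unfold cnfL; fun_prop

@[fun_prop] theorem cfB_PT {M h b : α → Un} {B : α → List (LM F)} {u : α → LM F} (hM : PT M)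
    (hh : PT h) (hb : PT b) (hB : PT B) (hu : PT u) :
    PT fun a => cfB (M a) (h a) (b a) (B a) (u a) := by
  unfold cfB tripL; fun_prop

@[fun_prop] theorem cfL_PT {M h b : α → Un} {L : α → List (LM F)} {u : α → LM F} (hM : PT M)
    (hh : PT h) (hb : PT b) (hL : PT L) (hu : PT u) :
    PT fun a => cfL (M a) (h a) (b a) (L a) (u a) :=
  cfB_PT hM hh hb (PT.foldlA (g := fun a (B : List (LM F)) (g : LM F) =>
    cond (B.all fun g' => !cnfL (M a) (h a) (b a) g g') (g :: B) B) (by fun_prop) (PT.const _) hL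
    (B := fun x => 2 * sz x.2 + 1) (((PB.const 2).mul (PB.of_PT (by fun_prop))).add (PB.const 1))
    fun a c g => by
      cases c.all fun g' => !cnfL (M a) (h a) (b a) g g' <;> simp; omega) hu

end Pool.Agent.Lib.MP_45faa6_lc.EN
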