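import Pool.Agent.Lib.MP_45faa6_lc.EN.Prod

/-!
Monomials in the third block, the column shift and the row switches.
-/

set_option autoImplicit false
set_option linter.unusedSectionVars false

namespace Pool.Agent.Lib.MP_45faa6_lc.EN

open Pool.Agent.Lib.MP_45faa6_lc.NL

open Finset

variable {M : ℕ} {F : Type} [Field F]

/-- Monomials in the third block. -/
def am (M : ℕ) (F : Type) [Field F] (j k : ℕ) : Mat M F := eB M F 2 * DD M F j * ET M F ^ k

/-- A Weyl element. -/
def om (M : ℕ) (F : Type) [Field F] (r s : ℕ) : Mat M F :=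
  (1 + am M F 0 r) * (1 + am M F 1 s) * (1 + am M F 0 r)

/-- The column shift. -/
def tau (M : ℕ) (F : Type) [Field F] : Mat M F :=
  om M F (4 * (2 ^ M - 1) + 1) 3 * om M F 1 (4 * (2 ^ M - 1) + 3)

/-- The row switch. -/
def sw (M : ℕ) (F : Type) [Field F] (h ρ : ℕ) : Mat M F :=
  ∑ i ∈ range h, if ρ.testBit i = true then am M F 0 (4 * i + 2) else 0

theorem fly_ET (a b : Fin M) : ET M F a b = if PatE M (a.val / 3) a.val b.val then 1 else 0 := by
  have h : ∀ j, PatE M j a.val b.val ↔ PatE M (a.val / 3) a.val b.val ∧ a.val / 3 % 4 = j % 4 :=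
    fun j => by simp only [PatE, and_assoc, true_and]
  simp only [ET, EE, Matrix.add_apply, Matrix.of_apply, h 0, h 1, h 2, h 3]
  by_cases h1 : PatE M (a.val / 3) a.val b.val
  · obtain h2 | h2 | h2 | h2 : a.val / 3 % 4 = 0 ∨ a.val / 3 % 4 = 1 ∨ a.val / 3 % 4 = 2 ∨
      a.val / 3 % 4 = 3 := by omega
    all_goals simp [h1, h2]
  · simp [h1]

theorem fly_eB_ET : eB M F 2 * ET M F = ET M F * eB M F 2 ∧
    eB M F 2 * ET M F = ET M F * eR M F 2 := by
  constructor <;> ext a b <;>
    simp only [eB, eR, Matrix.diagonal_mul, Matrix.mul_diagonal, fly_ET] <;>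
    by_cases h : PatE M (a.val / 3) a.val b.val
  · rw [h.1, mul_comm]
  · simp [h]
  · rw [mul_comm]
    obtain ⟨h1, -, h2, -⟩ := id h
    refine congrArg _ (if_congr ⟨fun h3 => ?_, fun h3 => ?_⟩ rfl rfl)
    · have h4 : a.val % 3 = 2 := by omega
      exact ⟨by omega, h4 ▸ h2⟩
    · omega
  · simp [h]

theorem fly_pow_zero (k : ℕ) (a b : Fin M) (h : a.val / 3 + k < b.val / 3) :
    (ET M F ^ k) a b = 0 := by
  induction k generalizing b with
  | zero => exact Matrix.one_apply_ne fun e => by rw [e] at h; omega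
  | succ k ih =>
    rw [pow_succ, Matrix.mul_apply]
    refine sum_eq_zero fun c _ => ?_
    rw [fly_ET]
    split_ifs with h1
    · have h2 := h1.2.2.2.1
      unfold Pat at h2
      rw [ih c (by omega), zero_mul]
    · exact mul_zero _

theorem fly_pow_one (k : ℕ) (a b : Fin M) (ha : a.val % 3 = 2) (h : b.val = a.val + 3 * k)
    (hb : b.val / 3 < mm M 2) : (ET M F ^ k) a b = 1 := by
  induction k generalizing b with
  | zero => rw [show b = a from Fin.ext h]; exact Matrix.one_apply_eq _
  | succ k ih =>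
    have h0 := b.isLt
    rw [pow_succ, Matrix.mul_apply, sum_eq_single (⟨a.val + 3 * k, by omega⟩ : Fin M)]
    · have h1 : (a.val + 3 * k) % 3 = 2 := by omega
      rw [ih _ rfl (by dsimp only; omega), fly_ET, if_pos, one_mul]
      refine ⟨by dsimp only; omega, ?_, ?_, Or.inl (by dsimp only; omega), rfl⟩ <;>
        dsimp only <;> rw [h1] <;> omega
    · intro c _ hc
      rw [fly_ET]
      split_ifs with h1
      · have h2 := h1.2.2.2.1
        have h3 := h1.1
        have h4 : c.val ≠ a.val + 3 * k := fun e => hc (Fin.ext e)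
        unfold Pat at h2
        rw [fly_pow_zero k a c (by omega), zero_mul]
      · exact mul_zero _
    · exact fun h => absurd (mem_univ _) h

theorem am_apply (j k : ℕ) (a b : Fin M) (ha : a.val = 3 * j + 2) :
    am M F j k a b = (ET M F ^ k) a b := by
  rw [am, eB, DD, Matrix.diagonal_mul_diagonal, Matrix.diagonal_mul, if_pos (by omega),
    if_pos (by omega), one_mul, one_mul]

/-- An entry that sees the monomial of degree `k` and none of smaller degree. -/
theorem am_entry {j k : ℕ} (h : j + k < mm M 2) :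
    ∃ a b : Fin M, am M F j k a b = 1 ∧ ∀ k' < k, am M F j k' a b = 0 := by
  have := mm_le M 2
  refine ⟨⟨3 * j + 2, by omega⟩, ⟨3 * j + 2 + 3 * k, by omega⟩, ?_, fun k' hk => ?_⟩
  · rw [am_apply _ _ _ _ rfl, fly_pow_one k _ _ (by dsimp only; omega) rfl (by dsimp only; omega)]
  · rw [am_apply _ _ _ _ rfl, fly_pow_zero k' _ _ (by dsimp only; omega)]

variable [CharP F 2]

theorem fly_two (u : Mat M F) : u + u = 0 := by
  ext a b
  exact CharTwo.add_self_eq_zero _

theorem fly_DD_pow (j k : ℕ) : DD M F j * ET M F ^ k = ET M F ^ k * DD M F (j + k) := by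
  induction k with
  | zero => simp
  | succ k ih => rw [pow_succ, ← mul_assoc, ih, mul_assoc, DD_comm, ← mul_assoc, add_assoc]

theorem am_mul (j k j' k' : ℕ) : am M F j k * am M F j' k' =
    if (j + k) % 4 = j' % 4 then am M F j (k + k') else 0 := by
  have h1 : ET M F ^ k * eB M F 2 = eB M F 2 * ET M F ^ k :=
    (Commute.pow_right (show Commute (eB M F 2) (ET M F) from fly_eB_ET.1) k).symm
  have h2 : eB M F 2 * DD M F j * eB M F 2 = eB M F 2 * DD M F j := by
    simp only [eB, DD, Matrix.diagonal_mul_diagonal]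
    congr 1
    funext n
    split_ifs <;> simp
  have h3 : DD M F (j + k) * DD M F j' = if (j + k) % 4 = j' % 4 then DD M F (j + k) else 0 := by
    simp only [DD, Matrix.diagonal_mul_diagonal]
    split_ifs with h
    · congr 1
      funext n
      rw [← h]
      split_ifs <;> simp
    · rw [← Matrix.diagonal_zero]
      congr 1
      funext n
      split_ifs with h4 h5
      · exact absurd (h4.symm.trans h5) h
      all_goals simp
  have h4 : am M F j k * am M F j' k' =
      eB M F 2 * (ET M F ^ k * (DD M F (j + k) * DD M F j') * ET M F ^ k') := by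
    rw [← mul_assoc (ET M F ^ k), ← fly_DD_pow, ← mul_assoc, ← mul_assoc, ← mul_assoc, ← h2]
    simp only [am, mul_assoc]
    rw [← mul_assoc (ET M F ^ k) (eB M F 2), h1, mul_assoc]
  rw [h4, h3]
  split_ifs
  · rw [← fly_DD_pow, am, pow_add]
    simp only [mul_assoc]
  · simp

theorem am_mul0 {j k j' k' : ℕ} (h : (j + k) % 4 ≠ j' % 4) : am M F j k * am M F j' k' = 0 := by
  rw [am_mul, if_neg h]

theorem am_mul1 {j k j' k' : ℕ} (h : (j + k) % 4 = j' % 4) :
    am M F j k * am M F j' k' = am M F j (k + k') := by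
  rw [am_mul, if_pos h]

theorem am_per (j : ℕ) {k k' : ℕ} (hk : 0 < k) (h : k' = k + 4 * 2 ^ M) :
    am M F j k' = am M F j k := by
  obtain ⟨k, rfl⟩ := Nat.exists_eq_add_one_of_ne_zero hk.ne'
  have h1 : eB M F 2 * ET M F * (ET M F ^ 4) ^ 2 ^ M = eB M F 2 * ET M F := by
    have h2 : Commute (eB M F 2 * ET M F) (ET M F) :=
      Commute.mul_left (show Commute (eB M F 2) (ET M F) from fly_eB_ET.1) (Commute.refl _)
    rw [((h2.pow_right 4).pow_right _).eq, fly_eB_ET.2, ← mul_assoc,
      (((Commute.refl (ET M F)).pow_left 4).pow_left _).eq, mul_assoc,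
      ET_pow_eR Nat.lt_two_pow_self.le]
  have h3 : ∀ n, am M F j (n + 1) = DD M F j * ET M F ^ n * (eB M F 2 * ET M F) := fun n => by
    have h4 : eB M F 2 * DD M F j = DD M F j * eB M F 2 := Matrix.commute_diagonal _ _
    rw [am, h4, pow_succ, mul_assoc, mul_assoc, ← mul_assoc (eB M F 2), ← mul_assoc _ (eB M F 2),
      (Commute.pow_right (show Commute (eB M F 2) (ET M F) from fly_eB_ET.1) n).eq]
  have h5 : am M F j k' = am M F j (k + 1) * (ET M F ^ 4) ^ 2 ^ M := by
    rw [h, am, am, pow_add, pow_mul]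
    simp only [mul_assoc]
  rw [h5, h3, mul_assoc, h1]

theorem am_mem (j : ℕ) {k : ℕ} (hk : k % 2 = 1 ∨ k % 4 = 2) : 1 + am M F j k ∈ GE M F 2 := by
  have := pr_mem 2 (pow_mem_GG (M := M) j k hk (1 : F))
  rwa [pr, one_smul, mul_add, mul_one, ← add_assoc, sub_add_cancel, ← mul_assoc] at this

theorem tau_mem : tau M F ∈ GE M F 2 := by
  unfold tau om
  repeat' apply mul_mem
  all_goals exact am_mem _ (by omega)

section om

variable {r s k : ℕ} (hr : r % 4 = 1) (hs : r + s = 4 * 2 ^ M)
include hr hs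

theorem om_eq : om M F r s =
    1 + am M F 0 (4 * 2 ^ M) + am M F 1 (4 * 2 ^ M) + am M F 0 r + am M F 1 s := by
  simp (disch := omega) only [om, add_mul, mul_add, one_mul, mul_one, am_mul0, am_mul1, add_zero]
  rw [am_per 0 (k := r) (k' := r + s + r) (by omega) (by omega), hs, add_comm s r, hs,
    ← add_zero (_ + am M F 1 s), ← fly_two (am M F 0 r)]
  abel

variable (hk : 0 < k)
include hk

theorem om_mul : om M F r s * am M F 0 k = am M F 1 (s + k) ∧
    om M F r s * am M F 1 k = am M F 0 (r + k) := by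
  constructor <;>
    simp (disch := omega) only [om_eq hr hs, add_mul, one_mul, am_mul0, am_mul1, add_zero] <;>
    rw [am_per _ (k' := 4 * 2 ^ M + k) hk (by omega), fly_two, zero_add]

theorem mul_om : (k % 4 = 2 → am M F 0 k * om M F r s = am M F 0 k) ∧
    (k % 4 = 0 → am M F 1 k * om M F r s = am M F 1 (k + s)) ∧
    (k % 4 = 3 → am M F 1 k * om M F r s = am M F 1 (k + r)) := by
  refine ⟨fun h => ?_, fun h => ?_, fun h => ?_⟩ <;>
    simp (disch := omega) only [om_eq hr hs, mul_add, mul_one, am_mul0, am_mul1, add_zero] <;>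
    rw [am_per _ hk rfl, fly_two, zero_add]

end om

theorem tau_am {k : ℕ} (hk : 0 < k) : tau M F * am M F 0 (k + 4) = am M F 0 k := by
  have := Nat.two_pow_pos M
  rw [tau, mul_assoc, (om_mul (by omega) (by omega) (by omega)).1,
    (om_mul (by omega) (by omega) (by omega)).2,
    am_per 0 (k := k + 4 * 2 ^ M) (by omega) (by omega), am_per 0 hk rfl]

theorem am_tau0 {k : ℕ} (hk : k % 4 = 2) : am M F 0 k * tau M F = am M F 0 k := by
  have := Nat.two_pow_pos M
  rw [tau, ← mul_assoc, (mul_om (by omega) (by omega) (by omega)).1 hk,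
    (mul_om (by omega) (by omega) (by omega)).1 hk]

theorem am_tau1 {k : ℕ} (h0 : 0 < k) (hk : k % 4 = 0) :
    am M F 1 k * tau M F = am M F 1 (k + 4) := by
  have := Nat.two_pow_pos M
  rw [tau, ← mul_assoc, (mul_om (by omega) (by omega) h0).2.1 hk,
    (mul_om (by omega) (by omega) (by omega)).2.2 (by omega)]

theorem x_tau (i : ℕ) :
    (1 + am M F 0 2) * tau M F ^ i = tau M F ^ i * (1 + am M F 0 (4 * i + 2)) := by
  have h1 : am M F 0 2 * tau M F ^ i = am M F 0 2 := by
    induction i with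
    | zero => simp
    | succ i ih => rw [pow_succ, ← mul_assoc, ih, am_tau0 rfl]
  have h2 : tau M F ^ i * am M F 0 (4 * i + 2) = am M F 0 2 := by
    clear h1
    induction i with
    | zero => simp
    | succ i ih =>
      rw [pow_succ, mul_assoc, show 4 * (i + 1) + 2 = 4 * i + 2 + 4 by omega, tau_am (by omega), ih]
  rw [add_mul, mul_add, one_mul, mul_one, h1, h2]

theorem am_tau_pow (k i : ℕ) : am M F 1 (4 * k + 4) * tau M F ^ i = am M F 1 (4 * (k + i) + 4) := by
  induction i with
  | zero => simp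
  | succ i ih => rw [pow_succ, ← mul_assoc, ih, am_tau1 (by omega) (by omega)]; rfl

theorem am_sw {j k : ℕ} (hk : (j + k) % 4 ≠ 0) (h ρ : ℕ) : am M F j k * sw M F h ρ = 0 := by
  rw [sw, mul_sum]
  refine sum_eq_zero fun i _ => ?_
  split_ifs
  · exact am_mul0 hk
  · exact mul_zero _

theorem sw_add (h ρ ρ' : ℕ) : sw M F h ρ + sw M F h ρ' = sw M F h (ρ ^^^ ρ') := by
  rw [sw, sw, sw, ← sum_add_distrib]
  refine sum_congr rfl fun i _ => ?_
  rw [Nat.testBit_xor]
  cases ρ.testBit i <;> cases ρ'.testBit i <;> simp [fly_two]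

theorem sw_mul (h ρ ρ' : ℕ) :
    (1 + sw M F h ρ) * (1 + sw M F h ρ') = 1 + sw M F h (ρ ^^^ ρ') := by
  have h1 : sw M F h ρ * sw M F h ρ' = 0 := by
    rw [sw, sum_mul]
    refine sum_eq_zero fun i _ => ?_
    split_ifs
    · exact am_sw (by omega) _ _
    · exact zero_mul _
  rw [add_mul, one_mul, mul_add, mul_one, h1, add_zero, add_assoc, add_comm (sw M F h ρ'), sw_add]

theorem sw_zero (h : ℕ) : sw M F h 0 = 0 := by simp [sw]

theorem sw_mem (h ρ : ℕ) : 1 + sw M F h ρ ∈ GE M F 2 := by
  induction h with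
  | zero => simp [sw]
  | succ h ih =>
    rw [sw, sum_range_succ, ← sw]
    split_ifs
    · have := mul_mem (am_mem (M := M) (F := F) 0 (k := 4 * h + 2) (by omega)) ih
      rwa [add_mul, one_mul, mul_add, mul_one, am_sw (by omega), add_zero, add_assoc] at this
    · rwa [add_zero]

theorem sw_ne {h ρ : ℕ} (hm : 8 * (h + 1) ≤ mm M 2) (hρ : ρ < 2 ^ h) (h0 : sw M F h ρ = 0) :
    ρ = 0 := by
  by_contra h1
  obtain ⟨i, h2, h3⟩ := Nat.exists_most_significant_bit h1
  have h4 : i < h := by
    by_contra h4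
    rw [Nat.testBit_lt_two_pow (hρ.trans_le (Nat.pow_le_pow_right two_pos (by omega)))] at h2
    exact Bool.false_ne_true h2
  obtain ⟨a, b, h5, h6⟩ := am_entry (M := M) (F := F) (j := 0) (k := 4 * i + 2) (by omega)
  have h7 := congrFun (congrFun h0 a) b
  rw [sw, Matrix.sum_apply, sum_eq_single i, if_pos h2, h5] at h7
  · exact one_ne_zero h7
  · intro j _ hj
    split_ifs with h8
    · refine h6 _ ?_
      by_contra h9
      rw [h3 j (by omega)] at h8
      exact Bool.false_ne_true h8
    · rfl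
  · exact fun h => absurd (mem_range.2 h4) h

theorem sw_bf {h i ρ ρ' : ℕ} (hi : i < h) (H : ∀ j < h, j ≠ i → ρ.testBit j = ρ'.testBit j) :
    1 + sw M F h ρ' = 1 + sw M F h ρ ∨
      1 + sw M F h ρ' = (1 + am M F 0 (4 * i + 2)) * (1 + sw M F h ρ) := by
  have h1 : sw M F h ρ' = sw M F h ρ + sw M F h (ρ ^^^ ρ') := by
    rw [← sw_add, ← add_assoc, fly_two, zero_add]
  have h2 : sw M F h (ρ ^^^ ρ') =
      if (ρ ^^^ ρ').testBit i = true then am M F 0 (4 * i + 2) else 0 :=
    sum_eq_single i (fun j hj hji => if_neg (by simp [H j (mem_range.1 hj) hji]))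
      fun h => absurd (mem_range.2 hi) h
  rw [h1, h2]
  split_ifs
  · right
    rw [add_mul, one_mul, mul_add, mul_one, am_sw (by omega), add_zero, add_assoc]
  · left
    rw [add_zero]

end Pool.Agent.Lib.MP_45faa6_lc.EN
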