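import Pool.Agent.Lib.MP_45faa6_lc.EN.FlyA

/-!
Base points of disjoint butterflies.
-/

set_option autoImplicit false
set_option linter.unusedSectionVars false

namespace Pool.Agent.Lib.MP_45faa6_lc.EN

open Pool.Agent.Lib.MP_45faa6_lc.NL

open Finset

/-- A maximal sublist without conflicts. -/
def greedy {β : Type} (c : β → β → Bool) (L : List β) : List β :=
  L.foldl (fun B g => cond (B.all fun g' => !c g g') (g :: B) B) []

theorem greedy_spec {β : Type} (c : β → β → Bool) (L : List β) :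
    (∀ g ∈ greedy c L, g ∈ L) ∧ (greedy c L).Pairwise (fun g g' => c g g' = false) ∧
      ∀ g ∈ L, g ∈ greedy c L ∨ ∃ g' ∈ greedy c L, c g g' = true := by
  induction L using List.reverseRecOn with
  | nil => simp [greedy]
  | append_singleton L x ih =>
    have h : greedy c (L ++ [x]) =
        cond ((greedy c L).all fun g' => !c x g') (x :: greedy c L) (greedy c L) := by
      simp only [greedy, List.foldl_append, List.foldl_cons, List.foldl_nil]
    obtain ⟨h1, h2, h3⟩ := ih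
    rw [h]
    cases e : (greedy c L).all fun g' => !c x g'
    · refine ⟨fun g hg => List.mem_append_left _ (h1 g hg), h2, fun g hg => ?_⟩
      rcases List.mem_append.1 hg with hg | hg
      · exact h3 g hg
      · rw [List.mem_singleton.1 hg]
        exact Or.inr (by simpa using e)
    · refine ⟨fun g hg => ?_, List.pairwise_cons.2 ⟨by simpa using e, h2⟩, fun g hg => ?_⟩
      · rcases List.mem_cons.1 hg with rfl | hg
        · simp
        · exact List.mem_append_left _ (h1 g hg)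
      · rcases List.mem_append.1 hg with hg | hg
        · exact (h3 g hg).imp (List.mem_cons_of_mem _) fun ⟨g', h4, h5⟩ =>
            ⟨g', List.mem_cons_of_mem _ h4, h5⟩
        · exact Or.inl (List.mem_singleton.1 hg ▸ List.mem_cons_self)

theorem greedy_map {β γ : Type} (c : γ → γ → Bool) (f : β → γ) (L : List β) :
    greedy c (L.map f) = (greedy (fun a b => c (f a) (f b)) L).map f := by
  rw [greedy, greedy, List.foldl_map]
  refine List.foldl_hom (List.map f) (init := []) fun B g => ?_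
  rw [List.all_map]
  exact (Bool.apply_cond (List.map f) (a := g :: B) (a' := B)).symm

variable {M : ℕ} {F : Type} [Field F] [CharP F 2] {h : ℕ}

/-- Two base points are in conflict. -/
def Cf (h : ℕ) (g g' : Mat M F) : Prop :=
  (∃ k < h, am M F 1 (4 * (k + 1) + 4) * g' = am M F 1 4 * g) ∨
    (∃ k < h, am M F 1 (4 * (k + 1) + 4) * g = am M F 1 4 * g') ∨
      ∃ ρ < 2 ^ h, (1 + sw M F h ρ) * g' = g

theorem sw_sq (ρ : ℕ) (g : Mat M F) : (1 + sw M F h ρ) * ((1 + sw M F h ρ) * g) = g := by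
  rw [← mul_assoc, sw_mul, Nat.xor_self, sw_zero, add_zero, one_mul]

theorem Cf.symm {g g' : Mat M F} (H : Cf h g g') : Cf h g' g := by
  rcases H with H | H | ⟨ρ, h1, rfl⟩
  exacts [Or.inr (Or.inl H), Or.inl H, Or.inr (Or.inr ⟨ρ, h1, sw_sq _ _⟩)]

theorem Cf.refl (g : Mat M F) : Cf h g g :=
  Or.inr (Or.inr ⟨0, Nat.two_pow_pos h, by rw [sw_zero, add_zero, one_mul]⟩)

theorem fly_rcancel {g a b : Mat M F} (hg : g ∈ GE M F 2) (H : a * g = b * g) : a = b := by
  obtain ⟨v, -, hv⟩ := GE_inv hg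
  rw [← mul_one a, ← mul_one b, ← mul_eq_one_comm.1 hv, ← mul_assoc, H, mul_assoc]

theorem fly_lcancel (i : ℕ) {a b : Mat M F} (H : tau M F ^ i * a = tau M F ^ i * b) : a = b := by
  obtain ⟨v, -, hv⟩ := GE_inv (pow_mem (tau_mem (M := M) (F := F)) i)
  rw [← one_mul a, ← one_mul b, ← hv, mul_assoc, H, mul_assoc]

theorem psi_ne (hm : 8 * (h + 1) ≤ mm M 2) {g : Mat M F} (hg : g ∈ GE M F 2) {k : ℕ} (hk : k < h) :
    am M F 1 (4 * (k + 1) + 4) * g ≠ am M F 1 4 * g := fun H => by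
  obtain ⟨a, b, h1, h2⟩ := am_entry (M := M) (F := F) (j := 1) (k := 4 * (k + 1) + 4) (by omega)
  rw [fly_rcancel hg H, h2 4 (by omega)] at h1
  exact zero_ne_one h1

theorem psi_pos (i ρ : ℕ) (g : Mat M F) :
    am M F 1 4 * (tau M F ^ i * ((1 + sw M F h ρ) * g)) = am M F 1 (4 * i + 4) * g := by
  have := am_tau_pow (M := M) (F := F) 0 i
  rw [Nat.zero_add i] at this
  rw [← mul_assoc, this, ← mul_assoc, mul_add, mul_one, am_sw (by omega), add_zero]

theorem psi_cancel (k : ℕ) {g g' : Mat M F}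
    (H : am M F 1 (4 * k + 4) * g = am M F 1 (4 * k + 4) * g') :
    am M F 1 4 * g = am M F 1 4 * g' := by
  induction k with
  | zero => exact H
  | succ k ih =>
    have h0 := Nat.two_pow_pos M
    have h1 : am M F 1 (4 * k + 4) = am M F 1 (4 * (2 ^ M - 1)) * am M F 1 (4 * (k + 1) + 4) := by
      rw [am_mul1 (by omega)]
      exact (am_per 1 (by omega) (by omega)).symm
    exact ih (by rw [h1, mul_assoc, H, mul_assoc])

theorem pos_inj (hm : 8 * (h + 1) ≤ mm M 2) {g g' : Mat M F} (hg : g ∈ GE M F 2) {i i' ρ ρ' : ℕ}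
    (hi : i ≤ i') (hi' : i' ≤ h) (hρ : ρ < 2 ^ h) (hρ' : ρ' < 2 ^ h)
    (H : tau M F ^ i * ((1 + sw M F h ρ) * g) = tau M F ^ i' * ((1 + sw M F h ρ') * g')) :
    Cf h g g' ∧ (g = g' → i = i' ∧ ρ = ρ') := by
  obtain ⟨k, rfl⟩ := Nat.exists_eq_add_of_le hi
  rw [pow_add, mul_assoc] at H
  have h1 := fly_lcancel i H
  cases k with
  | zero =>
    rw [pow_zero, one_mul] at h1
    have h2 : (1 + sw M F h (ρ ^^^ ρ')) * g' = g := by rw [← sw_mul, mul_assoc, ← h1, sw_sq]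
    refine ⟨Or.inr (Or.inr ⟨_, Nat.xor_lt_two_pow hρ hρ', h2⟩), fun e => ⟨rfl, ?_⟩⟩
    subst e
    exact Nat.xor_eq_zero_iff.1 (sw_ne hm (Nat.xor_lt_two_pow hρ hρ')
      (add_eq_left.1 (fly_rcancel hg (h2.trans (one_mul g).symm))))
  | succ k =>
    have h2 := psi_pos (h := h) 0 ρ g
    rw [pow_zero, one_mul, h1, psi_pos] at h2
    refine ⟨Or.inl ⟨k, by omega, h2⟩, fun e => ?_⟩
    subst e
    exact absurd h2 (psi_ne hm hg (k := k) (by omega))

theorem fly_cover (hm : 8 * (h + 1) ≤ mm M 2) {l B : List (Mat M F)} (hl : l.Nodup)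
    (hl' : ∀ u ∈ l, u ∈ GE M F 2) (hB : ∀ g ∈ B, g ∈ GE M F 2)
    (h1 : ∀ g ∈ B, ∀ g' ∈ B, Cf h g g' → g = g') (h2 : ∀ g ∈ GE M F 2, ∃ g' ∈ B, Cf h g g') :
    l.length ≤ (2 * h + 1) * 2 ^ h * B.length := by
  classical
  have hA : ∀ g ∈ GE M F 2, ∀ g' ∈ B, am M F 1 4 * g = am M F 1 4 * g' →
      ∃ g'' ∈ B, ∃ ρ < 2 ^ h, (1 + sw M F h ρ) * g'' = g := fun g hg g' hg' e => by
    obtain ⟨g'', h3, ⟨k, hk, h4⟩ | ⟨k, hk, h4⟩ | h4⟩ := h2 g hg
    · rw [e] at h4
      obtain rfl := h1 _ hg' _ h3 (Or.inl ⟨k, hk, h4⟩)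
      exact absurd h4 (psi_ne hm (hB _ hg') hk)
    · have h5 : am M F 1 (4 * (k + 1) + 4) = am M F 1 (4 * (k + 1)) * am M F 1 4 :=
        (am_mul1 (by omega)).symm
      rw [h5, mul_assoc, e, ← mul_assoc, ← h5] at h4
      obtain rfl := h1 _ hg' _ h3 (Or.inr (Or.inl ⟨k, hk, h4⟩))
      exact absurd h4 (psi_ne hm (hB _ hg') hk)
    · exact ⟨g'', h3, h4⟩
  have hτ := tau_mem (M := M) (F := F)
  have hp : ∀ k (g : Mat M F), am M F 1 4 * (tau M F ^ k * g) = am M F 1 (4 * k + 4) * g :=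
    fun k g => by simpa only [sw_zero, add_zero, one_mul] using psi_pos (h := h) k 0 g
  have hC : ∀ g ∈ GE M F 2, ∃ j < 2 * h + 1, ∃ ρ < 2 ^ h, ∃ g' ∈ B,
      tau M F ^ j * ((1 + sw M F h ρ) * g') = tau M F ^ h * g := fun g hg => by
    obtain ⟨g', h3, ⟨k, hk, h4⟩ | ⟨k, hk, h4⟩ | ⟨ρ, h4, h5⟩⟩ := h2 g hg
    · obtain ⟨v, h5, h6⟩ := GE_inv (pow_mem hτ (k + 1))
      have h7 : tau M F ^ (k + 1) * (v * g) = g := by
        rw [← mul_assoc, mul_eq_one_comm.1 h6, one_mul]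
      obtain ⟨g'', h8, ρ, h9, h10⟩ := hA _ (mul_mem h5 hg) g' h3
        (psi_cancel (k + 1) (by rw [← hp, h7, h4]))
      exact ⟨h + (k + 1), by omega, ρ, h9, g'', h8, by rw [h10, pow_add, mul_assoc, h7]⟩
    · obtain ⟨g'', h8, ρ, h9, h10⟩ := hA _ (mul_mem (pow_mem hτ (k + 1)) hg) g' h3
        ((hp _ _).trans h4)
      refine ⟨h - (k + 1), by omega, ρ, h9, g'', h8, ?_⟩
      rw [h10, ← mul_assoc, ← pow_add, Nat.sub_add_cancel hk]
    · exact ⟨h, by omega, ρ, h4, g', h3, by rw [h5]⟩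
  rw [← List.toFinset_card_of_nodup hl]
  refine (card_le_card_of_injOn (t := ((range (2 * h + 1) ×ˢ range (2 ^ h)) ×ˢ B.toFinset).image
    fun p => tau M F ^ p.1.1 * ((1 + sw M F h p.1.2) * p.2)) (fun g => tau M F ^ h * g)
    (fun g hg => ?_) fun a _ b _ e => fly_lcancel h e).trans (card_image_le.trans ?_)
  · obtain ⟨j, h3, ρ, h4, g', h5, h6⟩ := hC g (hl' g (List.mem_toFinset.1 hg))
    exact mem_coe.2 (mem_image.2 ⟨((j, ρ), g'), by simp [h3, h4, h5], h6⟩)
  · rw [card_product, card_product, card_range, card_range]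
    exact Nat.mul_le_mul_left _ (List.toFinset_card_le B)

end Pool.Agent.Lib.MP_45faa6_lc.EN
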