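import Mathlib

/-!
Four idempotents moved cyclically by one element of an algebra.
-/

set_option autoImplicit false

namespace Pool.Agent.Lib.MP_45faa6_lc.EN

open Polynomial

variable {F R : Type} [Field F] [Ring R] [Algebra F R]

/-- Orthogonal idempotents `D j` (period four) with `D j * E = E * D (j + 1)`. -/
structure Cyc (D : ℕ → R) (E : R) : Prop where
  idem : ∀ j k, j % 4 = k % 4 → D j * D k = D j
  orth : ∀ j k, j % 4 ≠ k % 4 → D j * D k = 0
  sh : ∀ j, D j * E = E * D (j + 1)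

/-- The element has degree `k`. -/
def Deg (D : ℕ → R) (k : ℕ) (f : R) : Prop := ∀ j, D j * f = f * D (j + k)

variable {D : ℕ → R} {E : R}

theorem Cyc.per (h : Cyc D E) {j k : ℕ} (e : j % 4 = k % 4) (hc : D j * D k = D k * D j) :
    D j = D k := by
  rw [← h.idem j k e, hc, h.idem k j e.symm]

theorem Deg.mul {k k' : ℕ} {f g : R} (h : Deg D k f) (h' : Deg D k' g) :
    Deg D (k + k') (f * g) := fun j => by
  rw [← mul_assoc, h, mul_assoc, h', ← mul_assoc, add_assoc]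

theorem Deg.one : Deg D 0 (1 : R) := fun j => by simp

theorem Cyc.pow (h : Cyc D E) (k : ℕ) : Deg D k (E ^ k) := by
  induction k with
  | zero => rw [pow_zero]; exact Deg.one
  | succ k ih => rw [pow_succ]; exact ih.mul h.sh

theorem Cyc.mul_eq (h : Cyc D E) {k : ℕ} {f : R} (hf : Deg D k f) {j j' : ℕ}
    (e : (j + k) % 4 = j' % 4) (g : R) : D j * f * (D j' * g) = D j * (f * g) := by
  rw [hf, mul_assoc, ← mul_assoc (D (j + k)), h.idem _ _ e, ← mul_assoc, ← hf, mul_assoc]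

theorem Cyc.mul_ne (h : Cyc D E) {k : ℕ} {f : R} (hf : Deg D k f) {j j' : ℕ}
    (e : (j + k) % 4 ≠ j' % 4) (g : R) : D j * f * (D j' * g) = 0 := by
  rw [hf, mul_assoc, ← mul_assoc (D (j + k)), h.orth _ _ e, zero_mul, mul_zero]

theorem gabs_comm {A B : R} (h1 : A * A = 0) (h2 : B * B = 0) (h3 : B * A = 0) (s : F) :
    1 + s • (A * B) = (1 + s • A) * (1 + (1 : F) • B) * ((1 + (-s) • A) * (1 + (-1 : F) • B)) := by
  have h4 : ∀ u, A * (A * u) = 0 := fun u => by rw [← mul_assoc, h1, zero_mul]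
  have h5 : ∀ u, B * (A * u) = 0 := fun u => by rw [← mul_assoc, h3, zero_mul]
  simp only [add_mul, mul_add, one_mul, mul_one, smul_mul_assoc, mul_smul_comm, mul_assoc, h1, h2,
    h3, h4, h5, mul_zero, smul_zero, add_zero]
  module

theorem Cyc.mem_add (h : Cyc D E) {G : Submonoid R} {k k' : ℕ} (h1 : k % 4 ≠ 0) (h2 : k' % 4 ≠ 0)
    (h3 : (k + k') % 4 ≠ 0) (m1 : ∀ j (s : F), 1 + s • (D j * E ^ k) ∈ G)
    (m2 : ∀ j (s : F), 1 + s • (D j * E ^ k') ∈ G) (j : ℕ) (s : F) :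
    1 + s • (D j * E ^ (k + k')) ∈ G := by
  rw [pow_add, ← h.mul_eq (h.pow k) (j' := j + k) rfl,
    gabs_comm (h.mul_ne (h.pow k) (by omega) _) (h.mul_ne (h.pow k') (by omega) _)
      (h.mul_ne (h.pow k') (by omega) _)]
  exact mul_mem (mul_mem (m1 _ _) (m2 _ _)) (mul_mem (m1 _ _) (m2 _ _))

theorem Cyc.mem_pow (h : Cyc D E) {G : Submonoid R} (m : ∀ j (s : F), 1 + s • (D j * E) ∈ G)
    (k : ℕ) (hk : k % 4 ≠ 0) (j : ℕ) (s : F) : 1 + s • (D j * E ^ k) ∈ G := by
  have m1 : ∀ j (s : F), 1 + s • (D j * E ^ 1) ∈ G := by simpa only [pow_one] using m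
  have m2 := h.mem_add (k := 1) (k' := 1) (by omega) (by omega) (by omega) m1 m1
  have m3 : ∀ i, ∀ j (s : F), 1 + s • (D j * E ^ (2 * i + 1)) ∈ G := fun i => by
    induction i with
    | zero => exact m1
    | succ i ih => exact h.mem_add (k := 2 * i + 1) (k' := 2) (by omega) (by omega) (by omega) ih m2
  rcases Nat.even_or_odd' k with ⟨i, rfl | rfl⟩
  · obtain ⟨i, rfl⟩ : ∃ n, i = n + 1 := ⟨i - 1, by omega⟩
    exact h.mem_add (k := 2 * i + 1) (k' := 1) (by omega) (by omega) (by omega) (m3 i) m1 j s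
  · exact m3 i j s

theorem Cyc.deg_poly (h : Cyc D E) (hp : ∀ j, D (j + 4) = D j) (p : F[X]) :
    Deg D 0 (aeval (E ^ 4) p) := by
  have h1 : ∀ j, Commute (D j) (E ^ 4) := fun j => (h.pow 4 j).trans (by rw [hp])
  intro j
  induction p using Polynomial.induction_on' with
  | add p q hp hq => rw [map_add, mul_add, add_mul, hp, hq]
  | monomial n a =>
    rw [aeval_monomial, ← Algebra.smul_def, mul_smul_comm, smul_mul_assoc, add_zero,
      ((h1 j).pow_right n).eq]

theorem Cyc.mem_poly (h : Cyc D E) (hp : ∀ j, D (j + 4) = D j) {G : Submonoid R}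
    (m : ∀ j (s : F), 1 + s • (D j * E) ∈ G) (k : ℕ) (hk : k % 4 ≠ 0) (j : ℕ) (p : F[X]) :
    1 + D j * (E ^ k * aeval (E ^ 4) p) ∈ G := by
  induction p using Polynomial.induction_on' with
  | add p q m1 m2 =>
    have e := h.mul_ne ((h.pow k).mul (h.deg_poly hp p)) (j := j) (j' := j) (by omega)
      (E ^ k * aeval (E ^ 4) q)
    have := mul_mem m1 m2
    rwa [add_mul, mul_add, mul_add, one_mul, one_mul, mul_one, e, add_zero, add_assoc, ← mul_add,
      ← mul_add, ← map_add, add_comm q] at this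
  | monomial n a =>
    rw [aeval_monomial, ← Algebra.smul_def, mul_smul_comm, mul_smul_comm, ← pow_mul, ← pow_add]
    exact h.mem_pow m _ (by omega) j a

/-- The Weyl element of a pair of matrix units in characteristic two. -/
theorem gabs_weyl (h2 : ∀ x : R, x + x = 0) {A B : R} (h1 : A * A = 0) (h3 : A * B * A = A) :
    (1 + A) * (1 + B) * (1 + A) = 1 + A * B + B * A + A + B := by
  simp only [add_mul, mul_add, one_mul, mul_one, h1, h3]
  calc 1 + A + (B + A * B) + (A + 0 + (B * A + A)) = 1 + A * B + B * A + A + B + (A + A) := by abel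
    _ = _ := by rw [h2, add_zero]

/-- A block with unit `e` on which `E ^ 4` has the inverse `t`. -/
structure Inv (F : Type) [Field F] [Algebra F R] (D : ℕ → R) (E e t : R) : Prop extends Cyc D E where
  two : ∀ x : R, x + x = 0
  per4 : ∀ j, D (j + 4) = D j
  eE : e * E = E
  te : t * e = t
  inv : t * E ^ 4 = e
  poly : ∃ p : F[X], t = aeval (E ^ 4) p

variable {e t : R}

theorem Inv.ct (h : Inv F D E e t) : Commute t E := by
  obtain ⟨p, rfl⟩ := h.poly
  have : Commute (aeval E (p.comp (X ^ 4))) (aeval E (X : F[X])) := (Commute.all _ _).map _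
  simpa only [aeval_comp, map_pow, aeval_X] using this

theorem Inv.ce (h : Inv F D E e t) : Commute e E :=
  h.inv ▸ h.ct.mul_left ((Commute.refl E).pow_left 4)

theorem Inv.cte (h : Inv F D E e t) : Commute t e :=
  h.inv ▸ (Commute.refl t).mul_right (h.ct.pow_right 4)

theorem Inv.dt (h : Inv F D E e t) : Deg D 0 t := by
  obtain ⟨p, rfl⟩ := h.poly
  exact h.toCyc.deg_poly h.per4 p

theorem Inv.dT (h : Inv F D E e t) : Deg D 0 (E ^ 4) := fun j => (h.pow 4 j).trans (by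
  rw [h.per4, add_zero])

theorem Inv.de (h : Inv F D E e t) : Deg D 0 e := h.inv ▸ h.dt.mul h.dT

theorem Inv.ep (h : Inv F D E e t) (k : ℕ) : e * E ^ (k + 1) = E ^ (k + 1) := by
  rw [pow_succ', ← mul_assoc, h.eE]

theorem Inv.pe (h : Inv F D E e t) (k : ℕ) : E ^ (k + 1) * e = E ^ (k + 1) := by
  rw [← (h.ce.pow_right _).eq, h.ep]

theorem Inv.ee (h : Inv F D E e t) : e * e = e := by
  calc e * e = t * (E ^ 4 * e) := by rw [← mul_assoc, h.inv]
    _ = e := by rw [h.pe, h.inv]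

/-- The diagonal element. -/
def tauA (D : ℕ → R) (E e t : R) : R := 1 + D 0 * (t + e) + D 1 * (E ^ 4 + e)

theorem Inv.tau_mem (h : Inv F D E e t) {G : Submonoid R} (m : ∀ j (s : F), 1 + s • (D j * E) ∈ G) :
    tauA D E e t ∈ G := by
  have c := h.toCyc
  have d1 : Deg D 1 E := c.sh
  have d2 : Deg D 1 (E * t) := d1.mul h.dt
  have d3 : Deg D 3 (E ^ 3) := c.pow 3
  have d4 : Deg D 3 (E ^ 3 * t) := d3.mul h.dt
  have d0 := h.de
  have q1 : E * (E ^ 3 * t) = e := by rw [← mul_assoc, ← pow_succ', ← (h.ct.pow_right _).eq, h.inv]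
  have q2 : E ^ 3 * t * E = e := by
    rw [mul_assoc, h.ct.eq, ← mul_assoc, ← pow_succ, ← (h.ct.pow_right _).eq, h.inv]
  have q3 : E * t * E ^ 3 = e := by rw [mul_assoc, (h.ct.pow_right _).eq, q1]
  have q4 : E ^ 3 * (E * t) = e := by rw [← h.ct.eq, ← mul_assoc, q2]
  have q5 : e * (E * t) = E * t := by rw [← mul_assoc, h.eE]
  have q6 : e * (E ^ 3 * t) = E ^ 3 * t := by rw [← mul_assoc, h.ep]
  have q7 : E * t * e = E * t := by rw [mul_assoc, h.te]
  have q8 : E * t * (E ^ 3 * t) = t := by rw [← mul_assoc, q3, ← h.cte.eq, h.te]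
  have w1 := gabs_weyl h.two (B := D 1 * (E ^ 3 * t)) (c.mul_ne d1 (j := 0) (j' := 0) (by omega) E)
    (by rw [c.mul_eq d1 rfl, q1, c.mul_eq d0 rfl, h.eE])
  have w2 := gabs_weyl h.two (B := D 1 * E ^ 3) (c.mul_ne d2 (j := 0) (j' := 0) (by omega) (E * t))
    (by rw [c.mul_eq d2 rfl, q3, c.mul_eq d0 rfl, q5])
  rw [c.mul_eq d1 rfl, c.mul_eq d4 (j := 1) (j' := 0) rfl, q1, q2] at w1
  rw [c.mul_eq d2 rfl, c.mul_eq d3 (j := 1) (j' := 0) rfl, q3, q4] at w2
  obtain ⟨p, hp⟩ := h.poly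
  have m1 : 1 + D 0 * E ∈ G := by simpa only [one_smul] using m 0 1
  have m2 : 1 + D 1 * (E ^ 3 * t) ∈ G := hp ▸ c.mem_poly h.per4 m 3 (by omega) 1 p
  have m3 : 1 + D 0 * (E * t) ∈ G := by
    have := c.mem_poly h.per4 m 1 (by omega) 0 p
    rwa [pow_one, ← hp] at this
  have m4 : 1 + D 1 * E ^ 3 ∈ G := by simpa only [one_smul] using c.mem_pow m 3 (by omega) 1 (1 : F)
  have k := mul_mem (mul_mem (mul_mem m3 m4) m3) (mul_mem (mul_mem m1 m2) m1)
  rw [w1, w2] at k
  simp only [add_mul, mul_add, one_mul, mul_one, c.mul_eq d0 (j := 0) (j' := 0) rfl,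
    c.mul_eq d0 (j := 1) (j' := 1) rfl, c.mul_ne d0 (j := 0) (j' := 1) (by omega),
    c.mul_ne d0 (j := 1) (j' := 0) (by omega), c.mul_eq d2 (j := 0) (j' := 1) rfl,
    c.mul_ne d2 (j := 0) (j' := 0) (by omega), c.mul_eq d3 (j := 1) (j' := 0) rfl,
    c.mul_ne d3 (j := 1) (j' := 1) (by omega), h.ee, h.eE, q6, q7, q8, h.pe, ← pow_succ,
    add_zero] at k
  convert k using 1
  rw [tauA, mul_add, mul_add]
  generalize D 0 * e = a1, D 1 * e = a2, D 0 * E = a3, D 1 * (E ^ 3 * t) = a4, D 0 * (E * t) = a5,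
    D 1 * E ^ 3 = a6, D 0 * t = a7, D 1 * E ^ 4 = a8
  calc 1 + (a7 + a1) + (a8 + a2) = 1 + (a7 + a1) + (a8 + a2) +
        ((a1 + a2 + a3 + a4 + a5 + a6) + (a1 + a2 + a3 + a4 + a5 + a6)) := by rw [h.two, add_zero]
    _ = _ := by abel

/-- The switching element. -/
def swA (D : ℕ → R) (E : R) (i : ℕ) : R := D 0 * E ^ (4 * i + 2)

theorem Cyc.sw_sw (h : Cyc D E) (i j : ℕ) : swA D E i * swA D E j = 0 :=
  h.mul_ne (h.pow _) (by omega) _

theorem Inv.sw_tau (h : Inv F D E e t) (i : ℕ) : swA D E i * tauA D E e t = swA D E i := by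
  rw [tauA, mul_add, mul_add, mul_one, swA, h.toCyc.mul_ne (h.pow _) (by omega),
    h.toCyc.mul_ne (h.pow _) (by omega), add_zero, add_zero]

theorem Inv.tau_sw (h : Inv F D E e t) (i : ℕ) : tauA D E e t * swA D E (i + 1) = swA D E i := by
  have d1 : Deg D 0 (t + e) := fun j => by rw [mul_add, add_mul, h.dt, h.de]
  have d2 : Deg D 0 (E ^ 4 + e) := fun j => by rw [mul_add, add_mul, h.dT, h.de]
  rw [tauA, add_mul, add_mul, one_mul, swA, h.toCyc.mul_eq d1 rfl, h.toCyc.mul_ne d2 (by omega),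
    add_zero, add_mul, h.ep, mul_add (D 0), add_comm (D 0 * (t * _)), ← add_assoc, h.two, zero_add,
    show 4 * (i + 1) + 2 = 4 + (4 * i + 2) by ring, pow_add, ← mul_assoc t, h.inv, h.ep, swA]

theorem Inv.sw_pow (h : Inv F D E e t) (i k : ℕ) :
    swA D E k * tauA D E e t ^ i = tauA D E e t ^ i * swA D E (i + k) := by
  induction i with
  | zero => simp
  | succ i ih =>
    rw [pow_succ', ← mul_assoc, h.sw_tau, ih, ← pow_succ', pow_succ, mul_assoc,
      add_right_comm, h.tau_sw]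

theorem Inv.psi_tau (h : Inv F D E e t) : D 1 * e * tauA D E e t = E ^ 4 * (D 1 * e) := by
  rw [tauA, mul_add, mul_add, mul_one, h.toCyc.mul_ne h.de (by omega), h.toCyc.mul_eq h.de rfl,
    add_zero, mul_add, h.ee, h.ep, mul_add, add_comm (D 1 * E ^ 4), ← add_assoc, h.two, zero_add,
    ← mul_assoc, ← h.dT, mul_assoc, h.pe]

theorem Inv.psi_sw (h : Inv F D E e t) (i : ℕ) : D 1 * e * swA D E i = 0 :=
  h.toCyc.mul_ne h.de (by omega) _

end Pool.Agent.Lib.MP_45faa6_lc.EN
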