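import Pool.Agent.Lib.MP_45faa6_lc.EN.GPr

/-!
Butterflies in the third block.
-/

set_option autoImplicit false

namespace Pool.Agent.Lib.MP_45faa6_lc.EN

open Finset

variable {F R : Type} [Field F] [Ring R] [Algebra F R] {D : ℕ → R} {E e t : R}

/-- The sum of the switches selected by the bits of `ρ`. -/
def rowS (D : ℕ → R) (E : R) (h ρ : ℕ) : R := ∑ i ∈ range h, if ρ.testBit i then swA D E i else 0

theorem rowS_zero (h : ℕ) : rowS D E h 0 = 0 := by simp [rowS]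

theorem Cyc.rowS_mul (c : Cyc D E) (h ρ ρ' : ℕ) : rowS D E h ρ * rowS D E h ρ' = 0 := by
  rw [rowS, rowS, sum_mul_sum]
  refine sum_eq_zero fun i _ => sum_eq_zero fun j _ => ?_
  split_ifs
  exacts [c.sw_sw i j, mul_zero _, zero_mul _, zero_mul _]

theorem Inv.rowS_add (c : Inv F D E e t) (h ρ ρ' : ℕ) :
    rowS D E h ρ + rowS D E h ρ' = rowS D E h (ρ ^^^ ρ') := by
  rw [rowS, rowS, rowS, ← sum_add_distrib]
  refine sum_congr rfl fun i _ => ?_
  rw [Nat.testBit_xor]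
  cases ρ.testBit i <;> cases ρ'.testBit i <;> simp [c.two]

theorem Inv.u_mul (c : Inv F D E e t) (h ρ ρ' : ℕ) :
    (1 + rowS D E h ρ) * (1 + rowS D E h ρ') = 1 + rowS D E h (ρ ^^^ ρ') := by
  rw [add_mul, mul_add, mul_add, one_mul, one_mul, mul_one, c.toCyc.rowS_mul, add_zero, add_assoc,
    add_comm (rowS D E h ρ'), c.rowS_add]

theorem Inv.u_u (c : Inv F D E e t) (h ρ : ℕ) :
    (1 + rowS D E h ρ) * (1 + rowS D E h ρ) = 1 := by
  rw [c.u_mul, Nat.xor_self, rowS_zero, add_zero]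

theorem Cyc.sw_mem (c : Cyc D E) {G : Submonoid R} (m : ∀ j (s : F), 1 + s • (D j * E) ∈ G)
    (i : ℕ) : 1 + swA D E i ∈ G := by
  simpa only [one_smul, swA] using c.mem_pow m (4 * i + 2) (by omega) 0 (1 : F)

theorem Cyc.u_mem (c : Cyc D E) {G : Submonoid R} (m : ∀ j (s : F), 1 + s • (D j * E) ∈ G)
    (h ρ : ℕ) : 1 + rowS D E h ρ ∈ G := by
  induction h with
  | zero => simp [rowS]
  | succ h ih =>
    rw [rowS, sum_range_succ, ← rowS]
    split_ifs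
    · have e : rowS D E h ρ * swA D E h = 0 := by
        rw [rowS, sum_mul]
        refine sum_eq_zero fun i _ => ?_
        split_ifs
        exacts [c.sw_sw _ _, zero_mul _]
      have := mul_mem ih (c.sw_mem m h)
      rwa [mul_add, mul_one, add_mul, one_mul, e, add_zero, add_assoc] at this
    · rwa [add_zero]

theorem Inv.psi_u (c : Inv F D E e t) (h ρ : ℕ) : D 1 * e * (1 + rowS D E h ρ) = D 1 * e := by
  rw [mul_add, mul_one, rowS, mul_sum, sum_eq_zero, add_zero]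
  intro i _
  split_ifs
  exacts [c.psi_sw i, mul_zero _]

theorem rowS_pow {h i : ℕ} (hi : i < h) : rowS D E h (2 ^ i) = swA D E i := by
  rw [rowS, sum_eq_single i, if_pos (Nat.testBit_two_pow_self), ]
  · intro j _ hj
    rw [Nat.testBit_two_pow_of_ne hj.symm, if_neg Bool.false_ne_true]
  · exact fun h1 => absurd (mem_range.2 hi) h1

theorem Inv.bf (c : Inv F D E e t) {h i ρ ρ' : ℕ} (hi : i < h)
    (H : ∀ j < h, j ≠ i → ρ.testBit j = ρ'.testBit j) :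
    tauA D E e t * (tauA D E e t ^ i * (1 + rowS D E h ρ)) =
      tauA D E e t ^ (i + 1) * (1 + rowS D E h ρ') ∨
    tauA D E e t * (1 + swA D E 0) * (tauA D E e t ^ i * (1 + rowS D E h ρ)) =
      tauA D E e t ^ (i + 1) * (1 + rowS D E h ρ') := by
  by_cases hb : ρ.testBit i = ρ'.testBit i
  · left
    rw [← mul_assoc, ← pow_succ']
    congr 2
    refine sum_congr rfl fun j hj => ?_
    by_cases e : j = i
    · rw [e, hb]
    · rw [H j (mem_range.1 hj) e]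
  · right
    have e1 : (1 + swA D E 0) * tauA D E e t ^ i = tauA D E e t ^ i * (1 + rowS D E h (2 ^ i)) := by
      rw [rowS_pow hi, add_mul, mul_add, one_mul, mul_one, c.sw_pow, add_zero]
    rw [mul_assoc, ← mul_assoc _ (tauA D E e t ^ i), e1, mul_assoc, c.u_mul, ← mul_assoc,
      ← pow_succ']
    congr 2
    refine sum_congr rfl fun j hj => ?_
    rw [Nat.testBit_xor]
    by_cases e : j = i
    · rw [e, Nat.testBit_two_pow_self]
      revert hb
      cases ρ.testBit i <;> cases ρ'.testBit i <;> simp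
    · rw [H j (mem_range.1 hj) e, Nat.testBit_two_pow_of_ne (Ne.symm e), Bool.false_xor]

theorem Inv.psi_pow (c : Inv F D E e t) (i : ℕ) :
    D 1 * e * tauA D E e t ^ i = (E ^ 4) ^ i * (D 1 * e) := by
  induction i with
  | zero => simp
  | succ i ih => rw [pow_succ, ← mul_assoc, ih, mul_assoc, c.psi_tau, ← mul_assoc, ← pow_succ]

theorem Inv.psi_pos (c : Inv F D E e t) (h i ρ : ℕ) (g : R) :
    D 1 * e * (tauA D E e t ^ i * (1 + rowS D E h ρ) * g) = (E ^ 4) ^ i * (D 1 * e * g) := by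
  rw [← mul_assoc, ← mul_assoc, c.psi_pow, mul_assoc _ (D 1 * e), c.psi_u, mul_assoc]

theorem Inv.cancel (c : Inv F D E e t) (i : ℕ) {a b : R} (ha : e * a = a) (hb : e * b = b)
    (H : (E ^ 4) ^ i * a = (E ^ 4) ^ i * b) : a = b := by
  induction i with
  | zero => simpa using H
  | succ i ih =>
    refine ih ?_
    have h1 := congrArg (t * ·) H
    simp only [pow_succ', ← mul_assoc] at h1
    have h2 : t * E * E * E * E = e := by
      rw [← c.inv]
      simp only [pow_succ, pow_zero, one_mul, mul_assoc]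
    have h3 : ∀ x, e * x = x → e * (E ^ 4) ^ i * x = (E ^ 4) ^ i * x := fun x hx => by
      rw [((c.ce.pow_right 4).pow_right i).eq, mul_assoc, hx]
    simp only [pow_zero, mul_one, h2] at h1
    have h4 : E * E * E * E = E ^ 4 := by simp only [pow_succ, pow_zero, one_mul]
    rw [h4, h3 a ha, h3 b hb] at h1
    exact h1

theorem Inv.e_psi (c : Inv F D E e t) (g : R) : e * (D 1 * e * g) = D 1 * e * g := by
  rw [← mul_assoc, ← mul_assoc, ← c.de 1, mul_assoc (D 1) e e, c.ee]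

/-- Two base points that cannot be used together. -/
def Conf (D : ℕ → R) (E e : R) (h : ℕ) (g g' : R) : Prop :=
  (∃ k < h, D 1 * e * g = (E ^ 4) ^ (k + 1) * (D 1 * e * g')) ∨
  (∃ k < h, D 1 * e * g' = (E ^ 4) ^ (k + 1) * (D 1 * e * g)) ∨
  ∃ ρ < 2 ^ h, g = (1 + rowS D E h ρ) * g'

theorem Inv.conf_symm (c : Inv F D E e t) {h : ℕ} {g g' : R} (H : Conf D E e h g g') :
    Conf D E e h g' g := by
  rcases H with H | H | ⟨ρ, h1, rfl⟩
  exacts [Or.inr (Or.inl H), Or.inl H,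
    Or.inr (Or.inr ⟨ρ, h1, by rw [← mul_assoc, c.u_u, one_mul]⟩)]

theorem conf_refl (h : ℕ) (g : R) : Conf D E e h g g :=
  Or.inr (Or.inr ⟨0, Nat.two_pow_pos h, by rw [rowS_zero, add_zero, one_mul]⟩)

theorem Inv.pos_inj (c : Inv F D E e t) {h : ℕ} (hτ : IsUnit (tauA D E e t))
    (n1 : ∀ k < h, (E ^ 4) ^ (k + 1) * (D 1 * e) ≠ D 1 * e)
    (n2 : ∀ ρ < 2 ^ h, rowS D E h ρ = 0 → ρ = 0) {g g' : R} (hg : IsUnit g) (hg' : IsUnit g')
    (H : Conf D E e h g g' → g = g') {i i' ρ ρ' : ℕ} (hi : i ≤ h) (hi' : i' ≤ h) (hρ : ρ < 2 ^ h)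
    (hρ' : ρ' < 2 ^ h) (e1 : tauA D E e t ^ i * (1 + rowS D E h ρ) * g =
      tauA D E e t ^ i' * (1 + rowS D E h ρ') * g') : g = g' ∧ i = i' ∧ ρ = ρ' := by
  have key : ∀ {a b : R} {j k : ℕ}, IsUnit a → (Conf D E e h a b → a = b) → j + (k + 1) ≤ h →
      (E ^ 4) ^ j * (D 1 * e * a) ≠ (E ^ 4) ^ (j + (k + 1)) * (D 1 * e * b) := by
    intro a b j k ha H hj e2
    rw [pow_add, mul_assoc ((E ^ 4) ^ j)] at e2
    have e3 := c.cancel j (c.e_psi _) (by
      rw [← mul_assoc, ((c.ce.pow_right 4).pow_right _).eq, mul_assoc, c.e_psi]) e2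
    obtain rfl := H (Or.inl ⟨k, by omega, e3⟩)
    rw [← mul_assoc] at e3
    exact n1 k (by omega) (ha.mul_right_cancel e3).symm
  have e2 := congrArg (D 1 * e * ·) e1
  simp only [c.psi_pos] at e2
  obtain rfl : i = i' := by
    rcases lt_trichotomy i i' with l | l | l
    · obtain ⟨k, rfl⟩ : ∃ k, i' = i + (k + 1) := ⟨i' - i - 1, by omega⟩
      exact absurd e2 (key hg H hi')
    · exact l
    · obtain ⟨k, rfl⟩ : ∃ k, i = i' + (k + 1) := ⟨i - i' - 1, by omega⟩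
      exact absurd e2.symm (key hg' (fun q => (H (c.conf_symm q)).symm) hi)
  rw [mul_assoc, mul_assoc] at e1
  have e3 := congrArg ((1 + rowS D E h ρ) * ·) ((hτ.pow i).mul_left_cancel e1)
  simp only [← mul_assoc, c.u_mul, Nat.xor_self, rowS_zero, add_zero, one_mul] at e3
  have l := Nat.xor_lt_two_pow hρ hρ'
  obtain rfl := H (Or.inr (Or.inr ⟨_, l, e3⟩))
  refine ⟨rfl, rfl, Nat.xor_eq_zero_iff.1 (n2 _ l ?_)⟩
  have e4 : 1 + rowS D E h (ρ ^^^ ρ') = 1 := hg.mul_right_cancel (e3.symm.trans (one_mul g).symm)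
  exact add_eq_left.1 e4

theorem Inv.cover [DecidableEq R] (c : Inv F D E e t) {h : ℕ} {G : Submonoid R}
    (hτ : tauA D E e t ∈ G) (hi : ∀ u ∈ G, ∃ v ∈ G, v * u = 1 ∧ u * v = 1)
    (n1 : ∀ k < h, (E ^ 4) ^ (k + 1) * (D 1 * e) ≠ D 1 * e) {S B : Finset R}
    (hS : ∀ u ∈ S, u ∈ G) (hB : ∀ u ∈ B, u ∈ G)
    (h1 : ∀ g ∈ B, ∀ g' ∈ B, Conf D E e h g g' → g = g')
    (h2 : ∀ g ∈ G, ∃ g' ∈ B, Conf D E e h g g') : #S ≤ (2 * h + 1) * 2 ^ h * #B := by
  obtain ⟨σ, hσ, s1, s2⟩ := hi _ hτ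
  have cm : Commute σ (tauA D E e t) := s1.trans s2.symm
  have k0 : ∀ g ∈ G, ∀ b ∈ B, D 1 * e * g = D 1 * e * b →
      ∃ b' ∈ B, ∃ ρ < 2 ^ h, g = (1 + rowS D E h ρ) * b' := by
    intro g hg b hb e1
    obtain ⟨b', hb', H⟩ := h2 g hg
    obtain ⟨v, -, hv', hv⟩ := hi b (hB b hb)
    have hu : IsUnit b := ⟨⟨b, v, hv, hv'⟩, rfl⟩
    rcases H with ⟨k, l, H⟩ | ⟨k, l, H⟩ | H
    · rw [e1] at H
      obtain rfl := h1 b hb b' hb' (Or.inl ⟨k, l, H⟩)
      rw [← mul_assoc] at H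
      exact absurd (hu.mul_right_cancel H).symm (n1 k l)
    · rw [e1] at H
      obtain rfl := h1 b hb b' hb' (Or.inr (Or.inl ⟨k, l, H⟩))
      rw [← mul_assoc] at H
      exact absurd (hu.mul_right_cancel H).symm (n1 k l)
    · exact ⟨b', hb', H⟩
  have k1 : ∀ (k : ℕ) (g : R), D 1 * e * (tauA D E e t ^ k * g) = (E ^ 4) ^ k * (D 1 * e * g) :=
    fun k g => by rw [← mul_assoc, c.psi_pow, mul_assoc]
  have k2 : ∀ k, tauA D E e t ^ k * σ ^ k = 1 := fun k => by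
    rw [← cm.symm.mul_pow, s2, one_pow]
  have key : ∀ g ∈ G, ∃ k < 2 * h + 1, ∃ ρ < 2 ^ h, ∃ b ∈ B,
      tauA D E e t ^ h * g = tauA D E e t ^ k * ((1 + rowS D E h ρ) * b) := by
    intro g hg
    obtain ⟨b, hb, ⟨k, l, H⟩ | ⟨k, l, H⟩ | ⟨ρ, l, H⟩⟩ := h2 g hg
    · obtain ⟨b', hb', ρ, l', H'⟩ := k0 (σ ^ (k + 1) * g) (mul_mem (pow_mem hσ _) hg) b hb
        (c.cancel (k + 1) (c.e_psi _) (c.e_psi _) (by rw [← k1, ← mul_assoc _ _ g, k2, one_mul, H]))
      refine ⟨h + (k + 1), by omega, ρ, l', b', hb', ?_⟩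
      rw [← H', pow_add, mul_assoc, ← mul_assoc _ _ g, k2, one_mul]
    · obtain ⟨b', hb', ρ, l', H'⟩ := k0 (tauA D E e t ^ (k + 1) * g) (mul_mem (pow_mem hτ _) hg)
        b hb (by rw [k1, H])
      refine ⟨h - (k + 1), by omega, ρ, l', b', hb', ?_⟩
      rw [← H', ← mul_assoc, ← pow_add, Nat.sub_add_cancel l]
    · exact ⟨h, by omega, ρ, l, b, hb, by rw [← H]⟩
  have e1 : (2 * h + 1) * 2 ^ h * #B = #((range (2 * h + 1) ×ˢ range (2 ^ h)) ×ˢ B) := by
    simp only [card_product, card_range]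
  rw [e1]
  refine card_le_card_of_surjOn
    (fun p => σ ^ h * (tauA D E e t ^ p.1.1 * ((1 + rowS D E h p.1.2) * p.2))) fun g hg => ?_
  obtain ⟨k, l, ρ, l', b, hb, H⟩ := key g (hS g hg)
  refine ⟨((k, ρ), b), by simp [l, l', hb], ?_⟩
  change σ ^ h * (tauA D E e t ^ k * ((1 + rowS D E h ρ) * b)) = g
  rw [← H, ← mul_assoc, ← cm.mul_pow, s1, one_pow, one_mul]

end Pool.Agent.Lib.MP_45faa6_lc.EN
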