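import Pool.Agent.Lib.MP_45faa6_lc.EN.GVex

/-!
Projections to the blocks.
-/

set_option autoImplicit false

namespace Pool.Agent.Lib.MP_45faa6_lc.EN

variable {F R : Type} [Field F] [Ring R] [Algebra F R] {A : ℕ → R} {e e' : R}

/-- The part of `u` in the block `e`. -/
def prA (e u : R) : R := 1 - e + e * u

theorem prA_one (e : R) : prA e 1 = 1 := by simp [prA]

theorem prA_mul (he : e * e = e) {u : R} (h : Commute e u) (v : R) :
    prA e (u * v) = prA e u * prA e v := by
  have h1 : ∀ w, e * (e * w) = e * w := fun w => by rw [← mul_assoc, he]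
  have h2 : ∀ w, u * (e * w) = e * (u * w) := fun w => by rw [← mul_assoc, ← h.eq, mul_assoc]
  simp only [prA, add_mul, mul_add, sub_mul, mul_sub, one_mul, mul_one, he, h1, h2, mul_assoc,
    ← h.eq]
  abel

theorem prA_gen (e a : R) (s : F) : prA e (1 + s • a) = 1 + s • (e * a) := by
  rw [prA, mul_add, mul_one, mul_smul_comm, ← add_assoc, sub_add_cancel]

theorem clo_comm (h : ∀ j, Commute e (A j)) {u : R} (hu : u ∈ clo F A) : Commute e u :=
  clo_ind (P := fun u => Commute e u) (Commute.one_right e) (fun j s _ _ ih =>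
    ((Commute.one_right e).add_right ((h j).smul_right s)).mul_right ih) hu

theorem Rel.blk (h : Rel A) (hc : ∀ j, Commute e (A j)) : Rel fun j => e * A j where
  per j := by rw [h.per]
  nil j k hk := by
    rw [mul_assoc, ← mul_assoc (A j), ← (hc j).eq, mul_assoc, h.nil j k hk, mul_zero, mul_zero]

theorem Rel.pr_mem (h : Rel A) (he : e * e = e) (hc : ∀ j, Commute e (A j)) {u : R}
    (hu : u ∈ clo F A) : prA e u ∈ clo F fun j => e * A j := by
  refine clo_ind (P := fun u => prA e u ∈ clo F fun j => e * A j) ?_ (fun j s u _ ih => ?_) hu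
  · rw [prA_one]
    exact one_mem _
  · rw [prA_mul he ((Commute.one_right e).add_right ((hc j).smul_right s)), prA_gen]
    exact mul_mem ((h.blk hc).mem j s) ih

theorem clo_fix {f : R} (h : ∀ j, f * A j = 0) {u : R} (hu : u ∈ clo F A) : f * u = f :=
  clo_ind (P := fun u => f * u = f) (mul_one f) (fun j s u _ ih => by
    rw [← mul_assoc, mul_add, mul_one, mul_smul_comm, h, smul_zero, add_zero, ih]) hu

theorem prA_zero (h : ∀ j, e * A j = 0) {u : R} (hu : u ∈ clo F A) : prA e u = 1 := by
  rw [prA, clo_fix h hu, sub_add_cancel]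

theorem prA_self (h : ∀ j, e * A j = A j) {u : R} (hu : u ∈ clo F A) : prA e u = u := by
  have h1 := clo_fix (f := 1 - e) (fun j => by rw [sub_mul, one_mul, h, sub_self]) hu
  rw [prA, ← h1, ← add_mul, sub_add_cancel, one_mul]

theorem clo_le {G : Submonoid R} (h : ∀ j (s : F), 1 + s • A j ∈ G) {u : R} (hu : u ∈ clo F A) :
    u ∈ G :=
  clo_ind (P := fun u => u ∈ G) (one_mem _) (fun _ _ _ _ ih => mul_mem (h _ _) ih) hu

theorem prA_add (h : e * e' = 0) {u : R} (hc : Commute e' u) :
    prA e u * prA e' u = prA (e + e') u := by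
  have h1 : ∀ w, e * (e' * w) = 0 := fun w => by rw [← mul_assoc, h, zero_mul]
  have h2 : ∀ w, u * (e' * w) = e' * (u * w) := fun w => by rw [← mul_assoc, ← hc.eq, mul_assoc]
  simp only [prA, add_mul, mul_add, sub_mul, mul_sub, one_mul, mul_one, h, h1, h2, mul_assoc,
    ← hc.eq]
  abel

end Pool.Agent.Lib.MP_45faa6_lc.EN
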