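import Mathlib

/-!
The action of the pattern matrix on one column of one block.
-/

set_option autoImplicit false

namespace Pool.Agent.Lib.MP_45faa6_lc.EN

variable {F : Type} [Field F]

/-- The shift with feedback in block `l`. -/
def shf (l : ℕ) (f : ℕ → F) (a : ℕ) : F :=
  f (a + 1) + ((if l = 1 ∧ a % 8 = 7 then f (a - 7) + f (a - 3) else 0) +
    if l = 2 ∧ a % 4 = 3 then f (a - 3) else 0)

theorem shf_blk (l : ℕ) {f : ℕ → F} {q : ℕ} (h : ∀ a, 8 * q ≤ a → f a = 0) (a : ℕ)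
    (ha : 8 * q ≤ a) : shf l f a = 0 := by
  rw [shf, h _ (by omega)]
  split_ifs with h1 h2 h2
  · omega
  · rw [h _ (by omega), h _ (by omega)]; simp
  · rw [h _ (by omega)]; simp
  · simp

theorem shf_per (l : ℕ) {f g : ℕ → F} (h : ∀ a, g (a + 8) = f a) (a : ℕ) :
    shf l g (a + 8) = shf l f a := by
  rw [shf, shf, add_right_comm a 8 1, h, show (a + 8) % 8 = a % 8 by omega,
    show (a + 8) % 4 = a % 4 by omega]
  split_ifs with h1 h2 h2
  · omega
  · rw [← h (a - 7), ← h (a - 3), show a - 7 + 8 = a + 8 - 7 by omega, show a - 3 + 8 = a + 8 - 3 by omega]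
  · rw [← h (a - 3), show a - 3 + 8 = a + 8 - 3 by omega]
  · rfl

theorem shf_top (l : ℕ) {f : ℕ → F} {c : ℕ} (h : ∀ a < c, f a = 0) (a : ℕ) (ha : a < c) :
    shf l f a = f (a + 1) := by
  rw [shf, h (a - 7) (by omega), h (a - 3) (by omega)]
  simp

theorem shf_zero (k : ℕ) (f : ℕ → F) (a : ℕ) : (shf 0)^[k] f a = f (a + k) := by
  induction k generalizing a with
  | zero => rfl
  | succ k ih =>
    rw [Function.iterate_succ_apply', shf, ih, add_right_comm, add_assoc a k 1]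
    simp

theorem shf_run (l p : ℕ) (hp : l = 1 ∧ p = 8 ∨ l = 2 ∧ p = 4) (f : ℕ → F) (q r : ℕ) (hr : r < p)
    (k : ℕ) : (shf l)^[k] f (p * q + r) = (shf l)^[k + r] f (p * q) := by
  induction r generalizing k with
  | zero => rfl
  | succ r ih =>
    rw [add_comm r 1, ← add_assoc k, ← ih (by omega), Function.iterate_succ_apply', shf,
      if_neg (by rcases hp with ⟨rfl, rfl⟩ | ⟨rfl, rfl⟩ <;> omega),
      if_neg (by rcases hp with ⟨rfl, rfl⟩ | ⟨rfl, rfl⟩ <;> omega), add_zero, add_zero,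
      add_comm 1 r, add_assoc]

theorem shf_one (f : ℕ → F) (a : ℕ) :
    (shf 1)^[8] f a = f (a + 8) + (f a + (shf 1)^[4] f a) := by
  obtain ⟨q, r, hr, rfl⟩ : ∃ q r, r < 8 ∧ a = 8 * q + r := ⟨a / 8, a % 8, by omega, by omega⟩
  have h := shf_run 1 8 (by omega) f
  have h1 := h q 7 (by omega) (r + 1)
  have h2 := h (q + 1) r hr 0
  have h3 := h q r hr 0
  have h4 := h q 4 (by omega) r
  rw [Function.iterate_succ_apply', shf, if_pos (by omega), if_neg (by omega), add_zero,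
    show 8 * q + 7 + 1 = 8 * (q + 1) by ring, Nat.add_sub_cancel,
    show 8 * q + 7 - 3 = 8 * q + 4 by omega, h4] at h1
  rw [zero_add] at h2 h3
  rw [h q r hr, h q r hr, show 8 + r = r + 1 + 7 by ring, ← h1, ← h2, ← h3, add_comm 4 r,
    show 8 * (q + 1) + r = 8 * q + r + 8 by ring]
  rfl

theorem shf_two (f : ℕ → F) (a : ℕ) : (shf 2)^[4] f a = f (a + 4) + f a := by
  obtain ⟨q, r, hr, rfl⟩ : ∃ q r, r < 4 ∧ a = 4 * q + r := ⟨a / 4, a % 4, by omega, by omega⟩
  have h := shf_run 2 4 (by omega) f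
  have h1 := h q 3 (by omega) (r + 1)
  have h2 := h (q + 1) r hr 0
  have h3 := h q r hr 0
  rw [Function.iterate_succ_apply', shf, if_neg (by omega), if_pos (by omega), zero_add,
    show 4 * q + 3 + 1 = 4 * (q + 1) by ring, Nat.add_sub_cancel] at h1
  rw [zero_add] at h2 h3
  rw [h q r hr, show 4 + r = r + 1 + 3 by ring, ← h1, ← h2, ← h3,
    show 4 * (q + 1) + r = 4 * q + r + 4 by ring]
  rfl

theorem shf_tri {f : ℕ → F} {c : ℕ} (h : ∀ a < c, f a = 0) (k a : ℕ) :
    (a + 4 * k < c → (shf 2)^[4 * k] f a = 0) ∧ (a + 4 * k = c → (shf 2)^[4 * k] f a = f c) := by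
  induction k generalizing a with
  | zero => exact ⟨h a, fun e => by rw [← e]; rfl⟩
  | succ k ih =>
    rw [show 4 * (k + 1) = 4 + 4 * k by ring, Function.iterate_add_apply, shf_two]
    refine ⟨fun e => ?_, fun e => ?_⟩
    · rw [(ih _).1 (by omega), (ih _).1 (by omega), add_zero]
    · rw [(ih _).2 (by omega), (ih _).1 (by omega), add_zero]

end Pool.Agent.Lib.MP_45faa6_lc.EN
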