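import Pool.Agent.Lib.MP_45faa6_lc.EN.GrpVex
import Pool.Agent.Lib.MP_45faa6_lc.EN.GAbs

/-!
Vertex expansion of the monoid generated by four root subgroups in a finite algebra.
-/

set_option autoImplicit false

namespace Pool.Agent.Lib.MP_45faa6_lc.EN

open Finset Pool.Agent.Lib.MP_45faa6_lc.NL

variable {F R : Type} [Field F] [Ring R] [Algebra F R]

/-- The monoid generated by the elements `1 + s • A j`. -/
def clo (F : Type) [Field F] [Algebra F R] (A : ℕ → R) : Submonoid R :=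
  Submonoid.closure (Set.range fun p : Fin 4 × F => 1 + p.2 • A p.1.val)

/-- The relations of the four root elements. -/
structure Rel (A : ℕ → R) : Prop where
  per : ∀ j, A (j % 4) = A j
  nil : ∀ j k, k % 4 ≠ (j + 1) % 4 → A j * A k = 0

variable {A : ℕ → R}

theorem Rel.mem (h : Rel A) (j : ℕ) (s : F) : 1 + s • A j ∈ clo F A :=
  Submonoid.subset_closure ⟨(⟨j % 4, Nat.mod_lt _ (by norm_num)⟩, s), by simp only [h.per]⟩

theorem Rel.inv (h : Rel A) (j : ℕ) (s : F) : (1 + (-s) • A j) * (1 + s • A j) = 1 := by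
  rw [← grpvex_add (h.nil _ _ (by omega)), neg_add_cancel, zero_smul, add_zero]

theorem clo_ind {P : R → Prop} (h1 : P 1)
    (h2 : ∀ j (s : F) u, u ∈ clo F A → P u → P ((1 + s • A j) * u)) {u : R} (hu : u ∈ clo F A) :
    P u := by
  unfold clo at hu
  induction hu using Submonoid.closure_induction_left with
  | one => exact h1
  | mul_left x hx y hy ih =>
    obtain ⟨q, rfl⟩ := hx
    exact h2 _ _ _ hy ih

theorem Rel.exists_inv (h : Rel A) {u : R} (hu : u ∈ clo F A) :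
    ∃ v ∈ clo F A, v * u = 1 ∧ u * v = 1 := by
  refine clo_ind (P := fun u => ∃ v ∈ clo F A, v * u = 1 ∧ u * v = 1) ⟨1, one_mem _, by simp⟩
    (fun j s u _ ⟨v, hv, e1, e2⟩ => ⟨v * (1 + (-s) • A j), mul_mem hv (h.mem _ _), ?_, ?_⟩) hu
  · rw [mul_assoc, ← mul_assoc _ _ u, h.inv, one_mul, e1]
  · have := h.inv j (-s)
    rw [neg_neg] at this
    rw [mul_assoc, ← mul_assoc u, e2, one_mul, this]

theorem Rel.succ (h : Rel A) (i : Fin 4) : A (i + 1).val = A (i.val + 1) := by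
  rw [Fin.val_add]
  exact h.per _

theorem Rel.mem2 (h : Rel A) (j : ℕ) (b : F) : 1 + b • (A j * A (j + 1)) ∈ clo F A := by
  rw [gabs_comm (h.nil _ _ (by omega)) (h.nil _ _ (by omega)) (h.nil _ _ (by omega))]
  exact mul_mem (mul_mem (h.mem _ _) (h.mem _ _)) (mul_mem (h.mem _ _) (h.mem _ _))

/-- Left multiplication by a one-parameter subgroup. -/
def gvex_act (E : R) (h : E * E = 0) (hm : ∀ b : F, 1 + b • E ∈ clo F A) : Act F (clo F A) where
  act c y := ⟨(1 + c • E) * y.1, mul_mem (hm c) y.2⟩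
  zero y := Subtype.ext (by simp)
  add c c' y := Subtype.ext (by simp only [grpvex_add h, mul_assoc])

/-- The left system. -/
def gvex_sys (F : Type) [Field F] [Algebra F R] (h : Rel A) : Sys F (clo F A) where
  x i := gvex_act (A i.val) (h.nil _ _ (by omega)) (h.mem _)
  z i := gvex_act (A i.val * A (i.val + 1)) (by
    rw [mul_assoc, ← mul_assoc (A (i.val + 1)), h.nil (i.val + 1) i.val (by omega),
      zero_mul, mul_zero]) (h.mem2 _)
  B _ c c' := -(c * c')
  comm i c c' y := Subtype.ext (by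
    have h0 : (i + 2).val = (i.val + 2) % 4 := Fin.val_add i 2
    simp only [gvex_act, ← mul_assoc]
    rw [grpvex_comm (h.nil _ _ (by omega)) (h.nil _ _ (by omega))])
  zx i b c y := Subtype.ext (by
    simp only [gvex_act, ← mul_assoc]
    rw [grpvex_comm (by rw [mul_assoc, h.nil (i.val + 1) i.val (by omega), mul_zero])
      (by rw [← mul_assoc, h.nil i.val i.val (by omega), zero_mul])])
  zx' i b c y := Subtype.ext (by
    simp only [gvex_act, ← mul_assoc, h.succ]
    rw [grpvex_comm (by rw [mul_assoc, h.nil (i.val + 1) (i.val + 1) (by omega), mul_zero])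
      (by rw [← mul_assoc, h.nil (i.val + 1) i.val (by omega), zero_mul])])
  heis i c c' y := Subtype.ext (by
    simp only [gvex_act, h.succ]
    rw [← mul_assoc, grpvex_heis (h.nil _ _ (by omega)) (h.nil _ _ (by omega)),
      mul_assoc, mul_assoc])
  surj _ c' h b := ⟨-b / c', by simp only [div_mul_cancel₀ _ h, neg_neg]⟩

theorem gvex_orb [Fintype (clo F A)] (h : Rel A) :
    (gvex_sys F h).Orb (Fintype.card (clo F A)) := fun φ hφ y => by
  have h1 : ∀ u (hu : u ∈ clo F A), φ ⟨u, hu⟩ = φ 1 := fun u hu => by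
    induction hu using Submonoid.closure_induction_left with
    | one => rfl
    | mul_left a ha u hu ih =>
      obtain ⟨p, rfl⟩ := ha
      exact (hφ p.1 p.2 ⟨u, hu⟩).trans ih
  have h2 : ∀ w, φ w = φ 1 := fun w => h1 w.1 w.2
  simp only [h2, sum_const, card_univ, nsmul_eq_mul, le_refl]

variable [Fintype F] [DecidableEq R]

/-- All neighbours of a set. -/
def gstep (F : Type) [Field F] [Fintype F] [Algebra F R] (A : ℕ → R) (Z : Finset R) : Finset R :=
  Z.biUnion fun z => univ.image fun p : Fin 4 × F => (1 + p.2 • A p.1.val) * z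

theorem mem_gstep {Z : Finset R} {u : R} :
    u ∈ gstep F A Z ↔ ∃ z ∈ Z, ∃ p : Fin 4 × F, (1 + p.2 • A p.1.val) * z = u := by
  simp only [gstep, mem_biUnion, mem_image, mem_univ, true_and]

theorem sub_gstep (Z : Finset R) : Z ⊆ gstep F A Z := fun z hz =>
  mem_gstep.2 ⟨z, hz, (0, 0), by simp⟩

theorem Rel.step (h : Rel A) (hK : 81 ≤ Fintype.card F) {S : Finset R}
    (hS : ∀ u, u ∈ S ↔ u ∈ clo F A) {Z : Finset R} (hZ : Z ⊆ S) (h2 : 2 * #Z ≤ #S) :
    35 * #Z ≤ 32 * #(gstep F A Z) := by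
  classical
  let _ : Fintype (clo F A) := Fintype.subtype S hS
  have hc : Fintype.card (clo F A) = #S := Fintype.subtype_card S hS
  have hg : (0 : ℝ) < Fintype.card (clo F A) := Nat.cast_pos.2 Fintype.card_pos
  have h1 := (gvex_sys F h).vex hK hg (gvex_orb h) {u | u.1 ∈ Z}
  have h3 : #{u : clo F A | u.1 ∈ Z} = #Z := by
    refine card_bij (fun u _ => u.1) (fun u hu => (mem_filter.1 hu).2)
      (fun u _ v _ e => Subtype.ext e) fun u hu => ⟨⟨u, (hS u).1 (hZ hu)⟩, ?_, rfl⟩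
    exact mem_filter.2 ⟨mem_univ _, hu⟩
  have h4 := h1.trans (mul_le_mul_of_nonneg_left (Nat.cast_le.2 (card_le_card_of_injOn
    (t := gstep F A Z \ Z) (fun u => u.1)
    (fun u hu => by
      obtain ⟨k1, j, s, k2⟩ := (mem_filter.1 hu).2
      refine mem_coe.2 (mem_sdiff.2 ⟨mem_gstep.2 ⟨_, (mem_filter.1 k2).2, (j, -s), ?_⟩,
        fun k => k1 (mem_filter.2 ⟨mem_univ _, k⟩)⟩)
      change _ * ((1 + s • A j.val) * u.1) = u.1
      rw [← mul_assoc, h.inv, one_mul]) fun u _ v _ e => Subtype.ext e)) (by norm_num))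
  rw [h3, hc] at h4
  rw [hc] at hg
  have h5 : (#Z : ℝ) ^ 2 / #S ≤ 1 / 2 * #Z := by
    have h6 : (2 : ℝ) * #Z ≤ #S := by exact_mod_cast h2
    rw [div_le_iff₀ hg]
    nlinarith [Nat.cast_nonneg (α := ℝ) #Z]
  have h6 := card_sdiff_add_card_eq_card (sub_gstep (F := F) (A := A) Z)
  have h7 : (3 : ℝ) * #Z ≤ 32 * #(gstep F A Z \ Z) := by linarith
  have h8 : 3 * #Z ≤ 32 * #(gstep F A Z \ Z) := by exact_mod_cast h7
  omega

theorem Rel.iter (h : Rel A) (hK : 81 ≤ Fintype.card F) {S : Finset R}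
    (hS : ∀ u, u ∈ S ↔ u ∈ clo F A) {Z : Finset R} (hZ : Z ⊆ S) (k : ℕ) :
    (gstep F A)^[k] Z ⊆ S ∧
      (#S < 2 * #((gstep F A)^[k] Z) ∨ 35 ^ k * #Z ≤ 32 ^ k * #((gstep F A)^[k] Z)) := by
  induction k with
  | zero => exact ⟨hZ, Or.inr le_rfl⟩
  | succ k ih =>
    rw [Function.iterate_succ_apply']
    refine ⟨fun u hu => ?_, ?_⟩
    · obtain ⟨z, hz, p, rfl⟩ := mem_gstep.1 hu
      exact (hS _).2 (mul_mem (h.mem _ _) ((hS _).1 (ih.1 hz)))
    have h1 := card_le_card (sub_gstep (F := F) (A := A) ((gstep F A)^[k] Z))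
    by_cases h2 : 2 * #((gstep F A)^[k] Z) ≤ #S
    · have h3 := h.step hK hS ih.1 h2
      have h4 := ih.2.resolve_left (by omega)
      right
      calc 35 ^ (k + 1) * #Z = 35 * (35 ^ k * #Z) := by ring
        _ ≤ 35 * (32 ^ k * #((gstep F A)^[k] Z)) := Nat.mul_le_mul_left _ h4
        _ = 32 ^ k * (35 * #((gstep F A)^[k] Z)) := by ring
        _ ≤ 32 ^ k * (32 * #(gstep F A ((gstep F A)^[k] Z))) := Nat.mul_le_mul_left _ h3
        _ = _ := by ring
    · left
      omega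

theorem Rel.grow (h : Rel A) (hK : 81 ≤ Fintype.card F) {S : Finset R}
    (hS : ∀ u, u ∈ S ↔ u ∈ clo F A) {Z : Finset R} (hZ : Z ⊆ S) (h16 : 16 * #Z ≤ #S) :
    8 * #Z ≤ #((gstep F A)^[32] Z) := by
  rcases (h.iter hK hS hZ 32).2 with h1 | h1
  · omega
  · generalize #((gstep F A)^[32] Z) = b at h1
    norm_num at h1
    omega

theorem mem_iter {Z : Finset R} {k : ℕ} {u : R} (hu : u ∈ (gstep F A)^[k] Z) :
    ∃ z ∈ Z, ∃ w : Fin k → Fin 4 × F,
      (List.ofFn fun i => 1 + (w i).2 • A (w i).1.val).prod * z = u := by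
  induction k generalizing u with
  | zero => exact ⟨u, hu, Fin.elim0, by simp⟩
  | succ k ih =>
    rw [Function.iterate_succ_apply'] at hu
    obtain ⟨v, hv, p, rfl⟩ := mem_gstep.1 hu
    obtain ⟨z, hz, w, rfl⟩ := ih hv
    exact ⟨z, hz, Fin.cons p w, by simp [List.ofFn_succ, mul_assoc]⟩

end Pool.Agent.Lib.MP_45faa6_lc.EN
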