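import Pool.Agent.Lib.MP_45faa6_lc.EN.Blk

/-!
The sizes of the block subgroups.
-/

set_option autoImplicit false
set_option linter.unusedSectionVars false

namespace Pool.Agent.Lib.MP_45faa6_lc.EN

open Pool.Agent.Lib.MP_45faa6_lc.NL

open Finset

variable {M M' l : ℕ} {F : Type} [Field F]

/-- Entries indexed by natural numbers. -/
def gwx (u : Mat M F) (n n' : ℕ) : F := if h : n < M ∧ n' < M then u ⟨n, h.1⟩ ⟨n', h.2⟩ else 0

/-- The entries of block `l`. -/
def gwb (l : ℕ) (u : Mat M F) (a b : ℕ) : F :=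
  if a < mm M l ∧ b < mm M l then gwx u (3 * a + l) (3 * b + l) else 0

/-- The sum over the ones in row `a`. -/
def gws (l : ℕ) (f : ℕ → F) (a : ℕ) : F :=
  f (a + 1) + (if l = 1 ∧ a % 8 = 7 then f (a - 7) else 0) +
    if (l = 1 ∧ a % 8 = 7) ∨ (l = 2 ∧ a % 4 = 3) then f (a - 3) else 0

theorem gwx_val (u : Mat M F) (a b : Fin M) : gwx u a b = u a b := by simp [gwx]

theorem gwb_out (u : Mat M F) {a b : ℕ} (h : mm M l ≤ a ∨ mm M l ≤ b) : gwb l u a b = 0 :=
  if_neg (by omega)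

theorem gws_congr {f g : ℕ → F} {a : ℕ} (h : ∀ c, a / 8 ≤ c / 8 → c ≤ a + 1 → f c = g c) :
    gws l f a = gws l g a := by
  unfold gws
  rw [h (a + 1) (by omega) le_rfl]
  congr 1
  · congr 1
    split_ifs
    · exact h _ (by omega) (by omega)
    · rfl
  · split_ifs
    · exact h _ (by omega) (by omega)
    · rfl

theorem gws_zero (a : ℕ) : gws l (fun _ => (0 : F)) a = 0 := by simp [gws]

theorem gws_shift (f : ℕ → F) (a : ℕ) : gws l f (a + 8) = gws l (fun c => f (c + 8)) a := by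
  unfold gws
  rw [show (a + 8) % 8 = a % 8 by omega, show (a + 8) % 4 = a % 4 by omega,
    show a + 8 + 1 = a + 1 + 8 by omega]
  congr 1
  · congr 1
    split_ifs
    · rw [show a + 8 - 7 = a - 7 + 8 by omega]
    · rfl
  · split_ifs
    · rw [show a + 8 - 3 = a - 3 + 8 by omega]
    · rfl

theorem gw_mul (hl : l < 3) (j : ℕ) (s : F) (u : Mat M F) (n n' : Fin M) :
    (genE M l j s * u) n n' = u n n' +
      if n.val % 3 = l then s * ∑ c : Fin M, if PatE M j n c then u c n' else 0 else 0 := by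
  rw [genE, Matrix.add_mul, Matrix.one_mul, Matrix.smul_mul, Matrix.add_apply, Matrix.smul_apply,
    smul_eq_mul, Matrix.mul_assoc, eB, Matrix.diagonal_mul, Matrix.mul_apply]
  simp only [EE, Matrix.of_apply, ite_mul, one_mul, zero_mul, mul_ite, mul_zero]
  congr 1
  exact if_congr (by omega) rfl rfl

theorem gwb_one (hl : l < 3) (a b : ℕ) :
    gwb l (1 : Mat M F) a b = if a = b ∧ b < mm M l then 1 else 0 := by
  have := mm_le M l
  unfold gwb gwx
  by_cases h : a < mm M l ∧ b < mm M l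
  · rw [if_pos h, dif_pos ⟨by omega, by omega⟩, Matrix.one_apply]
    exact if_congr (by rw [Fin.mk.injEq]; omega) rfl rfl
  · rw [if_neg h, if_neg (by omega)]

theorem gwb_mul (hl : l < 3) (j : ℕ) (s : F) (u : Mat M F) (a b : ℕ) :
    gwb l (genE M l j s * u) a b = gwb l u a b +
      if a < mm M l ∧ a % 4 = j % 4 then s * gws l (fun c => gwb l u c b) a else 0 := by
  have hm := mm_le M l
  by_cases h : a < mm M l ∧ b < mm M l
  swap
  · rw [gwb_out _ (by omega), gwb_out _ (by omega), zero_add]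
    split_ifs
    · rw [gws_congr (g := fun _ => 0) fun c _ _ => gwb_out _ (by omega), gws_zero, mul_zero]
    · rfl
  have ha : 3 * a + l < M := by omega
  have hb : 3 * b + l < M := by omega
  have e1 := gwx_val (genE M l j s * u) ⟨_, ha⟩ ⟨_, hb⟩
  have e2 := gwx_val u ⟨_, ha⟩ ⟨_, hb⟩
  simp only at e1 e2
  rw [gwb, if_pos h, e1, gwb, if_pos h, e2, gw_mul hl, if_pos (by simp only; omega)]
  congr 1
  split_ifs with k
  swap
  · rw [sum_eq_zero fun c _ => if_neg fun hc => k ⟨h.1, by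
      have := hc.2.2.2.2
      simp only at this
      omega⟩, mul_zero]
  congr 1
  have e3 : ∀ c : Fin M, u c ⟨_, hb⟩ = gwx u c (3 * b + l) := fun c => (gwx_val u c ⟨_, hb⟩).symm
  simp only [e3]
  rw [Fin.sum_univ_eq_sum_range (fun c => if PatE M j (3 * a + l) c then gwx u c (3 * b + l) else 0)]
  have e4 : ∀ c, (if PatE M j (3 * a + l) c then gwx u c (3 * b + l) else 0) =
      (if c = 3 * (a + 1) + l then gwb l u (a + 1) b else 0) +
      (if c = 3 * (a - 7) + l then if l = 1 ∧ a % 8 = 7 then gwb l u (a - 7) b else 0 else 0) +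
      if c = 3 * (a - 3) + l then if (l = 1 ∧ a % 8 = 7) ∨ (l = 2 ∧ a % 4 = 3) then
        gwb l u (a - 3) b else 0 else 0 := fun c => by
    have e5 : PatE M j (3 * a + l) c ↔ l = c % 3 ∧ c / 3 < mm M l ∧ Pat l a (c / 3) := by
      unfold PatE
      rw [show (3 * a + l) % 3 = l by omega, show (3 * a + l) / 3 = a by omega]
      tauto
    have e6 : ∀ d, c = 3 * d + l → d < mm M l → gwx u c (3 * b + l) = gwb l u d b :=
      fun d e hd => by rw [gwb, if_pos ⟨hd, h.2⟩, e]
    by_cases c1 : c = 3 * (a + 1) + l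
    · rw [if_pos c1, if_neg (show ¬ c = 3 * (a - 7) + l by omega),
        if_neg (show ¬ c = 3 * (a - 3) + l by omega), add_zero, add_zero]
      by_cases c2 : a + 1 < mm M l
      · rw [if_pos (e5.2 ⟨by omega, by omega, Or.inl (by omega)⟩), e6 _ c1 c2]
      · rw [if_neg fun c3 => c2 (by have := (e5.1 c3).2.1; omega), gwb_out _ (by omega)]
    rw [if_neg c1, zero_add, ← ite_and, ← ite_and]
    by_cases c2 : c = 3 * (a - 7) + l ∧ l = 1 ∧ a % 8 = 7
    · rw [if_pos c2, if_neg (show ¬ (c = 3 * (a - 3) + l ∧ _) by omega), add_zero,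
        if_pos (e5.2 ⟨by omega, by omega, Or.inr (Or.inl (by omega))⟩), e6 _ c2.1 (by omega)]
    rw [if_neg c2, zero_add]
    by_cases c3 : c = 3 * (a - 3) + l ∧ ((l = 1 ∧ a % 8 = 7) ∨ (l = 2 ∧ a % 4 = 3))
    · rw [if_pos c3, if_pos (e5.2 ⟨by omega, by omega, Or.inr (by omega)⟩), e6 _ c3.1 (by omega)]
    · rw [if_neg c3, if_neg fun c4 => by
        obtain ⟨d1, d2, d3⟩ := e5.1 c4
        unfold Pat at d3
        omega]
  simp only [e4, sum_add_distrib, sum_ite_eq', mem_range]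
  rw [if_pos (show 3 * (a - 7) + l < M by omega), if_pos (show 3 * (a - 3) + l < M by omega), gws]
  congr 2
  split_ifs
  · rfl
  · exact (gwb_out _ (by omega)).symm

theorem gw_supp (hl : l < 3) {u : Mat M F} (hu : u ∈ GE M F l) : ∀ n n' : Fin M,
    ¬ (n.val % 3 = l ∧ n'.val % 3 = l ∧ n.val / 3 < mm M l ∧ n'.val / 3 < mm M l) →
      u n n' = (1 : Mat M F) n n' := by
  refine GE_ind (P := fun u => ∀ n n' : Fin M, ¬ (n.val % 3 = l ∧ n'.val % 3 = l ∧
    n.val / 3 < mm M l ∧ n'.val / 3 < mm M l) → u n n' = (1 : Mat M F) n n') (fun _ _ _ => rfl)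
    (fun j s u _ ih n n' h => ?_) hu
  rw [gw_mul hl, ih n n' h, add_eq_left]
  split_ifs with k
  · rw [sum_eq_zero fun c _ => ?_, mul_zero]
    split_ifs with c1
    · obtain ⟨d1, d2, d3, -⟩ := c1
      rw [k] at d1 d2 d3
      rw [ih c n' (by tauto), Matrix.one_apply_ne]
      rintro rfl
      exact h ⟨k, d1.symm, d2, d3⟩
    · rfl
  · rfl

theorem gw_ext (hl : l < 3) {u v : Mat M F} (hu : u ∈ GE M F l) (hv : v ∈ GE M F l)
    (h : ∀ a, ∀ b < mm M l, gwb l u a b = gwb l v a b) : u = v := by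
  ext n n'
  by_cases k : n.val % 3 = l ∧ n'.val % 3 = l ∧ n.val / 3 < mm M l ∧ n'.val / 3 < mm M l
  · have := h (n.val / 3) (n'.val / 3) k.2.2.2
    rwa [gwb, gwb, if_pos k.2.2, if_pos k.2.2, show 3 * (n.val / 3) + l = n.val by omega,
      show 3 * (n'.val / 3) + l = n'.val by omega, gwx_val, gwx_val] at this
  · rw [gw_supp hl hu n n' k, gw_supp hl hv n n' k]

theorem gw_low (hl : l < 3) {u : Mat M F} (hu : u ∈ GE M F l) :
    ∀ a b, b / 8 < a / 8 → gwb l u a b = 0 := by
  refine GE_ind (P := fun u => ∀ a b, b / 8 < a / 8 → gwb l u a b = 0) (fun a b h => ?_)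
    (fun j s u _ ih a b h => ?_) hu
  · rw [gwb_one hl, if_neg (by omega)]
  · rw [gwb_mul hl, ih a b h, gws_congr (g := fun _ => 0) fun c _ _ => ih c b (by omega), gws_zero]
    simp

theorem gw_per (hl : l < 3) {u : Mat M F} (hu : u ∈ GE M F l) :
    ∀ a b, b + 8 < mm M l → gwb l u (a + 8) (b + 8) = gwb l u a b := by
  obtain ⟨k, hk⟩ := mm_dvd M l
  refine GE_ind (P := fun u => ∀ a b, b + 8 < mm M l → gwb l u (a + 8) (b + 8) = gwb l u a b)
    (fun a b h => ?_) (fun j s u hu ih a b h => ?_) hu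
  · rw [gwb_one hl, gwb_one hl]
    exact if_congr (by omega) rfl rfl
  · by_cases c : a + 8 < mm M l
    · rw [gwb_mul hl, gwb_mul hl, ih a b h, gws_shift, gws_congr fun c _ _ => ih c b h]
      congr 1
      exact if_congr (by omega) rfl rfl
    · rw [gwb_out _ (by omega), gw_low hl (mul_mem (genE_mem' _ _ _) hu) a b (by omega)]

theorem gw_res (hl : l < 3) (h : mm M' l ≤ mm M l) {u : Mat M F} (hu : u ∈ GE M F l) :
    ∃ v ∈ GE M' F l, ∀ a, ∀ b < mm M' l, gwb l v a b = gwb l u a b := by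
  obtain ⟨k, hk⟩ := mm_dvd M' l
  refine GE_ind (P := fun u => ∃ v ∈ GE M' F l, ∀ a, ∀ b < mm M' l, gwb l v a b = gwb l u a b)
    ⟨1, one_mem _, fun a b hb => ?_⟩ (fun j s u hu ⟨v, hv, ih⟩ =>
      ⟨_, mul_mem (genE_mem' l j s) hv, fun a b hb => ?_⟩) hu
  · rw [gwb_one hl, gwb_one hl]
    exact if_congr (by omega) rfl rfl
  · by_cases c : a < mm M' l
    · rw [gwb_mul hl, gwb_mul hl, ih a b hb, gws_congr fun c _ _ => ih c b hb]
      congr 1
      exact if_congr (by omega) rfl rfl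
    · rw [gwb_out _ (by omega), gw_low hl (mul_mem (genE_mem' _ _ _) hu) a b (by omega)]

theorem gw_col (hl : l < 3) (k : ℕ) : ∀ c, c + k + 1 = mm M l → ∃ v ∈ GE M F l,
    gwb l v c (mm M l - 1) = 1 ∧ ∀ a < c, gwb l v a (mm M l - 1) = 0 := by
  induction k with
  | zero =>
    intro c hc
    refine ⟨1, one_mem _, ?_, fun a ha => ?_⟩
    · rw [gwb_one hl, if_pos (by omega)]
    · rw [gwb_one hl, if_neg (by omega)]
  | succ k ih =>
    intro c hc
    obtain ⟨v, hv, h1, h2⟩ := ih (c + 1) (by omega)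
    refine ⟨genE M l c 1 * v, mul_mem (genE_mem' _ _ _) hv, ?_, fun a ha => ?_⟩
    · rw [gwb_mul hl, if_pos ⟨by omega, rfl⟩, gws, h1, h2 c (by omega), h2 (c - 7) (by omega),
        h2 (c - 3) (by omega)]
      simp
    · rw [gwb_mul hl, h2 a (by omega), gws_congr (g := fun _ => 0) fun c _ _ => h2 c (by omega),
        gws_zero]
      simp

variable [Fintype F]

theorem GE_ge (hl : l < 3) : mm M l ≤ #(fs (GE M F l)) := by
  choose v hv h1 h2 using fun c : Fin (mm M l) =>
    gw_col (M := M) (F := F) hl (mm M l - 1 - c) c (by have := c.isLt; omega)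
  have e : mm M l = #(univ : Finset (Fin (mm M l))) := by simp
  refine e.le.trans (card_le_card_of_injOn v (fun c _ => mem_coe.2 ((mem_fs _ _).2 (hv c)))
    fun c _ d _ h => ?_)
  by_contra hne
  rcases lt_or_gt_of_ne hne with k | k
  · have := h2 d c k
    rw [← h, h1] at this
    exact one_ne_zero this
  · have := h2 c d k
    rw [h, h1] at this
    exact one_ne_zero this

theorem GE_grow (hl : l < 3) {d : ℕ} (h : mm M l = mm M' l + 8 * d) :
    #(fs (GE M F l)) ≤ Fintype.card F ^ (64 * d) * #(fs (GE M' F l)) := by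
  choose! ρ h1 h2 using fun u (hu : u ∈ GE M F l) => gw_res (M' := M') hl (by omega) hu
  have e : Fintype.card F ^ (64 * d) * #(fs (GE M' F l)) =
      #((univ : Finset (Fin 8 × Fin (8 * d) → F)) ×ˢ fs (GE M' F l)) := by
    rw [card_product, card_univ, Fintype.card_fun, Fintype.card_prod, Fintype.card_fin,
      Fintype.card_fin, show 8 * (8 * d) = 64 * d by omega]
  rw [e]
  refine card_le_card_of_injOn
    (fun u => (fun p : Fin 8 × Fin (8 * d) => gwb l u p.1 (mm M' l + p.2), ρ u))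
    (fun u hu => ?_) fun u hu v hv k => ?_
  · exact mem_coe.2 (mem_product.2
      ⟨mem_univ _, (mem_fs _ _).2 (h1 u ((mem_fs _ _).1 (mem_coe.1 hu)))⟩)
  have hu' := (mem_fs _ _).1 (mem_coe.1 hu)
  have hv' := (mem_fs _ _).1 (mem_coe.1 hv)
  refine gw_ext hl hu' hv' fun a => ?_
  induction a using Nat.strong_induction_on with
  | h a ih =>
    intro b hb
    by_cases c1 : b < mm M' l
    · rw [← h2 u hu' a b c1, ← h2 v hv' a b c1, show ρ u = ρ v from congrArg Prod.snd k]
    by_cases c2 : a < 8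
    · have := congrFun (congrArg Prod.fst k) (⟨a, c2⟩, ⟨b - mm M' l, by omega⟩)
      simp only at this
      rwa [show mm M' l + (b - mm M' l) = b by omega] at this
    by_cases c3 : b < 8
    · rw [gw_low hl hu' a b (by omega), gw_low hl hv' a b (by omega)]
    obtain ⟨a, rfl⟩ : ∃ a', a = a' + 8 := ⟨a - 8, by omega⟩
    obtain ⟨b, rfl⟩ : ∃ b', b = b' + 8 := ⟨b - 8, by omega⟩
    rw [gw_per hl hu' a b hb, gw_per hl hv' a b hb]
    exact ih a (by omega) b (by omega)

theorem GE_pow (hl : l < 3) {d : ℕ} (h : mm M l = 8 * d) :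
    #(fs (GE M F l)) ≤ Fintype.card F ^ (64 * d) := by
  have h0 : mm 0 l = 0 := by have := mm_le 0 l; omega
  have h1 : #(fs (GE 0 F l)) ≤ 1 := card_le_one.2 fun a _ b _ => by ext i; exact i.elim0
  exact (GE_grow (M' := 0) hl (by omega)).trans
    ((Nat.mul_le_mul_left _ h1).trans (mul_one _).le)

end Pool.Agent.Lib.MP_45faa6_lc.EN
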