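import Pool.Agent.Lib.MP_45faa6_lc.EN.Prod
import Pool.Agent.Lib.MP_45faa6_lc.EN.GrowA

/-!
The choice of the matrix size (block S, final statements; paper sec. 2, Growth).
-/

set_option autoImplicit false
set_option linter.unusedSectionVars false

namespace Pool.Agent.Lib.MP_45faa6_lc.EN

open Pool.Agent.Lib.MP_45faa6_lc.NL

open Finset Pool.Agent.Lib.MP_acf5a6_lc Pool.Agent.Lib.Common.CookLevin

variable (F : Type) [Field F] [Fintype F] [DecidableEq F]

/-- The pairing function on unary numbers. -/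
def uPair (a b : Un) : Un :=
  cond (decide (a.n < b.n)) ((b.mul b).add a) (((a.mul a).add a).add b)

/-- The matrix size with block lengths `8 a`, `8 b`, `8 c`. -/
def uTri (a b c : Un) : Un := (Un.mk 24).mul (uPair a (uPair b c))

/-- The least `k ≥ m` such that a block of length `8 k` gives a group of size at least `N`. -/
noncomputable def uSrch (l : ℕ) (N m : Un) : Un :=
  (((uzip (urange ((m.add N).add ⟨1⟩))).map fun x => x.2).filter fun k =>
    decide (m.n ≤ k.n) && decide (N.n ≤ (enumE F (uTri k k k) l N).length)).headD ⟨0⟩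

theorem uPair_n (a b : Un) : (uPair a b).n = Nat.pair a.n b.n := by
  unfold uPair Nat.pair
  by_cases h : a.n < b.n <;> simp [h, Un.add, Un.mul]

theorem uTri_mm (a b c : Un) : mm (uTri a b c).n 0 = 8 * a.n ∧ mm (uTri a b c).n 1 = 8 * b.n ∧
    mm (uTri a b c).n 2 = 8 * c.n := by
  have h : (uTri a b c).n / 24 = Nat.pair a.n (Nat.pair b.n c.n) := by
    rw [← uPair_n, ← uPair_n]
    exact Nat.mul_div_cancel_left _ (by norm_num)
  simp [mm, h]

theorem grow_head (n : ℕ) (p : Un → Bool) (h : p ⟨n⟩ = true) : ∃ m : ℕ,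
    (((uzip (List.range (n + 1))).map fun x => x.2).filter p).headD ⟨0⟩ = ⟨m⟩ ∧ p ⟨m⟩ = true ∧
      ∀ k < m, ¬p ⟨k⟩ = true := by
  have e : ((uzip (List.range (n + 1))).map fun x => x.2) = (List.range (n + 1)).map Un.mk := by
    refine List.ext_getElem (by simp [uzip]) fun i _ _ => ?_
    simp [uzip]
  have ex : ∃ m, p ⟨m⟩ = true := ⟨n, h⟩
  refine ⟨Nat.find ex, ?_, Nat.find_spec ex, fun k hk => Nat.find_min ex hk⟩
  have h1 : (List.range (n + 1)).find? (p ∘ Un.mk) = some (Nat.find ex) :=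
    List.find?_range_eq_some.2 ⟨Nat.find_spec ex,
      List.mem_range.2 (Nat.lt_succ_of_le (Nat.find_min' ex h)),
      fun j hj => by simpa using Nat.find_min ex hj⟩
  rw [e, List.headD_eq_head?_getD, List.head?_filter, List.find?_map, h1]
  rfl

theorem uSrch_spec {l M : ℕ} (hl : l < 3) (N m : Un) (h : mm M l = 8 * (uSrch F l N m).n) :
    m.n ≤ (uSrch F l N m).n ∧ N.n ≤ #(fs (GE M F l)) ∧
      #(fs (GE M F l)) ≤ Fintype.card F ^ 64 * (N.n + Fintype.card F ^ (64 * m.n)) := by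
  have hm : ∀ k : Un, mm (uTri k k k).n l = 8 * k.n := fun k => by
    obtain ⟨h0, h1, h2⟩ := uTri_mm k k k
    interval_cases l <;> assumption
  have key : ∀ k : Un, (decide (m.n ≤ k.n) &&
      decide (N.n ≤ (enumE F (uTri k k k) l N).length)) = true ↔
      m.n ≤ k.n ∧ N.n ≤ #(fs (GE (uTri k k k).n F l)) := fun k => by
    obtain ⟨L, e, -, -, hL⟩ := enumE_spec (F := F) (uTri k k k) l N
    rw [Bool.and_eq_true, decide_eq_true_eq, decide_eq_true_eq, e, List.length_map, hL]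
    omega
  obtain ⟨k, e, h1, h2⟩ := grow_head (m.n + N.n) (fun k => decide (m.n ≤ k.n) &&
    decide (N.n ≤ (enumE F (uTri k k k) l N).length)) ((key ⟨m.n + N.n⟩).2 ⟨Nat.le_add_right _ _,
      le_trans (by rw [hm]; simp only; omega) (GE_ge hl)⟩)
  have e' : uSrch F l N m = ⟨k⟩ := e
  rw [e'] at h ⊢
  obtain ⟨h3, h4⟩ := (key _).1 h1
  have hq : 1 ≤ Fintype.card F ^ 64 := Nat.one_le_pow _ _ Fintype.card_pos
  refine ⟨h3, h4.trans ?_, ?_⟩
  · simpa using GE_grow (F := F) (M := (uTri ⟨k⟩ ⟨k⟩ ⟨k⟩).n) (M' := M) (d := 0) hl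
      (by rw [hm, h]; rfl)
  rcases (show m.n ≤ k from h3).eq_or_lt with c | c
  · exact (GE_pow hl (d := m.n) (by rw [h, c])).trans
      ((Nat.le_add_left _ _).trans (Nat.le_mul_of_pos_left _ hq))
  · obtain ⟨k, rfl⟩ : ∃ k', k = k' + 1 := ⟨k - 1, by omega⟩
    have h5 := not_le.1 fun c' => h2 k k.lt_succ_self ((key ⟨k⟩).2 ⟨Nat.le_of_lt_succ c, c'⟩)
    exact (GE_grow (M' := (uTri ⟨k⟩ ⟨k⟩ ⟨k⟩).n) (d := 1) hl (by rw [hm, h]; rfl)).trans
      (Nat.mul_le_mul_left _ (h5.le.trans (Nat.le_add_right _ _)))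

/-- A matrix size such that the blocks `0`, `1` give groups of size about `N0`, block `2` gives a
group of size about `N2` and has length at least `8 m`. -/
noncomputable def uMM (F : Type) [Field F] [Fintype F] [DecidableEq F] (N0 N2 m : Un) : Un :=
  uTri (uSrch F 0 N0 ⟨0⟩) (uSrch F 1 N0 ⟨0⟩) (uSrch F 2 N2 m)

theorem uMM_spec [CharP F 2] : ∃ C : ℕ, ∀ N0 N2 m : Un,
    (∀ k < 2, N0.n ≤ #(fs (GE (uMM F N0 N2 m).n F k)) ∧
      #(fs (GE (uMM F N0 N2 m).n F k)) ≤ C * (N0.n + 1)) ∧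
    N2.n ≤ #(fs (GE (uMM F N0 N2 m).n F 2)) ∧
    #(fs (GE (uMM F N0 N2 m).n F 2)) ≤ C * (N2.n + Fintype.card F ^ (64 * m.n)) ∧
    8 * m.n ≤ mm (uMM F N0 N2 m).n 2 := by
  refine ⟨Fintype.card F ^ 64, fun N0 N2 m => ?_⟩
  obtain ⟨h0, h1, h2⟩ := uTri_mm (uSrch F 0 N0 ⟨0⟩) (uSrch F 1 N0 ⟨0⟩) (uSrch F 2 N2 m)
  obtain ⟨c1, c2, c3⟩ := uSrch_spec F (by omega) N2 m h2
  refine ⟨fun k hk => ?_, c2, c3, (Nat.mul_le_mul_left 8 c1).trans h2.ge⟩
  interval_cases k
  · exact (uSrch_spec F (by omega) N0 ⟨0⟩ h0).2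
  · exact (uSrch_spec F (by omega) N0 ⟨0⟩ h1).2

variable [N487b59b3 F] {α : Type} [N487b59b3 α]

@[fun_prop] theorem uPair_PT {a b : α → Un} (ha : PT a) (hb : PT b) :
    PT fun x => uPair (a x) (b x) := by
  unfold uPair; fun_prop

@[fun_prop] theorem uTri_PT {a b c : α → Un} (ha : PT a) (hb : PT b) (hc : PT c) :
    PT fun x => uTri (a x) (b x) (c x) := by
  unfold uTri; fun_prop

@[fun_prop] theorem uSrch_PT (l : ℕ) {N m : α → Un} (hN : PT N) (hm : PT m) :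
    PT fun x => uSrch F l (N x) (m x) := by
  unfold uSrch; fun_prop

@[fun_prop] theorem uMM_PT {N0 N2 m : α → Un} (h0 : PT N0) (h2 : PT N2) (hm : PT m) :
    PT fun a => uMM F (N0 a) (N2 a) (m a) := by
  unfold uMM; fun_prop

end Pool.Agent.Lib.MP_45faa6_lc.EN
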