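import Pool.Agent.Lib.MP_45faa6_lc.EN.Grp
import Pool.Agent.Lib.MP_45faa6_lc.NL.Heis

/-!
The left-right complex on the group and its expansion.
-/

set_option autoImplicit false

namespace Pool.Agent.Lib.MP_45faa6_lc.EN

open Pool.Agent.Lib.MP_45faa6_lc.NL

open Finset

section

variable {F A : Type} [Field F] [Ring A] [Algebra F A] {E E' : A}

theorem grpvex_comm (h : E * E' = 0) (h' : E' * E = 0) (c c' : F) :
    (1 + c • E) * (1 + c' • E') = (1 + c' • E') * (1 + c • E) := by
  simp only [mul_add, add_mul, one_mul, mul_one, smul_mul_assoc, mul_smul_comm, h, h', smul_zero,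
    add_zero]
  abel

theorem grpvex_add (h : E * E = 0) (c c' : F) :
    1 + (c + c') • E = (1 + c • E) * (1 + c' • E) := by
  simp only [mul_add, add_mul, one_mul, mul_one, smul_mul_assoc, mul_smul_comm, h, smul_zero,
    add_zero, add_smul]
  abel

theorem grpvex_heis (h2 : E' * E = 0) (h3 : E' * E' = 0) (c c' : F) :
    (1 + c' • E') * (1 + c • E) = (1 + -(c * c') • (E * E')) * ((1 + c • E) * (1 + c' • E')) := by
  have h4 : E' * (E * E') = 0 := by rw [← mul_assoc, h2, zero_mul]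
  simp only [mul_add, add_mul, one_mul, mul_one, smul_mul_assoc, mul_smul_comm, mul_assoc, h2, h3,
    h4, mul_zero, smul_zero, add_zero, smul_add, smul_smul, neg_smul, neg_mul, neg_zero,
    mul_comm c c']
  abel

end

section

variable {M : ℕ} {F : Type} [Field F]

theorem grpvex_succ (i : Fin 4) : EE M F (i + 1).val = EE M F (i.val + 1) := by
  rw [Fin.val_add]
  exact EE_mod _

theorem grpvex_mem (j : ℕ) (b : F) : 1 + b • (EE M F j * EE M F (j + 1)) ∈ GG M F := by
  have h := grpvex_heis (EE_mul_EE (M := M) (B := F) (j + 1) j (by omega))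
    (EE_mul_EE (j + 1) (j + 1) (by omega)) b (-1)
  rw [mul_neg, neg_neg, mul_one] at h
  have e : 1 + b • (EE M F j * EE M F (j + 1)) =
      gen M (j + 1) (-1) * gen M j b * (gen M (j + 1) 1 * gen M j (-b)) := by
    rw [gen, gen, h, ← gen, ← gen, mul_assoc, mul_assoc, ← mul_assoc (gen M (j + 1) (-1)),
      gen_mul_gen, neg_add_cancel, gen_zero, one_mul, gen_mul_gen, add_neg_cancel, gen_zero,
      mul_one]
  rw [e]
  exact mul_mem (mul_mem (gen_mem _ _) (gen_mem _ _)) (mul_mem (gen_mem _ _) (gen_mem _ _))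

/-- Left multiplication by a one-parameter subgroup. -/
def grpvex_act (E : Mat M F) (h : E * E = 0) (hm : ∀ b : F, 1 + b • E ∈ GG M F) :
    Act F (GG M F) where
  act c y := ⟨(1 + c • E) * y.1, mul_mem (hm c) y.2⟩
  zero y := Subtype.ext (by simp)
  add c c' y := Subtype.ext (by simp only [grpvex_add h, mul_assoc])

/-- The untwisted left system. -/
def grpvex_sys (M : ℕ) (F : Type) [Field F] : Sys F (GG M F) where
  x i := grpvex_act (EE M F i.val) (EE_mul_EE _ _ (by omega)) (gen_mem _)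
  z i := grpvex_act (EE M F i.val * EE M F (i.val + 1)) (by
    rw [mul_assoc, ← mul_assoc (EE M F (i.val + 1)), EE_mul_EE (i.val + 1) i.val (by omega),
      zero_mul, mul_zero]) (grpvex_mem _)
  B _ c c' := -(c * c')
  comm i c c' y := Subtype.ext (by
    have h : (i + 2).val = (i.val + 2) % 4 := Fin.val_add i 2
    simp only [grpvex_act, ← mul_assoc]
    rw [grpvex_comm (EE_mul_EE _ _ (by omega)) (EE_mul_EE _ _ (by omega))])
  zx i b c y := Subtype.ext (by
    simp only [grpvex_act, ← mul_assoc]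
    rw [grpvex_comm (by rw [mul_assoc, EE_mul_EE (i.val + 1) i.val (by omega), mul_zero])
      (by rw [← mul_assoc, EE_mul_EE i.val i.val (by omega), zero_mul])])
  zx' i b c y := Subtype.ext (by
    simp only [grpvex_act, ← mul_assoc, grpvex_succ]
    rw [grpvex_comm (by rw [mul_assoc, EE_mul_EE (i.val + 1) (i.val + 1) (by omega), mul_zero])
      (by rw [← mul_assoc, EE_mul_EE (i.val + 1) i.val (by omega), zero_mul])])
  heis i c c' y := Subtype.ext (by
    simp only [grpvex_act, grpvex_succ]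
    rw [← mul_assoc, grpvex_heis (EE_mul_EE _ _ (by omega)) (EE_mul_EE _ _ (by omega)),
      mul_assoc, mul_assoc])
  surj _ c' h b := ⟨-b / c', by simp only [div_mul_cancel₀ _ h, neg_neg]⟩

theorem grpvex_orb [Fintype F] : (grpvex_sys M F).Orb #(GS M F) := fun φ h y => by
  have h1 : ∀ u (hu : u ∈ GG M F), φ ⟨u, hu⟩ = φ 1 := fun u hu => by
    induction hu using Submonoid.closure_induction_left with
    | one => rfl
    | mul_left a ha u hu ih =>
      obtain ⟨p, rfl⟩ := ha
      exact (h p.1 p.2 ⟨u, hu⟩).trans ih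
  have h2 : ∀ w, φ w = φ 1 := fun w => h1 w.1 w.2
  simp only [h2, sum_const, card_univ, card_GG, nsmul_eq_mul, le_refl]

end

variable {M : ℕ} {F : Type} [Field F] [CharP F 2]

variable [Fintype F] [DecidableEq F]

open Classical in
/-- Sketch: the untwisted left system on `GG M F` and `Sys.vex` with `g = #GS`. -/
theorem vex_G (hK : 81 ≤ Fintype.card F) (Z : Finset (Mat M F)) (hZ : Z ⊆ GS M F)
    (h : 20 * #Z ≤ 19 * #(GS M F)) :
    #Z ≤ 160 * #{u ∈ GS M F | u ∉ Z ∧ ∃ (j : Fin 4) (s : F), gen M j.val s * u ∈ Z} := by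
  have hg : (0 : ℝ) < #(GS M F) := Nat.cast_pos.2 GS_pos
  have h1 := (grpvex_sys M F).vex hK hg grpvex_orb {u | u.1 ∈ Z}
  have h2 : #{u : GG M F | u.1 ∈ Z} = #Z := by
    refine card_bij (fun u _ => u.1) (fun u hu => (mem_filter.1 hu).2)
      (fun u _ v _ e => Subtype.ext e) fun u hu => ⟨⟨u, (mem_GS u).1 (hZ hu)⟩, ?_, rfl⟩
    exact mem_filter.2 ⟨mem_univ _, hu⟩
  have h3 := h1.trans (mul_le_mul_of_nonneg_left (Nat.cast_le.2 (card_le_card_of_injOn
    (t := {u ∈ GS M F | u ∉ Z ∧ ∃ (j : Fin 4) (s : F), gen M j.val s * u ∈ Z}) (fun u => u.1)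
    (fun u hu => by
      obtain ⟨k1, j, s, k2⟩ := (mem_filter.1 hu).2
      exact mem_filter.2 ⟨(mem_GS _).2 u.2, fun k => k1 (mem_filter.2 ⟨mem_univ _, k⟩), j, s,
        (mem_filter.1 k2).2⟩) fun u _ v _ e => Subtype.ext e)) (by norm_num))
  rw [h2] at h3
  have h4 : (#Z : ℝ) ^ 2 / #(GS M F) ≤ 19 / 20 * #Z := by
    have h5 : (20 : ℝ) * #Z ≤ 19 * #(GS M F) := by exact_mod_cast h
    rw [div_le_iff₀ hg]
    nlinarith [Nat.cast_nonneg (α := ℝ) #Z]
  rw [← Nat.cast_le (α := ℝ), Nat.cast_mul, Nat.cast_ofNat]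
  linarith [Nat.cast_nonneg (α := ℝ) #Z]

end Pool.Agent.Lib.MP_45faa6_lc.EN
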