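import Pool.Agent.Lib.MP_45faa6_lc.NL.LineA
import Pool.Agent.Lib.MP_45faa6_lc.EN.Wt

/-!
Flat functions have low degree on lines.
-/

set_option autoImplicit false

namespace Pool.Agent.Lib.MP_45faa6_lc.EN

open Pool.Agent.Lib.MP_45faa6_lc.NL

open Polynomial

variable {M : ℕ} {F : Type} [Field F] [CharP F 2] [Fintype F]

/-- The matrices along the line through `u` in direction `i`. -/
noncomputable def lineY (e : ℕ) (i : Fin 8) (u : Mat M F) : Fin 8 → Mat M F[X] :=
  fun k => ee i (X ^ 2 ^ (e * (k - i - 1).val)) (base e F[X] u k)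

theorem line_idx : ∀ i k : Fin 8, k - 1 ≠ i → (k - i - 1).val = (k - 1 - i - 1).val + 1 := by
  decide

theorem line_idx' : ∀ i k : Fin 8,
    7 - i.val + k.val = (k - i - 1).val ∨ 7 - i.val + k.val = (k - i - 1).val + 8 := by
  decide

theorem line_idx'' : ∀ i : Fin 8, (i + 1 - i - 1).val = 0 ∧ (i - i - 1).val = 7 := by
  decide

theorem line_fixed {e : ℕ} (hF : Fintype.card F = 2 ^ (8 * e)) {B : Type} [CommRing B] [Algebra F B]
    (i : Fin 8) (u : Mat M F) (c : F) (η : B) :
    step F e (Pi.single i η)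
      (fun k => ee i ((algebraMap F B c + η) ^ 2 ^ (e * (k - i - 1).val)) (base e B u k)) =
      fun k => ee i ((algebraMap F B c + η) ^ 2 ^ (e * (k - i - 1).val)) (base e B u k) := by
  funext k
  rw [step, ee_map, base_succ hF, sub_add_cancel, fr_apply, ← pow_mul, ← pow_add, ← mul_add_one]
  by_cases hk : k - 1 = i
  · obtain rfl : k = i + 1 := sub_eq_iff_eq_add.1 hk
    rw [hk, Pi.single_eq_same, ee_ee, (line_idx'' i).1, (line_idx'' i).2, mul_zero, pow_zero,
      pow_one, be, mul_comm e, show 7 + 1 = 8 from rfl, add_pow_two_pow F B, ← map_pow, pow_Q hF]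
    congr 1
    linear_combination add_self F B (η ^ 2 ^ (8 * e))
  · rw [Pi.single_eq_of_ne hk, be, zero_pow (by positivity), add_zero, ee_zero, ← line_idx i k hk]

theorem line_base {e : ℕ} (hF : Fintype.card F = 2 ^ (8 * e)) (B : Type) [CommRing B] [Algebra F B]
    (i k : Fin 8) (u : Mat M F) (c : F) :
    base e B (ee i (c ^ 2 ^ (e * (7 - i.val))) u) k =
      ee i (algebraMap F B c ^ 2 ^ (e * (k - i - 1).val)) (base e B u k) := by
  have h := ee_map i (c ^ 2 ^ (e * (7 - i.val))) u ((algebraMap F B).comp (fr F F (e * k.val)))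
  refine h.trans ?_
  congr 1
  rw [RingHom.comp_apply, fr_apply, ← map_pow, ← pow_mul, ← pow_add, ← mul_add]
  rcases line_idx' i k with h1 | h1
  · rw [h1]
  · rw [h1, mul_add, pow_add, pow_mul, mul_comm e 8, pow_Q hF]

theorem line_YY {e : ℕ} (hF : Fintype.card F = 2 ^ (8 * e)) (K : ℕ) {B : Type} [CommRing B]
    [Algebra F B] (i : Fin 8) (u : Mat M F) (c : F) (η : B) (hη : η ^ 2 ^ (e * (8 * K)) = 0) :
    (fun k => ee i ((algebraMap F B c + η) ^ 2 ^ (e * (k - i - 1).val)) (base e B u k)) =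
      YY e K (Pi.single i η) (ee i (c ^ 2 ^ (e * (7 - i.val))) u) := by
  refine YY_unique K _ _ _ (line_fixed hF i u c η) fun k a b => ?_
  rw [line_base hF, add_pow_two_pow F B, add_comm, ← ee_ee, ee, Matrix.add_apply,
    add_sub_cancel_left, Matrix.smul_apply, smul_eq_mul, mul_pow, ← pow_mul, mul_comm (2 ^ _),
    pow_mul, hη, zero_pow (by positivity), zero_mul]

omit [CharP F 2] [Fintype F] in
theorem line_deg (e : ℕ) (i : Fin 8) (u : Mat M F) (k : Fin 8) (a b : Fin M) :
    (lineY e i u k a b).natDegree ≤ 2 * 2 ^ (7 * e) := by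
  have h0 : ∀ a b, (base e F[X] u k a b).natDegree = 0 := fun a b => natDegree_C _
  have h1 : (opE i (base e F[X] u k) a b).natDegree = 0 := by
    obtain ⟨s, f, g, h⟩ := opE_entry i a b
    rw [h]
    exact Nat.le_zero.1 (natDegree_sum_le_of_forall_le _ _ fun c _ => (h0 _ _).le)
  have h2 : 2 ^ (e * (k - i - 1).val) ≤ 2 ^ (7 * e) := by
    refine Nat.pow_le_pow_right two_pos ?_
    rw [mul_comm]
    exact Nat.mul_le_mul_right e (Nat.le_of_lt_succ (k - i - 1).isLt)
  rw [lineY, ee, Matrix.add_apply, Matrix.smul_apply, smul_eq_mul]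
  refine (natDegree_add_le _ _).trans (max_le (by rw [h0]; exact Nat.zero_le _) ?_)
  refine natDegree_mul_le.trans ?_
  rw [h1, natDegree_X_pow]
  omega

omit [CharP F 2] [Fintype F] in
theorem line_wt {e D : ℕ} {Ψ : RR M F} (h : Wt e D Ψ) (g : Var M → F[X])
    (hg : ∀ v, (g v).natDegree ≤ wt e M v) : (MvPolynomial.aeval g Ψ).natDegree ≤ D := by
  rw [MvPolynomial.aeval_def, MvPolynomial.eval₂_eq]
  refine natDegree_sum_le_of_forall_le _ _ fun m hm => ?_
  refine (natDegree_C_mul_le _ _).trans ((natDegree_prod_le _ _).trans (le_trans ?_ (h m hm)))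
  rw [Finsupp.weight_apply]
  exact Finset.sum_le_sum fun v _ => natDegree_pow_le.trans (Nat.mul_le_mul_left _ (hg v))

/-- Sketch: let `ρ = aeval` with `w k ↦ C (a k) + (if k = i then X else 0)`, `z k ↦ lineY k`, and
`ψ = ρ Ψ`; `natDegree ψ ≤ D` on monomials (entries of `lineY` have degree `≤ 2 ^ (7 e)`). For fixed
`c` let `B = AdjoinRoot (X ^ P)`, `η = root`, `τ = aeval (algebraMap c + η) : F[X] →ₐ B`. The
matrices `(lineY k).map τ` are a fixed point of `step` for `t = Pi.single i η` and congruent to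
`base` of `(mv e i c x).1`, so equal `YY` (`YY_unique`); hence `τ ∘ ρ = ev t (mv e i c x)`, and
`ev_of_epsJ` gives `τ ψ = algebraMap (Fv _)`. Conclude with `LD_of_taylor`, `pow_P`. -/
theorem Flat.LD {e : ℕ} (hF : Fintype.card F = 2 ^ (8 * e)) {K : ℕ} {J : Finset (Fin 8)} {D d : ℕ}
    {Fv : Pt M F → F} (h : Flat e K J D Fv) (hD : D ≤ d * 2 ^ (e * (8 * K))) (i : Fin 8)
    (hi : i ∈ J) (x : Pt M F) : LD d (fun c => Fv (mv e i c x)) := by
  obtain ⟨Ψ, hw, hΨ⟩ := h
  let g : Var M → F[X] := Sum.elim (fun k => C (x.2 k) + (Pi.single i X : Fin 8 → F[X]) k)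
    fun p => lineY e i x.1 p.1 p.2.1 p.2.2
  have hg : ∀ v, (g v).natDegree ≤ wt e M v := by
    rintro (k | p)
    · change (C (x.2 k) + (Pi.single i X : Fin 8 → F[X]) k).natDegree ≤ 1
      rw [natDegree_C_add]
      by_cases hk : k = i
      · rw [hk, Pi.single_eq_same, natDegree_X]
      · rw [Pi.single_eq_of_ne hk, natDegree_zero]
        exact zero_le_one
    · exact line_deg e i x.1 _ _ _
  refine LD_of_taylor (e * (8 * K)) d (pow_P hF K) _ ((line_wt hw g hg).trans hD) _ fun c => ?_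
  let f : F[X] := X ^ 2 ^ (e * (8 * K))
  have hη : AdjoinRoot.root f ^ 2 ^ (e * (8 * K)) = 0 := by
    rw [← AdjoinRoot.mk_X, ← map_pow]
    exact AdjoinRoot.mk_self
  have ht : ∀ k, (Pi.single i (AdjoinRoot.root f) : Fin 8 → AdjoinRoot f) k ^ 2 ^ (e * (8 * K)) =
      0 := fun k => by
    by_cases hk : k = i
    · rw [hk, Pi.single_eq_same, hη]
    · rw [Pi.single_eq_of_ne hk, zero_pow (by positivity)]
  have h1 := ev_of_epsJ (J := J) _ ht
    (fun k hk => Pi.single_eq_of_ne (fun e : k = i => hk (e ▸ hi)) _) (mv e i c x) Ψ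
  rw [hΨ, AlgHom.commutes] at h1
  let τ : F[X] →ₐ[F] AdjoinRoot f := aeval (algebraMap F _ c + AdjoinRoot.root f)
  have h2 : τ.comp (MvPolynomial.aeval g) =
      ev e K (Pi.single i (AdjoinRoot.root f)) (mv e i c x) := by
    refine MvPolynomial.algHom_ext ?_
    rintro (k | ⟨k, a, b⟩)
    · rw [AlgHom.comp_apply, MvPolynomial.aeval_X, ev_w]
      change τ (C (x.2 k) + (Pi.single i X : Fin 8 → F[X]) k) =
        algebraMap F _ (x.2 k + (Pi.single i c : Fin 8 → F) k) + _
      rw [map_add, map_add, aeval_C, add_assoc]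
      by_cases hk : k = i
      · rw [hk, Pi.single_eq_same, Pi.single_eq_same, Pi.single_eq_same, aeval_X]
      · rw [Pi.single_eq_of_ne hk, Pi.single_eq_of_ne hk, Pi.single_eq_of_ne hk, map_zero, map_zero,
          add_zero (0 : AdjoinRoot f)]
    · rw [AlgHom.comp_apply, MvPolynomial.aeval_X, ev_z]
      change ((lineY e i x.1 k).map (τ : F[X] →+* AdjoinRoot f)) a b =
        YY e K _ (ee i (c ^ 2 ^ (e * (7 - i.val))) x.1) k a b
      rw [← line_YY hF K i x.1 c _ hη, lineY, ee_map, map_pow]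
      have e1 : (τ : F[X] →+* AdjoinRoot f) X = algebraMap F _ c + AdjoinRoot.root f := aeval_X _
      have e2 : (base e F[X] x.1 k).map (τ : F[X] →+* AdjoinRoot f) = base e _ x.1 k :=
        base_map e τ x.1 k
      rw [e1, e2]
  rw [← h2, AlgHom.comp_apply] at h1
  rw [← AdjoinRoot.mk_eq_zero, ← AdjoinRoot.aeval_eq, map_sub, aeval_C, taylor_apply, aeval_comp,
    map_add, aeval_X, aeval_C, add_comm]
  exact sub_eq_zero.2 h1

end Pool.Agent.Lib.MP_45faa6_lc.EN
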