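import Pool.Agent.Lib.MP_45faa6_lc.EN.Theta
import Pool.Agent.Lib.MP_45faa6_lc.EN.Line

/-!
Interpolation and the zero test.
-/

set_option autoImplicit false

namespace Pool.Agent.Lib.MP_45faa6_lc.EN

open Pool.Agent.Lib.MP_45faa6_lc.NL

open MvPolynomial

variable {M : ℕ} {F : Type} [Field F]

/-- The indicator polynomial of `x0`. -/
noncomputable def dl (e : ℕ) (x0 : Mat M F) : RR M F :=
  ∏ ν : Fin M × Fin M, (1 + (X (Sum.inr (0, ν)) + C (x0 ν.1 ν.2)) ^ (2 ^ (8 * e) - 1))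

/-- The interpolation polynomial of `T` on `S`. -/
noncomputable def interp (e : ℕ) (S : Finset (Mat M F)) (T : Mat M F → F) : RR M F :=
  ∑ x0 ∈ S, C (T x0) * dl e x0

variable [CharP F 2]

/-- The extension of `T` to all points. -/
noncomputable def hat (e K : ℕ) (J : Finset (Fin 8)) (S : Finset (Mat M F)) (T : Mat M F → F) :
    Pt M F → F :=
  EV e K J (wP M F (e * (8 * K)) J * interp e S T)

theorem hat_slice (e K : ℕ) (J : Finset (Fin 8)) (S : Finset (Mat M F)) (T : Mat M F → F)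
    (x : Pt M F) (hx : ∀ i ∉ J, x.2 i = 0) : hat e K Finset.univ S T x = hat e K J S T x :=
  EV_slice _ x hx

variable [Fintype F] {e : ℕ} (hF : Fintype.card F = 2 ^ (8 * e))

include hF

omit [CharP F 2] in
theorem hat_ind [DecidableEq F] (h2 : ∀ x : F, x + x = 0) (y x : F) :
    1 + (y + x) ^ (2 ^ (8 * e) - 1) = if y = x then 1 else 0 := by
  split_ifs with h
  · have hq : 2 ^ (8 * e) - 1 ≠ 0 := by
      have := Fintype.one_lt_card (α := F)
      omega
    rw [h, h2, zero_pow hq, add_zero]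
  · have hne : y + x ≠ 0 := fun h0 => h (by
      have h1 : y + x + x = x := by rw [h0, zero_add]
      rwa [add_assoc, h2, add_zero] at h1)
    rw [← hF, FiniteField.pow_card_sub_one_eq_one _ hne, h2]

theorem hat_dl [DecidableEq F] (K : ℕ) (u x0 : Mat M F) :
    ev e K (fun _ => (0 : F)) ((u, 0) : Pt M F) (dl e x0) = if u = x0 then 1 else 0 := by
  have h1 : ∀ ν : Fin M × Fin M,
      ev e K (fun _ => (0 : F)) ((u, 0) : Pt M F)
        (1 + (X (Sum.inr (0, ν)) + C (x0 ν.1 ν.2)) ^ (2 ^ (8 * e) - 1)) =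
        if u ν.1 ν.2 = x0 ν.1 ν.2 then 1 else 0 := by
    rintro ⟨a, b⟩
    rw [map_add, map_one, map_pow, map_add, ev_z, YY_zero hF, algHom_C,
      ← hat_ind hF (add_self F F)]
    simp [base]
  rw [dl, map_prod, Finset.prod_congr rfl fun ν _ => h1 ν]
  split_ifs with h
  · subst h
    simp
  · obtain ⟨ν, hν⟩ : ∃ ν : Fin M × Fin M, u ν.1 ν.2 ≠ x0 ν.1 ν.2 := by
      by_contra hc
      refine h (Matrix.ext fun a b => ?_)
      by_contra hab
      exact hc ⟨(a, b), hab⟩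
    exact Finset.prod_eq_zero (Finset.mem_univ ν) (if_neg hν)

omit hF [Fintype F] [CharP F 2] in
theorem hat_interp_Wt (S : Finset (Mat M F)) (T : Mat M F → F) :
    Wt e (M ^ 2 * ((2 ^ (8 * e) - 1) * (2 * 2 ^ (7 * e)))) (interp e S T) := by
  refine Wt.sum S fun x0 _ => ?_
  have h1 : Wt e (M ^ 2 * ((2 ^ (8 * e) - 1) * (2 * 2 ^ (7 * e)))) (dl e x0) := by
    have := Wt.prod (e := e) (D := (2 ^ (8 * e) - 1) * (2 * 2 ^ (7 * e)))
      (Finset.univ : Finset (Fin M × Fin M))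
      (f := fun ν => (1 + (X (Sum.inr (0, ν)) + C (x0 ν.1 ν.2)) ^ (2 ^ (8 * e) - 1) : RR M F))
      fun ν _ => (Wt.one e _).add (((Wt.X e (Sum.inr (0, ν))).add (Wt.C e _ _)).pow _)
    rw [Finset.card_univ, Fintype.card_prod, Fintype.card_fin, ← sq] at this
    exact this
  simpa using (Wt.C e 0 (T x0)).mul h1

/-- Sketch: `lam_union` with `∅`, `lam_empty`, `ev_map`, `YY_zero`; `1 + (y + x) ^ (Q - 1)` is the
indicator of `y = x` (`FiniteField.pow_card_sub_one_eq_one`). -/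
theorem hat_zero [DecidableEq F] (K : ℕ) (J : Finset (Fin 8)) (S : Finset (Mat M F))
    (T : Mat M F → F) (u : Mat M F) : hat e K J S T (u, 0) = if u ∈ S then T u else 0 := by
  have h1 : ev e K (eps F (e * (8 * K))) ((u, 0) : Pt M F) (wP M F (e * (8 * K)) J) =
      ∏ j ∈ J, eps F (e * (8 * K)) j ^ (2 ^ (e * (8 * K)) - 1) := by
    rw [wP, map_prod]
    refine Finset.prod_congr rfl fun j _ => ?_
    rw [map_pow, ev_w]
    simp
  have h2 := lam_union (e * (8 * K)) ∅ J (Finset.disjoint_empty_left J)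
    (ev e K (eps F (e * (8 * K))) ((u, 0) : Pt M F) (interp e S T))
  rw [Finset.empty_union] at h2
  rw [hat, EV, map_mul, h1, h2, lam_empty, ev_map]
  simp only [tlift_eps]
  rw [interp, map_sum]
  simp only [map_mul, algHom_C, hat_dl hF, Algebra.algebraMap_self, RingHom.id_apply, mul_ite,
    mul_one, mul_zero]
  rw [Finset.sum_ite_eq]

/-- Sketch: `flat_EV`, `wP_Wt`; `interp` has weight `≤ M ^ 2 * Q * (2 * 2 ^ (7 e))`. -/
theorem hat_flat (he : 1 ≤ e) {K : ℕ} (hK : M ^ 2 * 2 ^ (8 * e) ≤ 2 ^ (e * (8 * K)))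
    (J : Finset (Fin 8)) (S : Finset (Mat M F)) (T : Mat M F → F) :
    Flat e K J ((5 * J.card + 2) * 2 ^ (7 * e) * 2 ^ (e * (8 * K))) (hat e K J S T) := by
  refine (flat_EV hF he K J _ _
    ((wP_Wt e (e * (8 * K)) J).mul (hat_interp_Wt (e := e) S T))).mono ?_
  have ha : J.card * (2 ^ (e * (8 * K)) - 1) ≤ J.card * (2 ^ (7 * e) * 2 ^ (e * (8 * K))) :=
    Nat.mul_le_mul_left _ ((Nat.sub_le _ _).trans (Nat.le_mul_of_pos_left _ (by positivity)))
  have hb : M ^ 2 * ((2 ^ (8 * e) - 1) * (2 * 2 ^ (7 * e))) ≤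
      2 ^ (e * (8 * K)) * (2 * 2 ^ (7 * e)) := by
    rw [← mul_assoc]
    exact Nat.mul_le_mul_right _ ((Nat.mul_le_mul_left _ (Nat.sub_le _ _)).trans hK)
  calc _ ≤ J.card * (2 ^ (7 * e) * 2 ^ (e * (8 * K))) + 2 ^ (e * (8 * K)) * (2 * 2 ^ (7 * e)) +
        4 * 2 ^ (7 * e) * (J.card * 2 ^ (e * (8 * K))) :=
        Nat.add_le_add_right (Nat.add_le_add ha hb) _
    _ = _ := by ring

theorem hat_LD (he : 1 ≤ e) {K : ℕ} (hK : M ^ 2 * 2 ^ (8 * e) ≤ 2 ^ (e * (8 * K)))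
    (J : Finset (Fin 8)) (S : Finset (Mat M F)) (T : Mat M F → F) (i : Fin 8) (hi : i ∈ J)
    (x : Pt M F) : LD (128 * 2 ^ (7 * e)) (fun c => hat e K J S T (mv e i c x)) := by
  refine (hat_flat hF he hK J S T).LD hF (Nat.mul_le_mul_right _ (Nat.mul_le_mul_right _ ?_)) i hi x
  have := Finset.card_le_univ J
  simp only [Fintype.card_fin] at this
  omega

end Pool.Agent.Lib.MP_45faa6_lc.EN
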