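import Pool.Agent.Lib.MP_45faa6_lc.EN.Wt

/-!
Reduction modulo the relations without raising the weight.
-/

set_option autoImplicit false

namespace Pool.Agent.Lib.MP_45faa6_lc.EN

open Pool.Agent.Lib.MP_45faa6_lc.NL

open MvPolynomial

variable {M : ℕ} {F : Type} [Field F]

/-- The ideal of relations. -/
noncomputable def relI (M : ℕ) (F : Type) [Field F] (e : ℕ) : Ideal (RR M F) :=
  Ideal.span (Set.range fun p : Fin 8 × Fin M × Fin M =>
    X (Sum.inr p) ^ 2 ^ e - ee p.1 (be e (X (Sum.inl p.1))) (Zm M F (p.1 + 1)) p.2.1 p.2.2)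

/-- The degree in the `z` variables. -/
def nullaZ (M : ℕ) : Var M → ℕ := Sum.elim (fun _ => 0) fun _ => 1

/-- Congruent to a reduced polynomial of weight at most `D`. -/
def NullaGood (e D : ℕ) (Ψ : RR M F) : Prop :=
  ∃ Ψ' : RR M F, Wt e D Ψ' ∧ (∀ m ∈ Ψ'.support, ∀ p, m (Sum.inr p) < 2 ^ e) ∧
    Ψ - Ψ' ∈ relI M F e

theorem nulla_zero (e D : ℕ) : NullaGood e D (0 : RR M F) :=
  ⟨0, Wt.zero e D, fun m hm => by simp at hm, by simp⟩

theorem nulla_add {e D : ℕ} {f g : RR M F} (hf : NullaGood e D f) (hg : NullaGood e D g) :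
    NullaGood e D (f + g) := by
  classical
  obtain ⟨f', h1, h2, h3⟩ := hf
  obtain ⟨g', k1, k2, k3⟩ := hg
  refine ⟨f' + g', h1.add k1, fun m hm => ?_, ?_⟩
  · rcases Finset.mem_union.1 (support_add hm) with h | h
    exacts [h2 m h, k2 m h]
  · have : f + g - (f' + g') = (f - f') + (g - g') := by ring
    rw [this]
    exact Ideal.add_mem _ h3 k3

theorem nulla_congr {e D : ℕ} {f g : RR M F} (hg : NullaGood e D g) (h : f - g ∈ relI M F e) :
    NullaGood e D f := by
  obtain ⟨g', k1, k2, k3⟩ := hg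
  refine ⟨g', k1, k2, ?_⟩
  have : f - g' = (f - g) + (g - g') := by ring
  rw [this]
  exact Ideal.add_mem _ h k3

theorem nulla_mulX (m : Var M →₀ ℕ) (c : F) (v : Var M) (k : ℕ) :
    (monomial m c : RR M F) * X v ^ k = monomial (m + Finsupp.single v k) c := by
  rw [X_pow_eq_monomial, monomial_mul, mul_one]

theorem nulla_monomial {e : ℕ} (he : 1 ≤ e) (D : ℕ) (c : F) (k : ℕ) :
    ∀ m : Var M →₀ ℕ, Finsupp.weight (nullaZ M) m = k → Finsupp.weight (wt e M) m ≤ D →
      NullaGood e D (monomial m c : RR M F) := by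
  classical
  induction k using Nat.strong_induction_on with
  | _ k ih =>
    intro m hk hD
    by_cases hm : ∀ p, m (Sum.inr p) < 2 ^ e
    · refine ⟨monomial m c, Wt.monomial m c hD, fun m' hm' => ?_, by simp⟩
      rw [Finset.mem_singleton.1 (support_monomial_subset hm')]
      exact hm
    · obtain ⟨p, hp⟩ := not_forall.1 hm
      have hp' : 2 ^ e ≤ m (Sum.inr p) := not_lt.1 hp
      have hle : Finsupp.single (Sum.inr p : Var M) (2 ^ e) ≤ m := Finsupp.single_le_iff.2 hp'
      obtain ⟨m', rfl⟩ := exists_add_of_le hle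
      have h2e : 2 ≤ 2 ^ e := by
        calc 2 = 2 ^ 1 := by norm_num
          _ ≤ 2 ^ e := Nat.pow_le_pow_right (by norm_num) he
      have h8 : 2 ^ (8 * e) = 2 ^ e * 2 ^ (7 * e) := by rw [← pow_add]; congr 1; ring
      have h7 : 1 ≤ 2 ^ (7 * e) := Nat.one_le_two_pow
      have hz : Finsupp.weight (nullaZ M) m' + 2 ^ e = k := by
        rw [← hk, map_add, Finsupp.weight_single]
        simp [nullaZ, add_comm]
      have hw : Finsupp.weight (wt e M) m' + 2 ^ e * (2 * 2 ^ (7 * e)) ≤ D := by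
        rw [map_add, Finsupp.weight_single] at hD
        simpa [wt, add_comm] using hD
      have key : ∀ (q : Fin 8 × Fin M × Fin M) (j : ℕ), j ≤ 2 ^ (8 * e) →
          NullaGood e D ((monomial m' c : RR M F) * X (Sum.inl p.1) ^ j * X (Sum.inr q) ^ 1) := by
        intro q j hj
        rw [nulla_mulX, nulla_mulX]
        refine ih (Finsupp.weight (nullaZ M) m' + 1) (by omega) _ ?_ ?_
        · rw [map_add, map_add, Finsupp.weight_single, Finsupp.weight_single]
          simp [nullaZ]
        · rw [map_add, map_add, Finsupp.weight_single, Finsupp.weight_single]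
          have e1 : wt e M (Sum.inl p.1) = 1 := rfl
          have e2 : wt e M (Sum.inr q) = 2 * 2 ^ (7 * e) := rfl
          rw [e1, e2, smul_eq_mul, smul_eq_mul]
          have := Nat.mul_le_mul_right (2 ^ (7 * e)) h2e
          nlinarith
      have hrel : (X (Sum.inr p) ^ 2 ^ e -
          ee p.1 (be e (X (Sum.inl p.1))) (Zm M F (p.1 + 1)) p.2.1 p.2.2 : RR M F) ∈ relI M F e :=
        Ideal.subset_span ⟨p, rfl⟩
      have hgood : NullaGood e D ((monomial m' c : RR M F) *
          ee p.1 (be e (X (Sum.inl p.1))) (Zm M F (p.1 + 1)) p.2.1 p.2.2) := by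
        have h0 := key (p.1 + 1, p.2.1, p.2.2) 0 (Nat.zero_le _)
        obtain ⟨s, f, g, h⟩ := opE_entry p.1 p.2.1 p.2.2
        have : (monomial m' c : RR M F) *
            ee p.1 (be e (X (Sum.inl p.1))) (Zm M F (p.1 + 1)) p.2.1 p.2.2 =
            monomial m' c * X (Sum.inl p.1) ^ 0 * X (Sum.inr (p.1 + 1, p.2.1, p.2.2)) ^ 1 +
            ∑ k ∈ s, (monomial m' c * X (Sum.inl p.1) ^ 2 ^ (8 * e) *
              X (Sum.inr (p.1 + 1, f k, g k)) ^ 1 +
             monomial m' c * X (Sum.inl p.1) ^ 1 * X (Sum.inr (p.1 + 1, f k, g k)) ^ 1) := by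
          rw [ee, Matrix.add_apply, Matrix.smul_apply, h]
          simp only [Zm, Matrix.of_apply, be, smul_eq_mul, Finset.mul_sum, mul_add]
          refine congrArg₂ (· + ·) (by ring) (Finset.sum_congr rfl fun k _ => by ring)
        rw [this]
        exact nulla_add h0 (Finset.sum_induction _ (NullaGood e D) (fun _ _ => nulla_add) (nulla_zero e D)
          fun k _ => nulla_add (key (p.1 + 1, f k, g k) (2 ^ (8 * e)) le_rfl)
            (key (p.1 + 1, f k, g k) 1 Nat.one_le_two_pow))
      refine nulla_congr hgood ?_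
      rw [add_comm, ← nulla_mulX, ← mul_sub]
      exact Ideal.mul_mem_left _ _ hrel

/-- Sketch: strong induction on a bound `k` for the degree in the `z` variables (a second weight,
`0` on `w`, `1` on `z`). A monomial with a `z`-exponent `≥ 2 ^ e` is `m' * z ^ 2 ^ e`, congruent to
`m' * ρ`, where `ρ` has `z`-degree `1 < 2 ^ e` and weight
`≤ 2 ^ (8 e) + 2 * 2 ^ (7 e) ≤ 2 ^ e * (2 * 2 ^ (7 e))` (`opE_entry`). -/
theorem reduce {e : ℕ} (he : 1 ≤ e) (D : ℕ) (Ψ : RR M F) (h : Wt e D Ψ) :
    ∃ Ψ' : RR M F, Wt e D Ψ' ∧ (∀ m ∈ Ψ'.support, ∀ p, m (Sum.inr p) < 2 ^ e) ∧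
      Ψ - Ψ' ∈ relI M F e := by
  change NullaGood e D Ψ
  rw [Ψ.as_sum]
  exact Finset.sum_induction _ (NullaGood e D) (fun _ _ => nulla_add) (nulla_zero e D)
    fun m hm => nulla_monomial he D _ _ m rfl (h m hm)

theorem nulla_split (e n D : ℕ) (J : Finset (Fin 8)) (Ψ : RR M F) (h : Wt e D Ψ)
    (s : Finset (Var M →₀ ℕ)) (hs : s ⊆ Ψ.support) :
    ∃ (g : Fin 8 → RR M F) (Ψ' : RR M F), (∀ j, Wt e D (g j)) ∧ Ψ'.support ⊆ s ∧
      (∀ m ∈ Ψ'.support, ∀ j, m (Sum.inl j) ≤ top n J j) ∧
      ∑ m ∈ s, monomial m (coeff m Ψ) =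
        ∑ j, X (Sum.inl j) ^ (top n J j + 1) * g j + Ψ' := by
  classical
  induction s using Finset.induction_on with
  | empty => exact ⟨0, 0, fun _ => Wt.zero e D, by simp, by simp, by simp⟩
  | insert m s hm ih =>
    obtain ⟨g, Ψ', h1, h2, h3, h4⟩ := ih ((Finset.subset_insert _ _).trans hs)
    have hmD := h m (hs (Finset.mem_insert_self _ _))
    rw [Finset.sum_insert hm, h4]
    by_cases hj : ∀ j, m (Sum.inl j) ≤ top n J j
    · refine ⟨g, monomial m (coeff m Ψ) + Ψ', h1, fun m' hm' => ?_, fun m' hm' => ?_, by ring⟩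
      · rcases Finset.mem_union.1 (support_add hm') with h' | h'
        · rw [Finset.mem_singleton.1 (support_monomial_subset h')]
          exact Finset.mem_insert_self _ _
        · exact Finset.mem_insert_of_mem (h2 h')
      · rcases Finset.mem_union.1 (support_add hm') with h' | h'
        · rw [Finset.mem_singleton.1 (support_monomial_subset h')]
          exact hj
        · exact h3 m' h'
    · obtain ⟨j, hj⟩ := not_forall.1 hj
      have hle : Finsupp.single (Sum.inl j : Var M) (top n J j + 1) ≤ m :=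
        Finsupp.single_le_iff.2 (by omega)
      obtain ⟨m', hm'⟩ := exists_add_of_le hle
      refine ⟨g + Pi.single j (monomial m' (coeff m Ψ)), Ψ', fun i => ?_,
        h2.trans (Finset.subset_insert _ _), h3, ?_⟩
      · refine (h1 i).add ?_
        by_cases hi : i = j
        · subst hi
          rw [Pi.single_eq_same]
          refine Wt.monomial _ _ (le_trans ?_ hmD)
          rw [hm', map_add]
          exact Nat.le_add_left _ _
        · rw [Pi.single_eq_of_ne hi]
          exact Wt.zero e D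
      · have : (monomial m (coeff m Ψ) : RR M F) =
            ∑ i, X (Sum.inl i) ^ (top n J i + 1) *
              (Pi.single j (monomial m' (coeff m Ψ)) : Fin 8 → RR M F) i := by
          rw [Finset.sum_eq_single j]
          · rw [Pi.single_eq_same, mul_comm, nulla_mulX, add_comm m', ← hm']
          · intro i _ hi
            rw [Pi.single_eq_of_ne hi, mul_zero]
          · simp
        rw [this]
        simp only [Pi.add_apply, mul_add, Finset.sum_add_distrib]
        ring

/-- Sketch: monomial by monomial (`as_sum`); choose for each monomial a variable that can be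
factored out, if any. -/
theorem split_w (e n D : ℕ) (J : Finset (Fin 8)) (Ψ : RR M F) (h : Wt e D Ψ) :
    ∃ (g : Fin 8 → RR M F) (Ψ' : RR M F), (∀ j, Wt e D (g j)) ∧ Ψ'.support ⊆ Ψ.support ∧
      (∀ m ∈ Ψ'.support, ∀ j, m (Sum.inl j) ≤ top n J j) ∧
      Ψ = ∑ j, X (Sum.inl j) ^ (top n J j + 1) * g j + Ψ' := by
  obtain ⟨g, Ψ', h1, h2, h3, h4⟩ := nulla_split e n D J Ψ h Ψ.support subset_rfl
  exact ⟨g, Ψ', h1, h2, h3, Ψ.as_sum.trans h4⟩

end Pool.Agent.Lib.MP_45faa6_lc.EN
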