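import Pool.Agent.Lib.MP_45faa6_lc.EN.Prod
import Pool.Agent.Lib.MP_45faa6_lc.EN.GrpVex

/-!
Expansion of the block subgroups.
-/

set_option autoImplicit false
set_option linter.unusedSectionVars false

namespace Pool.Agent.Lib.MP_45faa6_lc.EN

open Pool.Agent.Lib.MP_45faa6_lc.NL

open Finset

section quot

variable {K Ω Ω' : Type} [AddCommGroup K] {π : Ω → Ω'} {ι : Ω' → Ω}

/-- An action on a quotient. -/
def hostAct (A : Act K Ω) (h1 : ∀ y, π (ι y) = y)
    (h2 : ∀ c w, π (A.act c (ι (π w))) = π (A.act c w)) : Act K Ω' where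
  act c y := π (A.act c (ι y))
  zero y := by rw [A.zero, h1]
  add c c' y := by rw [A.add, h2]

/-- A system on a quotient. -/
def hostSys (S : Sys K Ω) (h1 : ∀ y, π (ι y) = y)
    (hx : ∀ i c w, π ((S.x i).act c (ι (π w))) = π ((S.x i).act c w))
    (hz : ∀ i c w, π ((S.z i).act c (ι (π w))) = π ((S.z i).act c w)) : Sys K Ω' where
  x i := hostAct (S.x i) h1 (hx i)
  z i := hostAct (S.z i) h1 (hz i)
  B := S.B
  comm i c c' y := by simp only [hostAct, hx, S.comm i c c']
  zx i b c y := by simp only [hostAct, hx, hz, S.zx i b c]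
  zx' i b c y := by simp only [hostAct, hx, hz, S.zx' i b c]
  heis i c c' y := by simp only [hostAct, hx, hz, S.heis i c c']
  surj := S.surj

end quot

variable {M : ℕ} {F : Type} [Field F] [CharP F 2]

theorem pr_gen (k j : ℕ) (s : F) : pr k (gen M j s) = genE M k j s := by
  rw [pr, gen, genE, mul_add, mul_one, mul_smul_comm]
  abel

theorem genE_inv (k j : ℕ) (s : F) : genE M k j (-s) * genE M k j s = 1 := by
  rw [← pr_gen, ← pr_gen, ← pr_mul k (gen_mem _ _) (gen_mem _ _), gen_mul_gen, neg_add_cancel,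
    pr_gen, genE_zero]

theorem pr_mul_pr (k : ℕ) {u w : Mat M F} (hu : u ∈ GG M F) (hw : w ∈ GG M F) :
    pr k (u * pr k w) = pr k (u * w) := by
  rw [pr_mul k hu (GE_le k (pr_mem k hw)), pr_self (pr_mem k hw), pr_mul k hu hw]

/-- The left system on a block subgroup. -/
def hostSysE (M : ℕ) (F : Type) [Field F] [CharP F 2] (k : ℕ) : Sys F (GE M F k) :=
  hostSys (π := fun w => ⟨pr k w.1, pr_mem k w.2⟩) (ι := fun y => ⟨y.1, GE_le k y.2⟩)
    (grpvex_sys M F) (fun y => Subtype.ext (pr_self y.2))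
    (fun _ _ w => Subtype.ext (pr_mul_pr k (gen_mem _ _) w.2))
    fun _ _ w => Subtype.ext (pr_mul_pr k (grpvex_mem _ _) w.2)

theorem hostSysE_x (k : ℕ) (i : Fin 4) (c : F) (y : GE M F k) :
    (((hostSysE M F k).x i).act c y).1 = genE M k i.val c * y.1 := by
  change pr k (gen M i.val c * y.1) = _
  rw [pr_mul k (gen_mem _ _) (GE_le k y.2), pr_gen, pr_self y.2]

/-- The product of a list of generators. -/
def word (M k : ℕ) (l : List (Fin 4 × F)) : Mat M F := (l.map fun p => genE M k p.1.val p.2).prod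

theorem word_mem (k : ℕ) (l : List (Fin 4 × F)) : word M k l ∈ GE M F k :=
  list_prod_mem fun _ hx => by
    obtain ⟨p, -, rfl⟩ := List.mem_map.1 hx
    exact genE_mem' _ _ _

variable [Fintype F] [DecidableEq F]

open Classical in
theorem vex_E (hK : 81 ≤ Fintype.card F) (k : ℕ) (Z : Finset (Mat M F)) (hZ : Z ⊆ fs (GE M F k))
    (h : 2 * #Z ≤ #(fs (GE M F k))) :
    #Z ≤ 160 * #{u ∈ fs (GE M F k) | u ∉ Z ∧ ∃ (j : Fin 4) (s : F), genE M k j.val s * u ∈ Z} := by
  let _ : Fintype (GE M F k) := Fintype.ofFinite _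
  have hg : (0 : ℝ) < #(fs (GE M F k)) := Nat.cast_pos.2 (fs_pos _)
  have ho : (hostSysE M F k).Orb #(fs (GE M F k)) := fun φ hφ y => by
    have h1 : ∀ u ∈ GE M F k, ∀ hu : u ∈ GE M F k, φ ⟨u, hu⟩ = φ 1 := fun u hu =>
      GE_ind (P := fun u => ∀ hu : u ∈ GE M F k, φ ⟨u, hu⟩ = φ 1) (fun _ => rfl)
        (fun j s u hu ih _ => (congrArg φ (Subtype.ext (hostSysE_x k j s ⟨u, hu⟩).symm)).trans
          ((hφ j s ⟨u, hu⟩).trans (ih hu))) hu
    have h2 : ∀ w, φ w = φ 1 := fun w => h1 w.1 w.2 w.2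
    simp only [h2, sum_const, card_univ, nsmul_eq_mul,
      Fintype.card_of_subtype _ fun u => mem_fs (GE M F k) u, le_refl]
  have h1 := (hostSysE M F k).vex hK hg ho {u | u.1 ∈ Z}
  have h2 : #{u : GE M F k | u.1 ∈ Z} = #Z := by
    refine card_bij (fun u _ => u.1) (fun u hu => (mem_filter.1 hu).2)
      (fun u _ v _ e => Subtype.ext e) fun u hu => ⟨⟨u, (mem_fs _ u).1 (hZ hu)⟩, ?_, rfl⟩
    exact mem_filter.2 ⟨mem_univ _, hu⟩
  have h3 := h1.trans (mul_le_mul_of_nonneg_left (Nat.cast_le.2 (card_le_card_of_injOn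
    (t := {u ∈ fs (GE M F k) | u ∉ Z ∧ ∃ (j : Fin 4) (s : F), genE M k j.val s * u ∈ Z})
    (fun u => u.1) (fun u hu => by
      obtain ⟨k1, j, s, k2⟩ := (mem_filter.1 hu).2
      exact mem_filter.2 ⟨(mem_fs _ _).2 u.2, fun k => k1 (mem_filter.2 ⟨mem_univ _, k⟩), j, s,
        hostSysE_x k j s u ▸ (mem_filter.1 k2).2⟩) fun u _ v _ e => Subtype.ext e)) (by norm_num))
  rw [h2] at h3
  have h4 : (#Z : ℝ) ^ 2 / #(fs (GE M F k)) ≤ 1 / 2 * #Z := by
    have h5 : (2 : ℝ) * #Z ≤ #(fs (GE M F k)) := by exact_mod_cast h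
    rw [div_le_iff₀ hg]
    nlinarith [Nat.cast_nonneg (α := ℝ) #Z]
  rw [← Nat.cast_le (α := ℝ), Nat.cast_mul, Nat.cast_ofNat]
  linarith [Nat.cast_nonneg (α := ℝ) #Z]

open Classical in
/-- The set reached from `Z` by words of length `n`. -/
noncomputable def ball (k n : ℕ) (Z : Finset (Mat M F)) : Finset (Mat M F) :=
  {u | ∃ l : List (Fin 4 × F), l.length = n ∧ ∃ z ∈ Z, u = word M k l * z}

theorem mem_ball {k n : ℕ} {Z : Finset (Mat M F)} {u : Mat M F} :
    u ∈ ball k n Z ↔ ∃ l : List (Fin 4 × F), l.length = n ∧ ∃ z ∈ Z, u = word M k l * z := by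
  simp only [ball, mem_filter, mem_univ, true_and]

theorem ball_succ {k n : ℕ} {Z : Finset (Mat M F)} {u : Mat M F} (j : Fin 4) (s : F)
    (h : u ∈ ball k n Z) : genE M k j.val s * u ∈ ball k (n + 1) Z := by
  obtain ⟨l, rfl, z, hz, rfl⟩ := mem_ball.1 h
  exact mem_ball.2 ⟨(j, s) :: l, rfl, z, hz, by simp only [word, List.map_cons, List.prod_cons,
    mul_assoc]⟩

theorem ball_grow (hK : 81 ≤ Fintype.card F) (k : ℕ) {Z : Finset (Mat M F)}
    (hZ : Z ⊆ fs (GE M F k)) (h : 16 * #Z ≤ #(fs (GE M F k))) : 8 * #Z ≤ #(ball k 400 Z) := by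
  classical
  have key : ∀ n, 8 * #Z ≤ #(ball k n Z) ∨ 161 ^ n * #Z ≤ 160 ^ n * #(ball k n Z) := by
    intro n
    induction n with
    | zero =>
      refine Or.inr (Nat.mul_le_mul_left _ (card_le_card fun z hz => ?_))
      exact mem_ball.2 ⟨[], rfl, z, hz, by simp [word]⟩
    | succ n ih =>
      have h1 : ball k n Z ⊆ ball k (n + 1) Z := fun u hu => by
        simpa only [genE_zero, one_mul] using ball_succ 0 0 hu
      rcases le_or_gt (8 * #Z) #(ball k n Z) with h2 | h2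
      · exact Or.inl (h2.trans (card_le_card h1))
      have h3 := vex_E hK k (ball k n Z) (fun u hu => by
        obtain ⟨l, -, z, hz, rfl⟩ := mem_ball.1 hu
        exact (mem_fs _ _).2 (mul_mem (word_mem k l) ((mem_fs _ _).1 (hZ hz)))) (by omega)
      have h4 := h3.trans (Nat.mul_le_mul_left _ (card_le_card
        (t := ball k (n + 1) Z \ ball k n Z) fun u hu => by
          obtain ⟨k1, j, s, k2⟩ := (mem_filter.1 hu).2
          have k3 := ball_succ j (-s) k2
          rw [← mul_assoc, genE_inv, one_mul] at k3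
          exact mem_sdiff.2 ⟨k3, k1⟩))
      have h5 := card_sdiff_add_card_eq_card h1
      have h6 := ih.resolve_left (by omega)
      refine Or.inr ?_
      calc 161 ^ (n + 1) * #Z = 161 * (161 ^ n * #Z) := by ring
        _ ≤ 161 * (160 ^ n * #(ball k n Z)) := Nat.mul_le_mul_left _ h6
        _ = 160 ^ n * (161 * #(ball k n Z)) := by ring
        _ ≤ 160 ^ n * (160 * #(ball k (n + 1) Z)) := Nat.mul_le_mul_left _ (by omega)
        _ = _ := by ring
  refine (key 400).elim id fun h1 => Nat.le_of_mul_le_mul_left (c := 160 ^ 400) ?_ (by positivity)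
  refine le_trans ?_ h1
  rw [← mul_assoc]
  exact Nat.mul_le_mul_right _ (by decide +kernel)

end Pool.Agent.Lib.MP_45faa6_lc.EN
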