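import Pool.Agent.Lib.MP_45faa6_lc.EN.Fly
import Pool.Agent.Lib.MP_45faa6_lc.EN.Host
import Pool.Agent.Lib.MP_45faa6_lc.EN.HostB

/-!
The group as a host (block H, final statements; paper sec. 2 expansion of H, sec. 3 end).
-/

set_option autoImplicit false
set_option linter.unusedSectionVars false

namespace Pool.Agent.Lib.MP_45faa6_lc.EN

open Pool.Agent.Lib.MP_45faa6_lc.NL

open Finset Pool.Agent.Lib.MP_acf5a6_lc Pool.Agent.Lib.Common.CookLevin

/-- The moves: generators of the block subgroups, `s τ` for a word `s` in the generators of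
`GE 3`, and `τ`, `τ x`. -/
abbrev Mv (F : Type) : Type := (Fin 4 × Fin 4 × F) ⊕ (Fin 400 → Fin 4 × F) ⊕ Bool

variable {F : Type} [Field F] [Fintype F] [DecidableEq F]

/-- A word in the generators of `GE 3` as a list matrix. -/
def wordL (M : Un) (l : List (Fin 4 × F)) : LM F :=
  l.foldr (fun p v => mulL M (genEL M 3 p.1.val p.2) v) (oneL F M)

/-- All words of length `n`. -/
noncomputable def wordsL (F : Type) [Field F] [Fintype F] [DecidableEq F] (M : Un) (n : ℕ) :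
    List (LM F) :=
  (univ : Finset (Fin n → Fin 4 × F)).toList.map fun w => wordL M (List.ofFn w)

/-- The matrix of a move. -/
noncomputable def mvL (M : Un) (i : Mv F) : LM F :=
  Sum.elim (fun p => genEL M p.1.val p.2.1.val p.2.2) (Sum.elim
    (fun w => mulL M (wordL M (List.ofFn w)) (tauL F M))
    fun t => cond t (mulL M (tauL F M) (xL F M)) (tauL F M)) i

/-- The neighbour lists on `GE 3`. -/
noncomputable def nbL (F : Type) [Field F] [Fintype F] [DecidableEq F] (M cap : Un) :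
    List (List ℕ) :=
  (enumE F M 3 cap).map fun y => (wordsL F M 400).map fun s => idx (enumE F M 3 cap) (mulL M s y)

/-- The two plane coordinates (`k = 0, 1`) of the elements of `GE 3`. -/
noncomputable def ccL (F : Type) [Field F] [Fintype F] [DecidableEq F] (M cap : Un) (k : ℕ) :
    List ℕ :=
  (enumE F M 3 cap).map fun y => idx (enumE F M k cap) (prL M k y)

/-- The coordinates of a group element. -/
noncomputable def coL (M h b cap : Un) (u : LM F) : ℕ × ℕ × ℕ × ℕ :=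
  (idx (enumE F M 3 cap) (prL M 3 u), cfL M h b (enumE F M 2 cap) (prL M 2 u))

section ix

variable {M : ℕ} {l : List (Mat M F)} {u : Mat M F}

/-- The index of a matrix in a list. -/
def hix (l : List (Mat M F)) (u : Mat M F) : ℕ := idx (l.map toL) (toL u)

theorem host_idx {γ : Type} [DecidableEq γ] {l : List γ} {x : γ} (h : x ∈ l) (d : γ) :
    idx l x < l.length ∧ l.getD (idx l x) d = x := by
  rw [idx_eq]
  have h1 := List.idxOf_lt_length_of_mem h
  exact ⟨h1, by rw [List.getD_eq_getElem _ _ h1, List.getElem_idxOf]⟩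

theorem hix_lt (h : u ∈ l) : hix l u < l.length :=
  (host_idx (List.mem_map_of_mem (f := toL) h) []).1.trans_eq (List.length_map _)

theorem getD_hix (h : u ∈ l) : l.getD (hix l u) 1 = u :=
  toL_inj ((List.getD_map l 1 toL).symm.trans (host_idx (List.mem_map_of_mem h) _).2)

theorem host_getD_mem {y : ℕ} (h : y < l.length) : l.getD y 1 ∈ l := by
  rw [List.getD_eq_getElem _ _ h]
  exact List.getElem_mem h

theorem host_getD_inj (hl : l.Nodup) {y y' : ℕ} (h : y < l.length) (h' : y' < l.length)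
    (e : l.getD y 1 = l.getD y' 1) : y = y' := by
  rw [List.getD_eq_getElem _ _ h, List.getD_eq_getElem _ _ h'] at e
  exact hl.getElem_inj_iff.1 e

theorem hix_getD (hl : l.Nodup) {y : ℕ} (h : y < l.length) : hix l (l.getD y 1) = y :=
  host_getD_inj hl (hix_lt (host_getD_mem h)) h (getD_hix (host_getD_mem h))

theorem hix_inj {u' : Mat M F} (h : u ∈ l) (h' : u' ∈ l) (e : hix l u = hix l u') : u = u' := by
  rw [← getD_hix h, e, getD_hix h']

theorem host_getD_map {γ : Type} (f : LM F → γ) {y : ℕ} (h : y < l.length) (d : γ) :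
    ((l.map toL).map f).getD y d = f (toL (l.getD y 1)) := by
  simp [h]

end ix

theorem host_ofFn {γ : Type} {n : ℕ} {l : List γ} (h : l.length = n) :
    ∃ w : Fin n → γ, List.ofFn w = l := by
  subst h
  exact ⟨l.get, List.ofFn_get l⟩

variable [CharP F 2]

theorem wordL_eq (M : Un) (l : List (Fin 4 × F)) : wordL M l = toL (word M.n 3 l) := by
  induction l with
  | nil => exact oneL_eq M
  | cons p l ih =>
    rw [wordL, List.foldr_cons, ← wordL, ih, genEL_eq, mulL_toL]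
    simp only [word, List.map_cons, List.prod_cons]

theorem mem_wordsL {M : Un} {n : ℕ} {s : LM F} :
    s ∈ wordsL F M n ↔ ∃ w : Fin n → Fin 4 × F, toL (word M.n 3 (List.ofFn w)) = s := by
  simp only [wordsL, List.mem_map, mem_toList, mem_univ, true_and, wordL_eq]

theorem GE_shift {M k : ℕ} {u u' : Mat M F} (hu : u ∈ GE M F k) (hu' : u' ∈ GE M F k) :
    ∃ v ∈ GE M F k, u' = v * u := by
  obtain ⟨v, hv, e⟩ := GE_inv hu
  exact ⟨u' * v, mul_mem hu' hv, by rw [mul_assoc, e, mul_one]⟩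

theorem keep_GE {M : ℕ} {g : Mv F → GG M F}
    (hg : ∀ p, (g (.inl p)).1 = genE M p.1.val p.2.1.val p.2.2) {γ : Type} {f : GG M F → γ}
    (k : Fin 4) (hf : ∀ v ∈ GE M F k.val, ∀ u u' : GG M F, u'.1 = v * u.1 → f u' = f u)
    {v : Mat M F} (hv : v ∈ GE M F k.val) {u u' : GG M F} (e : u'.1 = v * u.1) :
    Keep (fun i u => g i * u) f u u' := by
  refine GE_ind (P := fun v => ∀ u' : GG M F, u'.1 = v * u.1 → Keep (fun i u => g i * u) f u u')
    (fun u' e => ?_) (fun j s v hv ih u' e => ?_) hv u' e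
  · rw [show u' = u from Subtype.ext (e.trans (one_mul _))]
    exact Relation.EqvGen.refl _
  · rw [mul_assoc] at e
    exact Relation.EqvGen.trans _ ⟨v * u.1, mul_mem (GE_le _ hv) u.2⟩ _ (ih _ rfl)
      (Relation.EqvGen.rel _ _ ⟨⟨.inl (k, j, s), Subtype.ext (e.trans (by
        rw [Submonoid.coe_mul, hg]))⟩, hf _ (genE_mem' _ _ _) _ _ e⟩)

theorem pr_keep {M k k' : ℕ} (h : eB M F k * eB M F k' = 0) {v u : Mat M F} (hv : v ∈ GE M F k')
    (hu : u ∈ GG M F) : pr k (v * u) = pr k u := by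
  rw [pr_mul k (GE_le _ hv) hu, pr_disj h hv, one_mul]

omit [CharP F 2] in
theorem host_spec [CharP F 2] (hK : 81 ≤ Fintype.card F) (M h b cap : Un) (hb : b.n = 2 ^ h.n)
    (hm : 8 * (h.n + 1) ≤ mm M.n 2) {a ν : ℕ} (h0 : ∀ k < 2, 6 * a ≤ #(fs (GE M.n F k)))
    (h2 : (2 * h.n + 1) * 2 ^ h.n * ν ≤ #(fs (GE M.n F 2))) (hc : #(GS M.n F) ≤ cap.n) :
    ∃ (g : Mv F → GG M.n F) (pt : ℕ → ℕ → ℕ → ℕ → GG M.n F), (∀ i, mvL M i = toL (g i).1) ∧
      Host (fun i u => g i * u) h.n a ν (nbL F M cap) (ccL F M cap 0) (ccL F M cap 1)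
        (fun u => coL M h b cap (toL u.1)) pt := by
  classical
  choose l e n m c using fun k => enumE_full (F := F) M k cap
    ((card_GE_le k).trans (hc.trans (Nat.le_succ _)))
  obtain ⟨τ, x, pos, hτ, hx, Fl, hcf⟩ := fly_spec M h b hb hm (l 2) (n 2) (m 2) (h2.trans (c 2).ge)
  have hY : ∀ y, (l 3).getD y 1 ∈ GE M.n F 3 := fun y => by
    rcases lt_or_ge y (l 3).length with h | h
    · exact (m 3 _).1 (host_getD_mem h)
    · rw [List.getD_eq_default _ _ h]
      exact one_mem _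
  have d01 : eB M.n F 0 * eB M.n F 1 = 0 := eB_disj (by simp)
  have d10 : eB M.n F 1 * eB M.n F 0 = 0 := eB_disj (by simp)
  have d20 : eB M.n F 2 * eB M.n F 0 = 0 := eB_disj (by simp)
  have d21 : eB M.n F 2 * eB M.n F 1 = 0 := eB_disj (by simp)
  have d23 : eB M.n F 2 * eB M.n F 3 = 0 := eB_disj (by simp)
  have d32 : eB M.n F 3 * eB M.n F 2 = 0 := eB_disj (by simp)
  have hlen : (nbL F M cap).length = (l 3).length := by
    rw [nbL, e, List.length_map, List.length_map]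
  have hnb : ∀ y y', y' ∈ (nbL F M cap).getD y [] ↔ y < (l 3).length ∧ ∃ w : Fin 400 → Fin 4 × F,
      hix (l 3) (word M.n 3 (List.ofFn w) * (l 3).getD y 1) = y' := fun y y' => by
    rcases lt_or_ge y (l 3).length with h | h
    · rw [nbL, e, host_getD_map _ h, List.mem_map, and_iff_right h]
      constructor
      · rintro ⟨s, hs, rfl⟩
        obtain ⟨w, rfl⟩ := mem_wordsL.1 hs
        exact ⟨w, by rw [mulL_toL, hix]⟩
      · rintro ⟨w, rfl⟩
        exact ⟨_, mem_wordsL.2 ⟨w, rfl⟩, by rw [mulL_toL, hix]⟩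
    · rw [List.getD_eq_default _ _ (hlen ▸ h)]
      exact iff_of_false List.not_mem_nil fun h' => h.not_gt h'.1
  have hcc : ∀ k, ∀ y < (l 3).length,
      (ccL F M cap k).getD y 0 = hix (l k) (pr k ((l 3).getD y 1)) := fun k y h => by
    rw [ccL, e 3, host_getD_map _ h, prL_toL, e k, hix]
  have hco : ∀ u : Mat M.n F, coL M h b cap (toL u) =
      (hix (l 3) (pr 3 u), cfL M h b ((l 2).map toL) (toL (pr 2 u))) := fun u => by
    rw [coL, e, e, prL_toL, prL_toL, hix]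
  have hc3 : ∀ k < 2, ∀ u ∈ GG M.n F,
      (ccL F M cap k).getD (hix (l 3) (pr 3 u)) 0 = hix (l k) (pr k u) := fun k hk u hu => by
    have h1 := (m 3 _).2 (pr_mem 3 hu)
    rw [hcc k _ (hix_lt h1), getD_hix h1, pr_pr3 hk]
  have hsp : ∀ y, pr 0 ((l 3).getD y 1) * pr 1 ((l 3).getD y 1) = (l 3).getD y 1 := fun y => by
    rw [pr_split3 (GE_le 3 (hY y)), pr_self (hY y)]
  have hpm : ∀ k y, pr k ((l 3).getD y 1) ∈ GE M.n F k := fun k y => pr_mem k (GE_le 3 (hY y))
  obtain ⟨g, g1, g2, g3, g4⟩ : ∃ g : Mv F → GG M.n F,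
      (∀ p, (g (.inl p)).1 = genE M.n p.1.val p.2.1.val p.2.2) ∧
      (∀ w, (g (.inr (.inl w))).1 = word M.n 3 (List.ofFn w) * τ) ∧
      (g (.inr (.inr false))).1 = τ ∧ (g (.inr (.inr true))).1 = τ * x :=
    ⟨Sum.elim (fun p => ⟨_, GE_le _ (genE_mem' p.1.val p.2.1.val p.2.2)⟩) (Sum.elim
      (fun w => ⟨_, mul_mem (GE_le 3 (word_mem 3 (List.ofFn w))) (GE_le 2 Fl.tau_mem)⟩)
      fun t => cond t ⟨_, GE_le 2 (mul_mem Fl.tau_mem Fl.x_mem)⟩ ⟨_, GE_le 2 Fl.tau_mem⟩),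
      fun _ => rfl, fun _ => rfl, rfl, rfl⟩
  refine ⟨g, fun y β i ρ => ⟨(l 3).getD y 1 * pos β i ρ,
    mul_mem (GE_le 3 (hY y)) (GE_le 2 (Fl.pos_mem β i ρ))⟩, fun i => ?_, ?_⟩
  · rcases i with p | w | _ | _
    · exact (genEL_eq M _ _ _).trans (by rw [g1])
    · change mulL M (wordL M (List.ofFn w)) (tauL F M) = _
      rw [wordL_eq, hτ, mulL_toL, g2]
    · exact hτ.trans (by rw [g3])
    · change mulL M (tauL F M) (xL F M) = _
      rw [hτ, hx, mulL_toL, g4]
  refine ⟨fun y hy β hβ i hi ρ hρ => ?_, ⟨.inl (0, 0, 0), fun u => Subtype.ext ?_⟩,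
    fun p hp q hq => ?_, fun y hy y' hy' e' β i ρ => ?_, fun y hy y' hy' e' β i ρ => ?_,
    fun y _ y' _ β i ρ => ?_, fun y _ β i ρ β' i' ρ' => ?_, fun y _ y' hy' β i ρ => ?_,
    fun y _ β i hi ρ ρ' hρ => ?_, fun y y' hy' => ?_, ?_, fun Z hZ h16 => ?_⟩
  · dsimp only
    rw [hco, pr_keep d23 (hY y) (GE_le 2 (Fl.pos_mem β i ρ)), pr_self (Fl.pos_mem β i ρ),
      hcf β hβ i hi ρ hρ, GE_comm d32 (hY y) (Fl.pos_mem β i ρ),
      pr_keep d32 (Fl.pos_mem β i ρ) (GE_le 3 (hY y)), pr_self (hY y), hix_getD (n 3) (hlen ▸ hy)]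
  · rw [Submonoid.coe_mul, g1, genE_zero, one_mul]
  · have hp' : p < (l 0).length := by have := h0 0 (by omega); have := c 0; omega
    have hq' : q < (l 1).length := by have := h0 1 (by omega); have := c 1; omega
    have h3 := (m 0 _).1 (host_getD_mem hp')
    have h4 := (m 1 _).1 (host_getD_mem hq')
    have h5 := (m 3 _).2 (mul_mem (GE_le3 (by omega) h3) (GE_le3 (by omega) h4))
    refine ⟨_, hlen ▸ hix_lt h5, ?_, ?_⟩
    · rw [hcc 0 _ (hix_lt h5), getD_hix h5, GE_comm d01 h3 h4, pr_keep d01 h4 (GE_le 0 h3),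
        pr_self h3, hix_getD (n 0) hp']
    · rw [hcc 1 _ (hix_lt h5), getD_hix h5, pr_keep d10 h3 (GE_le 1 h4), pr_self h4,
        hix_getD (n 1) hq']
  · rw [hcc 0 y (hlen ▸ hy), hcc 0 y' (hlen ▸ hy')] at e'
    have h3 := hix_inj ((m 0 _).2 (hpm 0 y)) ((m 0 _).2 (hpm 0 y')) e'
    obtain ⟨v, hv, h4⟩ := GE_shift (hpm 1 y) (hpm 1 y')
    refine keep_GE g1 1 (fun v hv u u' e => ?_) hv ?_
    · rw [hco, hco, hc3 0 (by omega) _ u.2, hc3 0 (by omega) _ u'.2, e, pr_keep d01 hv u.2,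
        pr_keep d21 hv u.2]
    · dsimp only
      rw [← hsp y', h4, ← h3, ← mul_assoc, GE_comm d01 (hpm 0 y) hv, mul_assoc v, hsp, mul_assoc]
  · rw [hcc 1 y (hlen ▸ hy), hcc 1 y' (hlen ▸ hy')] at e'
    have h3 := hix_inj ((m 1 _).2 (hpm 1 y)) ((m 1 _).2 (hpm 1 y')) e'
    obtain ⟨v, hv, h4⟩ := GE_shift (hpm 0 y) (hpm 0 y')
    refine keep_GE g1 0 (fun v hv u u' e => ?_) hv ?_
    · rw [hco, hco, hc3 1 (by omega) _ u.2, hc3 1 (by omega) _ u'.2, e, pr_keep d10 hv u.2,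
        pr_keep d20 hv u.2]
    · dsimp only
      rw [← hsp y', h4, ← h3, mul_assoc v, hsp, mul_assoc]
  · obtain ⟨v, hv, h4⟩ := GE_shift (hY y) (hY y')
    refine keep_GE g1 3 (fun v hv u u' e => ?_) hv ?_
    · rw [hco, hco, e, pr_keep d23 hv u.2]
    · dsimp only
      rw [h4, mul_assoc]
  · obtain ⟨v, hv, h4⟩ := GE_shift (Fl.pos_mem β i ρ) (Fl.pos_mem β' i' ρ')
    refine keep_GE g1 2 (fun v hv u u' e => ?_) hv ?_
    · rw [hco, hco, e, pr_keep d32 hv u.2]
    · dsimp only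
      rw [h4, ← mul_assoc, GE_comm d32 (hY y) hv, mul_assoc]
  · obtain ⟨-, w, rfl⟩ := (hnb y y').1 hy'
    refine ⟨.inr (.inl w), Subtype.ext ?_⟩
    rw [Submonoid.coe_mul, g2]
    dsimp only
    rw [getD_hix ((m 3 _).2 (mul_mem (word_mem 3 _) (hY y))), Fl.succ, mul_assoc, ← mul_assoc τ,
      ← GE_comm d32 (hY y) Fl.tau_mem, mul_assoc, mul_assoc]
  · rcases Fl.bf β i hi ρ ρ' hρ with h3 | h3
    · refine ⟨.inr (.inr false), Subtype.ext ?_⟩
      rw [Submonoid.coe_mul, g3]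
      dsimp only
      rw [h3, ← mul_assoc, ← GE_comm d32 (hY y) Fl.tau_mem, mul_assoc]
    · refine ⟨.inr (.inr true), Subtype.ext ?_⟩
      rw [Submonoid.coe_mul, g4]
      dsimp only
      rw [h3, ← mul_assoc, ← GE_comm d32 (hY y) (mul_mem Fl.tau_mem Fl.x_mem), mul_assoc]
  · obtain ⟨-, w, rfl⟩ := (hnb y y').1 hy'
    exact hlen ▸ hix_lt ((m 3 _).2 (mul_mem (word_mem 3 _) (hY y)))
  · rw [hlen, c 3]
    refine le_trans ?_ ((Nat.mul_le_mul (h0 0 (by omega)) (h0 1 (by omega))).trans card_GE3)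
    nlinarith
  · rw [hlen] at hZ h16
    have h3 : #(Z.image fun y => (l 3).getD y 1) = #Z := card_image_of_injOn fun y hy y' hy' =>
      host_getD_inj (n 3) (mem_range.1 (hZ hy)) (mem_range.1 (hZ hy'))
    have h4 := ball_grow hK 3 (Z := Z.image fun y => (l 3).getD y 1) (fun u hu => by
      obtain ⟨y, -, rfl⟩ := mem_image.1 hu
      exact (mem_fs _ _).2 (hY y)) (by rw [h3, ← c 3]; exact h16)
    have h5 : ∀ u ∈ ball 3 400 (Z.image fun y => (l 3).getD y 1), ∃ y ∈ Z,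
        ∃ w : Fin 400 → Fin 4 × F, word M.n 3 (List.ofFn w) * (l 3).getD y 1 = u := fun u hu => by
      obtain ⟨s, hs, z, hz, rfl⟩ := mem_ball.1 hu
      obtain ⟨y, hy, rfl⟩ := mem_image.1 hz
      obtain ⟨w, hw⟩ := host_ofFn hs
      exact ⟨y, hy, w, by rw [hw]⟩
    have h6 : ∀ u ∈ ball 3 400 (Z.image fun y => (l 3).getD y 1), u ∈ l 3 := fun u hu => by
      obtain ⟨y, -, w, e⟩ := h5 u hu
      exact e ▸ (m 3 _).2 (mul_mem (word_mem 3 _) (hY y))
    rw [h3] at h4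
    refine h4.trans (card_le_card_of_injOn (hix (l 3)) (fun u hu => ?_)
      fun u hu u' hu' => hix_inj (h6 u hu) (h6 u' hu'))
    obtain ⟨y, hy, w, e⟩ := h5 u hu
    exact mem_coe.2 (mem_biUnion.2 ⟨y, hy, List.mem_toFinset.2
      ((hnb y _).2 ⟨mem_range.1 (hZ hy), w, by rw [e]⟩)⟩)

omit [CharP F 2]

variable [N487b59b3 F] {α : Type} [N487b59b3 α]

theorem wordL_PT {M : α → Un} (l : List (Fin 4 × F)) (hM : PT M) : PT fun a => wordL (M a) l := by
  induction l with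
  | nil => exact oneL_PT hM
  | cons p l ih => exact mulL_PT hM (genEL_PT _ _ _ hM) ih

@[fun_prop] theorem wordsL_PT {M : α → Un} (n : ℕ) (hM : PT M) : PT fun a => wordsL F (M a) n :=
  PT_listOf _ (fun (w : Fin n → Fin 4 × F) a => wordL (M a) (List.ofFn w)) fun _ => wordL_PT _ hM

@[fun_prop] theorem mvL_PT {M : α → Un} (i : Mv F) (hM : PT M) : PT fun a => mvL (M a) i := by
  rcases i with p | w | _ | _
  · exact genEL_PT _ _ _ hM
  · exact mulL_PT hM (wordL_PT _ hM) (tauL_PT hM)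
  · exact tauL_PT hM
  · exact mulL_PT hM (tauL_PT hM) (xL_PT hM)

@[fun_prop] theorem nbL_PT {M cap : α → Un} (hM : PT M) (hc : PT cap) :
    PT fun a => nbL F (M a) (cap a) := by
  unfold nbL; fun_prop

@[fun_prop] theorem ccL_PT {M cap : α → Un} (k : ℕ) (hM : PT M) (hc : PT cap) :
    PT fun a => ccL F (M a) (cap a) k := by
  unfold ccL; fun_prop

@[fun_prop] theorem coL_PT {M h b cap : α → Un} {u : α → LM F} (hM : PT M) (hh : PT h)
    (hb : PT b) (hc : PT cap) (hu : PT u) : PT fun a => coL (M a) (h a) (b a) (cap a) (u a) := by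
  unfold coL; fun_prop

end Pool.Agent.Lib.MP_45faa6_lc.EN
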