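import Pool.Agent.Lib.MP_45faa6_lc.EN.Place
import Pool.Agent.Lib.MP_45faa6_lc.NL.Par

/-!
The numerical parameters (block N, final statements; paper sec. 1).
-/

set_option autoImplicit false

namespace Pool.Agent.Lib.MP_45faa6_lc.EN

open Pool.Agent.Lib.MP_45faa6_lc.NL

open Finset Pool.Agent.Lib.MP_acf5a6_lc Pool.Agent.Lib.Common.CookLevin

/-- The least `g` with `v ^ 3 ≤ 4 ^ g * n`. -/
def ug (φ : CNF) : Un :=
  (((uzip (urange ((ulen (vars φ)).add ⟨1⟩))).map fun x => x.2).filter fun G =>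
    decide ((vars φ).length * (vars φ).length * (vars φ).length ≤
      pow2 G * pow2 G * csize φ)).headD ⟨0⟩

/-- The block size `2 ^ g`. -/
def ub (φ : CNF) : Un :=
  ulen (rng (((ulen (vars φ)).add (ulen (vars φ))).add ⟨1⟩) (pow2 (ug φ)))

/-- The number of blocks. -/
def ua (φ : CNF) : Un := ulen (rng ((ulen (vars φ)).add ⟨1⟩) (nblk φ (ub φ).n))

/-- The regime in which the placement is used. -/
def newR (φ : CNF) : Bool := decide (pow2 ((Un.mk 6144).mul (ug φ)) ≤ nblk φ (ub φ).n)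

theorem ug_spec (φ : CNF) : nvars φ ^ 3 ≤ 4 ^ (ug φ).n * csize φ ∧
    ∀ k < (ug φ).n, 4 ^ k * csize φ < nvars φ ^ 3 := by
  have key : ∀ G : Un, decide ((vars φ).length * (vars φ).length * (vars φ).length ≤
      pow2 G * pow2 G * csize φ) = true ↔ nvars φ ^ 3 ≤ 4 ^ G.n * csize φ := fun G => by
    rw [decide_eq_true_eq, vars_length, pow2, ← mul_pow, pow_three']
    exact Iff.rfl
  have h0 : nvars φ ^ 3 ≤ 4 ^ (vars φ).length * csize φ := by
    rw [vars_length, pow_three', show 4 = 2 * 2 from rfl, mul_pow]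
    exact Nat.mul_le_mul (Nat.mul_le_mul Nat.lt_two_pow_self.le Nat.lt_two_pow_self.le)
      (nvars_le φ)
  obtain ⟨m, e, h1, h2⟩ := par_head (vars φ).length
    (fun G => decide ((vars φ).length * (vars φ).length * (vars φ).length ≤
      pow2 G * pow2 G * csize φ)) ((key ⟨(vars φ).length⟩).2 h0)
  have e' : ug φ = ⟨m⟩ := e
  rw [e']
  exact ⟨(key _).1 h1, fun k hk => not_le.1 (mt (key ⟨k⟩).2 (h2 k hk))⟩

theorem ub_n (φ : CNF) : (ub φ).n = 2 ^ (ug φ).n := by
  have h1 : pow2 (ug φ) ≤ (((ulen (vars φ)).add (ulen (vars φ))).add ⟨1⟩).n := by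
    change 2 ^ (ug φ).n ≤ (vars φ).length + (vars φ).length + 1
    have h2 := (ug_spec φ).2
    have h3 := nvars_le φ
    rw [vars_length]
    generalize (ug φ).n = g at *
    generalize nvars φ = v at *
    cases g with
    | zero => omega
    | succ k =>
      have h4 := (Nat.mul_le_mul_left (4 ^ k) h3).trans_lt (h2 k k.lt_succ_self)
      rw [pow_three', show 4 = 2 * 2 from rfl, mul_pow] at h4
      have h5 := Nat.mul_self_lt_mul_self_iff.1 (Nat.lt_of_mul_lt_mul_right h4)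
      omega
  rw [ub, rng_eq h1]
  exact List.length_range

theorem nblk_eq (φ : CNF) (b : ℕ) : nblk φ b = nvars φ / b + 1 := by
  rw [nblk, vars_length]

theorem ua_n (φ : CNF) : (ua φ).n = nblk φ (ub φ).n := by
  have h1 : nblk φ (ub φ).n ≤ ((ulen (vars φ)).add ⟨1⟩).n :=
    Nat.succ_le_succ (Nat.div_le_self _ _)
  rw [ua, rng_eq h1]
  exact List.length_range

theorem newR_iff (φ : CNF) : newR φ = true ↔ (2 ^ 96) ^ (64 * (ug φ).n) ≤ nblk φ (ub φ).n := by
  rw [newR, decide_eq_true_eq, ← pow_mul, ← mul_assoc]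
  rfl

theorem ub_le {φ : CNF} (h : newR φ = true) : (ub φ).n ≤ nblk φ (ub φ).n := by
  refine le_trans ?_ ((newR_iff φ).1 h)
  rw [ub_n, ← pow_mul]
  exact Nat.pow_le_pow_right two_pos (by omega)

theorem lt_nblk (φ : CNF) : nvars φ < nblk φ (ub φ).n * (ub φ).n := by
  rw [nblk_eq, mul_comm]
  exact Nat.lt_mul_div_succ _ (by rw [ub_n]; positivity)

theorem cls_le_par {φ : CNF} (hφ : okF φ = true) :
    (cls φ).length ≤ 8 * nblk φ (ub φ).n ^ 3 * (ub φ).n := by
  have h1 := cls_le_cube hφ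
  have h2 := (cls_le φ).trans (length_le_csize hφ)
  have h3 := Nat.pow_le_pow_left (lt_nblk φ).le 3
  have h4 := (ug_spec φ).2
  generalize nblk φ (ub φ).n = a at *
  rw [ub_n] at *
  generalize (ug φ).n = g at *
  cases g with
  | zero =>
    rw [pow_zero, mul_one] at *
    omega
  | succ k =>
    have h5 := (h4 k k.lt_succ_self).le.trans h3
    have h6 : (a * 2 ^ (k + 1)) ^ 3 = 4 ^ k * (4 * (a ^ 3 * 2 ^ (k + 1))) := by
      rw [show 4 = 2 * 2 from rfl, mul_pow 2 2 k]
      ring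
    rw [h6] at h5
    have h7 := Nat.le_of_mul_le_mul_left h5 (by positivity)
    rw [mul_assoc]
    omega

theorem one_le_L (n v : ℕ) : 1 ≤ Real.logb 2 (2 + (v : ℝ) ^ 3 / n) := by
  have h := Real.logb_le_logb_of_le one_lt_two two_pos
    (le_add_of_nonneg_right (by positivity) : (2 : ℝ) ≤ 2 + (v : ℝ) ^ 3 / n)
  rwa [Real.logb_self_eq_one one_lt_two] at h

theorem g_le_L (φ : CNF) :
    ((ug φ).n : ℝ) + 1 ≤ 3 * Real.logb 2 (2 + (nvars φ : ℝ) ^ 3 / csize φ) := by
  have h1 := one_le_L (csize φ) (nvars φ)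
  have h2 := (ug_spec φ).2
  have h3 := nvars_le φ
  generalize (ug φ).n = g at *
  generalize nvars φ = v at *
  generalize csize φ = n at *
  cases g with
  | zero =>
    rw [Nat.cast_zero]
    linarith
  | succ k =>
    have h4 := h2 k k.lt_succ_self
    have h5 : 0 < n := by
      rcases Nat.eq_zero_or_pos n with rfl | h
      · rw [Nat.le_zero.1 h3] at h4
        simp at h4
      · exact h
    have h6 : (2 : ℝ) ^ k ≤ 2 + (v : ℝ) ^ 3 / n := by
      refine le_add_of_nonneg_of_le zero_le_two ((le_div_iff₀ (by exact_mod_cast h5)).2 ?_)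
      exact_mod_cast (Nat.mul_le_mul_right n (Nat.pow_le_pow_left (by norm_num) k)).trans h4.le
    have h7 := Real.logb_le_logb_of_le one_lt_two (by positivity) h6
    rw [Real.logb_pow, Real.logb_self_eq_one one_lt_two, mul_one] at h7
    push_cast
    linarith

theorem logb_nat_nonneg (n : ℕ) : 0 ≤ Real.logb 2 n :=
  div_nonneg (Real.log_natCast_nonneg n) (Real.log_nonneg one_le_two)

theorem cube_le {φ : CNF} (h : newR φ = true) (hv : 0 < nvars φ) :
    nblk φ (ub φ).n ^ 3 * (ub φ).n ≤ 8 * csize φ := by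
  have h1 := ub_le h
  have h2 := (ug_spec φ).1
  rw [show 4 = 2 * 2 from rfl, mul_pow, ← ub_n] at h2
  have h3 : 0 < (ub φ).n := by rw [ub_n]; positivity
  rw [nblk_eq] at *
  have h4 := Nat.div_mul_le_self (nvars φ) (ub φ).n
  generalize nvars φ / (ub φ).n = q at *
  generalize (ub φ).n = b at *
  generalize nvars φ = v at *
  have h5 : b ≤ v := by
    rcases Nat.eq_zero_or_pos q with rfl | hq
    · omega
    · exact (Nat.le_mul_of_pos_left b hq).trans h4
  have h6 : (q + 1) * b ≤ 2 * v := by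
    rw [add_mul]
    omega
  refine Nat.le_of_mul_le_mul_left ?_ (Nat.mul_pos h3 h3)
  calc b * b * ((q + 1) ^ 3 * b) = ((q + 1) * b) ^ 3 := by ring
    _ ≤ (2 * v) ^ 3 := Nat.pow_le_pow_left h6 3
    _ = 8 * v ^ 3 := by ring
    _ ≤ 8 * (b * b * csize φ) := Nat.mul_le_mul_left 8 h2
    _ = _ := by ring

theorem coins_new (C : ℕ) : ∃ D : ℝ, ∀ φ : CNF, newR φ = true → ∀ N : ℕ,
    N ≤ C * (nblk φ (ub φ).n ^ 3 * (ub φ).n * ((ug φ).n + 1)) →
    (Nat.size N : ℝ) ≤ Real.logb 2 (csize φ) +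
      Real.logb 2 (Real.logb 2 (2 + (nvars φ : ℝ) ^ 3 / csize φ)) + D := by
  refine ⟨Real.logb 2 ((24 * C : ℕ) : ℝ) + 1, fun φ h N hN => ?_⟩
  have h1 := one_le_L (csize φ) (nvars φ)
  have h2 := Real.logb_nonneg one_lt_two h1
  have h3 := logb_nat_nonneg (csize φ)
  have h4 := logb_nat_nonneg (24 * C)
  rcases Nat.eq_zero_or_pos N with rfl | h5
  · rw [Nat.size_zero, Nat.cast_zero]
    linarith
  have h6 := par_size h5
  have h7 : (0 : ℝ) < N := by exact_mod_cast h5
  rcases Nat.eq_zero_or_pos (nvars φ) with hv | hv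
  · have h8 : (ug φ).n = 0 := by
      by_contra h9
      have := (ug_spec φ).2 0 (Nat.pos_of_ne_zero h9)
      rw [hv] at this
      simp at this
    rw [nblk_eq, ub_n, hv, h8] at hN
    have h9 : (N : ℝ) ≤ ((24 * C : ℕ) : ℝ) := by
      exact_mod_cast (by simp at hN; omega : N ≤ 24 * C)
    have := Real.logb_le_logb_of_le one_lt_two h7 h9
    linarith
  have h8 := hN.trans (Nat.mul_le_mul_left C (Nat.mul_le_mul_right _ (cube_le h hv)))
  have h9 := g_le_L φ
  have h10 : (0 : ℝ) < csize φ := by exact_mod_cast hv.trans_le (nvars_le φ)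
  have h11 : (0 : ℝ) < ((24 * C : ℕ) : ℝ) := by
    rcases Nat.eq_zero_or_pos C with rfl | hC
    · omega
    · positivity
  generalize Real.logb 2 (2 + (nvars φ : ℝ) ^ 3 / csize φ) = L at *
  have h12 : (N : ℝ) ≤ ((24 * C : ℕ) : ℝ) * (csize φ * L) :=
    calc (N : ℝ) ≤ C * (8 * csize φ * ((ug φ).n + 1)) := by exact_mod_cast h8
      _ ≤ C * (8 * csize φ * (3 * L)) := by gcongr
      _ = _ := by push_cast; ring
  have h13 := Real.logb_le_logb_of_le one_lt_two h7 h12
  rw [Real.logb_mul h11.ne' (by positivity), Real.logb_mul h10.ne' (by positivity)] at h13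
  linarith

theorem coins_old : ∃ D : ℝ, ∀ φ : CNF, newR φ = false →
    Real.logb 2 (Real.logb 2 (csize φ)) ≤
      Real.logb 2 (Real.logb 2 (2 + (nvars φ : ℝ) ^ 3 / csize φ)) + D := by
  refine ⟨Real.logb 2 ((55305 : ℕ) : ℝ), fun φ h => ?_⟩
  have h1 := one_le_L (csize φ) (nvars φ)
  have h2 := Real.logb_nonneg one_lt_two h1
  have h3 := logb_nat_nonneg (csize φ)
  have h4 := logb_nat_nonneg 55305
  rcases h3.eq_or_lt with h5 | h5
  · rw [← h5, Real.logb_zero]
    exact add_nonneg h2 h4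
  have h6 := not_le.1 (mt (newR_iff φ).2 (by rw [h]; exact Bool.false_ne_true))
  have h7 : 0 < (ug φ).n := by
    refine Nat.pos_of_ne_zero fun h8 => ?_
    rw [h8, nblk_eq] at h6
    simp at h6
  have h8 := (ug_spec φ).2 0 h7
  have h9 := (lt_nblk φ).le.trans (Nat.mul_le_mul_right _ h6.le)
  rw [ub_n, ← pow_mul, ← pow_add] at h9
  have h10 := h8.le.trans (Nat.pow_le_pow_left h9 3)
  rw [pow_zero, one_mul, ← pow_mul] at h10
  have h11 : (0 : ℝ) < csize φ := by
    rcases Nat.eq_zero_or_pos (csize φ) with h12 | h12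
    · rw [h12] at h5
      simp at h5
    · exact_mod_cast h12
  have h12 := Real.logb_le_logb_of_le one_lt_two h11
    (by exact_mod_cast h10 : (csize φ : ℝ) ≤ 2 ^ ((96 * (64 * (ug φ).n) + (ug φ).n) * 3))
  rw [Real.logb_pow, Real.logb_self_eq_one one_lt_two, mul_one] at h12
  have h13 := g_le_L φ
  generalize Real.logb 2 (2 + (nvars φ : ℝ) ^ 3 / csize φ) = L at *
  have h14 : Real.logb 2 (csize φ) ≤ ((55305 : ℕ) : ℝ) * L := by
    push_cast at h12 ⊢
    linarith
  have h15 := Real.logb_le_logb_of_le one_lt_two h5 h14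
  rw [Real.logb_mul (by positivity) (by positivity)] at h15
  linarith

theorem ug_PT : PT ug := by
  unfold ug; fun_prop

theorem par_rng_PT {α : Type} [N487b59b3 α] {p : α → Un} {i : α → ℕ} (hp : PT p) (hi : PT i) :
    PT fun a => rng (p a) (i a) := by
  unfold rng; fun_prop

theorem ub_PT : PT ub :=
  PT.ulen' (par_rng_PT (by fun_prop) (pow2_PT ug_PT))

theorem ua_PT : PT ua :=
  PT.ulen' (par_rng_PT (by fun_prop) (nblk_PT PT.id' (PT.unN ub_PT)))

theorem newR_PT : PT newR :=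
  PT.decide_le (pow2_PT (PT.unMul (PT.const _) ug_PT)) (nblk_PT PT.id' (PT.unN ub_PT))

end Pool.Agent.Lib.MP_45faa6_lc.EN
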