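import Pool.Agent.Lib.MP_45faa6_lc.EN.Eng
import Pool.Agent.Lib.MP_45faa6_lc.EN.Par
import Pool.Agent.Lib.MP_45faa6_lc.EN.HostA
import Pool.Agent.Lib.MP_45faa6_lc.EN.Grow

/-!
The main theorem.
-/

set_option autoImplicit false
set_option linter.unusedSectionVars false

namespace Pool.Agent.Lib.MP_45faa6_lc.EN

open Pool.Agent.Lib.MP_45faa6_lc.NL

open Finset Pool.Agent.Lib.MP_acf5a6_lc Pool.Agent.Lib.Common.CookLevin

/-- The number of butterfly levels. -/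
def uh (φ : CNF) : Un := (ug φ).add ⟨1⟩

/-- The number of rows. -/
def ub2 (φ : CNF) : Un := (ub φ).mul ⟨2⟩

/-- The target size of the first two factors. -/
def uA (φ : CNF) : Un := (Un.mk 6).mul (ua φ)

/-- The target size of the third factor. -/
def uB (φ : CNF) : Un :=
  (((((Un.mk 2).mul (uh φ)).add ⟨1⟩).mul (ub2 φ)).mul ((Un.mk 9).mul (ua φ)))

/-- The bound for the size of the group. -/
def ucap (C : ℕ) (φ : CNF) : Un :=
  (Un.mk C).mul (((((ua φ).mul (ua φ)).mul (ua φ)).mul (ub φ)).mul (uh φ))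

theorem uh_n (φ : CNF) : (uh φ).n = (ug φ).n + 1 := rfl

theorem ub2_n (φ : CNF) : (ub2 φ).n = 2 ^ (uh φ).n := by
  rw [uh_n, pow_succ, ← ub_n]; rfl

theorem uA_n (φ : CNF) : (uA φ).n = 6 * nblk φ (ub φ).n := by rw [← ua_n]; rfl

theorem uB_n (φ : CNF) :
    (uB φ).n = (2 * (uh φ).n + 1) * 2 ^ (uh φ).n * (9 * nblk φ (ub φ).n) := by
  rw [← ua_n, ← ub2_n]; rfl

theorem ucap_n (C : ℕ) (φ : CNF) :
    (ucap C φ).n = C * (nblk φ (ub φ).n ^ 3 * (ub φ).n * ((ug φ).n + 1)) := by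
  rw [← ua_n, pow_three']; rfl

variable (F : Type) [Field F] [Fintype F] [DecidableEq F] [CharP F 2]

/-- The matrix size. -/
noncomputable def uM (φ : CNF) : Un := uMM F (uA φ) (uB φ) ((uh φ).add ⟨1⟩)

/-- The data of the verifier. -/
noncomputable def dat (C : ℕ) : Dat F (Mv F) where
  M := uM F
  cap := ucap C
  γ φ i := mvL (uM F φ) i
  lb φ u r := labC φ (ug φ) (ub φ) (nbL F (uM F φ) (ucap C φ)) (ccL F (uM F φ) (ucap C φ) 0)
    (ccL F (uM F φ) (ucap C φ) 1) (coL (uM F φ) (uh φ) (ub2 φ) (ucap C φ) u) r.val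

theorem size_aux {C q a b g x0 x1 x2 t : ℕ} (ha : 1 ≤ a) (hb : 1 ≤ b) (ht : t ≤ a)
    (h0 : x0 ≤ C * (6 * a + 1)) (h1 : x1 ≤ C * (6 * a + 1))
    (h2 : x2 ≤ C * ((2 * (g + 1) + 1) * (b * 2) * (9 * a) + t * q)) :
    x0 * x1 * x2 ≤ 49 * C ^ 3 * (54 + q) * (a ^ 3 * b * (g + 1)) := by
  have h3 : C * (6 * a + 1) ≤ C * (7 * a) := Nat.mul_le_mul_left _ (by omega)
  have h4 : a ≤ a * b * (g + 1) := by
    rw [mul_assoc]
    exact Nat.le_mul_of_pos_right _ (Nat.mul_pos hb g.succ_pos)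
  have h5 : (2 * (g + 1) + 1) * (b * 2) * (9 * a) ≤ 54 * (a * b * (g + 1)) :=
    calc _ ≤ 3 * (g + 1) * (b * 2) * (9 * a) :=
          Nat.mul_le_mul_right _ (Nat.mul_le_mul_right _ (by omega))
      _ = _ := by ring
  have h6 : x2 ≤ C * ((54 + q) * (a * b * (g + 1))) := by
    refine h2.trans (Nat.mul_le_mul_left _ ?_)
    rw [add_mul 54, mul_comm q]
    exact add_le_add h5 (Nat.mul_le_mul_right _ (ht.trans h4))
  calc _ ≤ C * (7 * a) * (C * (7 * a)) * (C * ((54 + q) * (a * b * (g + 1)))) :=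
        Nat.mul_le_mul (Nat.mul_le_mul (h0.trans h3) (h1.trans h3)) h6
    _ = _ := by ring

theorem dat_good (hQ : Fintype.card F = 2 ^ 96) :
    ∃ C : ℕ, ∀ φ, newR φ = true → (dat F C).Good φ := by
  obtain ⟨C, hC⟩ := uMM_spec F
  obtain ⟨q, hq⟩ : ∃ q, q = Fintype.card F ^ 128 := ⟨_, rfl⟩
  refine ⟨49 * C ^ 3 * (54 + q), fun φ hφ => ?_⟩
  obtain ⟨h0, h1, h2, h3⟩ := hC (uA φ) (uB φ) ((uh φ).add ⟨1⟩)
  have hcap : #(GS (uM F φ).n F) ≤ (ucap (49 * C ^ 3 * (54 + q)) φ).n := by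
    rw [ucap_n]
    refine card_GS_le.trans (size_aux (t := Fintype.card F ^ (64 * (ug φ).n)) (Nat.le_add_left _ _)
      (ub_n φ ▸ Nat.one_le_two_pow) (hQ ▸ (newR_iff φ).1 hφ) (uA_n φ ▸ (h0 0 two_pos).2)
      (uA_n φ ▸ (h0 1 one_lt_two).2) (h2.trans_eq ?_))
    rw [uB_n, uh_n, pow_succ, ← ub_n, hq, ← pow_add]
    rfl
  obtain ⟨g, pt, hg, H⟩ := host_spec (F := F) (by rw [hQ]; norm_num) (uM F φ) (uh φ) (ub2 φ) _
    (ub2_n φ) h3 (fun k hk => uA_n φ ▸ (h0 k hk).1) (uB_n φ ▸ h1) hcap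
  exact ⟨hcap, g, hg, fun hok => emb_of_host hok (ug φ) (ub φ) (ub_n φ) (ub_le hφ)
    (cls_le_par hok) H⟩

theorem dat_fast [N487b59b3 F] (C : ℕ) : (dat F C).Fast := by
  have h1 := ug_PT
  have h2 := ub_PT
  have h3 := ua_PT
  have h4 : PT uh := by unfold uh; fun_prop
  have h5 : PT ub2 := by unfold ub2; fun_prop
  have h6 : PT uA := by unfold uA; fun_prop
  have h7 : PT uB := by unfold uB; fun_prop
  have h8 : PT (ucap C) := by unfold ucap; fun_prop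
  have h9 : PT (uM F) := uMM_PT F h6 h7 (by fun_prop)
  refine ⟨h9, h8, fun i => mvL_PT i h9, fun r => ?_⟩
  have e : PT fun x : CNF × LM F => x.1 := by fun_prop
  have hM := PT.comp h9 e
  have hc := PT.comp h8 e
  exact labC_PT r.val e (PT.comp h1 e) (PT.comp h2 e) (nbL_PT hM hc) (ccL_PT 0 hM hc)
    (ccL_PT 1 hM hc) (coL_PT hM (PT.comp h4 e) (PT.comp h5 e) hc (by fun_prop))

variable {F}

theorem main_of_field [N487b59b3 F] (hF : Fintype.card F = 2 ^ (8 * 12)) :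
    ∃ β : ℝ, 0 < β ∧ β < 1 ∧ ∃ D E : ℝ, InPCP 1 β
      (fun φ : CNF => Real.logb 2 (csize φ) +
        Real.logb 2 (Real.logb 2 (2 + (nvars φ : ℝ) ^ 3 / csize φ)) + D)
      (fun _ => E) ThreeSAT ThreeSATᶜ := by
  obtain ⟨C, hC⟩ := dat_good F hF
  obtain ⟨β, b0, b1, E, H⟩ := engine hF (dat F C) (dat_fast F C)
  obtain ⟨β', -, b1', D', E', H'⟩ := NL.main
  obtain ⟨D1, hD1⟩ := coins_new C
  obtain ⟨D2, hD2⟩ := coins_old
  refine ⟨max β β', lt_max_of_lt_left b0, max_lt b1 b1', max D1 (D2 + D'), max E E',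
    combine newR_PT (H.mono hC fun φ hφ => ?_)
      ((PCPOn.of_InPCP H').mono (Set.subset_univ _) fun φ hφ => ?_)⟩
  · have h1 := hD1 φ hφ _ ((hC φ hφ).1.trans_eq (ucap_n C φ))
    have h2 := le_max_left D1 (D2 + D')
    linarith
  · have h1 := hD2 φ hφ
    have h2 := le_max_right D1 (D2 + D')
    linarith

theorem main : ∃ β : ℝ, 0 < β ∧ β < 1 ∧ ∃ D E : ℝ, InPCP 1 β
    (fun φ : CNF => Real.logb 2 (csize φ) +
      Real.logb 2 (Real.logb 2 (2 + (nvars φ : ℝ) ^ 3 / csize φ)) + D)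
    (fun _ => E) ThreeSAT ThreeSATᶜ := by
  classical
  have : Fact (Nat.Prime 2) := ⟨Nat.prime_two⟩
  let _ : Fintype (GaloisField 2 96) := Fintype.ofFinite _
  let _ : N487b59b3 (GaloisField 2 96) := N487b59b3.ofLeftInverse
    (fun x => (Fintype.equivFin (GaloisField 2 96) x).val)
    (fun n => if h : n < Fintype.card (GaloisField 2 96) then
      some ((Fintype.equivFin _).symm ⟨n, h⟩) else none) fun x => by simp
  refine main_of_field (F := GaloisField 2 96) ?_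
  rw [← Nat.card_eq_fintype_card, GaloisField.card 2 96 (by norm_num)]

end Pool.Agent.Lib.MP_45faa6_lc.EN
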