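import Pool.Agent.Lib.MP_45faa6_lc.EN.CCnt
import Pool.Agent.Lib.MP_45faa6_lc.EN.CNum
import Pool.Agent.Lib.MP_45faa6_lc.EN.CRank
import Pool.Agent.Lib.MP_45faa6_lc.EN.CRound
import Pool.Agent.Lib.MP_45faa6_lc.EN.CLab

/-!
The placement of a formula in a host.
-/

set_option autoImplicit false

namespace Pool.Agent.Lib.MP_45faa6_lc.EN

open Finset Pool.Agent.Lib.MP_45faa6_lc.NL Pool.Agent.Lib.MP_acf5a6_lc
  Pool.Agent.Lib.Common.CookLevin

/-- The blocks of the variables in place `r`. -/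
def cblk (φ : CNF) (b r : ℕ) : List ℕ := (cnum φ r).map fun x => x / b

/-- The chunks of the clauses. -/
def cchk (φ : CNF) (b : ℕ) : List ℕ := chunk (nblk φ b) b (cblk φ b 2)

/-- The positions of the bundles. -/
def cpos (φ : CNF) (h : Un) (b : ℕ) (nb : List (List ℕ)) (c0 c1 : List ℕ) : List (List ℕ) :=
  rounds h nb c0 c1 (cchk φ b) (cblk φ b 0) (cblk φ b 1)
    (slotn b (cchk φ b) (cblk φ b 0) (cblk φ b 1))

/-- The label of register `r` at the coordinates `x = (y, β, i, ρ)`; `b.n = 2 ^ g.n`. -/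
def labC (φ : CNF) (g b : Un) (nb : List (List ℕ)) (c0 c1 : List ℕ) (x : ℕ × ℕ × ℕ × ℕ) (r : ℕ) :
    ℕ :=
  (vars φ).getD (labN (g.add ⟨1⟩) (b.add b) b.n c0 c1 (cchk φ b.n)
    (cpos φ (g.add ⟨1⟩) b.n nb c0 c1) [cnum φ 0, cnum φ 1, cnum φ 2] x r) 0

theorem cblk_getD (φ : CNF) (b r c : ℕ) : (cblk φ b r).getD c 0 = (cnum φ r).getD c 0 / b := by
  rw [cblk, ← List.getD_map (f := fun x => x / b), Nat.zero_div]

theorem cblk_length (φ : CNF) (b r : ℕ) : (cblk φ b r).length = (cls φ).length := by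
  rw [cblk, List.length_map, cnum_length]

section
variable {α : Type} [N487b59b3 α]

@[fun_prop] theorem cblk_PT {φ : α → CNF} {b r : α → ℕ} (h : PT φ) (hb : PT b) (hr : PT r) :
    PT fun a => cblk (φ a) (b a) (r a) := by
  unfold cblk; fun_prop

@[fun_prop] theorem cchk_PT {φ : α → CNF} {b : α → ℕ} (h : PT φ) (hb : PT b) :
    PT fun a => cchk (φ a) (b a) := by
  unfold cchk; fun_prop

@[fun_prop] theorem cpos_PT {φ : α → CNF} {h : α → Un} {b : α → ℕ} {nb : α → List (List ℕ)}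
    {c0 c1 : α → List ℕ} (hφ : PT φ) (hh : PT h) (hb : PT b) (hn : PT nb) (h0 : PT c0)
    (h1 : PT c1) : PT fun a => cpos (φ a) (h a) (b a) (nb a) (c0 a) (c1 a) := by
  unfold cpos; fun_prop

end

theorem labC_PT {α : Type} [N487b59b3 α] {φ : α → CNF} {g b : α → Un} {nb : α → List (List ℕ)}
    {c0 c1 : α → List ℕ} {x : α → ℕ × ℕ × ℕ × ℕ} (r : ℕ) (hφ : PT φ) (hg : PT g) (hb : PT b)
    (hn : PT nb) (h0 : PT c0) (h1 : PT c1) (hx : PT x) :
    PT fun a => labC (φ a) (g a) (b a) (nb a) (c0 a) (c1 a) (x a) r := by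
  unfold labC; fun_prop

theorem good_of_host {Ω ι : Type} {mv : ι → Ω → Ω} {φ : CNF} (hφ : okF φ = true) (g b : Un)
    (hb : b.n = 2 ^ g.n) (hba : b.n ≤ nblk φ b.n)
    (hm : (cls φ).length ≤ 8 * nblk φ b.n ^ 3 * b.n) {nb : List (List ℕ)} {c0 c1 : List ℕ}
    {co : Ω → ℕ × ℕ × ℕ × ℕ} {pt : ℕ → ℕ → ℕ → ℕ → Ω}
    (H : Host mv (g.n + 1) (nblk φ b.n) (9 * nblk φ b.n) nb c0 c1 co pt) :
    (cchk φ b.n).length = (cls φ).length ∧ Good (g.add ⟨1⟩) (b.add b) (nblk φ b.n) b.n nb c0 c1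
      (cchk φ b.n) (cpos φ (g.add ⟨1⟩) b.n nb c0 c1) [cnum φ 0, cnum φ 1, cnum φ 2] := by
  have hb0 : 0 < b.n := hb ▸ Nat.two_pow_pos _
  have hl : ∀ r, ∀ c < (cls φ).length, (cblk φ b.n r).getD c 0 < nblk φ b.n := fun r c hc => by
    rw [cblk_getD]
    exact Nat.lt_succ_of_le (Nat.div_le_div_right (cnum_lt hφ r c hc).le)
  obtain ⟨k1, k2, k3, k4⟩ := chunk_spec (a := nblk φ b.n) (b2 := cblk φ b.n 2) (Nat.succ_pos _) hb0
    (by rw [cblk_length]; exact hl 2) (by rw [cblk_length]; exact hm)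
  rw [cblk_length] at k1 k2 k3 k4
  change (cchk φ b.n).length = _ at k1
  change ∀ c < _, (cchk φ b.n).getD c 0 < _ at k2
  change ∀ c < _, ∀ c' < _, (cchk φ b.n).getD c 0 = (cchk φ b.n).getD c' 0 → _ at k3
  change ∀ β, #{c ∈ range _ | (cchk φ b.n).getD c 0 = β} ≤ _ at k4
  obtain ⟨s1, s2, s3⟩ := slotn_spec (a := nblk φ b.n) (be := cchk φ b.n) (b0 := cblk φ b.n 0)
    (b1 := cblk φ b.n 1) hb0 (k1 ▸ hl 0) (k1 ▸ hl 1) (k1 ▸ k4) fun β p q => by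
      rw [k1]
      rcases ({c ∈ range (cls φ).length | (cchk φ b.n).getD c 0 = β ∧ (cblk φ b.n 0).getD c 0 = p ∧
        (cblk φ b.n 1).getD c 0 = q} : Finset ℕ).eq_empty_or_nonempty with e | ⟨d, hd⟩
      · rw [e]
        exact Nat.zero_le _
      refine (card_le_card fun c hc => ?_).trans (cnum_cell hφ hb0 p q ((cblk φ b.n 2).getD d 0))
      obtain ⟨p1, p2, p3, p4⟩ := mem_filter.1 hc
      obtain ⟨q1, q2, -⟩ := mem_filter.1 hd
      exact mem_filter.2 ⟨p1, (cblk_getD ..).symm.trans p3, (cblk_getD ..).symm.trans p4,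
        (cblk_getD ..).symm.trans (k3 c (mem_range.1 p1) d (mem_range.1 q1) (p2.trans q2.symm))⟩
  obtain ⟨r1, r2, r3, r4⟩ := rounds_spec (h := g.add ⟨1⟩) H.onto H.lt H.big H.grow (k1 ▸ hl 0)
    (k1 ▸ hl 1) (fun c hc => (s1 c hc).trans_le (by
      change _ ≤ 8 ^ (g.n + 1)
      rw [hb, ← pow_mul, mul_comm g.n, pow_mul, pow_succ' 8 g.n]
      exact Nat.mul_le_mul_left 8 (Nat.pow_le_pow_left (show 2 ^ 2 ≤ 8 by norm_num) _))) s2
  refine ⟨k1, ?_, by simp [Un.add, two_mul], hba, fun r c hc => ?_, k1 ▸ k2, fun c hc c' hc' e => ?_,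
    r1, fun c hc => ?_, r3, fun i hi c hc c' hc' e e' => ?_, fun β y => ?_⟩
  · simp only [Un.add, hb, pow_succ]
    ring
  · have := hl r.val c (k1 ▸ hc)
    rw [cblk_getD] at this
    fin_cases r <;> exact this
  · have := k3 c (k1 ▸ hc) c' (k1 ▸ hc') e
    rwa [cblk_getD, cblk_getD] at this
  · have := r2 c hc
    rwa [cblk_getD, cblk_getD] at this
  · have := r4 i hi c hc c' hc' e e'
    simp only [cblk_getD] at this
    exact ⟨this.1, this.2.1⟩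
  · rcases e : atL (cchk φ b.n) (cpos φ (g.add ⟨1⟩) b.n nb c0 c1) (g.add ⟨1⟩).n β y with _ | ⟨d, l⟩
    · exact Nat.zero_le _
    obtain ⟨q1, q2, q3⟩ := atL_mem.1 (e ▸ List.mem_cons_self : d ∈ atL _ _ _ β y)
    have hn : (atL (cchk φ b.n) (cpos φ (g.add ⟨1⟩) b.n nb c0 c1) (g.add ⟨1⟩).n β y).Nodup :=
      List.nodup_range.filter _
    rw [← e, ← List.toFinset_card_of_nodup hn]
    refine (card_le_card fun c hc => ?_).trans (s3 β ((cblk φ b.n 0).getD d 0)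
      ((cblk φ b.n 1).getD d 0) ((slotn b.n (cchk φ b.n) (cblk φ b.n 0) (cblk φ b.n 1)).getD d 0))
    obtain ⟨p1, p2, p3⟩ := atL_mem.1 (List.mem_toFinset.1 hc)
    have := r4 _ le_rfl c p1 d q1 (p2.trans q2.symm) (p3.trans q3.symm)
    rw [Nat.sub_self, pow_zero, Nat.div_one, Nat.div_one] at this
    exact mem_filter.2 ⟨mem_range.2 p1, p2, this⟩

theorem emb_of_host {Ω ι : Type} {mv : ι → Ω → Ω} {φ : CNF} (hφ : okF φ = true) (g b : Un)
    (hb : b.n = 2 ^ g.n) (hba : b.n ≤ nblk φ b.n)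
    (hm : (cls φ).length ≤ 8 * nblk φ b.n ^ 3 * b.n) {nb : List (List ℕ)} {c0 c1 : List ℕ}
    {co : Ω → ℕ × ℕ × ℕ × ℕ} {pt : ℕ → ℕ → ℕ → ℕ → Ω}
    (H : Host mv (g.n + 1) (nblk φ b.n) (9 * nblk φ b.n) nb c0 c1 co pt) :
    Emb φ mv fun u r => labC φ g b nb c0 c1 (co u) r.val := by
  obtain ⟨hl, G⟩ := good_of_host hφ g b hb hba hm H
  obtain ⟨home, hh⟩ := embN (h := g.add ⟨1⟩) H G
  refine ⟨fun x => home (idx (vars φ) x), fun c hc => ?_⟩
  obtain ⟨d, hd, e⟩ := cnum_cover c hc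
  obtain ⟨u, hu⟩ := hh d (hl ▸ hd)
  refine ⟨u, fun r => ?_⟩
  obtain ⟨u1, u2⟩ := hu r
  have e' : mget [cnum φ 0, cnum φ 1, cnum φ 2] r.val d 0 = idx (vars φ) (lit φ c r.val).1 := by
    rw [← e r]
    fin_cases r <;> rfl
  rw [e'] at u1 u2
  refine ⟨?_, Relation.EqvGen.mono (fun p q h => ?_) _ _ u2⟩
  swap
  · exact ⟨h.1, congrArg (fun k => (vars φ).getD k 0) h.2⟩
  simp only [labC, u1]
  exact cnum_nm (cnum_lit hφ hc _)

end Pool.Agent.Lib.MP_45faa6_lc.EN
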