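import Pool.Agent.Lib.MP_45faa6_lc.NL.PolyA
import Pool.Agent.Lib.MP_45faa6_lc.EN.Hat

/-!
The extension of a function on the group is computable in polynomial time.
-/

set_option autoImplicit false

namespace Pool.Agent.Lib.MP_45faa6_lc.EN

open Pool.Agent.Lib.MP_45faa6_lc.NL

open Pool.Agent.Lib.MP_acf5a6_lc Pool.Agent.Lib.Common.CookLevin

variable {F : Type} [Field F]

/-- A matrix as a list of rows. -/
def toL {M : ℕ} {β : Type} (u : Mat M β) : List (List β) := List.ofFn fun a => List.ofFn (u a)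

/-- The square root of a number below the unary bound. -/
def sqrtB (B : Un) (n : ℕ) : ℕ := ((urange B).filter fun k => decide ((k + 1) * (k + 1) ≤ n)).length

theorem sqrtB_eq (B : Un) {n : ℕ} (h : n ≤ B.n) : sqrtB B n = n.sqrt := by
  have h1 : ((urange B).filter fun k => decide ((k + 1) * (k + 1) ≤ n)) = List.range n.sqrt := by
    obtain ⟨d, hd⟩ := Nat.exists_eq_add_of_le ((Nat.sqrt_le_self n).trans h)
    rw [urange, hd, List.range_add, List.filter_append, List.filter_eq_self.2, List.filter_eq_nil_iff.2,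
      List.append_nil]
    · intro k hk
      obtain ⟨j, -, rfl⟩ := List.mem_map.1 hk
      rw [decide_eq_true_eq, ← Nat.le_sqrt]
      omega
    · intro k hk
      rw [decide_eq_true_eq, ← Nat.le_sqrt]
      exact List.mem_range.1 hk
  rw [sqrtB, h1, List.length_range]

/-- Unpairing below the unary bound. -/
def unpB (B : Un) (n : ℕ) : ℕ × ℕ :=
  if n - sqrtB B n * sqrtB B n < sqrtB B n then (n - sqrtB B n * sqrtB B n, sqrtB B n)
  else (sqrtB B n, n - sqrtB B n * sqrtB B n - sqrtB B n)

theorem unpB_eq (B : Un) {n : ℕ} (h : n ≤ B.n) : unpB B n = n.unpair := by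
  rw [unpB, sqrtB_eq B h, Nat.unpair]

/-- The block lengths. -/
def mmL (M : Un) (l : ℕ) : ℕ :=
  8 * if l = 0 then (unpB M (M.n / 24)).1 else if l = 1 then (unpB M (unpB M (M.n / 24)).2).1
    else (unpB M (unpB M (M.n / 24)).2).2

theorem mmL_eq (M : Un) (l : ℕ) : mmL M l = mm M.n l := by
  have h1 : M.n / 24 ≤ M.n := Nat.div_le_self _ _
  rw [mmL, mm, unpB_eq M h1, unpB_eq M ((Nat.unpair_right_le _).trans h1)]

/-- The pattern as a Boolean. -/
def patB (M : Un) (j n n' : ℕ) : Bool :=
  decide (n % 3 = n' % 3) && decide (n / 3 < mmL M (n % 3)) && decide (n' / 3 < mmL M (n % 3)) &&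
    (decide (n' / 3 = n / 3 + 1) || (decide (n % 3 = 1) && decide (n / 3 % 8 = 7) &&
      (decide (n' / 3 + 7 = n / 3) || decide (n' / 3 + 3 = n / 3))) ||
      (decide (n % 3 = 2) && decide (n / 3 % 4 = 3) && decide (n' / 3 + 3 = n / 3))) &&
    decide (n / 3 % 4 = j % 4)

theorem patB_iff (M : Un) (j n n' : ℕ) : patB M j n n' = true ↔ PatE M.n j n n' := by
  simp only [patB, PatE, Pat, mmL_eq, Bool.and_eq_true, Bool.or_eq_true, decide_eq_true_eq,
    and_assoc, or_assoc]

/-- The entries of `z` that add up to entry `(a, b)` of `opE i z`. -/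
def opI (M : Un) (i a b : ℕ) : List (ℕ × ℕ) :=
  if i < 4 then ((urange M).filter fun c => patB M i a c).map fun c => (c, b)
  else ((urange M).filter fun c => patB M i c b).map fun c => (a, c)

/-- Entry `(a, b)` of `opE i z` for a matrix of term lists. -/
def opS {β : Type} (M : Un) (i : ℕ) (z : List (List (List β))) (a b : ℕ) : List β :=
  (opI M i a b).flatMap fun p => mget z p.1 p.2 []

/-- Entrywise Frobenius. -/
def frL (e : ℕ) (M P : Un) (z : List (List (SP F))) : List (List (SP F)) :=
  mmk M fun a b => spPow P (mget z a b []) ⟨2 ^ e⟩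

/-- One step of the chain. -/
def chainStep (e : ℕ) (M P : Un) (z : List (List (SP F))) (k : ℕ) : List (List (SP F)) :=
  mmk M fun a b => spAdd P (mget (frL e M P z) a b [])
    (spMul P (spX F (k % 8) (2 ^ (8 * e)) ++ spX F (k % 8) 1) (opS M (k % 8) (frL e M P z) a b))

/-- The thickened matrix. -/
def chainL (e : ℕ) (M K P : Un) (u : List (List F)) : List (List (SP F)) :=
  (urange ((Un.mk 8).mul K)).foldl (chainStep e M P) (mmk M fun a b => spC (mget u a b 0))

/-- The indicator polynomial at the thickened matrix. -/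
def dlL (e : ℕ) (M P : Un) (Y : List (List (SP F))) (x0 : List (List F)) : SP F :=
  ((urange M).flatMap fun a => (urange M).map fun b => (a, b)).foldl (fun r p =>
    spMul P r (spAdd P (spC 1)
      (spPow P (mget Y p.1 p.2 [] ++ spC (mget x0 p.1 p.2 0)) ⟨2 ^ (8 * e) - 1⟩))) (spC 1)

/-- One factor of the weight. -/
def wL1 (a : Fin 8 → F) (P : Un) (j : Fin 8) : SP F :=
  spPow P (spC (a j) ++ spX F j.val 1) (ulen (urange P).tail)

/-- The weight in the right directions. -/
def wL (a : Fin 8 → F) (P : Un) : SP F :=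
  spMul P (wL1 a P 4) (spMul P (wL1 a P 5) (spMul P (wL1 a P 6) (wL1 a P 7)))

/-- The extension, from a list of pairs (matrix, value). -/
def hatL (e : ℕ) (a : Fin 8 → F) (M K P : Un) (S : List (List (List F) × F))
    (u : List (List F)) : F :=
  (S.map fun x => x.2 * spLam P (spMul P (wL a P) (dlL e M P (chainL e M K P u) x.1))).sum

theorem mget_toL {M : ℕ} {β : Type} (u : Mat M β) (a b : ℕ) (d : β) :
    mget (toL u) a b d = if h : a < M ∧ b < M then u ⟨a, h.1⟩ ⟨b, h.2⟩ else d := by
  by_cases ha : a < M <;> by_cases hb : b < M <;>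
    simp [mget, toL, List.getD_eq_getElem?_getD, ha, hb]

theorem toL_inj {M : ℕ} {β : Type} : Function.Injective (toL : Mat M β → List (List β)) := by
  intro u v h
  funext a
  exact List.ofFn_injective (congrFun (List.ofFn_injective h) a)

theorem mmk_eq_toL {β : Type} (M : Un) (f : ℕ → ℕ → β) :
    mmk M f = toL (M := M.n) fun a b => f a.val b.val := by
  refine List.ext_getElem (by simp [mmk, toL, urange]) fun a h1 h2 => ?_
  refine List.ext_getElem (by simp [mmk, toL, urange]) fun b h3 h4 => ?_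
  simp [mmk, toL, urange]

theorem sum_urange {B : Type} [AddCommMonoid B] (M : Un) (f : ℕ → B) :
    ((urange M).map f).sum = ∑ a : Fin M.n, f a.val := by
  rw [urange, ← Finset.sum_range f]
  rfl

theorem sum_filter_map {B β : Type} [AddCommMonoid B] (l : List β) (p : β → Bool) (f : β → B) :
    ((l.filter p).map f).sum = (l.map fun c => if p c = true then f c else 0).sum := by
  induction l with
  | nil => rfl
  | cons c l ih => by_cases h : p c = true <;> simp [h, ih]

/-- `φ` is any map to a ring. -/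
theorem opI_toL (M : Un) {β B : Type} [CommRing B] (φ : β → B) (d : β) (i : Fin 8)
    (z : Mat M.n β) (a b : Fin M.n) :
    ((opI M i.val a.val b.val).map fun p => φ (mget (toL z) p.1 p.2 d)).sum =
      opE i (z.map φ) a b := by
  unfold opI opE
  split_ifs with hi
  · rw [List.map_map, sum_filter_map, sum_urange, Matrix.mul_apply]
    refine Finset.sum_congr rfl fun c _ => ?_
    simp only [patB_iff, EE, Matrix.of_apply, Function.comp, mget_toL, ite_mul, one_mul, zero_mul,
      Matrix.map_apply, dif_pos (And.intro c.isLt b.isLt)]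
  · rw [List.map_map, sum_filter_map, sum_urange, Matrix.mul_apply]
    refine Finset.sum_congr rfl fun c _ => ?_
    simp only [patB_iff, EE, Matrix.of_apply, Function.comp, mget_toL, mul_ite, mul_one, mul_zero,
      Matrix.map_apply, dif_pos (And.intro a.isLt c.isLt)]

theorem spv_flatMap (n : ℕ) {β : Type} (l : List β) (f : β → SP F) :
    spv n (l.flatMap f) = (l.map fun p => spv n (f p)).sum := by
  induction l with
  | nil => exact spv_nil n
  | cons p l ih => rw [List.flatMap_cons, spv_append, ih, List.map_cons, List.sum_cons]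

/-- The matrix of values of a list of rows. -/
noncomputable def polyb_val (n M : ℕ) (z : List (List (SP F))) : Mat M (TA F n) :=
  Matrix.of fun a b => spv n (mget z a.val b.val [])

theorem polyb_val_toL (n M : ℕ) (z : Mat M (SP F)) : polyb_val n M (toL z) = z.map (spv n) := by
  ext a b
  simp [polyb_val, mget_toL]

theorem polyb_foldl_prod (n : ℕ) (P : Un) (hP : P.n = 2 ^ n) {ι : Type} (g : ι → SP F)
    (l : List ι) (r : SP F) : spv n (l.foldl (fun r p => spMul P r (g p)) r) =
      spv n r * (l.map fun p => spv n (g p)).prod := by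
  induction l generalizing r with
  | nil => simp
  | cons p l ih => rw [List.foldl_cons, ih, spv_mul n P hP, List.map_cons, List.prod_cons, mul_assoc]

theorem polyb_prod_pairs {B : Type} [CommMonoid B] (M : Un) (g : ℕ × ℕ → B) :
    (((urange M).flatMap fun a => (urange M).map fun b => (a, b)).map g).prod =
      ∏ ν : Fin M.n × Fin M.n, g (ν.1.val, ν.2.val) := by
  have h1 : ∀ (l : List ℕ) (f : ℕ → List (ℕ × ℕ)),
      ((l.flatMap f).map g).prod = (l.map fun a => ((f a).map g).prod).prod := by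
    intro l f
    induction l with
    | nil => simp
    | cons a l ih => simp [ih]
  have h2 : ∀ f : ℕ → B, ((urange M).map f).prod = ∏ a : Fin M.n, f a.val := fun f => by
    rw [urange, ← Finset.prod_range f]
    rfl
  rw [h1, h2, Fintype.prod_prod_type]
  refine Finset.prod_congr rfl fun a _ => ?_
  rw [List.map_map, h2]
  rfl

theorem polyb_wL (n : ℕ) (a : Fin 8 → F) (P : Un) (hP : P.n = 2 ^ n) :
    spv n (wL a P) = ∏ j ∈ RJ, (algebraMap F (TA F n) (a j) + eps F n j) ^ (2 ^ n - 1) := by
  have h1 : ∀ j : Fin 8, spv n (wL1 a P j) =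
      (algebraMap F (TA F n) (a j) + eps F n j) ^ (2 ^ n - 1) := fun j => by
    rw [wL1, spv_pow n P hP, spv_append, spv_C, spv_X, pow_one]
    simp [ulen, urange, hP]
  have h2 : RJ = {4, 5, 6, 7} := by decide
  rw [wL, spv_mul n P hP, spv_mul n P hP, spv_mul n P hP, h1, h1, h1, h1, h2,
    Finset.prod_insert (by decide), Finset.prod_insert (by decide), Finset.prod_pair (by decide)]

variable [CharP F 2]

theorem polyb_step (e n : ℕ) (M P : Un) (hP : P.n = 2 ^ n) (z : List (List (SP F))) (k : ℕ) :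
    polyb_val n M.n (chainStep e M P z k) = ee (Fin.ofNat 8 k) (be e (eps F n (Fin.ofNat 8 k)))
      ((polyb_val n M.n z).map (fr F (TA F n) e)) := by
  have h1 : ∀ w : Mat M.n (SP F), frL e M P z = toL w →
      w.map (spv n) = (polyb_val n M.n z).map (fr F (TA F n) e) := fun w hw => by
    rw [← polyb_val_toL, ← hw]
    ext a b
    simp only [polyb_val, frL, mget_mmk, Matrix.of_apply, Matrix.map_apply, fr_apply]
    rw [if_pos ⟨a.isLt, b.isLt⟩, spv_pow n P hP]
  obtain ⟨w, h2⟩ : ∃ w : Mat M.n (SP F), frL e M P z = toL w := ⟨_, mmk_eq_toL M _⟩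
  have h3 := h1 _ h2
  ext a b
  rw [← h3]
  simp only [polyb_val, chainStep, mget_mmk, Matrix.of_apply]
  rw [if_pos ⟨a.isLt, b.isLt⟩, spv_add n P hP, spv_mul n P hP, spv_append, h2]
  have h4 : k % 8 = (Fin.ofNat 8 k).val := rfl
  rw [h4, spv_X, spv_X, opS, spv_flatMap, opI_toL M (spv n) [], mget_toL, dif_pos ⟨a.isLt, b.isLt⟩,
    pow_one]
  rfl

/-- Sketch: `YY_chain`, induction over the list, `mmk_eq_toL`, `opI_toL` with `φ = spv n`. -/
theorem chainL_spec (e : ℕ) (M K P : Un) (hP : P.n = 2 ^ (e * (8 * K.n))) (u : Mat M.n F)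
    (a b : Fin M.n) : spv (e * (8 * K.n)) (mget (chainL e M K P (toL u)) a.val b.val []) =
      YY e K.n (eps F (e * (8 * K.n))) u 0 a b := by
  have h1 : ∀ (l : List ℕ) (z : List (List (SP F))),
      polyb_val (e * (8 * K.n)) M.n (l.foldl (chainStep e M P) z) =
        l.foldl (fun z k => ee (Fin.ofNat 8 k) (be e (eps F (e * (8 * K.n)) (Fin.ofNat 8 k)))
          (z.map (fr F (TA F (e * (8 * K.n))) e))) (polyb_val (e * (8 * K.n)) M.n z) := by
    intro l
    induction l with
    | nil => exact fun _ => rfl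
    | cons k l ih => intro z; rw [List.foldl_cons, List.foldl_cons, ih, polyb_step e _ M P hP]
  have h2 : polyb_val (e * (8 * K.n)) M.n (mmk M fun a b => spC (mget (toL u) a b 0)) =
      u.map (algebraMap F _) := by
    ext a b
    simp only [polyb_val, mget_mmk, Matrix.of_apply, Matrix.map_apply]
    rw [if_pos ⟨a.isLt, b.isLt⟩, spv_C, mget_toL, dif_pos ⟨a.isLt, b.isLt⟩]
  rw [YY_chain, ← h2, ← h1]
  rfl

theorem polyb_dlL (e : ℕ) (a : Fin 8 → F) (M K P : Un) (hP : P.n = 2 ^ (e * (8 * K.n)))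
    (u x0 : Mat M.n F) : spv (e * (8 * K.n)) (dlL e M P (chainL e M K P (toL u)) (toL x0)) =
      ev e K.n (eps F (e * (8 * K.n))) (u, a) (dl e x0) := by
  rw [dlL, polyb_foldl_prod _ P hP, polyb_prod_pairs, spv_C, map_one, one_mul, dl, map_prod]
  refine Finset.prod_congr rfl ?_
  rintro ⟨b, c⟩ _
  rw [spv_add _ P hP, spv_C, spv_pow _ P hP, spv_append, spv_C, chainL_spec e M K P hP, mget_toL,
    dif_pos ⟨b.isLt, c.isLt⟩, map_add, map_pow, map_add, ev_z, MvPolynomial.algHom_C, map_one,
    map_one]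

/-- Sketch: unfold `hat`, `EV`, `interp`, `dl`, `wP`; linearity of `lam`; `List.sum_toFinset`. -/
theorem hatL_spec [DecidableEq F] (e : ℕ) (a : Fin 8 → F) (M K P : Un)
    (hP : P.n = 2 ^ (e * (8 * K.n))) (l : List (Mat M.n F)) (hl : l.Nodup) (T : Mat M.n F → F)
    (u : Mat M.n F) :
    hatL e a M K P (l.map fun x => (toL x, T x)) (toL u) = hat e K.n RJ l.toFinset T (u, a) := by
  have h1 : ev e K.n (eps F (e * (8 * K.n))) ((u, a) : Pt M.n F) (wP M.n F (e * (8 * K.n)) RJ) =
      spv (e * (8 * K.n)) (wL a P) := by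
    rw [polyb_wL _ a P hP, wP, map_prod]
    exact Finset.prod_congr rfl fun j _ => by rw [map_pow, ev_w]
  rw [hat, EV, map_mul, h1, interp, map_sum, Finset.mul_sum, map_sum, List.sum_toFinset _ hl, hatL,
    List.map_map]
  congr 1
  refine List.map_congr_left fun x _ => ?_
  rw [Function.comp_apply, spLam_eq _ P hP, spv_mul _ P hP, polyb_dlL e a M K P hP,
    map_mul (ev e K.n _ _), MvPolynomial.algHom_C, ← Algebra.smul_def, mul_smul_comm, map_smul,
    smul_eq_mul]
  rfl

omit [CharP F 2]

variable [Finite F] [N487b59b3 F] {α : Type} [N487b59b3 α]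

omit [Finite F] [N487b59b3 F] in
@[fun_prop] theorem unpB_PT {B : α → Un} {n : α → ℕ} (hB : PT B) (hn : PT n) :
    PT fun x => unpB (B x) (n x) := by
  unfold unpB sqrtB; fun_prop

@[fun_prop] theorem mmL_PT {M : α → Un} {l : α → ℕ} (hM : PT M) (hl : PT l) :
    PT fun x => mmL (M x) (l x) := by
  unfold mmL; fun_prop

@[fun_prop] theorem patB_PT {M : α → Un} {j a b : α → ℕ} (hM : PT M) (hj : PT j) (ha : PT a)
    (hb : PT b) : PT fun x => patB (M x) (j x) (a x) (b x) := by
  unfold patB; fun_prop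

@[fun_prop] theorem opI_PT {M : α → Un} {i a b : α → ℕ} (hM : PT M) (hi : PT i) (ha : PT a)
    (hb : PT b) : PT fun x => opI (M x) (i x) (a x) (b x) := by
  unfold opI; fun_prop

omit [Finite F] [Field F] in
@[fun_prop] theorem opS_PT {β : Type} [N487b59b3 β] {M : α → Un} {i a b : α → ℕ}
    {z : α → List (List (List β))} (hM : PT M) (hi : PT i) (hz : PT z) (ha : PT a) (hb : PT b) :
    PT fun x => opS (M x) (i x) (z x) (a x) (b x) :=
  PT.flatMap (f := fun x (p : ℕ × ℕ) => mget (z x) p.1 p.2 []) (by fun_prop) (opI_PT hM hi ha hb)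

@[fun_prop] theorem polyb_frL_PT (e : ℕ) {M P : α → Un} {z : α → List (List (SP F))} (hM : PT M)
    (hP : PT P) (hz : PT z) : PT fun x => frL e (M x) (P x) (z x) :=
  mmk_PT (f := fun x a b => spPow (P x) (mget (z x) a b []) ⟨2 ^ e⟩) hM (by fun_prop)

@[fun_prop] theorem polyb_step_PT (e : ℕ) {M P : α → Un} {z : α → List (List (SP F))} {k : α → ℕ}
    (hM : PT M) (hP : PT P) (hz : PT z) (hk : PT k) :
    PT fun x => chainStep e (M x) (P x) (z x) (k x) :=
  mmk_PT (f := fun x a b => spAdd (P x) (mget (frL e (M x) (P x) (z x)) a b [])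
    (spMul (P x) (spX F (k x % 8) (2 ^ (8 * e)) ++ spX F (k x % 8) 1)
      (opS (M x) (k x % 8) (frL e (M x) (P x) (z x)) a b))) hM (by fun_prop)

@[fun_prop] theorem polyb_chainL_PT (e : ℕ) {M K P : α → Un} {u : α → List (List F)} (hM : PT M)
    (hK : PT K) (hP : PT P) (hu : PT u) : PT fun x => chainL e (M x) (K x) (P x) (u x) := by
  obtain ⟨q, hq⟩ := sz_spNorm (F := F)
  refine PT_foldlB (g := fun x z k => chainStep e (M x) (P x) z k) (by fun_prop)
    (mmk_PT (f := fun x a b => spC (mget (u x) a b 0)) hM (by fun_prop)) (by fun_prop)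
    ((PB_un hM).mul (((PB.const 2).mul ((PB_un hM).mul
      (((PB.const 2).mul ((PB_un hP).poly q)).add (PB.const 1)))).add (PB.const 1)))
    fun x z k => sz_mmk _ _ _ fun a b => hq _ _

@[fun_prop] theorem polyb_dlL_PT (e : ℕ) {M P : α → Un} {Y : α → List (List (SP F))}
    {x0 : α → List (List F)} (hM : PT M) (hP : PT P) (hY : PT Y) (hx : PT x0) :
    PT fun x => dlL e (M x) (P x) (Y x) (x0 x) := by
  obtain ⟨q, hq⟩ := sz_spNorm (F := F)
  exact PT_foldlB (g := fun x r (p : ℕ × ℕ) => spMul (P x) r (spAdd (P x) (spC 1)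
      (spPow (P x) (mget (Y x) p.1 p.2 [] ++ spC (mget (x0 x) p.1 p.2 0)) ⟨2 ^ (8 * e) - 1⟩)))
    (by fun_prop) (PT.const _) (by fun_prop) ((PB_un hP).poly q) fun x r p => hq _ _

@[fun_prop] theorem polyb_wL_PT (a : Fin 8 → F) {P : α → Un} (hP : PT P) :
    PT fun x => wL a (P x) := by
  unfold wL wL1; fun_prop

/-- Sketch: `mmk_PT`, `PT_foldlB` with `sz_mmk`, `sz_spNorm`, `PB_un`, `PB.poly`. -/
theorem hatL_PT (e : ℕ) (a : Fin 8 → F) {M K P : α → Un} {S : α → List (List (List F) × F)}
    {u : α → List (List F)} (hM : PT M) (hK : PT K) (hP : PT P) (hS : PT S) (hu : PT u) :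
    PT fun x => hatL e a (M x) (K x) (P x) (S x) (u x) := by
  unfold hatL; fun_prop

end Pool.Agent.Lib.MP_45faa6_lc.EN
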