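import Pool.Agent.Lib.MP_45faa6_lc.EN.ProdA

/-!
The group is the direct product of its block subgroups (block P, final statements; paper sec. 2).
-/

set_option autoImplicit false
set_option linter.unusedSectionVars false
set_option linter.unusedVariables false

namespace Pool.Agent.Lib.MP_45faa6_lc.EN

open Pool.Agent.Lib.MP_45faa6_lc.NL

open Finset Pool.Agent.Lib.MP_acf5a6_lc Pool.Agent.Lib.Common.CookLevin

variable {M : ℕ} {F : Type} [Field F] [CharP F 2]

theorem mat_two (x : Mat M F) : x + x = 0 := by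
  ext a b
  exact CharTwo.add_self_eq_zero _

theorem GE_clo {k : ℕ} {u : Mat M F} (hu : u ∈ GE M F k) :
    u ∈ clo F fun j => eB M F k * EE M F j := hu

theorem GG_clo {u : Mat M F} (hu : u ∈ GG M F) : u ∈ clo F (EE M F) := hu

theorem DD_mul_ET (j : ℕ) : DD M F j * ET M F = EE M F j := DD_ET j

theorem DD_comm (j : ℕ) : DD M F j * ET M F = ET M F * DD M F (j + 1) := DD_sh j

theorem prod_gen (j : ℕ) (s : F) : 1 + s • (DD M F j * ET M F) ∈ GG M F := by
  rw [DD_ET]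
  exact gen_mem j s

theorem pow_mem_GG (j k : ℕ) (hk : k % 2 = 1 ∨ k % 4 = 2) (s : F) :
    1 + s • (DD M F j * ET M F ^ k) ∈ GG M F :=
  cyc_ET.mem_pow prod_gen k (by omega) j s

theorem prod_nil {l d k : ℕ} {U : Mat M F} (h : ∀ u b a, col l (U * u) b a = col l u b (a + d))
    (hk : mm M l ≤ d * k) : eR M F l * U ^ k = 0 := by
  have h1 : ∀ k (u : Mat M F) b a, col l (U ^ k * u) b a = col l u b (a + d * k) := fun k => by
    induction k with
    | zero => intro u b a; rw [pow_zero, one_mul]; rfl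
    | succ k ih => intro u b a; rw [pow_succ', mul_assoc, h, ih, mul_add, mul_one, add_assoc,
        add_comm d]
  rw [← mul_one (U ^ k), ← mul_zero (eR M F l)]
  exact col_ext fun b a => by rw [h1, col_zero, col_out _ _ _ (by omega)]

theorem prod_frob (T : Mat M F) (p : ℕ) : (T + 1) ^ 2 ^ p = T ^ 2 ^ p + 1 ∧
    (T ^ 2 + T + 1) ^ 2 ^ p = (T ^ 2 ^ p) ^ 2 + T ^ 2 ^ p + 1 := by
  have h1 := congrArg (Polynomial.aeval T) (add_pow_two_pow F (Polynomial F) Polynomial.X 1 p)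
  have h2 := add_pow_two_pow F (Polynomial F) (Polynomial.X ^ 2 + Polynomial.X) 1 p
  rw [add_pow_two_pow F (Polynomial F) (Polynomial.X ^ 2), ← pow_mul, mul_comm, pow_mul] at h2
  have h3 := congrArg (Polynomial.aeval T) h2
  simp only [map_pow, map_add, map_one, Polynomial.aeval_X, one_pow] at h1 h3
  exact ⟨h1, h3⟩

theorem prod_rho {p : ℕ} (hp : M ≤ 2 ^ p) : eR M F 0 * (ET M F ^ 4) ^ 2 ^ p = 0 ∧
    eR M F 1 * (((ET M F ^ 4) ^ 2 ^ p) ^ 2 + (ET M F ^ 4) ^ 2 ^ p + 1) = 0 ∧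
    eR M F 2 * ((ET M F ^ 4) ^ 2 ^ p + 1) = 0 := by
  have h0 := mm_le M 0
  have h1 := mm_le M 1
  have h2 := mm_le M 2
  rw [← (prod_frob _ p).1, ← (prod_frob _ p).2]
  refine ⟨prod_nil (d := 4) (fun u b a => ?_) (by omega),
    prod_nil (d := 8) (fun u b a => ?_) (by omega), prod_nil (d := 4) (fun u b a => ?_) (by omega)⟩
  · rw [col_pow (by omega), shf_zero]
  · rw [← pow_mul, add_mul, add_mul, one_mul, col_add, col_add, col_pow (by omega),
      col_pow (by omega), shf_one, add_assoc, add_assoc, add_comm _ (col 1 u b a),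
      CharTwo.add_self_eq_zero, add_zero]
  · rw [add_mul, one_mul, col_add, col_pow (by omega), shf_two, add_assoc,
      CharTwo.add_self_eq_zero, add_zero]

theorem ET_pow_eR {p : ℕ} (hp : M ≤ 2 ^ p) : (ET M F ^ 4) ^ 2 ^ p * eR M F 2 = eR M F 2 := by
  have h := (prod_rho (F := F) hp).2.2
  rw [mul_add, mul_one, (((eR_ET 2).pow_right 4).pow_right _).eq] at h
  rw [← add_zero (_ * _), ← mat_two (eR M F 2), ← add_assoc, h, zero_add]

theorem prod_idem {r a b c : Mat M F} (ha : r * a = 0) (hb : r * (r * b) = r * b + b)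
    (hc : r * c = c) : (r ^ 3 + 1) * (a + b + c) = a ∧ (r ^ 2 + r) * (a + b + c) = b ∧
      (r ^ 3 + r ^ 2 + r) * (a + b + c) = c := by
  have h : ∀ x y z : Mat M F, x = y + (z + z) → x = y := fun x y z e => by
    rw [e, mat_two, add_zero]
  simp only [pow_succ, pow_zero, one_mul, add_mul, mul_add, mul_assoc, ha, hb, hc, mul_zero]
  exact ⟨h _ _ (r * b + b + c) (by abel), h _ _ (r * b + c) (by abel),
    h _ _ (r * b + r * b + b + c) (by abel)⟩

theorem prod_poly (k : ℕ) :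
    ∃ q : Polynomial F, eB M F k * ET M F = Polynomial.aeval (ET M F ^ 4) q * ET M F := by
  obtain ⟨h0, h1, h2⟩ := prod_rho (M := M) (F := F) (p := M) Nat.lt_two_pow_self.le
  have c : ∀ l, Commute (eR M F l) ((ET M F ^ 4) ^ 2 ^ M) := fun l =>
    ((eR_ET l).pow_right 4).pow_right _
  have e : eR M F 0 * ET M F + eR M F 1 * ET M F + eR M F 2 * ET M F = ET M F := by
    rw [← eB_ET_eq (by omega), ← eB_ET_eq (by omega), ← eB_ET_eq (by omega), ← add_mul, ← add_mul,
      eB_sum, eB_one, one_mul]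
  have k1 := prod_idem (r := (ET M F ^ 4) ^ 2 ^ M) (a := eR M F 0 * ET M F)
    (b := eR M F 1 * ET M F) (c := eR M F 2 * ET M F)
    (by rw [← mul_assoc, ← (c 0).eq, h0, zero_mul])
    (by
      rw [(((c 1).pow_right 2).add_right (c 1)).add_right (Commute.one_right _) |>.eq] at h1
      have h3 := congrArg (· * ET M F) h1
      simp only [zero_mul, add_mul, one_mul, sq, mul_assoc] at h3
      rw [add_assoc] at h3
      rw [← add_zero (_ * (_ * _)), ← mat_two, ← add_assoc, h3, zero_add])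
    (by rw [← mul_assoc, ET_pow_eR Nat.lt_two_pow_self.le])
  rw [e, ← eB_ET_eq (by omega), ← eB_ET_eq (by omega), ← eB_ET_eq (by omega)] at k1
  obtain ⟨a0, a1, a2⟩ := k1
  obtain ⟨r, hr⟩ : ∃ r : Polynomial F, Polynomial.aeval (ET M F ^ 4) r = (ET M F ^ 4) ^ 2 ^ M :=
    ⟨Polynomial.X ^ 2 ^ M, by simp⟩
  rw [← hr] at a0 a1 a2
  match k with
  | 0 => exact ⟨r ^ 3 + 1, by simpa using a0.symm⟩
  | 1 => exact ⟨r ^ 2 + r, by simpa using a1.symm⟩
  | 2 => exact ⟨r ^ 3 + r ^ 2 + r, by simpa using a2.symm⟩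
  | 3 => exact ⟨r ^ 3 + 1 + (r ^ 2 + r), by
      rw [← eB_sum, add_mul, ← a0, ← a1, ← add_mul]; simp⟩
  | k + 4 => exact ⟨0, by rw [map_zero, eB, diag_zero fun n => by omega]⟩

theorem GE_le (k : ℕ) : GE M F k ≤ GG M F := fun u hu => by
  obtain ⟨q, hq⟩ := prod_poly (M := M) (F := F) k
  refine clo_le (fun j s => ?_) (GE_clo hu)
  have h := (cyc_ET (M := M)).mem_poly DD_per prod_gen 1 (by omega) j (s • q)
  have c : Commute (Polynomial.aeval (ET M F) (q.comp (Polynomial.X ^ 4)))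
      (Polynomial.aeval (ET M F) (Polynomial.X : Polynomial F)) := (Commute.all _ _).map _
  simp only [Polynomial.aeval_comp, map_pow, Polynomial.aeval_X] at c
  rwa [pow_one, map_smul, mul_smul_comm, mul_smul_comm, ← c.eq, ← hq, ← mul_assoc,
    ← (eB_DD k j).eq, mul_assoc, DD_ET] at h

theorem pr_mul (k : ℕ) {u v : Mat M F} (hu : u ∈ GG M F) (hv : v ∈ GG M F) :
    pr k (u * v) = pr k u * pr k v :=
  prA_mul (eB_idem k) (clo_comm (eB_EE k) (GG_clo hu)) v

theorem pr_mem (k : ℕ) {u : Mat M F} (hu : u ∈ GG M F) : pr k u ∈ GE M F k :=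
  rel_EE.pr_mem (eB_idem k) (eB_EE k) (GG_clo hu)

theorem pr_self {k : ℕ} {u : Mat M F} (hu : u ∈ GE M F k) : pr k u = u :=
  prA_self (fun j => by rw [← mul_assoc, eB_idem]) (GE_clo hu)

theorem pr_disj {k k' : ℕ} (h : eB M F k * eB M F k' = 0) {u : Mat M F} (hu : u ∈ GE M F k') :
    pr k u = 1 :=
  prA_zero (fun j => by rw [← mul_assoc, h, zero_mul]) (GE_clo hu)

theorem eB_disj {k k' : ℕ} (h : (k, k') ∈ [(0, 1), (1, 0), (0, 2), (2, 0), (1, 2), (2, 1), (3, 2),
    (2, 3)]) : eB M F k * eB M F k' = 0 := by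
  simp only [List.mem_cons, Prod.mk.injEq, List.not_mem_nil, or_false] at h
  exact (diag_mul _ _).trans (diag_zero fun n => by omega)

theorem pr_split {u : Mat M F} (hu : u ∈ GG M F) : pr 3 u * pr 2 u = u := by
  refine (prA_add (eB_disj (by simp)) (clo_comm (eB_EE 2) (GG_clo hu))).trans ?_
  rw [eB_one, prA, sub_self, zero_add, one_mul]

theorem pr_split3 {u : Mat M F} (hu : u ∈ GG M F) : pr 0 u * pr 1 u = pr 3 u := by
  refine (prA_add (eB_disj (by simp)) (clo_comm (eB_EE 1) (GG_clo hu))).trans ?_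
  rw [eB_sum]
  rfl

theorem eB_sub {k : ℕ} (hk : k < 2) : eB M F k * eB M F 3 = eB M F k :=
  (diag_mul _ _).trans (diag_congr fun n => by omega)

theorem pr_pr3 {k : ℕ} (hk : k < 2) (u : Mat M F) : pr k (pr 3 u) = pr k u := by
  rw [pr, pr, pr, mul_add, mul_sub, mul_one, ← mul_assoc, eB_sub hk, sub_self, zero_add]

theorem GE_comm {k k' : ℕ} (h : eB M F k * eB M F k' = 0) {u v : Mat M F} (hu : u ∈ GE M F k)
    (hv : v ∈ GE M F k') : u * v = v * u := by
  have c : Commute (eB M F k) (eB M F k') := Matrix.commute_diagonal _ _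
  have h1 : ∀ a b i j, eB M F a * eB M F b = 0 →
      eB M F a * EE M F i * (eB M F b * EE M F j) = 0 := fun a b i j e => by
    rw [mul_assoc, ← mul_assoc (EE M F i), ← (eB_EE b i).eq, mul_assoc, ← mul_assoc, e, zero_mul]
  have h2 : ∀ j, Commute (eB M F k' * EE M F j) u := fun j => clo_comm
    (fun i => (h1 _ _ _ _ (c.eq ▸ h)).trans (h1 _ _ _ _ h).symm) (GE_clo hu)
  exact clo_comm (fun j => (h2 j).symm) (GE_clo hv)

theorem GE_inv {k : ℕ} {u : Mat M F} (hu : u ∈ GE M F k) : ∃ v ∈ GE M F k, v * u = 1 := by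
  obtain ⟨v, h1, h2, -⟩ := (rel_blk k).exists_inv (GE_clo hu)
  exact ⟨v, h1, h2⟩

theorem GE_le3 {k : ℕ} (hk : k < 2) : GE M F k ≤ GE M F 3 := fun u hu => by
  have c : Commute (eB M F k) (eB M F 3) := Matrix.commute_diagonal _ _
  have h : pr 3 u = u := prA_self (fun j => by rw [← mul_assoc, ← c.eq, eB_sub hk]) (GE_clo hu)
  exact h ▸ pr_mem 3 (GE_le k hu)

variable [Fintype F]

theorem card_GS_le : #(GS M F) ≤ #(fs (GE M F 0)) * #(fs (GE M F 1)) * #(fs (GE M F 2)) := by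
  rw [← card_product, ← card_product]
  refine card_le_card_of_injOn (fun u => ((pr 0 u, pr 1 u), pr 2 u)) (fun u hu => ?_)
    fun u hu v hv h => ?_
  · have h := (mem_GS u).1 hu
    simp only [coe_product, Set.mem_prod, mem_coe, mem_fs]
    exact ⟨⟨pr_mem 0 h, pr_mem 1 h⟩, pr_mem 2 h⟩
  · have h1 := (mem_GS u).1 hu
    have h2 := (mem_GS v).1 hv
    simp only [Prod.mk.injEq] at h
    rw [← pr_split h1, ← pr_split h2, ← pr_split3 h1, ← pr_split3 h2, h.1.1, h.1.2, h.2]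

theorem card_GE3 : #(fs (GE M F 0)) * #(fs (GE M F 1)) ≤ #(fs (GE M F 3)) := by
  rw [← card_product]
  have k : ∀ p ∈ fs (GE M F 0) ×ˢ fs (GE M F 1), pr 0 (p.1 * p.2) = p.1 ∧ pr 1 (p.1 * p.2) = p.2 :=
    fun p hp => by
      have h0 := (mem_fs _ _).1 (mem_product.1 hp).1
      have h1 := (mem_fs _ _).1 (mem_product.1 hp).2
      rw [pr_mul 0 (GE_le 0 h0) (GE_le 1 h1), pr_mul 1 (GE_le 0 h0) (GE_le 1 h1), pr_self h0,
        pr_self h1, pr_disj (eB_disj (by simp)) h0, pr_disj (eB_disj (by simp)) h1]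
      exact ⟨mul_one _, one_mul _⟩
  refine card_le_card_of_injOn (fun p => p.1 * p.2) (fun p hp => ?_) fun p hp q hq h => ?_
  · exact (mem_fs _ _).2 (mul_mem (GE_le3 (by omega) ((mem_fs _ _).1 (mem_product.1 hp).1))
      (GE_le3 (by omega) ((mem_fs _ _).1 (mem_product.1 hp).2)))
  · have h1 : p.1 * p.2 = q.1 * q.2 := h
    exact Prod.ext (by rw [← (k p hp).1, h1, (k q hq).1]) (by rw [← (k p hp).2, h1, (k q hq).2])

theorem card_GE_le (k : ℕ) : #(fs (GE M F k)) ≤ #(GS M F) :=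
  card_le_card fun u hu => (mem_GS u).2 (GE_le k ((mem_fs _ _).1 hu))

end Pool.Agent.Lib.MP_45faa6_lc.EN
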