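import Pool.Agent.Lib.MP_45faa6_lc.EN.Blk
import Pool.Agent.Lib.MP_45faa6_lc.EN.GFly
import Pool.Agent.Lib.MP_45faa6_lc.EN.GSh

/-!
Masks and columns of the blocks.
-/

set_option autoImplicit false

namespace Pool.Agent.Lib.MP_45faa6_lc.EN

open Pool.Agent.Lib.MP_45faa6_lc.NL

open Finset

variable {M : ℕ} {F : Type} [Field F]

theorem ET_apply (a b : Fin M) :
    ET M F a b = if PatE M (a.val / 3) a.val b.val then 1 else 0 := by
  have h : ∀ j, PatE M j a.val b.val ↔ PatE M (a.val / 3) a.val b.val ∧ a.val / 3 % 4 = j % 4 :=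
    fun j => by simp only [PatE, and_true, and_assoc]
  simp only [ET, EE, Matrix.add_apply, Matrix.of_apply, h 0, h 1, h 2, h 3]
  by_cases h1 : PatE M (a.val / 3) a.val b.val
  · simp only [h1, true_and, if_true]
    split_ifs <;> first | omega | simp
  · simp [h1]

theorem DD_ET (j : ℕ) : DD M F j * ET M F = EE M F j := by
  ext a b
  rw [DD, Matrix.diagonal_mul, ET_apply, EE, Matrix.of_apply, ite_mul, one_mul, zero_mul, ← ite_and]
  refine if_congr ?_ rfl rfl
  simp only [PatE, and_true]
  tauto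

theorem DD_sh (j : ℕ) : DD M F j * ET M F = ET M F * DD M F (j + 1) := by
  ext a b
  rw [DD, DD, Matrix.diagonal_mul, Matrix.mul_diagonal, ET_apply]
  by_cases h : PatE M (a.val / 3) a.val b.val
  · have := h.next
    rw [if_pos h, mul_one, one_mul]
    exact if_congr (by omega) rfl rfl
  · rw [if_neg h, mul_zero, zero_mul]

theorem diag_mul (p q : Fin M → Prop) [DecidablePred p] [DecidablePred q] :
    (Matrix.diagonal fun n => if p n then (1 : F) else 0) *
      (Matrix.diagonal fun n => if q n then 1 else 0) =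
        Matrix.diagonal fun n => if p n ∧ q n then 1 else 0 := by
  rw [Matrix.diagonal_mul_diagonal]
  congr 1
  funext n
  rw [ite_and, ite_mul, one_mul, zero_mul]

theorem diag_congr {p q : Fin M → Prop} [DecidablePred p] [DecidablePred q] (h : ∀ n, p n ↔ q n) :
    (Matrix.diagonal fun n => if p n then (1 : F) else 0) =
      Matrix.diagonal fun n => if q n then 1 else 0 :=
  congrArg _ (funext fun n => if_congr (h n) rfl rfl)

theorem diag_zero {p : Fin M → Prop} [DecidablePred p] (h : ∀ n, ¬p n) :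
    (Matrix.diagonal fun n => if p n then (1 : F) else 0) = 0 := by
  simp [h]

theorem DD_per (j : ℕ) : DD M F (j + 4) = DD M F j := diag_congr fun n => by omega

theorem cyc_ET : Cyc (DD M F) (ET M F) where
  idem j k h := (diag_mul _ _).trans (diag_congr fun n => by omega)
  orth j k h := (diag_mul _ _).trans (diag_zero fun n => by omega)
  sh := DD_sh

theorem diag_ET (f : ℕ → F) (g : Fin M → F) (h : ∀ n : Fin M, n.val / 3 < mm M (n.val % 3) →
    g n = f (n.val % 3)) : Commute (Matrix.diagonal g) (ET M F) := by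
  ext a b
  rw [Matrix.diagonal_mul, Matrix.mul_diagonal, ET_apply]
  split_ifs with h1
  · rw [h a h1.2.1, h b (h1.1 ▸ h1.2.2.1), h1.1, mul_comm]
  · rw [mul_zero, zero_mul]

theorem eB_ET (k : ℕ) : Commute (eB M F k) (ET M F) :=
  diag_ET (fun l => if l = k ∨ (k = 3 ∧ l < 2) then 1 else 0) _ fun _ _ => rfl

theorem eR_ET (l : ℕ) : Commute (eR M F l) (ET M F) :=
  diag_ET (fun k => if k = l then 1 else 0) _ fun _ h =>
    if_congr ⟨fun e => e.1, fun e => ⟨e, e ▸ h⟩⟩ rfl rfl

theorem eB_DD (k j : ℕ) : Commute (eB M F k) (DD M F j) := Matrix.commute_diagonal _ _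

theorem eR_DD (k j : ℕ) : Commute (eR M F k) (DD M F j) := Matrix.commute_diagonal _ _

theorem eB_EE (k j : ℕ) : Commute (eB M F k) (EE M F j) :=
  DD_ET (M := M) (F := F) j ▸ (eB_DD k j).mul_right (eB_ET k)

theorem eB_idem (k : ℕ) : eB M F k * eB M F k = eB M F k :=
  (diag_mul _ _).trans (diag_congr fun _ => and_self_iff)

theorem eR_idem (k : ℕ) : eR M F k * eR M F k = eR M F k :=
  (diag_mul _ _).trans (diag_congr fun _ => and_self_iff)

theorem eB_ET_eq {k : ℕ} (hk : k < 3) : eB M F k * ET M F = eR M F k * ET M F := by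
  ext a b
  rw [eB, eR, Matrix.diagonal_mul, Matrix.diagonal_mul, ET_apply]
  by_cases h : PatE M (a.val / 3) a.val b.val
  · congr 1
    exact if_congr ⟨fun e => ⟨by omega, (by omega : a.val % 3 = k) ▸ h.2.1⟩, fun e => Or.inl e.1⟩
      rfl rfl
  · rw [if_neg h, mul_zero, mul_zero]

theorem eB_sum : eB M F 0 + eB M F 1 = eB M F 3 := by
  rw [eB, eB, eB, Matrix.diagonal_add]
  congr 1
  funext n
  have : n.val % 3 = 0 ∨ n.val % 3 = 1 ∨ n.val % 3 = 2 := by omega
  rcases this with h | h | h <;> simp [h]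

theorem eB_one : eB M F 3 + eB M F 2 = 1 := by
  rw [eB, eB, Matrix.diagonal_add, ← Matrix.diagonal_one]
  congr 1
  funext n
  have : n.val % 3 = 0 ∨ n.val % 3 = 1 ∨ n.val % 3 = 2 := by omega
  rcases this with h | h | h <;> simp [h]

theorem rel_EE : Rel (EE M F) := ⟨EE_mod, EE_mul_EE⟩

theorem rel_blk (k : ℕ) : Rel fun j => eB M F k * EE M F j := rel_EE.blk (eB_EE k)

theorem GG_eq : GG M F = clo F (EE M F) := rfl

theorem GE_eq (k : ℕ) : GE M F k = clo F fun j => eB M F k * EE M F j := rfl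

/-- A column of `u` restricted to block `l`. -/
def col (l : ℕ) (u : Mat M F) (b : Fin M) (a : ℕ) : F :=
  if h : a < mm M l ∧ 3 * a + l < M then u ⟨3 * a + l, h.2⟩ b else 0

theorem col_out (l : ℕ) (u : Mat M F) (b : Fin M) {a : ℕ} (h : mm M l ≤ a) : col l u b a = 0 :=
  dif_neg (by omega)

theorem col_sum (l : ℕ) (u : Mat M F) (b : Fin M) (a : ℕ) :
    col l u b a = ∑ c : Fin M, if c.val = 3 * a + l ∧ a < mm M l then u c b else 0 := by
  unfold col
  split_ifs with h
  · rw [sum_eq_single ⟨3 * a + l, h.2⟩, if_pos ⟨rfl, h.1⟩]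
    · exact fun c _ hc => if_neg fun e => hc (Fin.ext e.1)
    · simp
  · exact (sum_eq_zero fun c _ => if_neg (by omega)).symm

theorem col_ET {l : ℕ} (hl : l < 3) (u : Mat M F) (b : Fin M) :
    col l (ET M F * u) b = shf l (col l u b) := by
  funext a
  obtain ⟨q, hq⟩ := mm_dvd M l
  rcases le_or_gt (mm M l) a with h | h
  · rw [col_out _ _ _ h, shf_blk l (q := q) (fun a ha => col_out _ _ _ (by omega)) a (by omega)]
  have h1 := mm_le M l
  have e1 : (3 * a + l) % 3 = l := by omega
  have e2 : (3 * a + l) / 3 = a := by omega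
  rw [col, dif_pos ⟨h, by omega⟩, Matrix.mul_apply, shf]
  simp only [ET_apply, col_sum, PatE, Pat, e1, e2, ite_mul, one_mul, zero_mul, and_true]
  split_ifs with h2 h3 h3
  · omega
  · rw [add_zero, ← sum_add_distrib, ← sum_add_distrib]
    refine sum_congr rfl fun c _ => ?_
    split_ifs <;> first | omega | simp
  · rw [zero_add, ← sum_add_distrib]
    refine sum_congr rfl fun c _ => ?_
    split_ifs <;> first | omega | simp
  · rw [add_zero, add_zero]
    exact sum_congr rfl fun c _ => if_congr (by omega) rfl rfl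

theorem col_pow {l : ℕ} (hl : l < 3) (k : ℕ) (u : Mat M F) (b : Fin M) :
    col l (ET M F ^ k * u) b = (shf l)^[k] (col l u b) := by
  induction k with
  | zero => rw [pow_zero, one_mul]; rfl
  | succ k ih => rw [pow_succ', mul_assoc, col_ET hl, ih, Function.iterate_succ_apply']

theorem col_add (l : ℕ) (u v : Mat M F) (b : Fin M) (a : ℕ) :
    col l (u + v) b a = col l u b a + col l v b a := by
  unfold col
  split_ifs <;> simp

theorem col_smul (l : ℕ) (s : F) (u : Mat M F) (b : Fin M) (a : ℕ) :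
    col l (s • u) b a = s * col l u b a := by
  unfold col
  split_ifs <;> simp

theorem col_zero (l : ℕ) (b : Fin M) (a : ℕ) : col l (0 : Mat M F) b a = 0 := by
  simp [col]

theorem col_DD {l : ℕ} (hl : l < 3) (j : ℕ) (u : Mat M F) (b : Fin M) (a : ℕ) :
    col l (DD M F j * u) b a = if a % 4 = j % 4 then col l u b a else 0 := by
  have e2 : (3 * a + l) / 3 = a := by omega
  unfold col
  split_ifs with h1 h2 h2 <;> simp [DD, Matrix.diagonal_mul, e2, h2]

theorem col_eB {l : ℕ} (hl : l < 3) (u : Mat M F) (b : Fin M) (a : ℕ) :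
    col l (eB M F l * u) b a = col l u b a := by
  have e1 : (3 * a + l) % 3 = l := by omega
  unfold col
  split_ifs with h1
  · simp only [eB, Matrix.diagonal_mul, e1, true_or, if_true, one_mul]
  · rfl

theorem col_eR {l : ℕ} (hl : l < 3) (u : Mat M F) (b : Fin M) (a : ℕ) :
    col l (eR M F l * u) b a = col l u b a := by
  have e1 : (3 * a + l) % 3 = l := by omega
  have e2 : (3 * a + l) / 3 = a := by omega
  unfold col
  split_ifs with h1
  · simp only [eR, Matrix.diagonal_mul, e1, e2, h1.1, and_self, if_true, one_mul]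
  · rfl

theorem col_one (l : ℕ) (b : Fin M) (a : ℕ) :
    col l (1 : Mat M F) b a = if a < mm M l ∧ b.val = 3 * a + l then 1 else 0 := by
  have := b.isLt
  unfold col
  split_ifs with h1 h2 h2
  · exact (congrArg _ (Fin.ext h2.2)).trans (Matrix.one_apply_eq _)
  · exact Matrix.one_apply_ne fun e => h2 ⟨h1.1, (congrArg Fin.val e).symm⟩
  · omega
  · rfl

theorem col_genE {l : ℕ} (hl : l < 3) (j : ℕ) (s : F) (u : Mat M F) (b : Fin M) (a : ℕ) :
    col l (genE M l j s * u) b a =
      col l u b a + if a % 4 = j % 4 then s * shf l (col l u b) a else 0 := by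
  rw [genE, add_mul, one_mul, smul_mul_assoc, col_add, col_smul, mul_assoc, col_eB hl, ← DD_ET,
    mul_assoc, col_DD hl, col_ET hl, mul_ite, mul_zero]

theorem col_ext {l : ℕ} {u v : Mat M F} (h : ∀ b a, col l u b a = col l v b a) :
    eR M F l * u = eR M F l * v := by
  ext n b
  rw [eR, Matrix.diagonal_mul, Matrix.diagonal_mul]
  split_ifs with h1
  · have h2 := h b (n.val / 3)
    have e : 3 * (n.val / 3) + l = n.val := by omega
    have l1 : 3 * (n.val / 3) + l < M := by omega
    rw [col, col, dif_pos ⟨h1.2, l1⟩, dif_pos ⟨h1.2, l1⟩] at h2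
    simp only [e] at h2
    rw [h2]
  · rw [zero_mul, zero_mul]

end Pool.Agent.Lib.MP_45faa6_lc.EN
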