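import Pool.Agent.Lib.MP_45faa6_lc.EN.Enum
import Pool.Agent.Lib.MP_45faa6_lc.EN.Acc

/-!
The verifier and its running time.
-/

set_option autoImplicit false
set_option linter.unusedSectionVars false

namespace Pool.Agent.Lib.MP_45faa6_lc.EN

open Pool.Agent.Lib.MP_45faa6_lc.NL

open Finset Pool.Agent.Lib.MP_acf5a6_lc Pool.Agent.Lib.Common.CookLevin

/-- Names of the proof bits stored at one group element. -/
abbrev Tag (F ι : Type) : Type := Word ι × (Fin 8 → F) × F

/-- Names of the queries. -/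
abbrev Qi (F ι : Type) : Type := ((Fin 8 × F) ⊕ ι) × Tag F ι

/-- The data of a verifier: matrix size, a bound for the group, the moves, the labels. -/
structure Dat (F ι : Type) where
  M : CNF → Un
  cap : CNF → Un
  γ : CNF → ι → LM F
  lb : CNF → LM F → Reg → ℕ

/-- The number of rounds. -/
def uK (M : Un) : Un := (usz (M.mul M).n).add ⟨1⟩

variable {F ι : Type} [Field F] [Fintype F] [DecidableEq F] [Fintype ι]

/-- The truncation order. -/
def uP (F : Type) [Fintype F] (M : Un) : Un := ⟨Fintype.card F ^ (uK M).n⟩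

theorem uK_spec {e : ℕ} (hF : Fintype.card F = 2 ^ (8 * e)) (he : 1 ≤ e) (M : Un) :
    M.n ^ 2 * 2 ^ (8 * e) ≤ 2 ^ (e * (8 * (uK M).n)) ∧ (uP F M).n = 2 ^ (e * (8 * (uK M).n)) := by
  constructor
  · have h1 := lt_two_pow_sz (M.n * M.n)
    change _ ≤ 2 ^ (e * (8 * (sz (M.n * M.n) + 1)))
    rw [sq]
    generalize sz (M.n * M.n) = s at h1 ⊢
    refine (Nat.mul_le_mul_right _ h1.le).trans ?_
    rw [← pow_add]
    exact Nat.pow_le_pow_right two_pos (by nlinarith)
  · change Fintype.card F ^ _ = _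
    rw [hF, ← pow_mul]
    congr 1
    ring

/-- A generator as a list matrix. -/
def genL (M : Un) (j : ℕ) (s : F) : LM F := addL M (oneL F M) (smulL M s (EL F M j))

/-- A root element applied to a list matrix. -/
def eeL (M : Un) (i : ℕ) (s : F) (u : LM F) : LM F :=
  if i < 4 then mulL M (genL M i s) u else mulL M u (genL M i s)

/-- At most `cap + 1` elements of the group. -/
noncomputable def enumG (F : Type) [Field F] [Fintype F] [DecidableEq F] (M cap : Un) :
    List (LM F) := enumS M ((univ : Finset (Fin 4 × F)).toList.map fun p => genL M p.1.val p.2) cap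

theorem genL_eq (M : Un) (j : ℕ) (s : F) : genL M j s = toL (gen M.n j s) := by
  rw [genL, oneL_eq, EL_eq, smulL_toL, addL_toL, gen]

theorem eeL_toL (M : Un) (i : Fin 8) (s : F) (u : Mat M.n F) :
    eeL M i.val s (toL u) = toL (ee i s u) := by
  unfold eeL
  split_ifs with h
  · rw [genL_eq, mulL_toL, ee_left i h]
  · rw [genL_eq, mulL_toL, ee_right i (not_lt.1 h)]

theorem enumG_full (M cap : Un) (hc : #(GS M.n F) ≤ cap.n) :
    ∃ l : List (Mat M.n F), enumG F M cap = l.map toL ∧ l.Nodup ∧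
      (∀ u, u ∈ l ↔ u ∈ GG M.n F) ∧ l.length = #(GS M.n F) := by
  have h := enumS_full M ((univ : Finset (Fin 4 × F)).toList.map fun p => gen M.n p.1.val p.2) cap
    (S := GG M.n F) (by
      rw [GG]
      congr 1
      ext γ
      simp only [Set.mem_range, Set.mem_setOf_eq, List.mem_map, mem_toList, mem_univ, true_and])
    (hc.trans (Nat.le_succ _))
  simpa only [enumG, genL_eq, List.map_map, Function.comp_def, fs_GG] using h

open Classical in
/-- A field element from its indicator bits. -/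
noncomputable def dec (β : F → Bool) : F := if h : ∃ x, β x = true then h.choose else 0

theorem dec_eq (v : F) : dec (fun x => decide (v = x)) = v := by
  have h : ∃ x, decide (v = x) = true := ⟨v, by simp⟩
  rw [dec, dif_pos h]
  exact (of_decide_eq_true h.choose_spec).symm

/-- The position of a bit. -/
noncomputable def posT (L : List (LM F)) (u : LM F) (t : Tag F ι) : ℕ :=
  idx L u * Fintype.card (Tag F ι) + (Fintype.equivFin (Tag F ι) t).val

/-- The neighbours read by the verifier. -/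
def nbr (M : Un) (γ : ι → LM F) (g : LM F) : (Fin 8 × F) ⊕ ι → LM F
  | .inl p => eeL M p.1.val p.2 g
  | .inr i => mulL M (γ i) g

/-- The position of a query. -/
noncomputable def posQ (M : Un) (γ : ι → LM F) (L : List (LM F)) (g : LM F) (i : Qi F ι) : ℕ :=
  posT L (nbr M γ g i.1) i.2

/-- Presence of a constraint, on lists. -/
def tL (φ : CNF) (M : Un) (γ : ι → LM F) (lb : LM F → Reg → ℕ) : Ty ι → LM F → Bool
  | .inl p, u => decide (lb u p.2.1 = lb (mulL M (γ p.1) u) p.2.2)
  | .inr σ, u => tC φ (lb u (cr 0)) (lb u (cr 1)) (lb u (cr 2)) σ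

/-- The values of the extended selectors. -/
def tv (e : ℕ) (φ : CNF) (M : Un) (γ : ι → LM F) (lb : LM F → Reg → ℕ) (L : List (LM F))
    (g : LM F) (y : Ty ι × (Fin 8 → F)) : F :=
  hatL e y.2 M (uK M) (uP F M) (L.map fun u => (u, bF F (tL φ M γ lb y.1 u))) g

/-- The constraint polynomial on the values read. -/
def ppv : Ty ι → ((Fin 8 × F) ⊕ ι → Reg → F) → F
  | .inl p, A => A (.inl (0, 0)) p.2.1 - A (.inr p.1) p.2.2
  | .inr σ, A => ∏ r : Fin 3, (A (.inl (0, 0)) (cr r) - bF F (σ r))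

/-- The finite check. -/
def Chek (e : ℕ) (t : Ty ι × (Fin 8 → F) → F) (v : Qi F ι → Bool) : Prop :=
  (∀ (wd : Word ι) (a : Fin 8 → F) (i : Fin 8), LD (128 * 2 ^ (7 * e)) fun c =>
    dec fun x => v (.inl (i, c ^ 2 ^ (e * (7 - i.val))), wd, a + Pi.single i c, x)) ∧
  ∀ τ (a : Fin 8 → F), (∀ i ∉ RJ, a i = 0) →
    t (τ, a) * ppv τ (fun p r => dec fun x => v (p, .inl r, a, x)) =
      ∑ j ∈ RJ, a j * dec fun x => v (.inl (0, 0), .inr (τ, j), a, x)

/-- The words written in a proof. -/
noncomputable def wrd {M : ℕ} (l : List (Mat M F)) (π : ℕ → Bool) (wd : Word ι) (x : Pt M F) : F :=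
  dec fun c => π (posT (l.map toL) (toL x.1) (wd, x.2, c))

theorem chek_iff [CharP F 2] {e : ℕ} (hF : Fintype.card F = 2 ^ (8 * e)) (he : 1 ≤ e) (φ : CNF)
    (M : Un) (γ : ι → Mat M.n F) (lb : LM F → Reg → ℕ) (l : List (Mat M.n F)) (hl : l.Nodup)
    (hl' : ∀ u, u ∈ l ↔ u ∈ GG M.n F) (u : Mat M.n F) (π : ℕ → Bool) :
    Chek e (tv e φ M (fun i => toL (γ i)) lb (l.map toL) (toL u))
      (fun i => π (posQ M (fun i => toL (γ i)) (l.map toL) (toL u) i)) ↔
      Acc e (uK M).n φ γ (fun v => lb (toL v)) (wrd l π) u := by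
  have hS : l.toFinset = GS M.n F := by
    ext v
    rw [List.mem_toFinset, hl', mem_GS]
  have h1 : ∀ (p : Fin 8 × F) (wd : Word ι) a,
      (dec fun x => π (posQ M (fun i => toL (γ i)) (l.map toL) (toL u) (.inl p, wd, a, x))) =
      wrd l π wd (ee p.1 p.2 u, a) := by
    intro p wd a
    simp only [posQ, nbr, wrd, eeL_toL]
  have h1' : ∀ (i : ι) (wd : Word ι) a,
      (dec fun x => π (posQ M (fun i => toL (γ i)) (l.map toL) (toL u) (.inr i, wd, a, x))) =
      wrd l π wd (γ i * u, a) := by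
    intro p wd a
    simp only [posQ, nbr, wrd, mulL_toL]
  have h2 : ∀ τ (v : Mat M.n F), tL φ M (fun i => toL (γ i)) lb τ (toL v) =
      TB φ γ (fun v => lb (toL v)) τ v := by
    rintro (p | σ) v
    · simp only [tL, TB, mulL_toL]
    · rfl
  have h3 : ∀ τ a, tv e φ M (fun i => toL (γ i)) lb (l.map toL) (toL u) (τ, a) =
      hat e (uK M).n RJ (GS M.n F) (fun v => bF F (TB φ γ (fun v => lb (toL v)) τ v)) (u, a) := by
    intro τ a
    rw [tv, List.map_map, ← hS, ← hatL_spec e a M _ _ (uK_spec hF he M).2 l hl]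
    congr 2
    funext v
    simp only [Function.comp, h2]
  have h4 : ∀ (τ : Ty ι) (a : Fin 8 → F), ppv τ (fun p r => dec fun x : F =>
      π (posQ M (fun i => toL (γ i)) (l.map toL) (toL u) (p, .inl r, a, x))) =
      pp γ τ (fun r => wrd l π (.inl r : Word ι)) (u, a) := by
    rintro (p | σ) a
    · simp only [ppv, pp, h1, h1', ee_zero]
    · simp only [ppv, pp, h1, ee_zero]
  simp only [Chek, Acc, h1, h3, h4, ee_zero, mv]

variable (V : Dat F ι)

/-- The list of group elements. -/
noncomputable def grp (φ : CNF) : List (LM F) := enumG F (V.M φ) (V.cap φ)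

/-- The group element selected by the coins. -/
noncomputable def gL (φ : CNF) (ρ : List Bool) : LM F := (grp V φ).getD (valM ρ) (oneL F (V.M φ))

/-- The number of coins. -/
noncomputable def vR (φ : CNF) : ℕ := Nat.size (grp V φ).length

/-- The queries. -/
noncomputable def vQ (y : CNF × List Bool) : List ℕ :=
  (List.ofFn (Fintype.equivFin (Qi F ι)).symm).map fun i =>
    posQ (V.M y.1) (V.γ y.1) (grp V y.1) (gL V y.1 y.2) i

open Classical in
/-- The decision. -/
noncomputable def vD (e : ℕ) (y : CNF × List Bool × List Bool) : Bool :=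
  okF y.1 && decide (Chek e (tv e y.1 (V.M y.1) (V.γ y.1) (V.lb y.1) (grp V y.1) (gL V y.1 y.2.1))
    fun i => y.2.2.getD (Fintype.equivFin (Qi F ι) i).val false)

theorem vQ_length (y : CNF × List Bool) : (vQ V y).length = Fintype.card (Qi F ι) := by
  simp [vQ]

theorem vQ_getD (y : CNF × List Bool) (π : ℕ → Bool) (i : Qi F ι) :
    ((vQ V y).map π).getD (Fintype.equivFin (Qi F ι) i).val false =
      π (posQ (V.M y.1) (V.γ y.1) (grp V y.1) (gL V y.1 y.2) i) := by
  rw [vQ, List.map_map, List.map_ofFn, List.getD_eq_getElem?_getD, List.getElem?_ofFn,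
    dif_pos (Fin.isLt _)]
  simp

variable [N487b59b3 F]

/-- The data are computable in polynomial time. -/
structure Dat.Fast : Prop where
  M : PT V.M
  cap : PT V.cap
  γ : ∀ i, PT fun φ => V.γ φ i
  lb : ∀ r, PT fun x : CNF × LM F => V.lb x.1 x.2 r

section

variable {α : Type} [N487b59b3 α]

@[fun_prop] theorem uK_PT {M : α → Un} (hM : PT M) : PT fun a => uK (M a) := by
  unfold uK; fun_prop

theorem uP_PT {M : α → Un} (h0 : PT M) : PT fun a => uP F (M a) := by
  have h1 : PT fun a => (M a).mul (M a) := by fun_prop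
  have key : ∀ i, (fun u : Un => u.mul ⟨Fintype.card F⟩)^[i] ⟨1⟩ = ⟨Fintype.card F ^ i⟩ := by
    intro i
    induction i with
    | zero => rfl
    | succ i ih => rw [Function.iterate_succ_apply', ih]; rfl
  refine (PT.iterP (g := fun (_ : α) (u : Un) => u.mul ⟨Fintype.card F⟩) (h := fun _ => ⟨1⟩)
    (by fun_prop) (by fun_prop) (uK_PT h0) ((PB.of_PT h1).poly
      ((Polynomial.C 4 * Polynomial.X + Polynomial.C 2) ^ Fintype.card F)) fun φ i hi => ?_).of_eq
    fun φ => by rw [key, sz_un]; rfl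
  rw [key, sz_un, sz_un, Polynomial.eval_pow, Polynomial.eval_add, Polynomial.eval_mul,
    Polynomial.eval_C, Polynomial.eval_X, Polynomial.eval_C]
  rw [sz_un] at hi
  change i ≤ sz ((M φ).mul (M φ)).n + 1 at hi
  rw [sz_nat] at hi
  generalize ((M φ).mul (M φ)).n = m at *
  have h2 : 2 ^ i ≤ 4 * m + 2 := by
    refine (Nat.pow_le_pow_right two_pos hi).trans ?_
    rcases Nat.eq_zero_or_pos m with rfl | hm
    · simp
    · have h3 := Nat.size_pos.2 hm
      have h4 := Nat.lt_size.1 (show Nat.size m - 1 < Nat.size m by omega)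
      rw [show Nat.size m + 1 = Nat.size m - 1 + 2 by omega, pow_add]
      omega
  calc Fintype.card F ^ i ≤ (2 ^ Fintype.card F) ^ i :=
        Nat.pow_le_pow_left Nat.lt_two_pow_self.le _
    _ = (2 ^ i) ^ Fintype.card F := by rw [← pow_mul, ← pow_mul, mul_comm]
    _ ≤ _ := Nat.pow_le_pow_left h2 _

@[fun_prop] theorem genL_PT {M : α → Un} (j : ℕ) (s : F) (hM : PT M) :
    PT fun a => genL (M a) j s := by
  unfold genL; fun_prop

theorem eeL_PT {M : α → Un} {u : α → LM F} (i : ℕ) (s : F) (hM : PT M) (hu : PT u) :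
    PT fun a => eeL (M a) i s (u a) := by
  unfold eeL
  split_ifs <;> fun_prop

theorem enumG_PT {M cap : α → Un} (hM : PT M) (hc : PT cap) : PT fun a => enumG F (M a) (cap a) :=
  enumS_PT hM (PT_listOf _ (fun (p : Fin 4 × F) x => genL (M x) p.1.val p.2) fun p => by
    fun_prop) hc

theorem bF_PT {b : α → Bool} (h : PT b) : PT fun a => bF F (b a) :=
  PT_case h (f := fun b _ => bF F b) fun _ => PT.const _

variable {V} (hV : V.Fast)

include hV

theorem grp_PT {φ : α → CNF} (h : PT φ) : PT fun a => grp V (φ a) :=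
  enumG_PT (PT.comp hV.M h) (PT.comp hV.cap h)

theorem gL_PT {φ : α → CNF} {ρ : α → List Bool} (h : PT φ) (hρ : PT ρ) :
    PT fun a => gL V (φ a) (ρ a) := by
  have h3 : PT fun a => valM (ρ a) :=
    (PT.ofBitsM hρ).of_eq fun a => by rw [foldl_bit]; simp
  exact listGetD_PT (grp_PT hV h) h3 (oneL_PT (PT.comp hV.M h))

theorem tL_PT (τ : Ty ι) {φ : α → CNF} {u : α → LM F} (h : PT φ) (hu : PT u) :
    PT fun a => tL (φ a) (V.M (φ a)) (V.γ (φ a)) (V.lb (φ a)) τ (u a) := by
  have hl : ∀ r {v : α → LM F}, PT v → PT fun a => V.lb (φ a) (v a) r := fun r v hv =>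
    PT.comp (hV.lb r) (PT.prodMk h hv)
  rcases τ with p | σ
  · exact PT.decide_eq (hl _ hu) (hl _ (mulL_PT (PT.comp hV.M h) (PT.comp (hV.γ _) h) hu))
  · exact tC_PT σ h (hl _ hu) (hl _ hu) (hl _ hu)

theorem tv_PT (e : ℕ) (y : Ty ι × (Fin 8 → F)) {φ : α → CNF} {g : α → LM F} (h : PT φ)
    (hg : PT g) : PT fun a =>
      tv e (φ a) (V.M (φ a)) (V.γ (φ a)) (V.lb (φ a)) (grp V (φ a)) (g a) y := by
  have hM := PT.comp hV.M h
  exact hatL_PT e y.2 hM (uK_PT hM) (uP_PT hM) (PT.map (f := fun a u =>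
    (u, bF F (tL (φ a) (V.M (φ a)) (V.γ (φ a)) (V.lb (φ a)) y.1 u)))
    (PT.prodMk (by fun_prop) (bF_PT (tL_PT hV y.1 (PT.comp h (by fun_prop)) (by fun_prop))))
    (grp_PT hV h)) hg

end

variable {V} (hV : V.Fast)

include hV

theorem vR_PT : PT fun φ => List.replicate (vR V φ) true := by
  have h1 := grp_PT hV (PT.id' (α := CNF))
  refine PT.of_eq (f := fun φ => (urange (usz (grp V φ).length)).map fun _ => true)
    (by fun_prop) fun φ => ?_
  simp [urange, usz, sz_nat, vR]

theorem vQ_PT : PT (vQ V) := by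
  refine PT_listOf _ _ fun i => ?_
  have h0 : PT fun y : CNF × List Bool => y.1 := by fun_prop
  have h2 := PT.comp hV.M h0
  have h3 : PT fun y : CNF × List Bool => gL V y.1 y.2 := gL_PT hV h0 (by fun_prop)
  refine PT.natAdd (PT.natMul (idx_PT (grp_PT hV h0) ?_) (PT.const _)) (PT.const _)
  rcases i with ⟨p | i, t⟩
  · exact eeL_PT _ _ h2 h3
  · exact mulL_PT h2 (PT.comp (hV.γ i) h0) h3

theorem vD_PT (e : ℕ) : PT (vD V e) := by
  classical
  have h0 : PT fun y : CNF × List Bool × List Bool => y.1 := by fun_prop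
  have h3 : PT fun y : CNF × List Bool × List Bool => gL V y.1 y.2.1 := gL_PT hV h0 (by fun_prop)
  have h4 := PT_finFun (β := F) (ι := (Ty ι × (Fin 8 → F)) ⊕ Qi F ι)
    (Sum.elim (fun t (y : CNF × List Bool × List Bool) =>
      tv e y.1 (V.M y.1) (V.γ y.1) (V.lb y.1) (grp V y.1) (gL V y.1 y.2.1) t)
      fun i y => bF F (y.2.2.getD (Fintype.equivFin (Qi F ι) i).val false))
    (by
      rintro (t | i)
      · exact tv_PT hV e t h0 h3
      · exact bF_PT (listGetD_PT (by fun_prop) (PT.const _) (PT.const _)))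
    fun v => decide (Chek e (fun t => v (.inl t)) fun i => decide (v (.inr i) = 1))
  refine (PT.and' (okF_PT h0) h4).of_eq fun y => ?_
  have hb : ∀ b (h : Decidable (bF F b = 1)), @decide (bF F b = 1) h = b := by
    intro b h
    cases b <;> simp [bF]
  simp only [vD, Sum.elim_inl, Sum.elim_inr]
  congr 1
  exact decide_eq_decide.2 (iff_of_eq (congrArg _ (funext fun i => hb _ _)))

end Pool.Agent.Lib.MP_45faa6_lc.EN
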